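import Mathlib
import Pool.Agent.H789R2.FR.Sph
set_option autoImplicit false

/-! Gaussian integration of polynomials on `ℝ^n` (adapted from `Pool.Agent.Helper442.DR`, dimension
three). -/

open MeasureTheory Set Metric Real
open scoped ENNReal

namespace Pool.Agent.W5h55.SH

open Pool.Agent.H789R2.FR (E)

variable {n : ℕ}

/-- evaluation of a polynomial at a point of `ℝ^n` -/
noncomputable def ev (q : MvPolynomial (Fin n) ℂ) (y : E n) : ℂ :=
  MvPolynomial.eval (fun i => ((y i : ℝ) : ℂ)) q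

theorem ev_bound (q : MvPolynomial (Fin n) ℂ) :
    ∃ C c : ℝ, 0 ≤ C ∧ 0 ≤ c ∧ ∀ y : E n, ‖ev q y‖ ≤ C * Real.exp (c * ‖y‖) := by
  induction q using MvPolynomial.induction_on with
  | C a =>
    refine ⟨‖a‖, 0, norm_nonneg _, le_rfl, fun y => ?_⟩
    simp [ev]
  | add p q hp hq =>
    obtain ⟨C1, c1, hC1, hc1, h1⟩ := hp
    obtain ⟨C2, c2, hC2, hc2, h2⟩ := hq
    refine ⟨C1 + C2, c1 + c2, by positivity, by positivity, fun y => ?_⟩
    have e : ev (p + q) y = ev p y + ev q y := by simp [ev]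
    rw [e]
    have hy := norm_nonneg y
    have m1 : Real.exp (c1 * ‖y‖) ≤ Real.exp ((c1 + c2) * ‖y‖) := Real.exp_le_exp.2 (by nlinarith)
    have m2 : Real.exp (c2 * ‖y‖) ≤ Real.exp ((c1 + c2) * ‖y‖) := Real.exp_le_exp.2 (by nlinarith)
    calc ‖ev p y + ev q y‖ ≤ ‖ev p y‖ + ‖ev q y‖ := norm_add_le _ _
      _ ≤ C1 * Real.exp ((c1 + c2) * ‖y‖) + C2 * Real.exp ((c1 + c2) * ‖y‖) :=
          add_le_add ((h1 y).trans (mul_le_mul_of_nonneg_left m1 hC1))
            ((h2 y).trans (mul_le_mul_of_nonneg_left m2 hC2))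
      _ = (C1 + C2) * Real.exp ((c1 + c2) * ‖y‖) := by ring
  | mul_X p j hp =>
    obtain ⟨C1, c1, hC1, hc1, h1⟩ := hp
    refine ⟨C1, c1 + 1, hC1, by positivity, fun y => ?_⟩
    have e : ev (p * MvPolynomial.X j) y = ev p y * ((y j : ℝ) : ℂ) := by simp [ev]
    rw [e, norm_mul, Complex.norm_real]
    have hj : ‖y j‖ ≤ Real.exp ‖y‖ := by
      have h3 : ‖y j‖ ≤ ‖y‖ := PiLp.norm_apply_le y j
      have h4 := Real.add_one_le_exp ‖y‖
      linarith
    calc ‖ev p y‖ * ‖y j‖ ≤ (C1 * Real.exp (c1 * ‖y‖)) * Real.exp ‖y‖ :=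
          mul_le_mul (h1 y) hj (norm_nonneg _) (by positivity)
      _ = C1 * Real.exp ((c1 + 1) * ‖y‖) := by
          rw [mul_assoc, ← Real.exp_add]
          congr 2
          ring

theorem ev_cont (q : MvPolynomial (Fin n) ℂ) : Continuous (ev q) := by
  unfold ev
  exact (MvPolynomial.continuous_eval q).comp
    (continuous_pi fun i => Complex.continuous_ofReal.comp (by fun_prop))

@[simp] theorem ev_mul (p q : MvPolynomial (Fin n) ℂ) (y : E n) :
    ev (p * q) y = ev p y * ev q y := by simp [ev]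

@[simp] theorem ev_add (p q : MvPolynomial (Fin n) ℂ) (y : E n) :
    ev (p + q) y = ev p y + ev q y := by simp [ev]

@[simp] theorem ev_C (c : ℂ) (y : E n) :
    ev (MvPolynomial.C c : MvPolynomial (Fin n) ℂ) y = c := by simp [ev]

@[simp] theorem ev_X (i : Fin n) (y : E n) :
    ev (MvPolynomial.X i : MvPolynomial (Fin n) ℂ) y = ((y i : ℝ) : ℂ) := by simp [ev]

@[simp] theorem ev_pow (p : MvPolynomial (Fin n) ℂ) (j : ℕ) (y : E n) :
    ev (p ^ j) y = ev p y ^ j := by simp [ev]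

theorem ev_sum {ι : Type*} (s : Finset ι) (f : ι → MvPolynomial (Fin n) ℂ) (y : E n) :
    ev (∑ i ∈ s, f i) y = ∑ i ∈ s, ev (f i) y := by
  unfold ev
  rw [map_sum]

theorem gauss_int : Integrable (fun y : E n => Real.exp (-‖y‖ ^ 2 / 2)) := by
  have h := (GaussianFourier.integrable_cexp_neg_mul_sq_norm_add (b := (1 / 2 : ℂ)) (by norm_num)
    0 (0 : E n)).norm
  refine h.congr (Filter.Eventually.of_forall (fun y => ?_))
  simp only [Complex.norm_exp]
  congr 1
  simp [← Complex.ofReal_pow]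
  ring

theorem ev_int (q : MvPolynomial (Fin n) ℂ) :
    Integrable (fun y : E n => ev q y * ((Real.exp (-‖y‖ ^ 2) : ℝ) : ℂ)) := by
  obtain ⟨C, c, hC, hc, h⟩ := ev_bound q
  refine Integrable.mono' (gauss_int.const_mul (C * Real.exp (c ^ 2 / 2))) ?_ ?_
  · refine Continuous.aestronglyMeasurable ?_
    exact (ev_cont q).mul (Complex.continuous_ofReal.comp (by fun_prop))
  · refine Filter.Eventually.of_forall (fun y => ?_)
    rw [norm_mul, Complex.norm_real, Real.norm_of_nonneg (Real.exp_pos _).le]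
    calc ‖ev q y‖ * Real.exp (-‖y‖ ^ 2) ≤ (C * Real.exp (c * ‖y‖)) * Real.exp (-‖y‖ ^ 2) :=
          mul_le_mul_of_nonneg_right (h y) (Real.exp_pos _).le
      _ = C * Real.exp (c * ‖y‖ + -‖y‖ ^ 2) := by rw [mul_assoc, ← Real.exp_add]
      _ ≤ C * Real.exp (c ^ 2 / 2 + -‖y‖ ^ 2 / 2) := by
          refine mul_le_mul_of_nonneg_left (Real.exp_le_exp.2 ?_) hC
          nlinarith [sq_nonneg (c - ‖y‖)]
      _ = C * Real.exp (c ^ 2 / 2) * Real.exp (-‖y‖ ^ 2 / 2) := by rw [Real.exp_add]; ring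

theorem ev_deriv (i : Fin n) (q : MvPolynomial (Fin n) ℂ) (x : E n) :
    HasLineDerivAt ℝ (ev q) (ev (MvPolynomial.pderiv i q) x) x
      (EuclideanSpace.single i (1 : ℝ)) := by
  induction q using MvPolynomial.induction_on with
  | C a =>
    have e : ev (MvPolynomial.C a : MvPolynomial (Fin n) ℂ) = fun _ => a := by
      funext y
      simp [ev]
    have e2 : ev (MvPolynomial.pderiv i (MvPolynomial.C a)) x = 0 := by simp [ev]
    rw [e, e2]
    exact hasDerivAt_const _ _
  | add p q hp hq =>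
    have e : ev (p + q) = fun y => ev p y + ev q y := by
      funext y
      simp [ev]
    have e2 : ev (MvPolynomial.pderiv i (p + q)) x =
        ev (MvPolynomial.pderiv i p) x + ev (MvPolynomial.pderiv i q) x := by simp [ev]
    rw [e, e2]
    exact HasDerivAt.add hp hq
  | mul_X p j hp =>
    have e : ev (p * MvPolynomial.X j) = fun y => ev p y * ((y j : ℝ) : ℂ) := by
      funext y
      simp [ev]
    have e2 : ev (MvPolynomial.pderiv i (p * MvPolynomial.X j)) x =
        ev (MvPolynomial.pderiv i p) x * ((x j : ℝ) : ℂ) + ev p x * (if j = i then 1 else 0) := by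
      by_cases hji : j = i
      · subst hji
        simp [ev]
        ring
      · simp [ev, MvPolynomial.pderiv_X_of_ne hji, hji]
        ring
    rw [e, e2]
    have hc : HasDerivAt (fun t : ℝ =>
        (((x + t • (EuclideanSpace.single i (1 : ℝ) : E n)) j : ℝ) : ℂ))
        (if j = i then 1 else 0) 0 := by
      have h1 : (fun t : ℝ => (((x + t • (EuclideanSpace.single i (1 : ℝ) : E n)) j : ℝ) : ℂ)) =
          fun t : ℝ => ((x j : ℝ) : ℂ) + (t : ℂ) * (if j = i then 1 else 0) := by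
        funext t
        by_cases hji : j = i
        · subst hji
          simp
        · simp [hji]
      rw [h1]
      have h2 : HasDerivAt (fun t : ℝ => (t : ℂ)) 1 0 := Complex.ofRealCLM.hasDerivAt
      have h3 := (h2.mul_const (if j = i then (1 : ℂ) else 0)).const_add ((x j : ℝ) : ℂ)
      simpa using h3
    have h4 := HasDerivAt.mul hp hc
    exact h4.congr_deriv (by simp)

theorem gauss_deriv (i : Fin n) (x : E n) :
    HasLineDerivAt ℝ (fun y : E n => ((Real.exp (-‖y‖ ^ 2) : ℝ) : ℂ))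
      (-2 * ((x i : ℝ) : ℂ) * ((Real.exp (-‖x‖ ^ 2) : ℝ) : ℂ)) x
      (EuclideanSpace.single i (1 : ℝ)) := by
  have h1 : (fun t : ℝ =>
      ((Real.exp (-‖x + t • (EuclideanSpace.single i (1 : ℝ) : E n)‖ ^ 2) : ℝ) : ℂ)) =
      fun t : ℝ => ((Real.exp (-(‖x‖ ^ 2 + 2 * (t * x i) + t ^ 2)) : ℝ) : ℂ) := by
    funext t
    congr 2
    rw [norm_add_sq_real, inner_smul_right, norm_smul, mul_pow]
    simp [EuclideanSpace.inner_single_right, PiLp.norm_single]
  unfold HasLineDerivAt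
  rw [h1]
  have h2 : HasDerivAt (fun t : ℝ => -(‖x‖ ^ 2 + 2 * (t * x i) + t ^ 2)) (-(2 * x i)) 0 := by
    have h3 : HasDerivAt (fun t : ℝ => t) 1 0 := hasDerivAt_id _
    have h4 := (((h3.mul_const (x i)).const_mul 2).const_add (‖x‖ ^ 2)).add (h3.pow 2)
    have h5 := h4.neg
    exact h5.congr_deriv (by simp)
  have h6 := h2.exp
  have h7 := h6.ofReal_comp
  refine h7.congr_deriv ?_
  simp only [zero_mul, mul_zero, add_zero, ne_eq, OfNat.ofNat_ne_zero, not_false_eq_true, zero_pow]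
  push_cast
  ring

theorem gauss_parts (i : Fin n) (q : MvPolynomial (Fin n) ℂ) :
    ∫ y : E n, ((y i : ℝ) : ℂ) * ev q y * ((Real.exp (-‖y‖ ^ 2) : ℝ) : ℂ) =
      (1 / 2) * ∫ y : E n, ev (MvPolynomial.pderiv i q) y * ((Real.exp (-‖y‖ ^ 2) : ℝ) : ℂ) := by
  have hXq : ∀ y : E n, ev (q * MvPolynomial.X i) y = ev q y * ((y i : ℝ) : ℂ) := by
    intro y
    simp [ev]
  have key := integral_bilinear_hasLineDerivAt_right_eq_neg_left_of_integrable
    (μ := (volume : Measure (E n))) (B := ContinuousLinearMap.mul ℝ ℂ)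
    (f := ev q) (f' := ev (MvPolynomial.pderiv i q))
    (g := fun y : E n => ((Real.exp (-‖y‖ ^ 2) : ℝ) : ℂ))
    (g' := fun y : E n => -2 * ((y i : ℝ) : ℂ) * ((Real.exp (-‖y‖ ^ 2) : ℝ) : ℂ))
    (v := EuclideanSpace.single i (1 : ℝ))
    (by simpa using ev_int (MvPolynomial.pderiv i q))
    (by
      have h := (ev_int (q * MvPolynomial.X i)).const_mul (-2)
      refine h.congr (Filter.Eventually.of_forall (fun y => ?_))
      simp only [hXq, ContinuousLinearMap.mul_apply']
      ring)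
    (by simpa using ev_int q)
    (fun x _ => ev_deriv i q x) (fun x _ => gauss_deriv i x)
  simp only [ContinuousLinearMap.mul_apply'] at key
  have e1 : ∫ y : E n, ev q y * (-2 * ((y i : ℝ) : ℂ) * ((Real.exp (-‖y‖ ^ 2) : ℝ) : ℂ)) =
      -2 * ∫ y : E n, ((y i : ℝ) : ℂ) * ev q y * ((Real.exp (-‖y‖ ^ 2) : ℝ) : ℂ) := by
    rw [← integral_const_mul]
    refine integral_congr_ae (Filter.Eventually.of_forall (fun y => ?_))
    ring
  rw [e1] at key
  linear_combination (-1 / 2 : ℂ) * key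

theorem ev_smul (d : ℕ) (q : MvPolynomial (Fin n) ℂ) (hq : q.IsHomogeneous d)
    (r : ℝ) (z : E n) : ev q (r • z) = ((r ^ d : ℝ) : ℂ) * ev q z := by
  unfold ev
  rw [MvPolynomial.eval_eq', MvPolynomial.eval_eq', Finset.mul_sum]
  refine Finset.sum_congr rfl fun m hm => ?_
  have h1 : ∑ i, m i = d := by
    have h2 := hq (MvPolynomial.mem_support_iff.1 hm)
    rw [← h2, Finsupp.weight_apply, Finsupp.sum_fintype]
    · simp
    · intro i; simp
  have h3 : ∏ i, ((((r • z : E n) i : ℝ) : ℂ)) ^ m i =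
      ((r ^ d : ℝ) : ℂ) * ∏ i, (((z i : ℝ) : ℂ)) ^ m i := by
    have h4 : ∀ i, ((((r • z : E n) i : ℝ) : ℂ)) ^ m i =
        (r : ℂ) ^ m i * (((z i : ℝ) : ℂ)) ^ m i := by
      intro i
      rw [PiLp.smul_apply, smul_eq_mul, Complex.ofReal_mul, mul_pow]
    rw [Finset.prod_congr rfl fun i _ => h4 i, Finset.prod_mul_distrib,
      Finset.prod_pow_eq_pow_sum, h1, Complex.ofReal_pow]
  rw [h3]
  ring

/-- integral over the sphere -/
noncomputable def Sq (q : MvPolynomial (Fin n) ℂ) : ℂ :=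
  ∫ x : sphere (0 : E n) 1, ev q (x : E n) ∂(volume : Measure (E n)).toSphere

theorem gauss_polar (hn : 1 ≤ n) (d : ℕ) (q : MvPolynomial (Fin n) ℂ) (hq : q.IsHomogeneous d) :
    ∫ y : E n, ev q y * ((Real.exp (-‖y‖ ^ 2) : ℝ) : ℂ) =
      ((∫ r in Ioi (0 : ℝ), r ^ (d + (n - 1)) * Real.exp (-r ^ 2) : ℝ) : ℂ) * Sq q := by
  haveI : Nonempty (Fin n) := ⟨⟨0, hn⟩⟩
  haveI : Nontrivial (E n) := inferInstance
  have hdim : Module.finrank ℝ (E n) - 1 = n - 1 := by simp
  calc ∫ y : E n, ev q y * ((Real.exp (-‖y‖ ^ 2) : ℝ) : ℂ)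
      = ∫ y : ({(0)}ᶜ : Set (E n)), ev q (y : E n) * ((Real.exp (-‖(y : E n)‖ ^ 2) : ℝ) : ℂ)
        ∂((volume : Measure (E n)).comap ((↑) : ({(0)}ᶜ : Set (E n)) → E n)) := by
        rw [integral_subtype_comap (measurableSet_singleton _).compl
          fun y : E n => ev q y * ((Real.exp (-‖y‖ ^ 2) : ℝ) : ℂ), restrict_compl_singleton]
    _ = ∫ p : sphere (0 : E n) 1 × Ioi (0 : ℝ), ev q (p.1 : E n) * (((p.2 : ℝ) ^ d *
        Real.exp (-(p.2 : ℝ) ^ 2) : ℝ) : ℂ)
        ∂((volume : Measure (E n)).toSphere.prod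
          (.volumeIoiPow (Module.finrank ℝ (E n) - 1))) := by
        rw [← (volume : Measure (E n)).measurePreserving_homeomorphUnitSphereProd.integral_comp
          (Homeomorph.measurableEmbedding _)]
        refine integral_congr_ae (Filter.Eventually.of_forall fun y => ?_)
        have hy : ‖(y : E n)‖ ≠ 0 := norm_ne_zero_iff.2 y.2
        have h1 : ((homeomorphUnitSphereProd (E n) y).1 : E n) = ‖(y : E n)‖⁻¹ • (y : E n) := by
          simp
        have h2 : ((homeomorphUnitSphereProd (E n) y).2 : ℝ) = ‖(y : E n)‖ := by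
          simp
        have h3 : ev q (y : E n) = ((‖(y : E n)‖ ^ d : ℝ) : ℂ) *
            ev q (‖(y : E n)‖⁻¹ • (y : E n)) := by
          rw [← ev_smul d q hq, smul_smul, mul_inv_cancel₀ hy, one_smul]
        simp only [h1, h2]
        rw [h3]
        push_cast
        ring
    _ = (∫ x : sphere (0 : E n) 1, ev q (x : E n) ∂(volume : Measure (E n)).toSphere) *
        ∫ r : Ioi (0 : ℝ), (((r : ℝ) ^ d * Real.exp (-(r : ℝ) ^ 2) : ℝ) : ℂ)
        ∂(.volumeIoiPow (Module.finrank ℝ (E n) - 1)) := by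
        exact integral_prod_mul (fun x : sphere (0 : E n) 1 => ev q (x : E n))
          (fun r : Ioi (0 : ℝ) => (((r : ℝ) ^ d * Real.exp (-(r : ℝ) ^ 2) : ℝ) : ℂ))
    _ = _ := by
        rw [mul_comm]
        congr 1
        refine (integral_complex_ofReal (f := fun r : Ioi (0 : ℝ) =>
          (r : ℝ) ^ d * Real.exp (-(r : ℝ) ^ 2))).trans ?_
        congr 1
        rw [hdim]
        simp only [Measure.volumeIoiPow, ENNReal.ofReal]
        rw [integral_withDensity_eq_integral_smul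
          ((measurable_subtype_coe.pow_const _).real_toNNReal),
          integral_subtype_comap measurableSet_Ioi fun a : ℝ => Real.toNNReal (a ^ (n - 1)) •
            (a ^ d * Real.exp (-a ^ 2))]
        refine setIntegral_congr_fun measurableSet_Ioi fun r hr => ?_
        simp only [NNReal.smul_def, smul_eq_mul]
        rw [Real.coe_toNNReal _ (pow_nonneg (le_of_lt hr) _)]
        ring

end Pool.Agent.W5h55.SH
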