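import Mathlib
import Pool.Agent.W5h55.SH.A1
set_option autoImplicit false

/-! The Funk-Hecke formula for powers. -/

open MeasureTheory Set Metric Real
open scoped ENNReal

namespace Pool.Agent.W5h55.SH

open Pool.Agent.H789R2.FR (E)

variable {n : ℕ}

theorem sphere_int (hn : 1 ≤ n) {f : sphere (0 : E n) 1 → ℂ} (hf : Continuous f) :
    Integrable f (volume : Measure (E n)).toSphere := by
  have hc : CompactSpace (sphere (0 : E n) 1) := isCompact_iff_compactSpace.mp (isCompact_sphere _ _)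
  exact hf.integrable_of_hasCompactSupport (HasCompactSupport.of_compactSpace _)

theorem ev_cont' (q : MvPolynomial (Fin n) ℂ) :
    Continuous fun x : sphere (0 : E n) 1 => ev q (x : E n) :=
  (ev_cont q).comp continuous_subtype_val

theorem Sq_add (hn : 1 ≤ n) (p q : MvPolynomial (Fin n) ℂ) : Sq (p + q) = Sq p + Sq q := by
  unfold Sq
  rw [← integral_add (sphere_int hn (ev_cont' p)) (sphere_int hn (ev_cont' q))]
  simp

theorem Sq_C (c : ℂ) (q : MvPolynomial (Fin n) ℂ) : Sq (MvPolynomial.C c * q) = c * Sq q := by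
  unfold Sq
  rw [← integral_const_mul]
  simp

theorem Sq_zero : Sq (0 : MvPolynomial (Fin n) ℂ) = 0 := by
  have := Sq_C 0 (0 : MvPolynomial (Fin n) ℂ)
  simpa using this

theorem Sq_sum (hn : 1 ≤ n) {ι : Type*} (s : Finset ι) (f : ι → MvPolynomial (Fin n) ℂ) :
    Sq (∑ i ∈ s, f i) = ∑ i ∈ s, Sq (f i) := by
  classical
  induction s using Finset.induction_on with
  | empty => simp [Sq_zero]
  | insert a s ha ih => rw [Finset.sum_insert ha, Finset.sum_insert ha, Sq_add hn, ih]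

/-- radial moments -/
noncomputable def Kd (m : ℕ) : ℝ := ∫ r in Ioi (0 : ℝ), r ^ m * Real.exp (-r ^ 2)

theorem Kd_eq (m : ℕ) : Kd m = 1 / 2 * Real.Gamma (((m : ℝ) + 1) / 2) := by
  have h1 := integral_rpow_mul_exp_neg_rpow (p := 2) (q := (m : ℝ)) (by norm_num)
    (by have : (0:ℝ) ≤ (m : ℝ) := Nat.cast_nonneg _
        linarith)
  unfold Kd
  rw [← h1]
  refine setIntegral_congr_fun measurableSet_Ioi (fun x _ => ?_)
  simp only [Real.rpow_natCast]
  rw [← Real.rpow_natCast x 2]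
  norm_num

theorem Kd_pos (m : ℕ) : 0 < Kd m := by
  rw [Kd_eq]
  have := Real.Gamma_pos_of_pos (show (0:ℝ) < ((m : ℝ) + 1) / 2 by positivity)
  positivity

theorem Kd_rec (m : ℕ) : Kd (m + 2) = ((m : ℝ) + 1) / 2 * Kd m := by
  rw [Kd_eq, Kd_eq]
  have : (((m + 2 : ℕ) : ℝ) + 1) / 2 = ((m : ℝ) + 1) / 2 + 1 := by push_cast; ring
  rw [this, Real.Gamma_add_one (by positivity)]
  ring

/-- **integration by parts on the sphere** -/
theorem Sq_X (hn : 1 ≤ n) (d : ℕ) (q : MvPolynomial (Fin n) ℂ) (hq : q.IsHomogeneous d)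
    (i : Fin n) : ((d : ℂ) + n - 1) * Sq (MvPolynomial.X i * q) = Sq (MvPolynomial.pderiv i q) := by
  have h1 := gauss_parts i q
  have h2 : ∫ y : E n, ((y i : ℝ) : ℂ) * ev q y * ((Real.exp (-‖y‖ ^ 2) : ℝ) : ℂ) =
      ((Kd (d + 1 + (n - 1)) : ℝ) : ℂ) * Sq (MvPolynomial.X i * q) := by
    have h3 := gauss_polar hn (d + 1) (MvPolynomial.X i * q) (by
      rw [add_comm]; exact (MvPolynomial.isHomogeneous_X ℂ i).mul hq)
    rw [show Kd (d + 1 + (n - 1)) =
      ∫ r in Ioi (0 : ℝ), r ^ (d + 1 + (n - 1)) * Real.exp (-r ^ 2) from rfl, ← h3]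
    simp
  rw [h2] at h1
  rcases Nat.eq_zero_or_pos d with hd | hd
  · subst hd
    have h4 : MvPolynomial.pderiv i q = 0 := by
      rw [MvPolynomial.totalDegree_eq_zero_iff_eq_C.1 (Nat.le_zero.1 hq.totalDegree_le)]
      simp
    rw [h4] at h1 ⊢
    have h5 : Sq (MvPolynomial.X i * q) = 0 := by
      have h6 : ∫ y : E n, ev (0 : MvPolynomial (Fin n) ℂ) y *
        ((Real.exp (-‖y‖ ^ 2) : ℝ) : ℂ) = 0 := by
        simp [ev]
      rw [h6, mul_zero] at h1
      rcases mul_eq_zero.1 h1 with h7 | h7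
      · exact absurd (Complex.ofReal_eq_zero.1 h7) (Kd_pos _).ne'
      · exact h7
    rw [h5, Sq_zero, mul_zero]
  · obtain ⟨e, rfl⟩ : ∃ e, d = e + 1 := ⟨d - 1, by omega⟩
    have h3 := gauss_polar hn e (MvPolynomial.pderiv i q) hq.pderiv
    rw [show (∫ r in Ioi (0 : ℝ), r ^ (e + (n - 1)) * Real.exp (-r ^ 2)) = Kd (e + (n - 1))
      from rfl] at h3
    rw [h3, show e + 1 + 1 + (n - 1) = (e + (n - 1)) + 2 by omega, Kd_rec] at h1
    have h4 : ((Kd (e + (n - 1)) : ℝ) : ℂ) ≠ 0 := by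
      exact_mod_cast (Kd_pos _).ne'
    have h5 : ((e + (n - 1) : ℕ) : ℂ) = (e : ℂ) + n - 1 := by
      push_cast [Nat.cast_sub hn]
      ring
    apply mul_left_cancel₀ h4
    push_cast at h1 h5 ⊢
    rw [Nat.cast_sub hn] at h1
    push_cast at h1
    linear_combination 2 * h1

/-- the linear form `⟨x, ·⟩` -/
noncomputable def Lx (x : E n) : MvPolynomial (Fin n) ℂ :=
  ∑ i, MvPolynomial.C ((x i : ℝ) : ℂ) * MvPolynomial.X i

/-- the derivative in the direction `x` -/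
noncomputable def Dx (x : E n) :
    Derivation ℂ (MvPolynomial (Fin n) ℂ) (MvPolynomial (Fin n) ℂ) :=
  ∑ i, ((x i : ℝ) : ℂ) • MvPolynomial.pderiv i

theorem Dx_apply (x : E n) (q : MvPolynomial (Fin n) ℂ) :
    Dx x q = ∑ i, MvPolynomial.C ((x i : ℝ) : ℂ) * MvPolynomial.pderiv i q := by
  unfold Dx
  rw [← Derivation.coeFnAddMonoidHom_apply, map_sum, Finset.sum_apply]
  refine Finset.sum_congr rfl fun i _ => ?_
  rw [Derivation.coeFnAddMonoidHom_apply, Derivation.smul_apply, MvPolynomial.smul_eq_C_mul]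

theorem Lx_hom (x : E n) : (Lx x).IsHomogeneous 1 := by
  unfold Lx
  refine MvPolynomial.IsHomogeneous.sum _ _ _ fun i _ => ?_
  have := (MvPolynomial.isHomogeneous_C (Fin n) ((x i : ℝ) : ℂ)).mul
    (MvPolynomial.isHomogeneous_X ℂ i)
  simpa using this

theorem Dx_hom (x : E n) {k : ℕ} {q : MvPolynomial (Fin n) ℂ} (hq : q.IsHomogeneous k) :
    (Dx x q).IsHomogeneous (k - 1) := by
  rw [Dx_apply]
  refine MvPolynomial.IsHomogeneous.sum _ _ _ fun i _ => ?_
  have := (MvPolynomial.isHomogeneous_C (Fin n) ((x i : ℝ) : ℂ)).mul (hq.pderiv (i := i))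
  simpa using this

/-- harmonic polynomials -/
def Harm (q : MvPolynomial (Fin n) ℂ) : Prop :=
  ∑ i, MvPolynomial.pderiv i (MvPolynomial.pderiv i q) = 0

theorem pderiv_comm' (i j : Fin n) (q : MvPolynomial (Fin n) ℂ) :
    MvPolynomial.pderiv i (MvPolynomial.pderiv j q) =
      MvPolynomial.pderiv j (MvPolynomial.pderiv i q) := by
  have h : ⁅(MvPolynomial.pderiv i : Derivation ℂ (MvPolynomial (Fin n) ℂ) (MvPolynomial (Fin n) ℂ)),
      (MvPolynomial.pderiv j : Derivation ℂ (MvPolynomial (Fin n) ℂ)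
        (MvPolynomial (Fin n) ℂ))⁆ = 0 := by
    apply MvPolynomial.derivation_ext
    intro k
    rw [Derivation.commutator_apply]
    simp only [MvPolynomial.pderiv_X, Pi.single_apply]
    split_ifs <;> simp
  have h2 := congrArg (fun D => D q) h
  simp only [Derivation.commutator_apply, Derivation.coe_zero, Pi.zero_apply] at h2
  exact sub_eq_zero.mp h2

theorem Dx_harm (x : E n) {q : MvPolynomial (Fin n) ℂ} (hq : Harm q) : Harm (Dx x q) := by
  unfold Harm at *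
  rw [Dx_apply]
  have h1 : ∀ i, MvPolynomial.pderiv i (MvPolynomial.pderiv i
      (∑ j, MvPolynomial.C ((x j : ℝ) : ℂ) * MvPolynomial.pderiv j q)) =
      ∑ j, MvPolynomial.C ((x j : ℝ) : ℂ) *
        MvPolynomial.pderiv j (MvPolynomial.pderiv i (MvPolynomial.pderiv i q)) := by
    intro i
    rw [map_sum, map_sum]
    refine Finset.sum_congr rfl fun j _ => ?_
    rw [MvPolynomial.pderiv_C_mul, MvPolynomial.pderiv_C_mul, pderiv_comm' i j q,
      pderiv_comm' i j]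
  rw [Finset.sum_congr rfl fun i _ => h1 i, Finset.sum_comm]
  refine Finset.sum_eq_zero fun j _ => ?_
  rw [← Finset.mul_sum, ← map_sum, hq, map_zero, mul_zero]

theorem Dx_Lx (x : E n) : Dx x (Lx x) = MvPolynomial.C ((‖x‖ ^ 2 : ℝ) : ℂ) := by
  rw [Dx_apply]
  have h1 : ∀ i, MvPolynomial.pderiv i (Lx x) = MvPolynomial.C ((x i : ℝ) : ℂ) := by
    intro i
    unfold Lx
    rw [map_sum, Finset.sum_eq_single i]
    · rw [MvPolynomial.pderiv_C_mul, MvPolynomial.pderiv_X_self, mul_one]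
    · intro j _ hj
      rw [MvPolynomial.pderiv_C_mul, MvPolynomial.pderiv_X_of_ne hj, mul_zero]
    · simp
  rw [Finset.sum_congr rfl fun i _ => by rw [h1 i]]
  rw [Finset.sum_congr rfl fun i _ => by rw [← MvPolynomial.C_mul], ← map_sum]
  congr 1
  rw [EuclideanSpace.norm_sq_eq]
  push_cast
  refine Finset.sum_congr rfl fun i _ => ?_
  rw [Real.norm_eq_abs, ← Complex.ofReal_pow, sq_abs]
  push_cast
  ring

theorem ev_Lx (x y : E n) : ev (Lx x) y = ((inner ℝ x y : ℝ) : ℂ) := by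
  unfold Lx
  rw [ev_sum]
  simp only [ev_mul, ev_C, ev_X]
  rw [PiLp.inner_apply]
  push_cast
  refine Finset.sum_congr rfl fun i _ => ?_
  simp [mul_comm]

theorem ev_Dx_self (x : E n) {k : ℕ} {q : MvPolynomial (Fin n) ℂ} (hq : q.IsHomogeneous k) :
    ev (Dx x q) x = k * ev q x := by
  have h : ev (∑ i, MvPolynomial.X i * MvPolynomial.pderiv i q) x = ev (k • q) x :=
    congrArg (fun p => ev p x) hq.sum_X_mul_pderiv
  rw [ev_sum] at h
  rw [Dx_apply, ev_sum]
  simp only [ev_mul, ev_C, ev_X] at h ⊢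
  rw [h]
  simp [ev]

/-- the moments of `P` against the powers of `⟨x, ·⟩` -/
noncomputable def Fm (x : E n) (j : ℕ) (P : MvPolynomial (Fin n) ℂ) : ℂ := Sq (Lx x ^ j * P)

theorem Fm_rec (hn : 1 ≤ n) (x : E n) (j k : ℕ) (P : MvPolynomial (Fin n) ℂ)
    (hP : P.IsHomogeneous k) : ((j : ℂ) + k + n - 1) * Fm x (j + 1) P =
      j * (‖x‖ : ℂ) ^ 2 * Fm x (j - 1) P + Fm x j (Dx x P) := by
  have hh : (Lx x ^ j * P).IsHomogeneous (j + k) := by
    have := ((Lx_hom x).pow j).mul hP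
    simpa using this
  have e1 : Lx x ^ (j + 1) * P = ∑ i, MvPolynomial.C ((x i : ℝ) : ℂ) *
      (MvPolynomial.X i * (Lx x ^ j * P)) := by
    rw [pow_succ', mul_assoc]
    conv_lhs => rw [show Lx x * (Lx x ^ j * P) = (∑ i, MvPolynomial.C ((x i : ℝ) : ℂ) *
      MvPolynomial.X i) * (Lx x ^ j * P) from rfl]
    rw [Finset.sum_mul]
    refine Finset.sum_congr rfl fun i _ => ?_
    ring
  have e2 : ((j : ℂ) + k + n - 1) * Fm x (j + 1) P = Sq (Dx x (Lx x ^ j * P)) := by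
    unfold Fm
    rw [e1, Sq_sum hn, Dx_apply, Sq_sum hn, Finset.mul_sum]
    refine Finset.sum_congr rfl fun i _ => ?_
    rw [Sq_C, Sq_C, ← Sq_X hn (j + k) _ hh i]
    push_cast
    ring
  rw [e2, Derivation.leibniz, Derivation.leibniz_pow, Dx_Lx, Sq_add hn]
  unfold Fm
  rw [add_comm]
  congr 1
  have e3 : P • j • Lx x ^ (j - 1) • (MvPolynomial.C ((‖x‖ ^ 2 : ℝ) : ℂ) : MvPolynomial (Fin n) ℂ) =
      MvPolynomial.C ((j : ℂ) * (‖x‖ : ℂ) ^ 2) * (Lx x ^ (j - 1) * P) := by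
    simp only [smul_eq_mul, nsmul_eq_mul, map_mul, map_pow, map_natCast, Complex.ofReal_pow]
    ring
  rw [e3, Sq_C]

end Pool.Agent.W5h55.SH
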