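import Mathlib
import Pool.Agent.W5h55.SH.A2
import Pool.Agent.H789R2.FR.L2
set_option autoImplicit false

/-! The Funk-Hecke formula for the Fourier transform. -/

open MeasureTheory Set Metric
open scoped ENNReal RealInnerProductSpace

namespace Pool.Agent.W5h55.SH

open Pool.Agent.H789R2.FR (E sg sg_finite T)

variable {n : ℕ}

/-- the area of the sphere -/
noncomputable def ar (n : ℕ) : ℝ := ((volume : Measure (E n)).toSphere).real univ

/-- `cc n k = |S| / (n (n+2) ⋯ (n + 2k - 2))` -/
noncomputable def cc (n k : ℕ) : ℝ := ar n / ∏ i ∈ Finset.range k, ((n : ℝ) + 2 * i)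

/-- `DD m N = ∏_{i<m} 2 (i+1) (N + 2 i)` -/
noncomputable def DD (m N : ℕ) : ℝ := ∏ i ∈ Finset.range m, (2 * ((i : ℝ) + 1) * (N + 2 * i))

theorem DD_pos (m N : ℕ) (hN : 1 ≤ N) : 0 < DD m N := by
  unfold DD
  have : (1 : ℝ) ≤ N := by exact_mod_cast hN
  exact Finset.prod_pos fun i _ => by positivity

theorem DD_succ (m N : ℕ) : DD (m + 1) N = DD m N * (2 * ((m : ℝ) + 1) * (N + 2 * m)) := by
  unfold DD
  rw [Finset.prod_range_succ]

theorem DD_shift (m N : ℕ) : DD m N * ((N : ℝ) + 2 * m) = DD m (N + 2) * N := by
  induction m with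
  | zero => simp [DD]
  | succ m ih =>
    rw [DD_succ, DD_succ]
    push_cast at ih ⊢
    linear_combination (2 * ((m : ℝ) + 1) * (N + 2 * (m + 1))) * ih

theorem cc_succ (hn : 1 ≤ n) (k : ℕ) : cc n (k + 1) * ((n : ℝ) + 2 * k) = cc n k := by
  unfold cc
  have h1 : (1 : ℝ) ≤ n := by exact_mod_cast hn
  rw [Finset.prod_range_succ]
  have h2 : ∏ i ∈ Finset.range k, ((n : ℝ) + 2 * i) ≠ 0 :=
    (Finset.prod_pos fun i _ => by positivity).ne'
  have h3 : (n : ℝ) + 2 * k ≠ 0 := by positivity
  field_simp

theorem Sq_low (hn : 2 ≤ n) (k : ℕ) (hk : 0 < k) (P : MvPolynomial (Fin n) ℂ)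
    (hP : P.IsHomogeneous k) (hh : Harm P) : Sq P = 0 := by
  have h1 := congrArg Sq hP.sum_X_mul_pderiv
  rw [Sq_sum (by omega)] at h1
  have h2 : ((k : ℂ) + n - 2) * ∑ i, Sq (MvPolynomial.X i * MvPolynomial.pderiv i P) = 0 := by
    have h3 : ∀ i, ((k : ℂ) + n - 2) * Sq (MvPolynomial.X i * MvPolynomial.pderiv i P) =
        Sq (MvPolynomial.pderiv i (MvPolynomial.pderiv i P)) := by
      intro i
      rw [← Sq_X (by omega) (k - 1) _ hP.pderiv i]
      congr 1
      push_cast [Nat.cast_sub (show 1 ≤ k from hk)]
      ring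
    rw [Finset.mul_sum, Finset.sum_congr rfl fun i _ => h3 i, ← Sq_sum (by omega)]
    unfold Harm at hh
    rw [hh, Sq_zero]
  rw [h1] at h2
  have h4 : (k • P : MvPolynomial (Fin n) ℂ) = MvPolynomial.C ((k : ℕ) : ℂ) * P := by
    rw [nsmul_eq_mul]
    simp
  rw [h4, Sq_C] at h2
  have h5 : ((k : ℂ) + n - 2) ≠ 0 := by
    have h6 : (k : ℂ) + n - 2 = ((k + n - 2 : ℕ) : ℂ) := by
      rw [Nat.cast_sub (by omega)]
      push_cast
      ring
    rw [h6]
    exact_mod_cast (by omega : k + n - 2 ≠ 0)
  have h7 : (k : ℂ) ≠ 0 := by exact_mod_cast hk.ne'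
  rcases mul_eq_zero.1 h2 with h | h
  · exact absurd h h5
  · rcases mul_eq_zero.1 h with h | h
    · exact absurd h h7
    · exact h

theorem Sq_const (hn : 1 ≤ n) (P : MvPolynomial (Fin n) ℂ) (hP : P.IsHomogeneous 0) (x : E n) :
    Sq P = ((ar n : ℝ) : ℂ) * ev P x := by
  rw [MvPolynomial.totalDegree_eq_zero_iff_eq_C.1 (Nat.le_zero.1 hP.totalDegree_le)]
  unfold Sq ar
  simp

theorem Fm_zero (x : E n) (j : ℕ) : Fm x j 0 = 0 := by
  unfold Fm
  rw [mul_zero, Sq_zero]

theorem Dx_const (x : E n) (P : MvPolynomial (Fin n) ℂ) (hP : P.IsHomogeneous 0) : Dx x P = 0 := by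
  rw [MvPolynomial.totalDegree_eq_zero_iff_eq_C.1 (Nat.le_zero.1 hP.totalDegree_le)]
  exact Derivation.map_algebraMap _ _

/-- **Funk-Hecke formula for the powers.** -/
theorem Fm_eq (hn : 2 ≤ n) (x : E n) : ∀ (j k : ℕ) (P : MvPolynomial (Fin n) ℂ),
    P.IsHomogeneous k → Harm P →
    (∀ m, j = k + 2 * m → Fm x j P =
      ((((k + 2 * m).factorial * cc n k / DD m (2 * k + n) : ℝ)) : ℂ) * (‖x‖ : ℂ) ^ (2 * m) *
        ev P x) ∧
    ((∀ m, j ≠ k + 2 * m) → Fm x j P = 0) := by
  have hn2 : (2 : ℝ) ≤ n := by exact_mod_cast hn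
  intro j
  induction j using Nat.strong_induction_on with
  | _ j ih =>
    intro k P hP hh
    rcases Nat.eq_zero_or_pos j with hj | hj
    · subst hj
      constructor
      · intro m hm
        obtain ⟨rfl, rfl⟩ : k = 0 ∧ m = 0 := by omega
        unfold Fm
        rw [pow_zero, one_mul, Sq_const (by omega) P hP x]
        simp [cc, DD]
      · intro h
        have hk : 0 < k := by
          rcases Nat.eq_zero_or_pos k with h0 | h0
          · exact absurd (by omega : 0 = k + 2 * 0) (h 0)
          · exact h0
        unfold Fm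
        rw [pow_zero, one_mul]
        exact Sq_low hn k hk P hP hh
    · obtain ⟨i, rfl⟩ : ∃ i, j = i + 1 := ⟨j - 1, by omega⟩
      have hrec := Fm_rec (by omega) x i k P hP
      have hfac : ((i : ℂ) + k + n - 1) ≠ 0 := by
        have h6 : (i : ℂ) + k + n - 1 = ((i + k + n - 1 : ℕ) : ℂ) := by
          rw [Nat.cast_sub (by omega)]
          push_cast
          ring
        rw [h6]
        exact_mod_cast (by omega : i + k + n - 1 ≠ 0)
      constructor
      · intro m hm
        -- the two terms of the recursion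
        have t1 : (i : ℂ) * (‖x‖ : ℂ) ^ 2 * Fm x (i - 1) P =
            (((i * ((i - 1 : ℕ).factorial) * cc n k / DD m (2 * k + n) *
              (2 * m * (2 * k + n + 2 * m - 2)) : ℝ)) : ℂ) * (‖x‖ : ℂ) ^ (2 * m) * ev P x := by
          rcases Nat.eq_zero_or_pos m with hm0 | hm0
          · subst hm0
            rcases Nat.eq_zero_or_pos i with hi0 | hi0
            · subst hi0
              simp
            · rw [((ih (i - 1) (by omega) k P hP hh).2 (fun m' => by omega))]
              simp
          · obtain ⟨m', rfl⟩ : ∃ m', m = m' + 1 := ⟨m - 1, by omega⟩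
            rw [((ih (i - 1) (by omega) k P hP hh).1 m' (by omega)), DD_succ]
            have hD := DD_pos m' (2 * k + n) (by omega)
            have e1 : i - 1 = k + 2 * m' := by omega
            rw [e1]
            have e2 : ((2 * k + n : ℕ) : ℝ) + 2 * m' ≠ 0 := by
              have : (0 : ℝ) < ((2 * k + n : ℕ) : ℝ) := by exact_mod_cast (by omega)
              positivity
            have e3 : (i : ℝ) * ((k + 2 * m').factorial : ℝ) * cc n k /
                (DD m' (2 * k + n) * (2 * ((m' : ℝ) + 1) * (((2 * k + n : ℕ) : ℝ) + 2 * m'))) *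
                (2 * ((m' + 1 : ℕ) : ℝ) * (2 * (k : ℝ) + n + 2 * ((m' + 1 : ℕ) : ℝ) - 2)) =
                i * (((k + 2 * m').factorial : ℝ) * cc n k / DD m' (2 * k + n)) := by
              push_cast at e2 ⊢
              have e4 : (2 * (k : ℝ) + n + 2 * ((m' : ℝ) + 1) - 2) = 2 * k + n + 2 * m' := by ring
              rw [e4]
              have e5 : ((m' : ℝ) + 1) ≠ 0 := by positivity
              field_simp
            rw [e3]
            push_cast
            ring
        have t2 : Fm x i (Dx x P) =
            (((i.factorial * cc n k / DD m (2 * k + n) * (k * (2 * k + n + 2 * m - 2)) : ℝ)) : ℂ) *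
              (‖x‖ : ℂ) ^ (2 * m) * ev P x := by
          rcases Nat.eq_zero_or_pos k with hk0 | hk0
          · subst hk0
            rw [Dx_const x P hP, Fm_zero]
            simp
          · obtain ⟨k', rfl⟩ : ∃ k', k = k' + 1 := ⟨k - 1, by omega⟩
            have h1 := (ih i (by omega) k' (Dx x P) (by simpa using Dx_hom x hP)
              (Dx_harm x hh)).1 m (by omega)
            rw [h1, ev_Dx_self x hP]
            have e1 : i = k' + 2 * m := by omega
            have hD1 := DD_pos m (2 * k' + n) (by omega)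
            have hD2 := DD_pos m (2 * (k' + 1) + n) (by omega)
            have hs := DD_shift m (2 * k' + n)
            rw [show 2 * k' + n + 2 = 2 * (k' + 1) + n by ring] at hs
            have hc := cc_succ (n := n) (by omega) k'
            have e3 : ((k' + 2 * m).factorial : ℝ) * cc n k' / DD m (2 * k' + n) * ((k' + 1 : ℕ) : ℝ) =
                (i.factorial : ℝ) * cc n (k' + 1) / DD m (2 * (k' + 1) + n) *
                  (((k' + 1 : ℕ) : ℝ) * (2 * ((k' + 1 : ℕ) : ℝ) + n + 2 * m - 2)) := by
              rw [← hc, e1]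
              push_cast at hs ⊢
              have hs' : DD m (2 * (k' + 1) + n) * (2 * (k' : ℝ) + n) =
                DD m (2 * k' + n) * (2 * k' + n + 2 * m) := by linarith
              field_simp
              linear_combination (cc n (k' + 1)) * hs'
            have e4 : ((((k' + 2 * m).factorial * cc n k' / DD m (2 * k' + n) : ℝ)) : ℂ) *
                (((k' + 1 : ℕ)) : ℂ) =
                (((i.factorial : ℝ) * cc n (k' + 1) / DD m (2 * (k' + 1) + n) *
                  (((k' + 1 : ℕ) : ℝ) * (2 * ((k' + 1 : ℕ) : ℝ) + n + 2 * m - 2)) : ℝ) : ℂ) := by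
              rw [← e3]
              push_cast
              ring
            rw [← e4]
            ring
        rw [t1, t2] at hrec
        apply mul_left_cancel₀ hfac
        rw [hrec]
        -- compare the coefficients
        have hD := DD_pos m (2 * k + n) (by omega)
        have e5 : (i : ℝ) * ((i - 1 : ℕ).factorial : ℝ) * cc n k / DD m (2 * k + n) *
              (2 * m * (2 * k + n + 2 * m - 2)) +
            (i.factorial : ℝ) * cc n k / DD m (2 * k + n) * (k * (2 * k + n + 2 * m - 2)) =
            ((i : ℝ) + k + n - 1) * (((k + 2 * m).factorial : ℝ) * cc n k / DD m (2 * k + n)) := by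
          rw [← hm, Nat.factorial_succ]
          have hi : ((i : ℝ)) + 1 = k + 2 * m := by exact_mod_cast hm
          rcases Nat.eq_zero_or_pos i with hi0 | hi0
          · subst hi0
            simp only [Nat.factorial_zero, Nat.cast_one, Nat.cast_zero, zero_mul, zero_div,
              zero_add, Nat.cast_mul]
            push_cast at hi
            have hk : (k : ℝ) = 1 - 2 * m := by linarith
            have hm0 : m = 0 := by omega
            subst hm0
            push_cast at hk ⊢
            rw [hk]
            field_simp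
            ring
          · obtain ⟨i', rfl⟩ : ∃ i', i = i' + 1 := ⟨i - 1, by omega⟩
            simp only [Nat.add_sub_cancel, Nat.factorial_succ]
            push_cast at hi ⊢
            have hk : (k : ℝ) = i' + 2 - 2 * m := by linarith
            rw [hk]
            field_simp
            ring
        have e6 := congrArg (fun t : ℝ => (t : ℂ)) e5
        push_cast at e6 ⊢
        linear_combination ((‖x‖ : ℂ) ^ (2 * m) * ev P x) * e6
      · intro h
        have t1 : (i : ℂ) * (‖x‖ : ℂ) ^ 2 * Fm x (i - 1) P = 0 := by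
          rcases Nat.eq_zero_or_pos i with hi0 | hi0
          · subst hi0
            simp
          · rw [((ih (i - 1) (by omega) k P hP hh).2 (fun m' hm' => h (m' + 1) (by omega)))]
            simp
        have t2 : Fm x i (Dx x P) = 0 := by
          rcases Nat.eq_zero_or_pos k with hk0 | hk0
          · subst hk0
            rw [Dx_const x P hP, Fm_zero]
          · obtain ⟨k', rfl⟩ : ∃ k', k = k' + 1 := ⟨k - 1, by omega⟩
            exact (ih i (by omega) k' (Dx x P) (by simpa using Dx_hom x hP)
              (Dx_harm x hh)).2 (fun m' hm' => h m' (by omega))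
        rw [t1, t2, add_zero] at hrec
        rcases mul_eq_zero.1 hrec with h1 | h1
        · exact absurd h1 hfac
        · exact h1

end Pool.Agent.W5h55.SH
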