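import Mathlib
import Pool.Agent.W5h55.SH.A3
set_option autoImplicit false

/-! The Fourier transform of a spherical harmonic. -/

open MeasureTheory Set Metric
open scoped ENNReal RealInnerProductSpace

namespace Pool.Agent.W5h55.SH

open Pool.Agent.H789R2.FR (E sg sg_finite T)

variable {n : ℕ}

theorem DD_ge (m N : ℕ) (hN : 1 ≤ N) : (m.factorial : ℝ) ≤ DD m N := by
  have hN1 : (1 : ℝ) ≤ N := by exact_mod_cast hN
  induction m with
  | zero => simp [DD]
  | succ m ih =>
    rw [DD_succ, Nat.factorial_succ]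
    push_cast
    have h1 : (1 : ℝ) ≤ 2 * (N + 2 * (m : ℝ)) := by
      have : (0 : ℝ) ≤ m := Nat.cast_nonneg m
      nlinarith
    have h2 : (0 : ℝ) < (m : ℝ) + 1 := by positivity
    have h3 : (0 : ℝ) < m.factorial := by positivity
    calc ((m : ℝ) + 1) * (m.factorial : ℝ) = (m.factorial : ℝ) * (((m : ℝ) + 1) * 1) := by ring
      _ ≤ DD m N * (((m : ℝ) + 1) * (2 * (N + 2 * (m : ℝ)))) := by
          apply mul_le_mul ih _ (by positivity) (by linarith)
          exact mul_le_mul_of_nonneg_left h1 h2.le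
      _ = _ := by ring

/-- the normalised Bessel function `φ_N(r) = ∑ (-1)^m r^(2m) / ∏_{i<m} 2(i+1)(N+2i)` -/
noncomputable def phi (N : ℕ) (r : ℝ) : ℝ := ∑' m : ℕ, (-1) ^ m * r ^ (2 * m) / DD m N

theorem phi_sum (N : ℕ) (hN : 1 ≤ N) (r : ℝ) :
    Summable fun m : ℕ => (-1 : ℝ) ^ m * r ^ (2 * m) / DD m N := by
  refine Summable.of_norm_bounded (Real.summable_pow_div_factorial (r ^ 2)) fun m => ?_
  have h1 := DD_ge m N hN
  have h2 := DD_pos m N hN
  rw [norm_div, norm_mul, norm_pow, norm_neg, norm_one, one_pow, one_mul, norm_pow,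
    Real.norm_eq_abs, Real.norm_of_nonneg h2.le, pow_mul, sq_abs]
  gcongr

/-- the Fourier transform of a spherical harmonic as a series -/
theorem T_hasSum (hn : 2 ≤ n) (k : ℕ) (P : MvPolynomial (Fin n) ℂ) (x : E n) :
    HasSum (fun j : ℕ => (-Complex.I) ^ j / (j.factorial : ℂ) * Fm x j P) (T (ev P) x) := by
  have hfin : IsFiniteMeasure (volume : Measure (E n)).toSphere := inferInstance
  set μ := (volume : Measure (E n)).toSphere with hμ
  have hc : CompactSpace (sphere (0 : E n) 1) := isCompact_iff_compactSpace.mp (isCompact_sphere _ _)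
  have hT : T (ev P) x = ∫ y : sphere (0 : E n) 1,
      ∑' j : ℕ, (-Complex.I) ^ j / (j.factorial : ℂ) * (((⟪x, (y : E n)⟫ : ℝ) : ℂ) ^ j *
        ev P (y : E n)) ∂μ := by
    unfold T sg
    rw [integral_map measurable_subtype_coe.aemeasurable]
    · refine integral_congr_ae (Filter.Eventually.of_forall fun y => ?_)
      simp only
      have h1 : Complex.exp (-((⟪x, (y : E n)⟫ : ℝ) : ℂ) * Complex.I) =
          ∑' j : ℕ, (-Complex.I) ^ j / (j.factorial : ℂ) * ((⟪x, (y : E n)⟫ : ℝ) : ℂ) ^ j := by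
        rw [Complex.exp_eq_exp_ℂ, NormedSpace.exp_eq_tsum_div]
        refine tsum_congr fun j => ?_
        have : (-((⟪x, (y : E n)⟫ : ℝ) : ℂ) * Complex.I) =
          (-Complex.I) * ((⟪x, (y : E n)⟫ : ℝ) : ℂ) := by ring
        rw [this, mul_pow]
        ring
      rw [h1, ← tsum_mul_right]
      refine tsum_congr fun j => ?_
      ring
    · refine Continuous.aestronglyMeasurable ?_
      exact (by fun_prop : Continuous fun w : E n =>
        Complex.exp (-((⟪x, w⟫ : ℝ) : ℂ) * Complex.I)).mul (ev_cont P)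
  rw [hT]
  have hcont : ∀ j : ℕ, Continuous fun y : sphere (0 : E n) 1 =>
      (-Complex.I) ^ j / (j.factorial : ℂ) * (((⟪x, (y : E n)⟫ : ℝ) : ℂ) ^ j * ev P (y : E n)) := by
    intro j
    refine continuous_const.mul (Continuous.mul ?_ (ev_cont' P))
    fun_prop
  have hF : ∀ j : ℕ, (-Complex.I) ^ j / (j.factorial : ℂ) * Fm x j P =
      ∫ y : sphere (0 : E n) 1, (-Complex.I) ^ j / (j.factorial : ℂ) *
        (((⟪x, (y : E n)⟫ : ℝ) : ℂ) ^ j * ev P (y : E n)) ∂μ := by
    intro j
    unfold Fm Sq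
    rw [← integral_const_mul]
    refine integral_congr_ae (Filter.Eventually.of_forall fun y => ?_)
    simp only [ev_mul, ev_pow, ev_Lx]
  rw [show (fun j : ℕ => (-Complex.I) ^ j / (j.factorial : ℂ) * Fm x j P) = _ from funext hF]
  obtain ⟨B, hB⟩ : ∃ B : ℝ, ∀ y : sphere (0 : E n) 1, ‖ev P (y : E n)‖ ≤ B := by
    obtain ⟨C, c, hC, hc', h⟩ := ev_bound P
    refine ⟨C * Real.exp c, fun y => ?_⟩
    have := h (y : E n)
    rwa [norm_eq_of_mem_sphere y, mul_one] at this
  have hB0 : 0 ≤ B := by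
    haveI : Nonempty (Fin n) := ⟨⟨0, by omega⟩⟩
    obtain ⟨y⟩ : Nonempty (sphere (0 : E n) 1) := by
      have : Nontrivial (E n) := inferInstance
      exact (NormedSpace.sphere_nonempty.2 zero_le_one).to_subtype
    exact (norm_nonneg _).trans (hB y)
  refine hasSum_integral_of_summable_integral_norm
    (fun j => sphere_int (by omega) (hcont j)) ?_
  refine Summable.of_nonneg_of_le (fun j => integral_nonneg fun y => norm_nonneg _) (fun j => ?_)
    ((Real.summable_pow_div_factorial ‖x‖).mul_right (B * μ.real univ))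
  calc ∫ y : sphere (0 : E n) 1, ‖(-Complex.I) ^ j / (j.factorial : ℂ) *
        (((⟪x, (y : E n)⟫ : ℝ) : ℂ) ^ j * ev P (y : E n))‖ ∂μ
      ≤ ∫ _y : sphere (0 : E n) 1, ‖x‖ ^ j / (j.factorial : ℝ) * B ∂μ := by
        refine integral_mono (sphere_int (by omega) (hcont j)).norm (integrable_const _) fun y => ?_
        simp only
        rw [norm_mul, norm_mul, norm_div, norm_pow, norm_neg, Complex.norm_I, one_pow,
          Complex.norm_natCast, norm_pow, Complex.norm_real, Real.norm_eq_abs, ← mul_assoc]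
        refine mul_le_mul ?_ (hB y) (norm_nonneg _) (by positivity)
        rw [div_mul_eq_mul_div, one_mul]
        gcongr
        have := abs_real_inner_le_norm x (y : E n)
        rwa [norm_eq_of_mem_sphere y, mul_one] at this
    _ = ‖x‖ ^ j / (j.factorial : ℝ) * (B * μ.real univ) := by
        rw [integral_const, smul_eq_mul]
        ring

/-- **The Fourier transform of a spherical harmonic.** -/
theorem T_harm (hn : 2 ≤ n) (k : ℕ) (P : MvPolynomial (Fin n) ℂ) (hP : P.IsHomogeneous k)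
    (hh : Harm P) (x : E n) :
    T (ev P) x = (-Complex.I) ^ k * ((cc n k * phi (2 * k + n) ‖x‖ : ℝ) : ℂ) * ev P x := by
  have h1 := T_hasSum hn k P x
  have hinj : Function.Injective fun m : ℕ => k + 2 * m := fun a b h => by
    simp only at h
    omega
  rw [← hinj.hasSum_iff] at h1
  · have h2 : HasSum ((fun j : ℕ => (-Complex.I) ^ j / (j.factorial : ℂ) * Fm x j P) ∘
        fun m : ℕ => k + 2 * m)
        ((-Complex.I) ^ k * ((cc n k * phi (2 * k + n) ‖x‖ : ℝ) : ℂ) * ev P x) := by
      have h3 := (phi_sum (2 * k + n) (by omega) ‖x‖).hasSum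
      have h4 := (Complex.hasSum_ofReal.2 h3).mul_left
        ((-Complex.I) ^ k * (cc n k : ℂ) * ev P x)
      have h5 : (-Complex.I) ^ k * ((cc n k * phi (2 * k + n) ‖x‖ : ℝ) : ℂ) * ev P x =
          (-Complex.I) ^ k * (cc n k : ℂ) * ev P x *
            ((∑' m : ℕ, (-1 : ℝ) ^ m * ‖x‖ ^ (2 * m) / DD m (2 * k + n) : ℝ) : ℂ) := by
        unfold phi
        push_cast
        ring
      rw [h5]
      refine h4.congr_fun ?_ |> fun h => h
      intro m
      simp only [Function.comp_apply]
      rw [((Fm_eq hn x (k + 2 * m) k P hP hh).1 m rfl)]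
      have h6 : ((k + 2 * m).factorial : ℂ) ≠ 0 := by
        exact_mod_cast (Nat.factorial_pos _).ne'
      have h7 : (-Complex.I) ^ (k + 2 * m) = (-Complex.I) ^ k * (-1) ^ m := by
        rw [pow_add, pow_mul, neg_sq, Complex.I_sq]
      rw [h7]
      push_cast
      field_simp
    exact h1.unique h2
  · intro j hj
    have h2 := (Fm_eq hn x j k P hP hh).2 (fun m hm => hj ⟨m, hm.symm⟩)
    rw [h2, mul_zero]

end Pool.Agent.W5h55.SH
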