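import Mathlib
import Pool.Agent.W5h55.SH.A4
set_option autoImplicit false

/-! The normalised Bessel functions: continuity and two integral relations. -/

open MeasureTheory Set Metric
open scoped ENNReal RealInnerProductSpace Interval

namespace Pool.Agent.W5h55.SH

theorem phi_term (N : ℕ) (hN : 1 ≤ N) (m : ℕ) (r B : ℝ) (hr : |r| ≤ B) :
    ‖(-1 : ℝ) ^ m * r ^ (2 * m) / DD m N‖ ≤ (B ^ 2) ^ m / m.factorial := by
  have h1 := DD_ge m N hN
  have h2 := DD_pos m N hN
  rw [norm_div, norm_mul, norm_pow, norm_neg, norm_one, one_pow, one_mul, norm_pow,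
    Real.norm_eq_abs, Real.norm_of_nonneg h2.le, pow_mul]
  have h3 : 0 ≤ |r| := abs_nonneg r
  gcongr

theorem phi_cont (N : ℕ) (hN : 1 ≤ N) : Continuous (phi N) := by
  rw [continuous_iff_continuousAt]
  intro r
  have h : ContinuousOn (phi N) (Ioo (-(|r| + 1)) (|r| + 1)) := by
    unfold phi
    refine continuousOn_tsum (u := fun m => ((|r| + 1) ^ 2) ^ m / m.factorial)
      (fun m => by fun_prop) (Real.summable_pow_div_factorial _) ?_
    intro m x hx
    exact phi_term N hN m x _ (abs_le.2 ⟨hx.1.le, hx.2.le⟩)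
  refine h.continuousAt (Ioo_mem_nhds ?_ ?_)
  · have := neg_abs_le r; linarith
  · have := le_abs_self r; linarith

theorem phi_zero (N : ℕ) : phi N 0 = 1 := by
  unfold phi
  rw [tsum_eq_single 0]
  · simp [DD]
  · intro m hm
    simp [hm]

/-- `s^N φ_(N+2)(s) = N ∫_0^s t^(N-1) φ_N(t) dt` -/
theorem phi_int (N : ℕ) (hN : 1 ≤ N) (s : ℝ) (hs : 0 ≤ s) :
    ∫ t in (0 : ℝ)..s, (N : ℝ) * t ^ (N - 1) * phi N t = s ^ N * phi (N + 2) s := by
  have hN0 : (0 : ℝ) < N := by exact_mod_cast hN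
  have h1 : HasSum (fun m : ℕ => ∫ t in (0 : ℝ)..s,
      (N : ℝ) * t ^ (N - 1) * ((-1 : ℝ) ^ m * t ^ (2 * m) / DD m N))
      (∫ t in (0 : ℝ)..s, (N : ℝ) * t ^ (N - 1) * phi N t) := by
    refine intervalIntegral.hasSum_integral_of_dominated_convergence
      (fun m _ => (N : ℝ) * s ^ (N - 1) * ((s ^ 2) ^ m / m.factorial)) ?_ ?_ ?_ ?_ ?_
    · intro m
      exact (by fun_prop : Continuous fun t : ℝ => (N : ℝ) * t ^ (N - 1) *
        ((-1 : ℝ) ^ m * t ^ (2 * m) / DD m N)).aestronglyMeasurable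
    · intro m
      refine Filter.Eventually.of_forall fun t ht => ?_
      rw [uIoc_of_le hs] at ht
      have hta : |t| ≤ s := by rw [abs_of_pos ht.1]; exact ht.2
      rw [norm_mul, norm_mul, norm_pow, Real.norm_of_nonneg hN0.le, Real.norm_eq_abs]
      refine mul_le_mul ?_ (phi_term N hN m t s hta) (norm_nonneg _) (by positivity)
      gcongr
    · exact Filter.Eventually.of_forall fun t _ =>
        (Real.summable_pow_div_factorial (s ^ 2)).mul_left _
    · exact continuous_const.intervalIntegrable _ _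
    · refine Filter.Eventually.of_forall fun t _ => ?_
      exact (phi_sum N hN t).hasSum.mul_left _
  have h2 : ∀ m : ℕ, ∫ t in (0 : ℝ)..s,
      (N : ℝ) * t ^ (N - 1) * ((-1 : ℝ) ^ m * t ^ (2 * m) / DD m N) =
      s ^ N * ((-1 : ℝ) ^ m * s ^ (2 * m) / DD m (N + 2)) := by
    intro m
    have e1 : ∀ t : ℝ, (N : ℝ) * t ^ (N - 1) * ((-1 : ℝ) ^ m * t ^ (2 * m) / DD m N) =
        (N * (-1 : ℝ) ^ m / DD m N) * t ^ (2 * m + (N - 1)) := by
      intro t
      rw [pow_add]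
      ring
    simp_rw [e1]
    rw [intervalIntegral.integral_const_mul, integral_pow]
    have e2 : 2 * m + (N - 1) + 1 = 2 * m + N := by omega
    have e3 : (((2 * m + (N - 1) : ℕ) : ℝ) + 1) = N + 2 * m := by
      have : ((2 * m + (N - 1) : ℕ) : ℝ) + 1 = ((2 * m + (N - 1) + 1 : ℕ) : ℝ) := by push_cast; ring
      rw [this, e2]
      push_cast
      ring
    rw [e3, e2, zero_pow (by omega), sub_zero, pow_add]
    have h3 := DD_shift m N
    have h4 := DD_pos m N hN
    have h5 := DD_pos m (N + 2) (by omega)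
    have h6 : (0 : ℝ) < (N : ℝ) + 2 * m := by positivity
    have e4 : (N : ℝ) * (-1) ^ m / DD m N * (s ^ (2 * m) * s ^ N / (N + 2 * m)) =
        (N * ((-1) ^ m * (s ^ (2 * m) * s ^ N))) / (DD m N * (N + 2 * m)) := by
      field_simp
    rw [e4, h3]
    field_simp
  have h3 : HasSum (fun m : ℕ => s ^ N * ((-1 : ℝ) ^ m * s ^ (2 * m) / DD m (N + 2)))
      (s ^ N * phi (N + 2) s) := (phi_sum (N + 2) (by omega) s).hasSum.mul_left _
  simp_rw [h2] at h1
  exact h1.unique h3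

theorem phi_deriv (N : ℕ) (hN : 1 ≤ N) (s : ℝ) (hs : 0 < s) :
    HasDerivAt (fun s => s ^ N * phi (N + 2) s) ((N : ℝ) * s ^ (N - 1) * phi N s) s := by
  have hc : Continuous fun t : ℝ => (N : ℝ) * t ^ (N - 1) * phi N t := by
    have := phi_cont N hN
    fun_prop
  have h1 := intervalIntegral.integral_hasDerivAt_right (hc.intervalIntegrable 0 s)
    (hc.stronglyMeasurableAtFilter _ _) hc.continuousAt
  refine h1.congr_of_eventuallyEq ?_
  filter_upwards [Ioi_mem_nhds hs] with u hu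
  exact (phi_int N hN u (le_of_lt hu)).symm

theorem sin_moment (N m : ℕ) (hN : 1 ≤ N) :
    (∫ θ in (0 : ℝ)..Real.pi, Real.sin θ ^ (N - 1 + 2 * m)) * (DD m (N + 1)) =
      (∫ θ in (0 : ℝ)..Real.pi, Real.sin θ ^ (N - 1)) * DD m N := by
  have hN0 : (0 : ℝ) < N := by exact_mod_cast hN
  induction m with
  | zero => simp [DD]
  | succ m ih =>
    have h1 : ∫ θ in (0 : ℝ)..Real.pi, Real.sin θ ^ (N - 1 + 2 * (m + 1)) =
        (((N - 1 + 2 * m : ℕ) : ℝ) + 1) / (((N - 1 + 2 * m : ℕ) : ℝ) + 2) *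
          ∫ θ in (0 : ℝ)..Real.pi, Real.sin θ ^ (N - 1 + 2 * m) := by
      rw [show N - 1 + 2 * (m + 1) = (N - 1 + 2 * m) + 2 by ring, integral_sin_pow]
      simp
    rw [h1, DD_succ, DD_succ]
    have e1 : ((N - 1 + 2 * m : ℕ) : ℝ) = N - 1 + 2 * m := by
      push_cast [Nat.cast_sub hN]
      ring
    rw [e1]
    push_cast
    have e2 : ((N : ℝ) - 1 + 2 * m + 2) ≠ 0 := by
      have : (0 : ℝ) ≤ m := Nat.cast_nonneg m
      have : (1 : ℝ) ≤ N := by exact_mod_cast hN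
      linarith
    rw [div_mul_eq_mul_div, div_mul_eq_mul_div, div_eq_iff e2]
    linear_combination (((N : ℝ) - 1 + 2 * m + 1) * (2 * ((m : ℝ) + 1)) *
      ((N : ℝ) - 1 + 2 * m + 2)) * ih

/-- `∫_0^π sin^(N-1) θ φ_N(r sin θ) dθ = φ_(N+1)(r) ∫_0^π sin^(N-1) θ dθ` -/
theorem phi_sin (N : ℕ) (hN : 1 ≤ N) (r : ℝ) :
    ∫ θ in (0 : ℝ)..Real.pi, Real.sin θ ^ (N - 1) * phi N (r * Real.sin θ) =
      (∫ θ in (0 : ℝ)..Real.pi, Real.sin θ ^ (N - 1)) * phi (N + 1) r := by
  have h1 : HasSum (fun m : ℕ => ∫ θ in (0 : ℝ)..Real.pi,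
      Real.sin θ ^ (N - 1) * ((-1 : ℝ) ^ m * (r * Real.sin θ) ^ (2 * m) / DD m N))
      (∫ θ in (0 : ℝ)..Real.pi, Real.sin θ ^ (N - 1) * phi N (r * Real.sin θ)) := by
    refine intervalIntegral.hasSum_integral_of_dominated_convergence
      (fun m _ => ((|r| ^ 2) ^ m / m.factorial)) ?_ ?_ ?_ ?_ ?_
    · intro m
      exact (by fun_prop : Continuous fun θ : ℝ => Real.sin θ ^ (N - 1) *
        ((-1 : ℝ) ^ m * (r * Real.sin θ) ^ (2 * m) / DD m N)).aestronglyMeasurable
    · intro m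
      refine Filter.Eventually.of_forall fun θ _ => ?_
      have hta : |r * Real.sin θ| ≤ |r| := by
        rw [abs_mul]
        exact mul_le_of_le_one_right (abs_nonneg _) (Real.abs_sin_le_one θ)
      rw [norm_mul, norm_pow, Real.norm_eq_abs]
      have h2 := phi_term N hN m _ _ hta
      have h3 : |Real.sin θ| ^ (N - 1) ≤ 1 := pow_le_one₀ (abs_nonneg _) (Real.abs_sin_le_one θ)
      calc |Real.sin θ| ^ (N - 1) * _ ≤ 1 * _ := mul_le_mul_of_nonneg_right h3 (norm_nonneg _)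
        _ ≤ _ := by rw [one_mul]; exact h2
    · exact Filter.Eventually.of_forall fun t _ => Real.summable_pow_div_factorial _
    · exact continuous_const.intervalIntegrable _ _
    · refine Filter.Eventually.of_forall fun t _ => ?_
      exact (phi_sum N hN _).hasSum.mul_left _
  have h2 : ∀ m : ℕ, ∫ θ in (0 : ℝ)..Real.pi,
      Real.sin θ ^ (N - 1) * ((-1 : ℝ) ^ m * (r * Real.sin θ) ^ (2 * m) / DD m N) =
      (∫ θ in (0 : ℝ)..Real.pi, Real.sin θ ^ (N - 1)) *
        ((-1 : ℝ) ^ m * r ^ (2 * m) / DD m (N + 1)) := by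
    intro m
    have e1 : ∀ θ : ℝ, Real.sin θ ^ (N - 1) *
        ((-1 : ℝ) ^ m * (r * Real.sin θ) ^ (2 * m) / DD m N) =
        ((-1 : ℝ) ^ m * r ^ (2 * m) / DD m N) * Real.sin θ ^ (N - 1 + 2 * m) := by
      intro θ
      rw [mul_pow, pow_add]
      ring
    simp_rw [e1]
    rw [intervalIntegral.integral_const_mul]
    have h3 := sin_moment N m hN
    have h4 := DD_pos m N hN
    have h5 := DD_pos m (N + 1) (by omega)
    rw [eq_comm, div_eq_mul_inv ((-1 : ℝ) ^ m * r ^ (2 * m)) (DD m N)]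
    field_simp
    linear_combination (-r ^ (2 * m)) * h3
  simp_rw [h2] at h1
  exact h1.unique ((phi_sum (N + 1) (by omega) r).hasSum.mul_left _)

end Pool.Agent.W5h55.SH
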