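import Mathlib
import Pool.Agent.W5h55.SH.A5
import Pool.Agent.Y251.HR.B5
set_option autoImplicit false

/-! The radial factor of the Fourier transform of a spherical harmonic. -/

open MeasureTheory Set Metric
open scoped ENNReal RealInnerProductSpace

namespace Pool.Agent.W5h55.SH

open Pool.Agent.H789R2.FR (E sg sg_finite sg_ae T polar)
open Pool.Agent.H789R2.FR.L2 (measurable_T norm_T_le)
open Pool.Agent.Y251.HR (shell shell2 planar_ball)

variable {n : ℕ}

/-- the radial factor -/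
noncomputable def ga (n k : ℕ) (r : ℝ) : ℝ := cc n k * r ^ k * phi (2 * k + n) r

theorem ga_cont (hn : 1 ≤ n) (k : ℕ) : Continuous (ga n k) := by
  unfold ga
  have := phi_cont (2 * k + n) (by omega)
  fun_prop

theorem T_norm (hn : 2 ≤ n) (k : ℕ) (P : MvPolynomial (Fin n) ℂ) (hP : P.IsHomogeneous k)
    (hh : Harm P) (w : E n) (hw : ‖w‖ = 1) (r : ℝ) (hr : 0 ≤ r) :
    T (ev P) (r • w) = (-Complex.I) ^ k * (ga n k r : ℂ) * ev P w := by
  rw [T_harm hn k P hP hh, ev_smul k P hP, norm_smul, hw, mul_one, Real.norm_of_nonneg hr]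
  unfold ga
  push_cast
  ring

/-- the truncation to the closed unit ball -/
noncomputable def evb (P : MvPolynomial (Fin n) ℂ) (w : E n) : ℂ := if ‖w‖ ≤ 1 then ev P w else 0

theorem evb_meas (P : MvPolynomial (Fin n) ℂ) : Measurable (evb P) := by
  unfold evb
  exact Measurable.ite (measurableSet_le measurable_norm measurable_const) (ev_cont P).measurable
    measurable_const

theorem evb_bdd (P : MvPolynomial (Fin n) ℂ) : ∃ M : ℝ, ∀ w, ‖evb P w‖ ≤ M := by
  obtain ⟨C, c, hC, hc, h⟩ := ev_bound P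
  refine ⟨C * Real.exp c, fun w => ?_⟩
  unfold evb
  split_ifs with hw
  · refine (h w).trans ?_
    have : c * ‖w‖ ≤ c := mul_le_of_le_one_right hc hw
    gcongr
  · rw [norm_zero]
    positivity

theorem evb_ae (P : MvPolynomial (Fin n) ℂ) : evb P =ᵐ[sg n] ev P := by
  filter_upwards [sg_ae n] with w hw
  unfold evb
  rw [if_pos hw.le]

theorem T_congr {f g : E n → ℂ} (h : f =ᵐ[sg n] g) : T f = T g := by
  funext x
  unfold T
  refine integral_congr_ae ?_
  filter_upwards [h] with w hw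
  rw [hw]

theorem T_evb (P : MvPolynomial (Fin n) ℂ) : T (evb P) = T (ev P) := T_congr (evb_ae P)

theorem T_cont_meas (P : MvPolynomial (Fin n) ℂ) : Measurable (T (ev P)) := by
  rw [← T_evb]
  exact (measurable_T _ (evb_meas P)).measurable

/-- polar coordinates -/
theorem polar_harm (hn : 2 ≤ n) (k : ℕ) (P : MvPolynomial (Fin n) ℂ) (hP : P.IsHomogeneous k)
    (hh : Harm P) (p : ℝ) (hp : 0 ≤ p) (A : Set ℝ) (hA : MeasurableSet A) :
    ∫⁻ x in {x : E n | ‖x‖ ∈ A}, ‖T (ev P) x‖ₑ ^ p =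
      (∫⁻ r in Ioi (0 : ℝ) ∩ A, ENNReal.ofReal (r ^ (n - 1)) * ‖ga n k r‖ₑ ^ p) *
        ∫⁻ w, ‖ev P w‖ₑ ^ p ∂(sg n) := by
  have hAm : MeasurableSet {x : E n | ‖x‖ ∈ A} := measurable_norm hA
  have hpm : Measurable fun w : E n => ‖ev P w‖ₑ ^ p := ((ev_cont P).measurable.enorm).pow_const p
  rw [← lintegral_indicator hAm, polar (by omega) _
    (((T_cont_meas P).enorm.pow_const p).indicator hAm), ← lintegral_const_mul _ hpm]
  refine lintegral_congr_ae ?_
  filter_upwards [sg_ae n] with w hw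
  have hgm : Measurable fun r : ℝ => ENNReal.ofReal (r ^ (n - 1)) * ‖ga n k r‖ₑ ^ p :=
    ((measurable_id.pow_const _).ennreal_ofReal).mul
      ((ga_cont (by omega) k).measurable.enorm.pow_const p)
  rw [← lintegral_mul_const _ hgm, ← lintegral_indicator (measurableSet_Ioi),
    ← lintegral_indicator (measurableSet_Ioi.inter hA)]
  refine lintegral_congr fun r => ?_
  by_cases hr : r ∈ Ioi (0 : ℝ)
  · have hnr : ‖r • w‖ = r := by rw [norm_smul, hw, mul_one, Real.norm_of_nonneg (le_of_lt hr)]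
    rw [indicator_of_mem hr]
    by_cases hrA : r ∈ A
    · rw [indicator_of_mem (show r ∈ Ioi (0 : ℝ) ∩ A from ⟨hr, hrA⟩), indicator_of_mem]
      · rw [T_norm hn k P hP hh w hw r (le_of_lt hr), enorm_mul, enorm_mul, enorm_pow]
        have e1 : ‖-Complex.I‖ₑ = 1 := by
          rw [← ofReal_norm, norm_neg, Complex.norm_I, ENNReal.ofReal_one]
        have e2 : ‖((ga n k r : ℝ) : ℂ)‖ₑ = ‖ga n k r‖ₑ := by
          rw [← ofReal_norm, ← ofReal_norm, Complex.norm_real]
        rw [e1, one_pow, one_mul, e2, ENNReal.mul_rpow_of_nonneg _ _ hp]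
        ring
      · change ‖r • w‖ ∈ A
        rw [hnr]
        exact hrA
    · have h1 : r • w ∉ {x : E n | ‖x‖ ∈ A} := by
        intro h
        change ‖r • w‖ ∈ A at h
        rw [hnr] at h
        exact hrA h
      rw [indicator_of_notMem (show r ∉ Ioi (0 : ℝ) ∩ A from fun h => hrA h.2),
        indicator_of_notMem h1, mul_zero]
  · rw [indicator_of_notMem hr, indicator_of_notMem (show r ∉ Ioi (0 : ℝ) ∩ A from
      fun h => hr h.1)]

/-- the polynomial `(x_0 + i x_1)^k` -/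
noncomputable def Zp (hn : 2 ≤ n) (k : ℕ) : MvPolynomial (Fin n) ℂ :=
  (MvPolynomial.X ⟨0, by omega⟩ + MvPolynomial.C Complex.I * MvPolynomial.X ⟨1, by omega⟩) ^ k

theorem Zp_hom (hn : 2 ≤ n) (k : ℕ) : (Zp hn k).IsHomogeneous k := by
  unfold Zp
  have h1 : (MvPolynomial.X (⟨0, by omega⟩ : Fin n) +
      MvPolynomial.C Complex.I * MvPolynomial.X (⟨1, by omega⟩ : Fin n) :
        MvPolynomial (Fin n) ℂ).IsHomogeneous 1 := by
    refine (MvPolynomial.isHomogeneous_X ℂ _).add ?_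
    have := (MvPolynomial.isHomogeneous_C (Fin n) Complex.I).mul
      (MvPolynomial.isHomogeneous_X ℂ (⟨1, by omega⟩ : Fin n))
    simpa using this
  have := h1.pow k
  simpa using this

theorem Zp_harm (hn : 2 ≤ n) (k : ℕ) : Harm (Zp hn k) := by
  set Z : MvPolynomial (Fin n) ℂ := MvPolynomial.X (⟨0, by omega⟩ : Fin n) +
      MvPolynomial.C Complex.I * MvPolynomial.X (⟨1, by omega⟩ : Fin n) with hZ
  set a : Fin n → ℂ := fun i => if i = ⟨0, by omega⟩ then 1 else
    if i = ⟨1, by omega⟩ then Complex.I else 0 with ha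
  have h1 : ∀ i, MvPolynomial.pderiv i Z = MvPolynomial.C (a i) := by
    intro i
    rw [hZ, map_add, MvPolynomial.pderiv_C_mul, ha]
    simp only
    by_cases h0 : i = ⟨0, by omega⟩
    · subst h0
      rw [MvPolynomial.pderiv_X_self, MvPolynomial.pderiv_X_of_ne (by simp), if_pos rfl]
      simp
    · rw [MvPolynomial.pderiv_X_of_ne (fun h => h0 h.symm), if_neg h0]
      by_cases h1 : i = ⟨1, by omega⟩
      · subst h1
        rw [MvPolynomial.pderiv_X_self, if_pos rfl]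
        simp
      · rw [MvPolynomial.pderiv_X_of_ne (fun h => h1 h.symm), if_neg h1]
        simp
  have h2 : ∀ i, MvPolynomial.pderiv i (MvPolynomial.pderiv i (Z ^ k)) =
      ((k * (k - 1 : ℕ) : ℕ) : MvPolynomial (Fin n) ℂ) * Z ^ (k - 1 - 1) *
        MvPolynomial.C (a i ^ 2) := by
    intro i
    rw [Derivation.leibniz_pow, h1]
    simp only [smul_eq_mul, nsmul_eq_mul, map_pow, Nat.cast_mul]
    rw [mul_comm (Z ^ (k - 1)) (MvPolynomial.C (a i)), ← mul_assoc,
      ← map_natCast (MvPolynomial.C : ℂ →+* MvPolynomial (Fin n) ℂ) k, ← map_mul,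
      MvPolynomial.pderiv_C_mul, Derivation.leibniz_pow, h1]
    simp only [smul_eq_mul, nsmul_eq_mul, map_mul, map_natCast]
    ring
  unfold Harm Zp
  rw [← hZ, Finset.sum_congr rfl fun i _ => h2 i, ← Finset.mul_sum, ← map_sum]
  have h3 : ∑ i, a i ^ 2 = 0 := by
    rw [Finset.sum_eq_add (⟨0, by omega⟩ : Fin n) (⟨1, by omega⟩ : Fin n) (by simp)
      (fun c _ hc => by simp [ha, hc.1, hc.2]) (by simp) (by simp)]
    simp [ha]
  rw [h3, map_zero, mul_zero]

theorem Zp_ev (hn : 2 ≤ n) (k : ℕ) (w : E n) : ev (Zp hn k) w =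
    (((w ⟨0, by omega⟩ : ℝ) : ℂ) + Complex.I * ((w ⟨1, by omega⟩ : ℝ) : ℂ)) ^ k := by
  unfold Zp
  simp

theorem Zp_le (hn : 2 ≤ n) (k : ℕ) (w : E n) (hw : ‖w‖ = 1) : ‖ev (Zp hn k) w‖ ≤ 1 := by
  rw [Zp_ev, norm_pow]
  refine pow_le_one₀ (norm_nonneg _) ?_
  have h1 : ‖((w ⟨0, by omega⟩ : ℝ) : ℂ) + Complex.I * ((w ⟨1, by omega⟩ : ℝ) : ℂ)‖ ^ 2 ≤ 1 := by
    rw [mul_comm, ← Complex.normSq_eq_norm_sq, Complex.normSq_add_mul_I]
    have h2 : ∑ i, w i ^ 2 = 1 := by
      have := EuclideanSpace.norm_sq_eq w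
      rw [hw] at this
      simpa using this.symm
    have h3 : w (⟨0, by omega⟩ : Fin n) ^ 2 + w (⟨1, by omega⟩ : Fin n) ^ 2 =
        ∑ i ∈ ({⟨0, by omega⟩, ⟨1, by omega⟩} : Finset (Fin n)), w i ^ 2 := by
      rw [Finset.sum_pair (by simp)]
    rw [h3, ← h2]
    exact Finset.sum_le_sum_of_subset_of_nonneg (Finset.subset_univ _) fun i _ _ => sq_nonneg _
  nlinarith [norm_nonneg (((w ⟨0, by omega⟩ : ℝ) : ℂ) + Complex.I * ((w ⟨1, by omega⟩ : ℝ) : ℂ))]

/-- the first basis vector -/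
noncomputable def e0 (hn : 2 ≤ n) : E n := EuclideanSpace.single ⟨0, by omega⟩ 1

theorem e0_norm (hn : 2 ≤ n) : ‖e0 hn‖ = 1 := by simp [e0]

theorem Zp_e0 (hn : 2 ≤ n) (k : ℕ) : ev (Zp hn k) (e0 hn) = 1 := by
  rw [Zp_ev]
  simp [e0]

/-- the radial factor is bounded by the area of the sphere -/
theorem ga_le (hn : 2 ≤ n) (k : ℕ) (r : ℝ) (hr : 0 ≤ r) : |ga n k r| ≤ (sg n).real univ := by
  have hfin := sg_finite n
  have h1 := T_norm hn k (Zp hn k) (Zp_hom hn k) (Zp_harm hn k) (e0 hn) (e0_norm hn) r hr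
  rw [Zp_e0, mul_one] at h1
  have h2 : |ga n k r| = ‖T (ev (Zp hn k)) (r • e0 hn)‖ := by
    rw [h1, norm_mul, norm_pow, norm_neg, Complex.norm_I, one_pow, one_mul, Complex.norm_real,
      Real.norm_eq_abs]
  rw [h2]
  unfold T
  calc ‖∫ w, Complex.exp (-((⟪r • e0 hn, w⟫ : ℝ) : ℂ) * Complex.I) * ev (Zp hn k) w ∂(sg n)‖
      ≤ 1 * (sg n).real univ := by
        refine norm_integral_le_of_norm_le_const ?_
        filter_upwards [sg_ae n] with w hw
        rw [norm_mul, show -((⟪r • e0 hn, w⟫ : ℝ) : ℂ) * Complex.I =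
          ((-⟪r • e0 hn, w⟫ : ℝ) : ℂ) * Complex.I by push_cast; ring,
          Complex.norm_exp_ofReal_mul_I, one_mul]
        exact Zp_le hn k w hw
    _ = _ := one_mul _

/-- positivity of the norms of `(x_0 + i x_1)^k` -/
theorem Zp_pos (hn : 2 ≤ n) (k : ℕ) (p : ℝ) (hp : 0 < p) :
    ∫⁻ w, ‖ev (Zp hn k) w‖ₑ ^ p ∂(sg n) ≠ 0 := by
  intro h0
  have hm : Measurable fun w : E n => ‖ev (Zp hn k) w‖ₑ ^ p :=
    (ev_cont _).measurable.enorm.pow_const p
  rw [lintegral_eq_zero_iff hm] at h0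
  have h1 : ∫⁻ x, ‖ev (Zp hn k) x‖ₑ = 0 := by
    rw [polar (by omega) _ (ev_cont _).measurable.enorm, lintegral_eq_zero_iff']
    · filter_upwards [h0] with w hw
      simp only [Pi.zero_apply] at hw ⊢
      rw [ENNReal.rpow_eq_zero_iff_of_pos hp] at hw
      have : ev (Zp hn k) w = 0 := by simpa using hw
      have h2 : ∀ r : ℝ, ENNReal.ofReal (r ^ (n - 1)) * ‖ev (Zp hn k) (r • w)‖ₑ = 0 := by
        intro r
        rw [ev_smul k _ (Zp_hom hn k), this]
        simp
      simp_rw [h2]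
      simp
    · refine Measurable.aemeasurable ?_
      have hme : Measurable fun q : E n × ℝ => ‖ev (Zp hn k) (q.2 • q.1)‖ₑ :=
        ((ev_cont _).measurable.comp (measurable_snd.smul measurable_fst)).enorm
      apply Measurable.lintegral_prod_right
      exact ((measurable_snd.pow_const _).ennreal_ofReal).mul hme
  rw [lintegral_eq_zero_iff (ev_cont _).measurable.enorm] at h1
  have h2 : ev (Zp hn k) =ᵐ[volume] fun _ => (0 : ℂ) := by
    filter_upwards [h1] with x hx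
    simpa using hx
  have h3 := (Continuous.ae_eq_iff_eq volume (ev_cont _) continuous_const).1 h2
  have h4 := congrFun h3 (e0 hn)
  rw [Zp_e0] at h4
  exact one_ne_zero h4

theorem Zp_fin (hn : 2 ≤ n) (k : ℕ) (p : ℝ) (hp : 0 ≤ p) :
    ∫⁻ w, ‖ev (Zp hn k) w‖ₑ ^ p ∂(sg n) ≠ ⊤ := by
  have hfin := sg_finite n
  refine ne_top_of_le_ne_top (measure_ne_top (sg n) univ) ?_
  rw [← lintegral_one]
  refine lintegral_mono_ae ?_
  filter_upwards [sg_ae n] with w hw
  refine ENNReal.rpow_le_one ?_ hp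
  rw [← ofReal_norm, ← ENNReal.ofReal_one]
  exact ENNReal.ofReal_le_ofReal (Zp_le hn k w hw)

end Pool.Agent.W5h55.SH
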