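import Mathlib
import Pool.Agent.W5h55.SH.A6
set_option autoImplicit false

/-! `L^2` and `L^4` bounds of the radial factors. -/

open MeasureTheory Set Metric
open scoped ENNReal RealInnerProductSpace

namespace Pool.Agent.W5h55.SH

open Pool.Agent.H789R2.FR (E sg sg_finite sg_ae T polar)
open Pool.Agent.H789R2.FR.L2 (measurable_T norm_T_le)
open Pool.Agent.Y251.HR (shell shell2 planar_ball)

variable {n : ℕ}

theorem cancel {a b c : ℝ≥0∞} (hc0 : c ≠ 0) (hc : c ≠ ⊤) (h : a * c ≤ b * c) : a ≤ b :=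
  (ENNReal.mul_le_mul_iff_left hc0 hc).1 h

/-- the `L^2` bound -/
theorem ga_L2 (n : ℕ) (hn : 2 ≤ n) : ∃ C : ℝ, 0 < C ∧ ∀ (k : ℕ) (R : ℝ), 1 ≤ R →
    ∫⁻ r in Ioc R (2 * R), ENNReal.ofReal (r ^ (n - 1)) * ‖ga n k r‖ₑ ^ (2 : ℝ) ≤
      ENNReal.ofReal (C * R) := by
  obtain ⟨C, hC, h⟩ := shell2 n hn
  refine ⟨C, hC, fun k R hR => ?_⟩
  obtain ⟨M, hM⟩ := evb_bdd (Zp hn k)
  have h1 := h (evb (Zp hn k)) (evb_meas _) M hM R hR
  rw [T_evb] at h1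
  have h2 : ∫⁻ w, ‖evb (Zp hn k) w‖ₑ ^ 2 ∂(sg n) = ∫⁻ w, ‖ev (Zp hn k) w‖ₑ ^ (2 : ℝ) ∂(sg n) := by
    refine lintegral_congr_ae ?_
    filter_upwards [evb_ae (Zp hn k)] with w hw
    rw [hw, ← ENNReal.rpow_natCast]
    norm_num
  have h3 : ∫⁻ x in shell n R, ‖T (ev (Zp hn k)) x‖ₑ ^ 2 =
      ∫⁻ x in {x : E n | ‖x‖ ∈ Ioc R (2 * R)}, ‖T (ev (Zp hn k)) x‖ₑ ^ (2 : ℝ) := by
    rw [show shell n R = {x : E n | ‖x‖ ∈ Ioc R (2 * R)} from rfl]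
    refine lintegral_congr fun x => ?_
    rw [← ENNReal.rpow_natCast]
    norm_num
  rw [h2, h3, polar_harm hn k _ (Zp_hom hn k) (Zp_harm hn k) 2 (by norm_num) _
    measurableSet_Ioc] at h1
  have h4 := cancel (Zp_pos hn k 2 (by norm_num)) (Zp_fin hn k 2 (by norm_num)) h1
  have h5 : Ioi (0 : ℝ) ∩ Ioc R (2 * R) = Ioc R (2 * R) := by
    apply inter_eq_right.2
    intro r hr
    exact lt_trans (by linarith) hr.1
  rwa [h5] at h4

/-- the planar `L^4` bound -/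
theorem ga2_L4' (δ : ℝ) (hδ : 0 < δ) (hδ1 : δ ≤ 1) : ∃ C : ℝ, 0 < C ∧ ∀ (k : ℕ) (R : ℝ), 1 ≤ R →
    ∫⁻ r in Ioc 0 (2 * R), ENNReal.ofReal r * ‖ga 2 k r‖ₑ ^ (4 : ℝ) ≤
      ENNReal.ofReal (C * R ^ δ) := by
  obtain ⟨C, hC, h⟩ := planar_ball δ hδ hδ1
  refine ⟨C, hC, fun k R hR => ?_⟩
  have hn : 2 ≤ 2 := le_rfl
  obtain ⟨M, hM⟩ := evb_bdd (Zp hn k)
  have h1 := h (evb (Zp hn k)) (evb_meas _) M hM R hR
  rw [T_evb] at h1
  have h2 : ∫⁻ w, ‖evb (Zp hn k) w‖ₑ ^ 4 ∂(sg 2) = ∫⁻ w, ‖ev (Zp hn k) w‖ₑ ^ (4 : ℝ) ∂(sg 2) := by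
    refine lintegral_congr_ae ?_
    filter_upwards [evb_ae (Zp hn k)] with w hw
    rw [hw, ← ENNReal.rpow_natCast]
    norm_num
  have h3 : ∫⁻ x in closedBall (0 : E 2) (2 * R), ‖T (ev (Zp hn k)) x‖ₑ ^ 4 =
      ∫⁻ x in {x : E 2 | ‖x‖ ∈ Iic (2 * R)}, ‖T (ev (Zp hn k)) x‖ₑ ^ (4 : ℝ) := by
    have : closedBall (0 : E 2) (2 * R) = {x : E 2 | ‖x‖ ∈ Iic (2 * R)} := by
      ext x
      simp
    rw [this]
    refine lintegral_congr fun x => ?_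
    rw [← ENNReal.rpow_natCast]
    norm_num
  rw [h2, h3, polar_harm hn k _ (Zp_hom hn k) (Zp_harm hn k) 4 (by norm_num) _
    measurableSet_Iic] at h1
  have h4 := cancel (Zp_pos hn k 4 (by norm_num)) (Zp_fin hn k 4 (by norm_num)) h1
  have h5 : Ioi (0 : ℝ) ∩ Iic (2 * R) = Ioc 0 (2 * R) := rfl
  rw [h5] at h4
  simpa using h4

/-- the `L^4` bound in dimension `n` -/
def P4 (n : ℕ) : Prop := ∀ δ : ℝ, 0 < δ → δ ≤ 1 → ∃ C : ℝ, 0 < C ∧ ∀ (k : ℕ) (R : ℝ), 1 ≤ R →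
    ∫⁻ r in Ioc R (2 * R), ‖ga n k r‖ₑ ^ (4 : ℝ) ≤ ENNReal.ofReal (C * R ^ (3 + δ - 2 * n))

theorem P4_two : P4 2 := by
  intro δ hδ hδ1
  obtain ⟨C, hC, h⟩ := ga2_L4' δ hδ hδ1
  refine ⟨C, hC, fun k R hR => ?_⟩
  have hR0 : 0 < R := by linarith
  have h1 := h k R hR
  have h2 : ENNReal.ofReal R * ∫⁻ r in Ioc R (2 * R), ‖ga 2 k r‖ₑ ^ (4 : ℝ) ≤
      ENNReal.ofReal (C * R ^ δ) := by
    refine le_trans ?_ h1
    rw [← lintegral_const_mul' _ _ ENNReal.ofReal_ne_top]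
    calc ∫⁻ r in Ioc R (2 * R), ENNReal.ofReal R * ‖ga 2 k r‖ₑ ^ (4 : ℝ)
        ≤ ∫⁻ r in Ioc R (2 * R), ENNReal.ofReal r * ‖ga 2 k r‖ₑ ^ (4 : ℝ) := by
          refine setLIntegral_mono' measurableSet_Ioc fun r hr => ?_
          gcongr
          exact hr.1.le
      _ ≤ _ := lintegral_mono_set (Ioc_subset_Ioc_left hR0.le)
  have h3 : C * R ^ δ = R * (C * R ^ (3 + δ - 2 * ((2 : ℕ) : ℝ))) := by
    have : 3 + δ - 2 * ((2 : ℕ) : ℝ) = δ - 1 := by push_cast; ring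
    rw [this, Real.rpow_sub hR0, Real.rpow_one]
    field_simp
  rw [h3, ENNReal.ofReal_mul hR0.le, mul_comm, mul_comm (ENNReal.ofReal R)] at h2
  exact cancel (by simpa using hR0) ENNReal.ofReal_ne_top h2

/-- the recursion in the dimension -/
theorem ga_step (hn : 1 ≤ n) (k : ℕ) (r : ℝ) :
    r * (ar n * ga (n + 2) k r) = n * ar (n + 2) * ga n (k + 1) r := by
  unfold ga cc
  have h0 : (0 : ℝ) < n := by exact_mod_cast hn
  have h1 : ∏ i ∈ Finset.range (k + 1), ((n : ℝ) + 2 * i) =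
      n * ∏ i ∈ Finset.range k, (((n + 2 : ℕ) : ℝ) + 2 * i) := by
    rw [Finset.prod_range_succ', mul_comm]
    congr 1
    · simp
    · refine Finset.prod_congr rfl fun i _ => ?_
      push_cast
      ring
  have h2 : ∏ i ∈ Finset.range k, (((n + 2 : ℕ) : ℝ) + 2 * i) ≠ 0 :=
    (Finset.prod_pos fun i _ => by positivity).ne'
  rw [h1, show 2 * (k + 1) + n = 2 * k + (n + 2) by ring, pow_succ]
  field_simp

theorem ar_pos (hn : 1 ≤ n) : 0 < ar n := by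
  have : Nonempty (Fin n) := ⟨⟨0, hn⟩⟩
  have : Nontrivial (E n) := inferInstance
  unfold ar
  rw [measureReal_def]
  apply ENNReal.toReal_pos _ (measure_ne_top _ _)
  rw [Ne, Measure.measure_univ_eq_zero]
  exact Measure.toSphere_ne_zero _

theorem P4_step (hn : 1 ≤ n) (h : P4 n) : P4 (n + 2) := by
  intro δ hδ hδ1
  obtain ⟨C, hC, h⟩ := h δ hδ hδ1
  have ha := ar_pos hn
  have hb := ar_pos (show 1 ≤ n + 2 by omega)
  have hn0 : (0 : ℝ) < n := by exact_mod_cast hn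
  set c : ℝ := n * ar (n + 2) / ar n with hc
  have hc0 : 0 < c := by positivity
  refine ⟨c ^ 4 * C, by positivity, fun k R hR => ?_⟩
  have hR0 : 0 < R := by linarith
  have h1 : ∀ r ∈ Ioc R (2 * R), ‖ga (n + 2) k r‖ₑ ^ (4 : ℝ) ≤
      ENNReal.ofReal ((c / R) ^ 4) * ‖ga n (k + 1) r‖ₑ ^ (4 : ℝ) := by
    intro r hr
    have hr0 : 0 < r := lt_trans hR0 hr.1
    have e1 : ga (n + 2) k r = c / r * ga n (k + 1) r := by
      have := ga_step hn k r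
      rw [hc]
      field_simp
      linarith
    rw [e1, enorm_mul, ENNReal.mul_rpow_of_nonneg _ _ (by norm_num)]
    gcongr
    rw [← ofReal_norm, Real.norm_of_nonneg (by positivity),
      ENNReal.ofReal_rpow_of_nonneg (by positivity) (by norm_num)]
    apply ENNReal.ofReal_le_ofReal
    rw [show (4 : ℝ) = ((4 : ℕ) : ℝ) by norm_num, Real.rpow_natCast]
    gcongr
    exact hr.1.le
  calc ∫⁻ r in Ioc R (2 * R), ‖ga (n + 2) k r‖ₑ ^ (4 : ℝ)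
      ≤ ∫⁻ r in Ioc R (2 * R), ENNReal.ofReal ((c / R) ^ 4) * ‖ga n (k + 1) r‖ₑ ^ (4 : ℝ) :=
        setLIntegral_mono' measurableSet_Ioc h1
    _ = ENNReal.ofReal ((c / R) ^ 4) * ∫⁻ r in Ioc R (2 * R), ‖ga n (k + 1) r‖ₑ ^ (4 : ℝ) :=
        lintegral_const_mul' _ _ ENNReal.ofReal_ne_top
    _ ≤ ENNReal.ofReal ((c / R) ^ 4) * ENNReal.ofReal (C * R ^ (3 + δ - 2 * n)) := by
        gcongr
        exact h (k + 1) R hR
    _ = _ := by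
        rw [← ENNReal.ofReal_mul (by positivity)]
        congr 1
        have e2 : 3 + δ - 2 * ((n + 2 : ℕ) : ℝ) = (3 + δ - 2 * n) - ((4 : ℕ) : ℝ) := by
          push_cast; ring
        have e3 : R ^ (3 + δ - 2 * (n : ℝ) - ((4 : ℕ) : ℝ)) = R ^ (3 + δ - 2 * (n : ℝ)) / R ^ 4 := by
          rw [Real.rpow_sub hR0 _ ((4 : ℕ) : ℝ), Real.rpow_natCast]
        rw [e2, e3, div_pow]
        field_simp

/-- Jensen's inequality for the fourth power -/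
theorem jensen4 {α : Type*} [MeasurableSpace α] (μ : Measure α) (w f : α → ℝ≥0∞)
    (hw : Measurable w) (hf : Measurable f) :
    (∫⁻ a, w a * f a ∂μ) ^ (4 : ℝ) ≤
      (∫⁻ a, w a ∂μ) ^ (3 : ℝ) * ∫⁻ a, w a * f a ^ (4 : ℝ) ∂μ := by
  have h := ENNReal.lintegral_mul_norm_pow_le (μ := μ) (f := w) (g := fun a => w a * f a ^ (4 : ℝ))
    hw.aemeasurable (hw.mul (hf.pow_const _)).aemeasurable
    (by norm_num : (0 : ℝ) ≤ 3 / 4) (by norm_num : (0 : ℝ) ≤ 1 / 4) (by norm_num)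
  have e1 : ∀ a, w a ^ (3 / 4 : ℝ) * (w a * f a ^ (4 : ℝ)) ^ (1 / 4 : ℝ) = w a * f a := by
    intro a
    rw [ENNReal.mul_rpow_of_nonneg _ _ (by norm_num), ← ENNReal.rpow_mul, ← mul_assoc,
      ← ENNReal.rpow_add_of_nonneg _ _ (by norm_num) (by norm_num)]
    norm_num
  simp_rw [e1] at h
  refine (ENNReal.rpow_le_rpow h (by norm_num : (0 : ℝ) ≤ 4)).trans (le_of_eq ?_)
  rw [ENNReal.mul_rpow_of_nonneg _ _ (by norm_num), ← ENNReal.rpow_mul, ← ENNReal.rpow_mul]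
  norm_num

end Pool.Agent.W5h55.SH
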