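import Mathlib
import Pool.Agent.W5h55.SH.A7
set_option autoImplicit false

/-! The `L^4` bound of the radial factors in dimension three, and in all dimensions. -/

open MeasureTheory Set Metric
open scoped ENNReal RealInnerProductSpace Interval

namespace Pool.Agent.W5h55.SH

open Pool.Agent.H789R2.FR (E sg sg_finite sg_ae T polar)

/-- the radial factor in dimension three as an average of the one in dimension two -/
theorem ga3_eq (k : ℕ) (r : ℝ) : ar 2 * ga 3 k r =
    ar 3 * ∫ θ in (0 : ℝ)..(Real.pi / 2), Real.sin θ ^ (k + 1) * ga 2 k (r * Real.sin θ) := by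
  have h1 := phi_sin (2 * k + 2) (by omega) r
  rw [show 2 * k + 2 - 1 = 2 * k + 1 by omega, integral_sin_pow_odd] at h1
  have hc : Continuous fun θ : ℝ => Real.sin θ ^ (k + 1) * ga 2 k (r * Real.sin θ) := by
    have := ga_cont (n := 2) (by norm_num) k
    fun_prop
  have h2 : ∫ θ in (0 : ℝ)..Real.pi, Real.sin θ ^ (k + 1) * ga 2 k (r * Real.sin θ) =
      cc 2 k * r ^ k * ((2 * ∏ i ∈ Finset.range k, (2 * (i : ℝ) + 2) / (2 * i + 3)) *
        phi (2 * k + 2 + 1) r) := by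
    rw [← h1, ← intervalIntegral.integral_const_mul]
    refine intervalIntegral.integral_congr fun θ _ => ?_
    simp only [ga]
    rw [mul_pow, show 2 * k + 1 = (k + 1) + k by ring, pow_add]
    ring
  have h3 : ∫ θ in (Real.pi / 2)..Real.pi, Real.sin θ ^ (k + 1) * ga 2 k (r * Real.sin θ) =
      ∫ θ in (0 : ℝ)..(Real.pi / 2), Real.sin θ ^ (k + 1) * ga 2 k (r * Real.sin θ) := by
    have := intervalIntegral.integral_comp_sub_left (a := Real.pi / 2) (b := Real.pi)
      (fun θ => Real.sin θ ^ (k + 1) * ga 2 k (r * Real.sin θ)) Real.pi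
    simp only [Real.sin_pi_sub, sub_self] at this
    rw [this]
    congr 1
    ring
  have h4 := intervalIntegral.integral_add_adjacent_intervals
    (hc.intervalIntegrable 0 (Real.pi / 2)) (hc.intervalIntegrable (Real.pi / 2) Real.pi)
    (μ := volume)
  rw [h3, h2] at h4
  have h5 : ∫ θ in (0 : ℝ)..(Real.pi / 2), Real.sin θ ^ (k + 1) * ga 2 k (r * Real.sin θ) =
      cc 2 k * r ^ k * ((∏ i ∈ Finset.range k, (2 * (i : ℝ) + 2) / (2 * i + 3)) *
        phi (2 * k + 2 + 1) r) := by linarith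
  rw [h5, ga, Finset.prod_div_distrib]
  unfold cc
  have h6 : ∏ i ∈ Finset.range k, (((2 : ℕ) : ℝ) + 2 * i) =
      ∏ i ∈ Finset.range k, (2 * (i : ℝ) + 2) :=
    Finset.prod_congr rfl fun i _ => by push_cast; ring
  have h7 : ∏ i ∈ Finset.range k, (((3 : ℕ) : ℝ) + 2 * i) =
      ∏ i ∈ Finset.range k, (2 * (i : ℝ) + 3) :=
    Finset.prod_congr rfl fun i _ => by push_cast; ring
  rw [h6, h7]
  have h8 : ∏ i ∈ Finset.range k, (2 * (i : ℝ) + 2) ≠ 0 :=
    (Finset.prod_pos fun i _ => by positivity).ne'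
  have h9 : ∏ i ∈ Finset.range k, (2 * (i : ℝ) + 3) ≠ 0 :=
    (Finset.prod_pos fun i _ => by positivity).ne'
  have h10 : 2 * k + 3 = 2 * k + 2 + 1 := by ring
  rw [h10]
  field_simp

/-- the primitive -/
noncomputable def HH (k : ℕ) (r θ : ℝ) : ℝ :=
  Real.sin θ ^ (k + 1) * ga 2 (k + 1) (r * Real.sin θ) / r

theorem HH_cont (k : ℕ) (r : ℝ) : Continuous (HH k r) := by
  unfold HH
  have := ga_cont (n := 2) (by norm_num) (k + 1)
  fun_prop

theorem HH_deriv (k : ℕ) (r : ℝ) (hr : 0 < r) (θ : ℝ) (h0 : 0 < θ) (h1 : θ < Real.pi) :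
    HasDerivAt (HH k r) (Real.sin θ ^ (k + 1) * ga 2 k (r * Real.sin θ) * Real.cos θ) θ := by
  have hs : 0 < Real.sin θ := Real.sin_pos_of_pos_of_lt_pi h0 h1
  have h2 := phi_deriv (2 * k + 2) (by omega) (r * Real.sin θ) (by positivity)
  have h3 : HasDerivAt (fun θ => r * Real.sin θ) (r * Real.cos θ) θ :=
    (Real.hasDerivAt_sin θ).const_mul r
  have h4 := (h2.comp θ h3).const_mul (cc 2 (k + 1) / r ^ (k + 2))
  have h5 : HH k r = fun θ => cc 2 (k + 1) / r ^ (k + 2) *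
      ((fun s => s ^ (2 * k + 2) * phi (2 * k + 2 + 2) s) ∘ fun θ => r * Real.sin θ) θ := by
    funext t
    simp only [Function.comp_apply, HH, ga]
    rw [show 2 * (k + 1) + 2 = 2 * k + 2 + 2 by ring, mul_pow, mul_pow,
      show 2 * k + 2 = (k + 1) + (k + 1) by ring, pow_add r, pow_add (Real.sin t)]
    field_simp
    ring
  rw [h5]
  refine h4.congr_deriv ?_
  have h6 := cc_succ (n := 2) (by norm_num) k
  simp only [ga]
  rw [← h6, show 2 * k + 2 - 1 = 2 * k + 1 by omega, mul_pow, mul_pow,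
    show 2 * k + 1 = (k + 1) + k by ring, pow_add (Real.sin θ)]
  push_cast
  field_simp
  ring

/-- integration by parts -/
theorem parts3 (k : ℕ) (r : ℝ) (hr : 0 < r) (θ₀ : ℝ) (h0 : 0 ≤ θ₀) (h1 : θ₀ < Real.pi / 2) :
    ∫ θ in (0 : ℝ)..θ₀, Real.sin θ ^ (k + 1) * ga 2 k (r * Real.sin θ) =
      HH k r θ₀ / Real.cos θ₀ - ∫ θ in (0 : ℝ)..θ₀, HH k r θ * (Real.sin θ / Real.cos θ ^ 2) := by
  have hcos : ∀ θ ∈ Icc 0 θ₀, 0 < Real.cos θ := fun θ hθ =>
    Real.cos_pos_of_mem_Ioo ⟨by linarith [hθ.1, Real.pi_pos], lt_of_le_of_lt hθ.2 h1⟩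
  have hg := ga_cont (n := 2) (by norm_num) k
  have hH := HH_cont k r
  have hc1 : Continuous fun θ : ℝ => Real.sin θ ^ (k + 1) * ga 2 k (r * Real.sin θ) := by
    fun_prop
  have hc2 : ContinuousOn (fun θ => HH k r θ * (Real.sin θ / Real.cos θ ^ 2)) (Icc 0 θ₀) := by
    refine hH.continuousOn.mul (Real.continuous_sin.continuousOn.div (by fun_prop) ?_)
    intro θ hθ
    exact pow_ne_zero _ (hcos θ hθ).ne'
  have hI2 : IntervalIntegrable (fun θ => HH k r θ * (Real.sin θ / Real.cos θ ^ 2)) volume 0 θ₀ :=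
    ContinuousOn.intervalIntegrable (by rwa [uIcc_of_le h0])
  have key := intervalIntegral.integral_eq_sub_of_hasDerivAt_of_le h0
    (f := fun θ => HH k r θ / Real.cos θ)
    (f' := fun θ => Real.sin θ ^ (k + 1) * ga 2 k (r * Real.sin θ) +
      HH k r θ * (Real.sin θ / Real.cos θ ^ 2))
    (hH.continuousOn.div (by fun_prop) fun θ hθ => (hcos θ hθ).ne')
    (fun θ hθ => by
      have hc := hcos θ ⟨hθ.1.le, hθ.2.le⟩
      have h2 := (HH_deriv k r hr θ hθ.1 (by linarith [hθ.2])).div (Real.hasDerivAt_cos θ) hc.ne'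
      refine h2.congr_deriv ?_
      field_simp
      ring)
    ((hc1.intervalIntegrable _ _).add hI2)
  rw [intervalIntegral.integral_add (hc1.intervalIntegrable _ _) hI2] at key
  have h3 : HH k r 0 = 0 := by simp [HH]
  simp only [h3, zero_div, sub_zero] at key
  linarith

theorem weight3 (θ₀ : ℝ) (h0 : 0 ≤ θ₀) (h1 : θ₀ < Real.pi / 2) :
    ∫ θ in (0 : ℝ)..θ₀, Real.sin θ / Real.cos θ ^ 2 = 1 / Real.cos θ₀ - 1 := by
  have hcos : ∀ θ ∈ Icc 0 θ₀, 0 < Real.cos θ := fun θ hθ =>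
    Real.cos_pos_of_mem_Ioo ⟨by linarith [hθ.1, Real.pi_pos], lt_of_le_of_lt hθ.2 h1⟩
  have hc2 : ContinuousOn (fun θ => (Real.sin θ / Real.cos θ ^ 2)) (Icc 0 θ₀) := by
    refine (Real.continuous_sin.continuousOn.div (by fun_prop) ?_)
    intro θ hθ
    exact pow_ne_zero _ (hcos θ hθ).ne'
  have key := intervalIntegral.integral_eq_sub_of_hasDerivAt_of_le h0
    (f := fun θ => 1 / Real.cos θ) (f' := fun θ => Real.sin θ / Real.cos θ ^ 2)
    (continuousOn_const.div (by fun_prop) fun θ hθ => (hcos θ hθ).ne')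
    (fun θ hθ => by
      have hc := hcos θ ⟨hθ.1.le, hθ.2.le⟩
      have h2 := (hasDerivAt_const θ (1 : ℝ)).div (Real.hasDerivAt_cos θ) hc.ne'
      refine h2.congr_deriv ?_
      field_simp
      ring)
    (ContinuousOn.intervalIntegrable (by rwa [uIcc_of_le h0]))
  rw [key]
  simp

/-- the `L^4` norms as real integrals -/
theorem L4_real (n : ℕ) (hn : 1 ≤ n) (k : ℕ) (a b : ℝ) (hab : a ≤ b) :
    ∫⁻ r in Ioc a b, ‖ga n k r‖ₑ ^ (4 : ℝ) = ENNReal.ofReal (∫ r in a..b, ga n k r ^ 4) := by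
  have hc : Continuous fun r => ga n k r ^ 4 := (ga_cont hn k).pow 4
  rw [intervalIntegral.integral_of_le hab, ofReal_integral_eq_lintegral_ofReal]
  · refine lintegral_congr fun r => ?_
    rw [← ofReal_norm, Real.norm_eq_abs, ENNReal.ofReal_rpow_of_nonneg (abs_nonneg _) (by norm_num),
      show (4 : ℝ) = ((4 : ℕ) : ℝ) by norm_num, Real.rpow_natCast]
    congr 1
    rw [← abs_pow]
    exact abs_of_nonneg (by positivity)
  · exact (hc.integrableOn_Icc).mono_set Ioc_subset_Icc_self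
  · exact Filter.Eventually.of_forall fun r => by positivity

/-- the uniform bound after a dilation -/
theorem dil4 (δ : ℝ) (hδ : 0 < δ) (hδ1 : δ ≤ 1) : ∃ C : ℝ, 0 < C ∧ ∀ (k : ℕ) (R ρ : ℝ), 1 ≤ R →
    0 ≤ ρ → ρ ≤ 1 → ∫⁻ r in Ioc R (2 * R), ‖ρ * ga 2 k (r * ρ)‖ₑ ^ (4 : ℝ) ≤
      ENNReal.ofReal (C * R ^ (δ - 1)) := by
  obtain ⟨C, hC, h⟩ := P4_two δ hδ hδ1
  set A := (sg 2).real univ with hA
  have hA0 : 0 ≤ A := measureReal_nonneg
  refine ⟨A ^ 4 + C, by positivity, fun k R ρ hR hρ0 hρ1 => ?_⟩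
  have hR0 : 0 < R := by linarith
  have hRp : 0 < R ^ (δ - 1) := by positivity
  rcases le_total (ρ * R) 1 with hc | hc
  · calc ∫⁻ r in Ioc R (2 * R), ‖ρ * ga 2 k (r * ρ)‖ₑ ^ (4 : ℝ)
        ≤ ∫⁻ _r in Ioc R (2 * R), ENNReal.ofReal ((ρ * A) ^ 4) := by
          refine setLIntegral_mono' measurableSet_Ioc fun r hr => ?_
          rw [← ofReal_norm, ENNReal.ofReal_rpow_of_nonneg (norm_nonneg _) (by norm_num)]
          apply ENNReal.ofReal_le_ofReal
          rw [show (4 : ℝ) = ((4 : ℕ) : ℝ) by norm_num, Real.rpow_natCast, norm_mul,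
            Real.norm_of_nonneg hρ0, Real.norm_eq_abs]
          have := ga_le (n := 2) le_rfl k (r * ρ) (mul_nonneg (by linarith [hr.1]) hρ0)
          gcongr
      _ = ENNReal.ofReal ((ρ * A) ^ 4 * R) := by
          rw [lintegral_const, Measure.restrict_apply_univ, Real.volume_Ioc,
            ← ENNReal.ofReal_mul (by positivity)]
          congr 2
          ring
      _ ≤ _ := by
          apply ENNReal.ofReal_le_ofReal
          have h1 : ρ ^ 4 * R ≤ R ^ (δ - 1) := by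
            have h2 : ρ ≤ 1 / R := by rw [le_div_iff₀ hR0]; exact hc
            have h3 : ρ ^ 4 ≤ (1 / R) ^ 4 := by gcongr
            have h4 : (1 / R) ^ 4 * R ≤ R ^ (-1 : ℝ) := by
              rw [Real.rpow_neg_one, one_div, inv_pow, ← div_eq_inv_mul, div_le_iff₀ (by positivity),
                ← div_eq_inv_mul, le_div_iff₀ hR0]
              nlinarith [pow_le_pow_left₀ zero_le_one hR 2, mul_pos hR0 hR0]
            have h5 : R ^ (-1 : ℝ) ≤ R ^ (δ - 1) :=
              Real.rpow_le_rpow_of_exponent_le hR (by linarith)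
            calc ρ ^ 4 * R ≤ (1 / R) ^ 4 * R := by gcongr
              _ ≤ _ := h4.trans h5
          calc (ρ * A) ^ 4 * R = A ^ 4 * (ρ ^ 4 * R) := by ring
            _ ≤ A ^ 4 * R ^ (δ - 1) := by gcongr
            _ ≤ (A ^ 4 + C) * R ^ (δ - 1) := by
                gcongr
                linarith
  · have hρ : 0 < ρ := by
      rcases hρ0.eq_or_lt with h0 | h0
      · rw [← h0] at hc
        linarith
      · exact h0
    have h1 := h k (ρ * R) hc
    rw [show 2 * (ρ * R) = 2 * R * ρ by ring, mul_comm ρ R,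
      L4_real 2 (by norm_num) k _ _ (by nlinarith)] at h1
    have hCR : 0 < C * (R * ρ) ^ (3 + δ - 2 * ((2 : ℕ) : ℝ)) := by positivity
    rw [ENNReal.ofReal_le_ofReal_iff hCR.le] at h1
    have hcont : Continuous fun r => ga 2 k r ^ 4 := (ga_cont (by norm_num) k).pow 4
    have hcont2 : Continuous fun r => (ρ * ga 2 k (r * ρ)) ^ 4 := by
      have := ga_cont (n := 2) (by norm_num) k
      fun_prop
    have h2 : ∫⁻ r in Ioc R (2 * R), ‖ρ * ga 2 k (r * ρ)‖ₑ ^ (4 : ℝ) =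
        ENNReal.ofReal (∫ r in R..(2 * R), (ρ * ga 2 k (r * ρ)) ^ 4) := by
      rw [intervalIntegral.integral_of_le (by linarith), ofReal_integral_eq_lintegral_ofReal]
      · refine lintegral_congr fun r => ?_
        rw [← ofReal_norm, Real.norm_eq_abs,
          ENNReal.ofReal_rpow_of_nonneg (abs_nonneg _) (by norm_num),
          show (4 : ℝ) = ((4 : ℕ) : ℝ) by norm_num, Real.rpow_natCast]
        congr 1
        rw [← abs_pow]
        exact abs_of_nonneg (by positivity)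
      · exact (hcont2.integrableOn_Icc).mono_set Ioc_subset_Icc_self
      · exact Filter.Eventually.of_forall fun r => by positivity
    rw [h2]
    apply ENNReal.ofReal_le_ofReal
    have h3 : ∫ r in R..(2 * R), (ρ * ga 2 k (r * ρ)) ^ 4 =
        ρ ^ 3 * ∫ r in (R * ρ)..(2 * R * ρ), ga 2 k r ^ 4 := by
      simp_rw [mul_pow]
      rw [intervalIntegral.integral_const_mul,
        intervalIntegral.integral_comp_mul_right (fun r => ga 2 k r ^ 4) hρ.ne', smul_eq_mul]
      field_simp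
    rw [h3]
    have h4 : (3 + δ - 2 * ((2 : ℕ) : ℝ)) = δ - 1 := by push_cast; ring
    rw [h4] at h1
    have h5 : ρ ^ 3 * (R * ρ) ^ (δ - 1) ≤ R ^ (δ - 1) := by
      rw [Real.mul_rpow hR0.le hρ.le]
      have h6 : ρ ^ 3 * ρ ^ (δ - 1) ≤ 1 := by
        rw [← Real.rpow_natCast ρ 3, ← Real.rpow_add hρ]
        exact Real.rpow_le_one hρ.le hρ1 (by push_cast; linarith)
      calc ρ ^ 3 * (R ^ (δ - 1) * ρ ^ (δ - 1)) = R ^ (δ - 1) * (ρ ^ 3 * ρ ^ (δ - 1)) := by ring
        _ ≤ R ^ (δ - 1) * 1 := by gcongr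
        _ = _ := mul_one _
    calc ρ ^ 3 * ∫ r in (R * ρ)..(2 * R * ρ), ga 2 k r ^ 4
        ≤ ρ ^ 3 * (C * (R * ρ) ^ (δ - 1)) := by gcongr
      _ = C * (ρ ^ 3 * (R * ρ) ^ (δ - 1)) := by ring
      _ ≤ C * R ^ (δ - 1) := by gcongr
      _ ≤ (A ^ 4 + C) * R ^ (δ - 1) := by
          gcongr
          have : 0 ≤ A ^ 4 := by positivity
          linarith

end Pool.Agent.W5h55.SH
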