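import Mathlib
import Pool.Agent.W5h55.SH.A8
set_option autoImplicit false

/-! The `L^4` bound of the radial factors in all dimensions. -/

open MeasureTheory Set Metric
open scoped ENNReal RealInnerProductSpace Interval

namespace Pool.Agent.W5h55.SH

open Pool.Agent.H789R2.FR (E sg sg_finite sg_ae T polar)

theorem three_rpow (a b c : ℝ≥0∞) {p : ℝ} (hp : 0 ≤ p) :
    (a + b + c) ^ p ≤ ENNReal.ofReal (3 ^ p) * (a ^ p + b ^ p + c ^ p) := by
  have h1 : a + b + c ≤ 3 * max (max a b) c := by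
    calc a + b + c ≤ max (max a b) c + max (max a b) c + max (max a b) c := by
          gcongr
          · exact (le_max_left _ _).trans (le_max_left _ _)
          · exact (le_max_right _ _).trans (le_max_left _ _)
          · exact le_max_right _ _
      _ = _ := by ring
  refine (ENNReal.rpow_le_rpow h1 hp).trans ?_
  rw [ENNReal.mul_rpow_of_nonneg _ _ hp, ← ENNReal.ofReal_rpow_of_nonneg (by norm_num) hp,
    ENNReal.ofReal_ofNat]
  refine mul_le_mul' le_rfl ?_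
  rcases max_choice (max a b) c with h | h
  · rw [h]
    rcases max_choice a b with h' | h'
    · rw [h', add_assoc]
      exact le_self_add
    · rw [h', add_assoc, add_comm, add_assoc]
      exact le_self_add
  · rw [h]
    exact le_add_self

/-- swapping and Jensen: the fourth power of an average -/
theorem avg4 (s : Set ℝ) (hs : MeasurableSet s) (w : ℝ → ℝ≥0∞) (hw : Measurable w)
    (f : ℝ → ℝ → ℝ≥0∞) (hf : Measurable (Function.uncurry f)) (a b : ℝ) (W U : ℝ≥0∞)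
    (hW : ∫⁻ θ in s, w θ ≤ W) (hU : ∀ θ ∈ s, ∫⁻ r in Ioc a b, f θ r ^ (4 : ℝ) ≤ U) :
    ∫⁻ r in Ioc a b, (∫⁻ θ in s, w θ * f θ r) ^ (4 : ℝ) ≤ W ^ (4 : ℝ) * U := by
  have hf1 : ∀ r, Measurable fun θ => f θ r := fun r => hf.comp (measurable_id.prodMk measurable_const)
  have hf2 : ∀ θ, Measurable fun r => f θ r := fun θ => hf.comp (measurable_const.prodMk measurable_id)
  have hm : Measurable fun p : ℝ × ℝ => w p.2 * f p.2 p.1 ^ (4 : ℝ) :=
    (hw.comp measurable_snd).mul ((hf.comp measurable_swap).pow_const _)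
  calc ∫⁻ r in Ioc a b, (∫⁻ θ in s, w θ * f θ r) ^ (4 : ℝ)
      ≤ ∫⁻ r in Ioc a b, (∫⁻ θ in s, w θ) ^ (3 : ℝ) * ∫⁻ θ in s, w θ * f θ r ^ (4 : ℝ) :=
        lintegral_mono fun r => jensen4 _ _ _ hw (hf1 r)
    _ ≤ ∫⁻ r in Ioc a b, W ^ (3 : ℝ) * ∫⁻ θ in s, w θ * f θ r ^ (4 : ℝ) := by
        refine lintegral_mono fun r => ?_
        exact mul_le_mul' (ENNReal.rpow_le_rpow hW (by norm_num)) le_rfl
    _ = W ^ (3 : ℝ) * ∫⁻ r in Ioc a b, ∫⁻ θ in s, w θ * f θ r ^ (4 : ℝ) := by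
        rw [lintegral_const_mul]
        exact Measurable.lintegral_prod_right hm
    _ = W ^ (3 : ℝ) * ∫⁻ θ in s, ∫⁻ r in Ioc a b, w θ * f θ r ^ (4 : ℝ) := by
        congr 1
        exact lintegral_lintegral_swap hm.aemeasurable
    _ ≤ W ^ (3 : ℝ) * ∫⁻ θ in s, w θ * U := by
        refine mul_le_mul' le_rfl ?_
        refine setLIntegral_mono' hs fun θ hθ => ?_
        rw [lintegral_const_mul _ ((hf2 θ).pow_const _)]
        exact mul_le_mul' le_rfl (hU θ hθ)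
    _ = W ^ (3 : ℝ) * ((∫⁻ θ in s, w θ) * U) := by rw [lintegral_mul_const _ hw]
    _ ≤ W ^ (3 : ℝ) * (W * U) := by
        exact mul_le_mul' le_rfl (mul_le_mul' hW le_rfl)
    _ = _ := by
        rw [← mul_assoc, show (4 : ℝ) = 3 + 1 by norm_num,
          ENNReal.rpow_add_of_nonneg _ _ (by norm_num) (by norm_num), ENNReal.rpow_one]

/-- the two-dimensional factor on a smaller sphere -/
noncomputable def F2 (j : ℕ) (θ r : ℝ) : ℝ≥0∞ := ‖Real.sin θ * ga 2 j (r * Real.sin θ)‖ₑ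

/-- the weight which the integration by parts produces -/
noncomputable def W2 (R θ : ℝ) : ℝ≥0∞ := ENNReal.ofReal (Real.sin θ / Real.cos θ ^ 2 / R)

theorem F2_meas (j : ℕ) : Measurable (Function.uncurry (F2 j)) := by
  have hg0 := ga_cont (n := 2) (by norm_num) j
  have : Continuous fun p : ℝ × ℝ => Real.sin p.1 * ga 2 j (p.2 * Real.sin p.1) := by fun_prop
  exact this.measurable.enorm

theorem F2_meas' (j : ℕ) : Measurable fun p : ℝ × ℝ => F2 j p.2 p.1 := by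
  have hg0 := ga_cont (n := 2) (by norm_num) j
  have : Continuous fun p : ℝ × ℝ => Real.sin p.2 * ga 2 j (p.1 * Real.sin p.2) := by fun_prop
  exact this.measurable.enorm

theorem F2_meas1 (j : ℕ) (θ : ℝ) : Measurable fun r : ℝ => F2 j θ r := by
  have hg0 := ga_cont (n := 2) (by norm_num) j
  have : Continuous fun r : ℝ => Real.sin θ * ga 2 j (r * Real.sin θ) := by fun_prop
  exact this.measurable.enorm

theorem m13 (j : ℕ) (s : Set ℝ) : Measurable fun r => (∫⁻ θ in s, 1 * F2 j θ r) ^ (4 : ℝ) :=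
  (Measurable.lintegral_prod_right' (f := fun p : ℝ × ℝ => 1 * F2 j p.2 p.1)
    (measurable_const.mul (F2_meas' j))).pow_const _

theorem m23 (j : ℕ) (c : ℝ) (θ : ℝ) : Measurable fun r => (ENNReal.ofReal c * F2 j θ r) ^ (4 : ℝ) :=
  ((F2_meas1 j θ).const_mul _).pow_const _

theorem W2_meas (R : ℝ) : Measurable (W2 R) := by
  apply Measurable.ennreal_ofReal
  exact ((Real.measurable_sin.div (Real.measurable_cos.pow_const 2)).div_const R)

theorem W2_int (R : ℝ) (hR : 0 < R) (θ₀ : ℝ) (h0 : 0 ≤ θ₀) (h1 : θ₀ < Real.pi / 2) :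
    ∫⁻ θ in Ioc 0 θ₀, W2 R θ ≤ ENNReal.ofReal (1 / (Real.cos θ₀ * R)) := by
  have hpi := Real.pi_pos
  have hcos' : ∀ θ ∈ Icc 0 θ₀, 0 < Real.cos θ := fun θ hθ =>
    Real.cos_pos_of_mem_Ioo ⟨by linarith [hθ.1], lt_of_le_of_lt hθ.2 h1⟩
  have hcc : ContinuousOn (fun θ => (Real.sin θ / Real.cos θ ^ 2 / R)) (Icc 0 θ₀) := by
    refine (Real.continuous_sin.continuousOn.div (by fun_prop) ?_).div_const R
    intro θ hθ
    exact pow_ne_zero _ (hcos' θ hθ).ne'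
  unfold W2
  rw [← ofReal_integral_eq_lintegral_ofReal]
  · apply ENNReal.ofReal_le_ofReal
    rw [← intervalIntegral.integral_of_le h0, intervalIntegral.integral_div, weight3 θ₀ h0 h1]
    have h2 := hcos' θ₀ ⟨h0, le_rfl⟩
    calc (1 / Real.cos θ₀ - 1) / R ≤ (1 / Real.cos θ₀) / R := by
          apply div_le_div_of_nonneg_right _ hR.le
          linarith
      _ = _ := by rw [div_div]
  · exact (hcc.integrableOn_Icc).mono_set Ioc_subset_Icc_self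
  · refine (ae_restrict_iff' measurableSet_Ioc).2 (Filter.Eventually.of_forall fun θ hθ => ?_)
    have h2 : 0 ≤ Real.sin θ := Real.sin_nonneg_of_nonneg_of_le_pi hθ.1.le (by linarith [hθ.2])
    have h3 := hcos' θ ⟨hθ.1.le, hθ.2⟩
    show 0 ≤ Real.sin θ / Real.cos θ ^ 2 / R
    positivity

theorem ga3_split (k : ℕ) (r : ℝ) (hr0 : 0 < r) (θ₀ : ℝ) (hθ0 : 0 ≤ θ₀) (hθ1 : θ₀ < Real.pi / 2) :
    ga 3 k r = (ar 3 / ar 2) * ((∫ θ in θ₀..(Real.pi / 2), Real.sin θ ^ (k + 1) *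
        ga 2 k (r * Real.sin θ)) + HH k r θ₀ / Real.cos θ₀ -
        ∫ θ in (0 : ℝ)..θ₀, HH k r θ * (Real.sin θ / Real.cos θ ^ 2)) := by
  have ha := ar_pos (show 1 ≤ 2 by norm_num)
  have h1 := ga3_eq k r
  have hg := ga_cont (n := 2) (by norm_num) k
  have hcc : Continuous fun θ : ℝ => Real.sin θ ^ (k + 1) * ga 2 k (r * Real.sin θ) := by
    fun_prop
  rw [← intervalIntegral.integral_add_adjacent_intervals
    (hcc.intervalIntegrable 0 θ₀) (hcc.intervalIntegrable θ₀ (Real.pi / 2)),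
    parts3 k r hr0 θ₀ hθ0 hθ1] at h1
  rw [div_mul_eq_mul_div, eq_div_iff ha.ne', mul_comm, h1]
  ring

theorem sin_enorm_le (θ : ℝ) (h : 0 ≤ Real.sin θ) : ‖Real.sin θ‖ₑ ≤ 1 := by
  rw [← ofReal_norm, Real.norm_of_nonneg h, ← ENNReal.ofReal_one]
  exact ENNReal.ofReal_le_ofReal (Real.sin_le_one θ)

theorem sin_pow_enorm_le (j k : ℕ) (θ r : ℝ) (h : 0 ≤ Real.sin θ) :
    ‖Real.sin θ ^ (k + 1) * ga 2 j (r * Real.sin θ)‖ₑ ≤ F2 j θ r := by
  rw [F2, enorm_mul, enorm_mul]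
  refine mul_le_mul' ?_ le_rfl
  rw [enorm_pow, pow_succ]
  exact mul_le_of_le_one_left' (pow_le_one₀ (by positivity) (sin_enorm_le θ h))

theorem pt3 (k : ℕ) (R : ℝ) (hR : 0 < R) (r : ℝ) (hr : R < r) (θ₀ : ℝ) (hθ0 : 0 ≤ θ₀)
    (hθ1 : θ₀ < Real.pi / 2) :
    ‖ga 3 k r‖ₑ ≤ ENNReal.ofReal (ar 3 / ar 2) *
      ((∫⁻ θ in Ioc θ₀ (Real.pi / 2), 1 * F2 k θ r) +
        ENNReal.ofReal (1 / (Real.cos θ₀ * R)) * F2 (k + 1) θ₀ r +
        ∫⁻ θ in Ioc 0 θ₀, W2 R θ * F2 (k + 1) θ r) := by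
  have ha := ar_pos (show 1 ≤ 2 by norm_num)
  have hb := ar_pos (show 1 ≤ 3 by norm_num)
  have hc0 : 0 < ar 3 / ar 2 := by positivity
  have hpi := Real.pi_pos
  have hr0 : 0 < r := lt_trans hR hr
  have hsinθ : ∀ θ, 0 ≤ θ → θ ≤ Real.pi / 2 → 0 ≤ Real.sin θ := fun θ h1 h2 =>
    Real.sin_nonneg_of_nonneg_of_le_pi h1 (by linarith)
  have hcos' : ∀ θ, 0 ≤ θ → θ ≤ θ₀ → 0 < Real.cos θ := fun θ h1 h2 =>
    Real.cos_pos_of_mem_Ioo ⟨by linarith, by linarith⟩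
  rw [ga3_split k r hr0 θ₀ hθ0 hθ1, enorm_mul]
  have e1 : ‖ar 3 / ar 2‖ₑ = ENNReal.ofReal (ar 3 / ar 2) := by
    rw [← ofReal_norm, Real.norm_of_nonneg hc0.le]
  rw [e1]
  refine mul_le_mul' le_rfl ?_
  refine (enorm_sub_le).trans ?_
  refine add_le_add ((enorm_add_le _ _).trans (add_le_add ?_ ?_)) ?_
  · rw [intervalIntegral.integral_of_le hθ1.le]
    refine (enorm_integral_le_lintegral_enorm _).trans ?_
    refine setLIntegral_mono' measurableSet_Ioc fun θ hθ => ?_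
    rw [one_mul]
    exact sin_pow_enorm_le k k θ r (hsinθ θ (by linarith [hθ.1]) hθ.2)
  · have hc1 := hcos' θ₀ hθ0 le_rfl
    have e2 : HH k r θ₀ / Real.cos θ₀ = (1 / (Real.cos θ₀ * r)) *
        (Real.sin θ₀ ^ (k + 1) * ga 2 (k + 1) (r * Real.sin θ₀)) := by
      rw [HH]
      field_simp
    rw [e2, enorm_mul]
    refine mul_le_mul' ?_ (sin_pow_enorm_le (k + 1) k θ₀ r (hsinθ θ₀ hθ0 hθ1.le))
    rw [← ofReal_norm, Real.norm_of_nonneg (by positivity)]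
    apply ENNReal.ofReal_le_ofReal
    gcongr
  · rw [intervalIntegral.integral_of_le hθ0]
    refine (enorm_integral_le_lintegral_enorm _).trans ?_
    refine setLIntegral_mono' measurableSet_Ioc fun θ hθ => ?_
    have h2 := hsinθ θ hθ.1.le (by linarith [hθ.2])
    have hc1 := hcos' θ hθ.1.le hθ.2
    have e2 : HH k r θ * (Real.sin θ / Real.cos θ ^ 2) = (Real.sin θ / Real.cos θ ^ 2 / r) *
        (Real.sin θ ^ (k + 1) * ga 2 (k + 1) (r * Real.sin θ)) := by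
      rw [HH]
      field_simp
    rw [e2, enorm_mul]
    refine mul_le_mul' ?_ (sin_pow_enorm_le (k + 1) k θ r h2)
    rw [← ofReal_norm, Real.norm_of_nonneg (div_nonneg (div_nonneg h2 (by positivity)) hr0.le), W2]
    apply ENNReal.ofReal_le_ofReal
    have h4 : 0 ≤ Real.sin θ / Real.cos θ ^ 2 := div_nonneg h2 (by positivity)
    gcongr

theorem pt34 (k : ℕ) (R : ℝ) (hR : 0 < R) (r : ℝ) (hr : R < r) (θ₀ : ℝ) (hθ0 : 0 ≤ θ₀)
    (hθ1 : θ₀ < Real.pi / 2) :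
    ‖ga 3 k r‖ₑ ^ (4 : ℝ) ≤ ENNReal.ofReal ((ar 3 / ar 2) ^ 4 * 81) *
      ((∫⁻ θ in Ioc θ₀ (Real.pi / 2), 1 * F2 k θ r) ^ (4 : ℝ) +
        (ENNReal.ofReal (1 / (Real.cos θ₀ * R)) * F2 (k + 1) θ₀ r) ^ (4 : ℝ) +
        (∫⁻ θ in Ioc 0 θ₀, W2 R θ * F2 (k + 1) θ r) ^ (4 : ℝ)) := by
  have ha := ar_pos (show 1 ≤ 2 by norm_num)
  have hb := ar_pos (show 1 ≤ 3 by norm_num)
  have hc0 : 0 < ar 3 / ar 2 := by positivity
  refine (ENNReal.rpow_le_rpow (pt3 k R hR r hr θ₀ hθ0 hθ1) (by norm_num : (0 : ℝ) ≤ 4)).trans ?_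
  rw [ENNReal.mul_rpow_of_nonneg _ _ (by norm_num), ENNReal.ofReal_mul (by positivity), mul_assoc]
  refine mul_le_mul' (le_of_eq ?_) ?_
  · rw [ENNReal.ofReal_rpow_of_nonneg hc0.le (by norm_num),
      show (4 : ℝ) = ((4 : ℕ) : ℝ) by norm_num, Real.rpow_natCast]
  · refine (three_rpow _ _ _ (by norm_num)).trans (le_of_eq ?_)
    have h81 : (3 : ℝ) ^ (4 : ℝ) = 81 := by
      rw [show (4 : ℝ) = ((4 : ℕ) : ℝ) by norm_num, Real.rpow_natCast]
      norm_num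
    rw [h81]

theorem ofReal_pow4 (t U : ℝ) (ht : 0 ≤ t) :
    ENNReal.ofReal t ^ (4 : ℝ) * ENNReal.ofReal U = ENNReal.ofReal (t ^ 4 * U) := by
  rw [ENNReal.ofReal_rpow_of_nonneg ht (by norm_num), ← ENNReal.ofReal_mul (by positivity),
    show (4 : ℝ) = ((4 : ℕ) : ℝ) by norm_num, Real.rpow_natCast]

theorem add3 {s : Set ℝ} (c : ℝ) (f g h : ℝ → ℝ≥0∞) (hf : Measurable f) (hg : Measurable g)
    (A B D : ℝ≥0∞) (hA : ∫⁻ r in s, f r ≤ A) (hB : ∫⁻ r in s, g r ≤ B) (hD : ∫⁻ r in s, h r ≤ D) :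
    ∫⁻ r in s, ENNReal.ofReal c * (f r + g r + h r) ≤ ENNReal.ofReal c * (A + B + D) := by
  rw [lintegral_const_mul' _ _ ENNReal.ofReal_ne_top]
  refine mul_le_mul' le_rfl ?_
  have h1 : ∫⁻ r in s, (f r + g r + h r) = (∫⁻ r in s, (f r + g r)) + ∫⁻ r in s, h r :=
    lintegral_add_left (hf.add hg) _
  have h2 : ∫⁻ r in s, (f r + g r) = (∫⁻ r in s, f r) + ∫⁻ r in s, g r :=
    lintegral_add_left hf _
  rw [h1, h2]
  exact add_le_add (add_le_add hA hB) hD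

theorem int3 (k : ℕ) (R : ℝ) (hR : 1 ≤ R) (U : ℝ)
    (h : ∀ (j : ℕ) (ρ : ℝ), 0 ≤ ρ → ρ ≤ 1 →
      ∫⁻ r in Ioc R (2 * R), ‖ρ * ga 2 j (r * ρ)‖ₑ ^ (4 : ℝ) ≤ ENNReal.ofReal U)
    (hU : 0 ≤ U) (t q : ℝ) (ht0 : 0 < t) (ht1 : t ≤ 1) (hq : q = 1 / (Real.sin t * R))
    (hq0 : 0 ≤ q) :
    ∫⁻ r in Ioc R (2 * R), ‖ga 3 k r‖ₑ ^ (4 : ℝ) ≤
      ENNReal.ofReal ((ar 3 / ar 2) ^ 4 * 81 * (t ^ 4 * U + q ^ 4 * U + q ^ 4 * U)) := by
  have hR0 : 0 < R := by linarith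
  have hpi := Real.pi_pos
  have hpi2 : 1 < Real.pi / 2 := by
    have := Real.pi_gt_three
    linarith
  have ha := ar_pos (show 1 ≤ 2 by norm_num)
  have hb := ar_pos (show 1 ≤ 3 by norm_num)
  obtain ⟨θ₀, hθ₀⟩ : ∃ θ₀, θ₀ = Real.pi / 2 - t := ⟨_, rfl⟩
  have hθ0 : 0 ≤ θ₀ := by linarith
  have hθ1 : θ₀ < Real.pi / 2 := by linarith
  have hcos : Real.cos θ₀ = Real.sin t := by rw [hθ₀, Real.cos_pi_div_two_sub]
  have hF0 := F2_meas k
  have hF1 := F2_meas (k + 1)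
  have i1 : ∫⁻ r in Ioc R (2 * R), (∫⁻ θ in Ioc θ₀ (Real.pi / 2), 1 * F2 k θ r) ^ (4 : ℝ) ≤
      ENNReal.ofReal (t ^ 4 * U) := by
    rw [← ofReal_pow4 t U ht0.le]
    refine avg4 (Ioc θ₀ (Real.pi / 2)) measurableSet_Ioc (fun _ => 1) measurable_const (F2 k) hF0
      R (2 * R) (ENNReal.ofReal t) (ENNReal.ofReal U) ?_ (fun θ hθ => ?_)
    · rw [lintegral_const, one_mul, Measure.restrict_apply_univ, Real.volume_Ioc, hθ₀]
      apply le_of_eq
      congr 1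
      ring
    · exact h k (Real.sin θ) (Real.sin_nonneg_of_nonneg_of_le_pi (by linarith [hθ.1])
          (by linarith [hθ.2])) (Real.sin_le_one θ)
  have i2 : ∫⁻ r in Ioc R (2 * R), (ENNReal.ofReal (1 / (Real.cos θ₀ * R)) *
      F2 (k + 1) θ₀ r) ^ (4 : ℝ) ≤ ENNReal.ofReal (q ^ 4 * U) := by
    rw [← ofReal_pow4 q U hq0, hq, hcos]
    calc ∫⁻ r in Ioc R (2 * R), (ENNReal.ofReal (1 / (Real.sin t * R)) * F2 (k + 1) θ₀ r) ^ (4 : ℝ)
        = ∫⁻ r in Ioc R (2 * R), ENNReal.ofReal (1 / (Real.sin t * R)) ^ (4 : ℝ) *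
          F2 (k + 1) θ₀ r ^ (4 : ℝ) := by
          refine lintegral_congr fun r => ?_
          rw [ENNReal.mul_rpow_of_nonneg _ _ (by norm_num)]
      _ = ENNReal.ofReal (1 / (Real.sin t * R)) ^ (4 : ℝ) *
          ∫⁻ r in Ioc R (2 * R), F2 (k + 1) θ₀ r ^ (4 : ℝ) := by
          rw [lintegral_const_mul]
          exact (F2_meas1 (k + 1) θ₀).pow_const _
      _ ≤ _ := by
          refine mul_le_mul' le_rfl ?_
          exact h (k + 1) (Real.sin θ₀) (Real.sin_nonneg_of_nonneg_of_le_pi hθ0 (by linarith))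
            (Real.sin_le_one θ₀)
  have i3 : ∫⁻ r in Ioc R (2 * R), (∫⁻ θ in Ioc 0 θ₀, W2 R θ * F2 (k + 1) θ r) ^ (4 : ℝ) ≤
      ENNReal.ofReal (q ^ 4 * U) := by
    rw [← ofReal_pow4 q U hq0, hq]
    refine avg4 (Ioc 0 θ₀) measurableSet_Ioc (W2 R) (W2_meas R) (F2 (k + 1)) hF1
      R (2 * R) _ (ENNReal.ofReal U) ?_ (fun θ hθ => ?_)
    · rw [← hcos]
      exact W2_int R hR0 θ₀ hθ0 hθ1
    · exact h (k + 1) (Real.sin θ) (Real.sin_nonneg_of_nonneg_of_le_pi hθ.1.le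
          (by linarith [hθ.2])) (Real.sin_le_one θ)
  have m1 := m13 k (Ioc θ₀ (Real.pi / 2))
  have m2 := m23 (k + 1) (1 / (Real.cos θ₀ * R)) θ₀
  calc ∫⁻ r in Ioc R (2 * R), ‖ga 3 k r‖ₑ ^ (4 : ℝ)
      ≤ ∫⁻ r in Ioc R (2 * R), ENNReal.ofReal ((ar 3 / ar 2) ^ 4 * 81) *
      ((∫⁻ θ in Ioc θ₀ (Real.pi / 2), 1 * F2 k θ r) ^ (4 : ℝ) +
        (ENNReal.ofReal (1 / (Real.cos θ₀ * R)) * F2 (k + 1) θ₀ r) ^ (4 : ℝ) +
        (∫⁻ θ in Ioc 0 θ₀, W2 R θ * F2 (k + 1) θ r) ^ (4 : ℝ)) :=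
        setLIntegral_mono' measurableSet_Ioc fun r hr => pt34 k R hR0 r hr.1 θ₀ hθ0 hθ1
    _ ≤ ENNReal.ofReal ((ar 3 / ar 2) ^ 4 * 81) * (ENNReal.ofReal (t ^ 4 * U) +
        ENNReal.ofReal (q ^ 4 * U) + ENNReal.ofReal (q ^ 4 * U)) :=
        add3 _ _ _ _ m1 m2 _ _ _ i1 i2 i3
    _ = _ := by
        rw [← ENNReal.ofReal_add (by positivity) (by positivity),
          ← ENNReal.ofReal_add (by positivity) (by positivity),
          ← ENNReal.ofReal_mul (by positivity)]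

theorem P4_three : P4 3 := by
  intro δ hδ hδ1
  obtain ⟨C, hC, h⟩ := dil4 δ hδ hδ1
  have ha := ar_pos (show 1 ≤ 2 by norm_num)
  have hb := ar_pos (show 1 ≤ 3 by norm_num)
  have hpi := Real.pi_pos
  refine ⟨(ar 3 / ar 2) ^ 4 * 81 * (1 + 2 * (Real.pi / 2) ^ 4) * C, by positivity,
    fun k R hR => ?_⟩
  have hR0 : 0 < R := by linarith
  -- the cut
  obtain ⟨t, ht⟩ : ∃ t : ℝ, t = R ^ (-(1 / 2) : ℝ) := ⟨_, rfl⟩
  have ht0 : 0 < t := by
    rw [ht]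
    positivity
  have ht1 : t ≤ 1 := by
    rw [ht]
    exact Real.rpow_le_one_of_one_le_of_nonpos hR (by norm_num)
  have htR : t ^ 2 * R = 1 := by
    rw [ht, ← Real.rpow_natCast (R ^ (-(1 / 2) : ℝ)) 2, ← Real.rpow_mul hR0.le]
    norm_num
    rw [Real.rpow_neg_one, inv_mul_cancel₀ hR0.ne']
  have hpi2 : 1 < Real.pi / 2 := by
    have := Real.pi_gt_three
    linarith
  have hsin : 2 / Real.pi * t ≤ Real.sin t := Real.mul_le_sin ht0.le (by linarith)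
  have hsin0 : 0 < Real.sin t := lt_of_lt_of_le (by positivity) hsin
  -- the weight
  obtain ⟨q, hq⟩ : ∃ q : ℝ, q = 1 / (Real.sin t * R) := ⟨_, rfl⟩
  have hq0 : 0 < q := by
    rw [hq]
    positivity
  have hq4 : q ^ 4 ≤ (Real.pi / 2) ^ 4 * t ^ 4 := by
    have h1 : q ≤ Real.pi / 2 * t := by
      rw [hq, div_le_iff₀ (by positivity)]
      calc (1 : ℝ) = (Real.pi / 2 * t) * (2 / Real.pi * t * R) := by
            field_simp
            linarith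
        _ ≤ (Real.pi / 2 * t) * (Real.sin t * R) := by gcongr
    calc q ^ 4 ≤ (Real.pi / 2 * t) ^ 4 := by gcongr
      _ = _ := by ring
  have ht4 : t ^ 4 = R ^ (-2 : ℝ) := by
    rw [ht, ← Real.rpow_natCast (R ^ (-(1 / 2) : ℝ)) 4, ← Real.rpow_mul hR0.le]
    norm_num
  have hRp : 0 < R ^ (δ - 1) := by positivity
  refine (int3 k R hR (C * R ^ (δ - 1)) (fun j ρ h1 h2 => h j R ρ hR h1 h2) (by positivity)
    t q ht0 ht1 hq hq0.le).trans ?_
  apply ENNReal.ofReal_le_ofReal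
  have e3 : R ^ (3 + δ - 2 * ((3 : ℕ) : ℝ)) = t ^ 4 * R ^ (δ - 1) := by
    rw [ht4, ← Real.rpow_add hR0]
    congr 1
    push_cast
    ring
  rw [e3]
  have hc4 : 0 < (ar 3 / ar 2) ^ 4 * 81 := by positivity
  calc (ar 3 / ar 2) ^ 4 * 81 * (t ^ 4 * (C * R ^ (δ - 1)) + q ^ 4 * (C * R ^ (δ - 1)) +
        q ^ 4 * (C * R ^ (δ - 1)))
      ≤ (ar 3 / ar 2) ^ 4 * 81 * (t ^ 4 * (C * R ^ (δ - 1)) +
        ((Real.pi / 2) ^ 4 * t ^ 4) * (C * R ^ (δ - 1)) +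
        ((Real.pi / 2) ^ 4 * t ^ 4) * (C * R ^ (δ - 1))) := by
        gcongr
    _ = _ := by ring

/-- **the `L^4` bound in all dimensions** -/
theorem P4_all (n : ℕ) (hn : 2 ≤ n) : P4 n := by
  induction n using Nat.strong_induction_on with
  | _ n ih =>
    rcases eq_or_ne n 2 with h | h
    · subst h
      exact P4_two
    · rcases eq_or_ne n 3 with h' | h'
      · subst h'
        exact P4_three
      · obtain ⟨m, rfl⟩ : ∃ m, n = m + 2 := ⟨n - 2, by omega⟩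
        exact P4_step (by omega) (ih m (by omega) (by omega))

end Pool.Agent.W5h55.SH
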