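import Mathlib
import Pool.Agent.W5h55.SH.A9
set_option autoImplicit false

/-! The uniform `L^p` bounds of the radial factors. -/

open MeasureTheory Set Metric
open scoped ENNReal RealInnerProductSpace Interval

namespace Pool.Agent.W5h55.SH

open Pool.Agent.H789R2.FR (E sg sg_finite sg_ae T polar)

variable {n : ℕ}

theorem ga_meas (hn : 1 ≤ n) (k : ℕ) : Measurable fun r : ℝ => ‖ga n k r‖ₑ :=
  (ga_cont hn k).measurable.enorm

theorem wt_meas (n : ℕ) : Measurable fun r : ℝ => ENNReal.ofReal (r ^ (n - 1)) :=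
  ((continuous_id.pow (n - 1)).measurable).ennreal_ofReal

theorem sg_real : (sg n).real univ = ar n := by
  unfold ar sg
  rw [measureReal_def, measureReal_def, Measure.map_apply measurable_subtype_coe MeasurableSet.univ,
    preimage_univ]

theorem ga_le' (hn : 2 ≤ n) (k : ℕ) (r : ℝ) (hr : 0 ≤ r) : |ga n k r| ≤ ar n := by
  rw [← sg_real]
  exact ga_le hn k r hr

/-- `p < 4` on one shell -/
theorem ga_Lp_lt4 (n : ℕ) (hn : 2 ≤ n) (p : ℝ) (hp2 : 2 < p) (hp4 : p < 4)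
    (hp : 2 * (n : ℝ) < p * (n - 1)) : ∃ C η : ℝ, 0 < C ∧ 0 < η ∧ ∀ (k : ℕ) (R : ℝ), 1 ≤ R →
      ∫⁻ r in Ioc R (2 * R), ENNReal.ofReal (r ^ (n - 1)) * ‖ga n k r‖ₑ ^ p ≤
        ENNReal.ofReal (C * R ^ (-η)) := by
  obtain ⟨C2, hC2, h2⟩ := ga_L2 n hn
  obtain ⟨δ, hδ⟩ : ∃ δ : ℝ, δ = min 1 ((p * (n - 1) - 2 * n) / 4) := ⟨_, rfl⟩
  have hδ0 : 0 < δ := by
    rw [hδ]
    exact lt_min one_pos (by linarith)
  have hδ1 : δ ≤ 1 := by
    rw [hδ]
    exact min_le_left _ _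
  have hδ2 : δ ≤ (p * (n - 1) - 2 * n) / 4 := by
    rw [hδ]
    exact min_le_right _ _
  obtain ⟨C4, hC4, h4⟩ := P4_all n hn δ hδ0 hδ1
  obtain ⟨η, hη⟩ : ∃ η : ℝ, η = (p * (n - 1) - 2 * n) / 4 := ⟨_, rfl⟩
  refine ⟨C2 ^ ((4 - p) / 2) * (2 ^ (n - 1) * C4) ^ ((p - 2) / 2), η, by positivity,
    by linarith, fun k R hR => ?_⟩
  have hR0 : 0 < R := by linarith
  have hgm := ga_meas (show 1 ≤ n by omega) k
  have hwm := wt_meas n
  have e4 : ∫⁻ r in Ioc R (2 * R), ENNReal.ofReal (r ^ (n - 1)) * ‖ga n k r‖ₑ ^ (4 : ℝ) ≤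
      ENNReal.ofReal (2 ^ (n - 1) * C4 * R ^ (2 + δ - n)) := by
    calc ∫⁻ r in Ioc R (2 * R), ENNReal.ofReal (r ^ (n - 1)) * ‖ga n k r‖ₑ ^ (4 : ℝ)
        ≤ ∫⁻ r in Ioc R (2 * R), ENNReal.ofReal ((2 * R) ^ (n - 1)) * ‖ga n k r‖ₑ ^ (4 : ℝ) := by
          refine setLIntegral_mono' measurableSet_Ioc fun r hr => ?_
          refine mul_le_mul' (ENNReal.ofReal_le_ofReal ?_) le_rfl
          exact pow_le_pow_left₀ (by linarith [hr.1]) hr.2 _
      _ = ENNReal.ofReal ((2 * R) ^ (n - 1)) * ∫⁻ r in Ioc R (2 * R), ‖ga n k r‖ₑ ^ (4 : ℝ) :=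
          lintegral_const_mul' _ _ ENNReal.ofReal_ne_top
      _ ≤ ENNReal.ofReal ((2 * R) ^ (n - 1)) * ENNReal.ofReal (C4 * R ^ (3 + δ - 2 * n)) :=
          mul_le_mul' le_rfl (h4 k R hR)
      _ = _ := by
          rw [← ENNReal.ofReal_mul (by positivity)]
          congr 1
          have e5 : R ^ (2 + δ - n) = R ^ (n - 1) * R ^ (3 + δ - 2 * n) := by
            rw [← Real.rpow_natCast, ← Real.rpow_add hR0]
            congr 1
            rw [Nat.cast_sub (by omega : 1 ≤ n)]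
            push_cast
            ring
          rw [e5, mul_pow]
          ring
  have hin := ENNReal.lintegral_mul_norm_pow_le (μ := volume.restrict (Ioc R (2 * R)))
    (f := fun r => ENNReal.ofReal (r ^ (n - 1)) * ‖ga n k r‖ₑ ^ (2 : ℝ))
    (g := fun r => ENNReal.ofReal (r ^ (n - 1)) * ‖ga n k r‖ₑ ^ (4 : ℝ))
    (hwm.mul (hgm.pow_const _)).aemeasurable (hwm.mul (hgm.pow_const _)).aemeasurable
    (by linarith : (0 : ℝ) ≤ (4 - p) / 2) (by linarith : (0 : ℝ) ≤ (p - 2) / 2) (by ring)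
  have e1 : ∫⁻ r in Ioc R (2 * R), ENNReal.ofReal (r ^ (n - 1)) * ‖ga n k r‖ₑ ^ p =
      ∫⁻ r in Ioc R (2 * R),
        (ENNReal.ofReal (r ^ (n - 1)) * ‖ga n k r‖ₑ ^ (2 : ℝ)) ^ ((4 - p) / 2) *
        (ENNReal.ofReal (r ^ (n - 1)) * ‖ga n k r‖ₑ ^ (4 : ℝ)) ^ ((p - 2) / 2) := by
    refine lintegral_congr fun r => ?_
    rw [ENNReal.mul_rpow_of_nonneg _ _ (by linarith), ENNReal.mul_rpow_of_nonneg _ _ (by linarith),
      mul_mul_mul_comm, ← ENNReal.rpow_add_of_nonneg _ _ (by linarith) (by linarith),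
      ← ENNReal.rpow_mul, ← ENNReal.rpow_mul,
      ← ENNReal.rpow_add_of_nonneg _ _ (by linarith) (by linarith)]
    have e2 : (4 - p) / 2 + (p - 2) / 2 = 1 := by ring
    have e3 : 2 * ((4 - p) / 2) + 4 * ((p - 2) / 2) = p := by ring
    rw [e2, e3, ENNReal.rpow_one]
  rw [e1]
  refine hin.trans ?_
  refine (mul_le_mul' (ENNReal.rpow_le_rpow (h2 k R hR) (by linarith))
    (ENNReal.rpow_le_rpow e4 (by linarith))).trans ?_
  rw [ENNReal.ofReal_rpow_of_nonneg (by positivity) (by linarith),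
    ENNReal.ofReal_rpow_of_nonneg (by positivity) (by linarith),
    ← ENNReal.ofReal_mul (by positivity)]
  apply ENNReal.ofReal_le_ofReal
  rw [Real.mul_rpow hC2.le hR0.le, Real.mul_rpow (by positivity) (by positivity),
    ← Real.rpow_mul hR0.le]
  have e6 : R ^ ((4 - p) / 2) * R ^ ((2 + δ - n) * ((p - 2) / 2)) ≤ R ^ (-η) := by
    rw [← Real.rpow_add hR0]
    apply Real.rpow_le_rpow_of_exponent_le hR
    have h5 : δ * ((p - 2) / 2) ≤ (p * (n - 1) - 2 * n) / 4 * 1 :=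
      mul_le_mul hδ2 (by linarith) (by linarith) (by linarith)
    rw [hη]
    nlinarith
  have hpos : 0 < C2 ^ ((4 - p) / 2) * (2 ^ (n - 1) * C4) ^ ((p - 2) / 2) := by positivity
  calc C2 ^ ((4 - p) / 2) * R ^ ((4 - p) / 2) *
        ((2 ^ (n - 1) * C4) ^ ((p - 2) / 2) * R ^ ((2 + δ - n) * ((p - 2) / 2)))
      = C2 ^ ((4 - p) / 2) * (2 ^ (n - 1) * C4) ^ ((p - 2) / 2) *
        (R ^ ((4 - p) / 2) * R ^ ((2 + δ - n) * ((p - 2) / 2))) := by ring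
    _ ≤ _ := mul_le_mul_of_nonneg_left e6 hpos.le

/-- all `p` on one shell -/
theorem ga_Lp (n : ℕ) (hn : 3 ≤ n) (p : ℝ) (hp : 2 * (n : ℝ) / (n - 1) < p) :
    ∃ C η : ℝ, 0 < C ∧ 0 < η ∧ ∀ (k : ℕ) (R : ℝ), 1 ≤ R →
      ∫⁻ r in Ioc R (2 * R), ENNReal.ofReal (r ^ (n - 1)) * ‖ga n k r‖ₑ ^ p ≤
        ENNReal.ofReal (C * R ^ (-η)) := by
  have hn' : (3 : ℝ) ≤ n := by exact_mod_cast hn
  have hp2 : 2 < p := by
    refine lt_of_le_of_lt ?_ hp
    rw [le_div_iff₀ (by linarith)]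
    linarith
  rw [div_lt_iff₀ (by linarith)] at hp
  rcases lt_or_ge p 4 with h4 | h4
  · exact ga_Lp_lt4 n (by omega) p hp2 h4 hp
  · obtain ⟨C, η, hC, hη, h⟩ := ga_Lp_lt4 n (by omega) (7 / 2) (by norm_num) (by norm_num)
      (by linarith)
    have hA := ar_pos (show 1 ≤ n by omega)
    refine ⟨(ar n) ^ (p - 7 / 2) * C, η, by positivity, hη, fun k R hR => ?_⟩
    have hR0 : 0 < R := by linarith
    calc ∫⁻ r in Ioc R (2 * R), ENNReal.ofReal (r ^ (n - 1)) * ‖ga n k r‖ₑ ^ p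
        ≤ ∫⁻ r in Ioc R (2 * R), ENNReal.ofReal ((ar n) ^ (p - 7 / 2)) *
            (ENNReal.ofReal (r ^ (n - 1)) * ‖ga n k r‖ₑ ^ (7 / 2 : ℝ)) := by
          refine setLIntegral_mono' measurableSet_Ioc fun r hr => ?_
          have h1 : ‖ga n k r‖ₑ ≤ ENNReal.ofReal (ar n) := by
            rw [← ofReal_norm, Real.norm_eq_abs]
            exact ENNReal.ofReal_le_ofReal (ga_le' (n := n) (by omega) k r (by linarith [hr.1]))
          have h2 : ‖ga n k r‖ₑ ^ p = ‖ga n k r‖ₑ ^ (p - 7 / 2) * ‖ga n k r‖ₑ ^ (7 / 2 : ℝ) := by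
            rw [← ENNReal.rpow_add_of_nonneg _ _ (by linarith) (by norm_num)]
            congr 1
            ring
          have h3 : ‖ga n k r‖ₑ ^ (p - 7 / 2) ≤ ENNReal.ofReal ((ar n) ^ (p - 7 / 2)) := by
            rw [← ENNReal.ofReal_rpow_of_nonneg hA.le (by linarith)]
            exact ENNReal.rpow_le_rpow h1 (by linarith)
          rw [h2, ← mul_assoc, mul_comm (ENNReal.ofReal (r ^ (n - 1))), mul_assoc]
          exact mul_le_mul' h3 le_rfl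
      _ = ENNReal.ofReal ((ar n) ^ (p - 7 / 2)) * ∫⁻ r in Ioc R (2 * R),
            (ENNReal.ofReal (r ^ (n - 1)) * ‖ga n k r‖ₑ ^ (7 / 2 : ℝ)) :=
          lintegral_const_mul' _ _ ENNReal.ofReal_ne_top
      _ ≤ ENNReal.ofReal ((ar n) ^ (p - 7 / 2)) * ENNReal.ofReal (C * R ^ (-η)) :=
          mul_le_mul' le_rfl (h k R hR)
      _ = _ := by
          rw [← ENNReal.ofReal_mul (by positivity), mul_assoc]

theorem pow_cover (x : ℝ) (hx : 1 < x) : ∃ j : ℕ, x ∈ Ioc ((2 : ℝ) ^ j) (2 * 2 ^ j) := by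
  obtain ⟨j, hj1, hj2⟩ := exists_nat_pow_near hx.le (by norm_num : (1 : ℝ) < 2)
  rcases hj1.eq_or_lt with h0 | h0
  · rcases Nat.eq_zero_or_pos j with hj0 | hj0
    · subst hj0
      rw [pow_zero] at h0
      linarith
    · refine ⟨j - 1, ?_, ?_⟩
      · rw [← h0]
        exact pow_lt_pow_right₀ (by norm_num) (by omega)
      · rw [← h0, ← pow_succ']
        apply le_of_eq
        congr 1
        omega
  · refine ⟨j, h0, ?_⟩
    rw [← pow_succ']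
    exact hj2.le

/-- **the uniform bound of the radial factors** -/
theorem ga_all (n : ℕ) (hn : 3 ≤ n) (p : ℝ) (hp : 2 * (n : ℝ) / (n - 1) < p) :
    ∃ C : ℝ, 0 < C ∧ ∀ k : ℕ,
      ∫⁻ r in Ioi (0 : ℝ), ENNReal.ofReal (r ^ (n - 1)) * ‖ga n k r‖ₑ ^ p ≤
        ENNReal.ofReal C := by
  have hn' : (3 : ℝ) ≤ n := by exact_mod_cast hn
  have hp2 : 2 < p := by
    refine lt_of_le_of_lt ?_ hp
    rw [le_div_iff₀ (by linarith)]
    linarith
  obtain ⟨C, η, hC, hη, h⟩ := ga_Lp n hn p hp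
  have hA := ar_pos (show 1 ≤ n by omega)
  have hgeo : Summable fun j : ℕ => ((2 : ℝ) ^ (-η)) ^ j := by
    apply summable_geometric_of_lt_one (by positivity)
    exact Real.rpow_lt_one_of_one_lt_of_neg (by norm_num) (by linarith)
  obtain ⟨G, hG⟩ : ∃ G : ℝ, G = ∑' j : ℕ, ((2 : ℝ) ^ (-η)) ^ j := ⟨_, rfl⟩
  have hG0 : 0 ≤ G := by
    rw [hG]
    exact tsum_nonneg fun j => by positivity
  refine ⟨(ar n) ^ p + C * G, by positivity, fun k => ?_⟩
  have hcover : (Ioi (0 : ℝ)) ⊆ Ioc 0 1 ∪ ⋃ j : ℕ, Ioc ((2 : ℝ) ^ j) (2 * 2 ^ j) := by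
    intro x hx
    rcases le_or_gt x 1 with h1 | h1
    · exact Or.inl ⟨hx, h1⟩
    · right
      rw [mem_iUnion]
      exact pow_cover x h1
  have h1 : ∫⁻ r in Ioc (0 : ℝ) 1, ENNReal.ofReal (r ^ (n - 1)) * ‖ga n k r‖ₑ ^ p ≤
      ENNReal.ofReal ((ar n) ^ p) := by
    calc ∫⁻ r in Ioc (0 : ℝ) 1, ENNReal.ofReal (r ^ (n - 1)) * ‖ga n k r‖ₑ ^ p
        ≤ ∫⁻ r in Ioc (0 : ℝ) 1, ENNReal.ofReal ((ar n) ^ p) := by
          refine setLIntegral_mono' measurableSet_Ioc fun r hr => ?_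
          have h1 : ‖ga n k r‖ₑ ≤ ENNReal.ofReal (ar n) := by
            rw [← ofReal_norm, Real.norm_eq_abs]
            exact ENNReal.ofReal_le_ofReal (ga_le' (n := n) (by omega) k r hr.1.le)
          have h3 : ‖ga n k r‖ₑ ^ p ≤ ENNReal.ofReal ((ar n) ^ p) := by
            rw [← ENNReal.ofReal_rpow_of_nonneg hA.le (by linarith)]
            exact ENNReal.rpow_le_rpow h1 (by linarith)
          have h4 : ENNReal.ofReal (r ^ (n - 1)) ≤ 1 := by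
            rw [← ENNReal.ofReal_one]
            exact ENNReal.ofReal_le_ofReal (pow_le_one₀ hr.1.le hr.2)
          exact (mul_le_mul' h4 h3).trans (le_of_eq (one_mul _))
      _ = _ := by
          rw [lintegral_const, Measure.restrict_apply_univ, Real.volume_Ioc]
          norm_num
  calc ∫⁻ r in Ioi (0 : ℝ), ENNReal.ofReal (r ^ (n - 1)) * ‖ga n k r‖ₑ ^ p
      ≤ ∫⁻ r in Ioc 0 1 ∪ ⋃ j : ℕ, Ioc ((2 : ℝ) ^ j) (2 * 2 ^ j),
          ENNReal.ofReal (r ^ (n - 1)) * ‖ga n k r‖ₑ ^ p := lintegral_mono_set hcover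
    _ ≤ (∫⁻ r in Ioc (0 : ℝ) 1, ENNReal.ofReal (r ^ (n - 1)) * ‖ga n k r‖ₑ ^ p) +
        ∫⁻ r in ⋃ j : ℕ, Ioc ((2 : ℝ) ^ j) (2 * 2 ^ j),
          ENNReal.ofReal (r ^ (n - 1)) * ‖ga n k r‖ₑ ^ p :=
        lintegral_union_le (μ := volume) _ _ _
    _ ≤ (∫⁻ r in Ioc (0 : ℝ) 1, ENNReal.ofReal (r ^ (n - 1)) * ‖ga n k r‖ₑ ^ p) +
        ∑' j : ℕ, ∫⁻ r in Ioc ((2 : ℝ) ^ j) (2 * 2 ^ j),
          ENNReal.ofReal (r ^ (n - 1)) * ‖ga n k r‖ₑ ^ p :=
        add_le_add le_rfl (lintegral_iUnion_le _ _)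
    _ ≤ ENNReal.ofReal ((ar n) ^ p) + ∑' j : ℕ, ENNReal.ofReal (C * ((2 : ℝ) ^ (-η)) ^ j) := by
        refine add_le_add h1 (ENNReal.tsum_le_tsum fun j => ?_)
        have h4 := h k ((2 : ℝ) ^ j) (one_le_pow₀ (by norm_num))
        have h5 : ((2 : ℝ) ^ j) ^ (-η) = ((2 : ℝ) ^ (-η)) ^ j := by
          rw [← Real.rpow_natCast, ← Real.rpow_natCast, ← Real.rpow_mul (by norm_num),
            ← Real.rpow_mul (by norm_num), mul_comm]
        rw [h5] at h4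
        exact h4
    _ = _ := by
        rw [← ENNReal.ofReal_tsum_of_nonneg (fun j => by positivity)
            (hgeo.mul_left C), tsum_mul_left, ← hG, ← ENNReal.ofReal_add (by positivity)
            (by positivity)]

end Pool.Agent.W5h55.SH
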