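import Mathlib
import Pool.Agent.W5h55.SH.A10
set_option autoImplicit false

/-! The square function estimate for spherical harmonics. -/

open MeasureTheory Set Metric
open scoped ENNReal RealInnerProductSpace Interval

namespace Pool.Agent.W5h55.SH

open Pool.Agent.H789R2.FR (E sg sg_finite sg_ae T polar)

variable {n : ℕ}

theorem jens {ι : Type*} (s : Finset ι) (w b : ι → ℝ≥0∞) (hw : ∀ i ∈ s, w i ≠ ⊤) {t : ℝ}
    (ht : 1 ≤ t) :
    (∑ i ∈ s, w i * b i) ^ t ≤ (∑ i ∈ s, w i) ^ (t - 1) * ∑ i ∈ s, w i * b i ^ t := by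
  obtain ⟨W, hW⟩ : ∃ W, W = ∑ i ∈ s, w i := ⟨_, rfl⟩
  have hWt : W ≠ ⊤ := by
    rw [hW]
    exact ENNReal.sum_ne_top.2 hw
  rcases eq_or_ne W 0 with h0 | h0
  · have h1 : ∀ i ∈ s, w i = 0 := by
      intro i hi
      rw [hW] at h0
      exact (Finset.sum_eq_zero_iff.1 h0) i hi
    have h2 : ∑ i ∈ s, w i * b i = 0 := by
      refine Finset.sum_eq_zero fun i hi => ?_
      rw [h1 i hi, zero_mul]
    rw [h2, ENNReal.zero_rpow_of_pos (by linarith)]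
    exact bot_le
  · have h1 : ∑ i ∈ s, w i / W = 1 := by
      simp_rw [div_eq_mul_inv]
      rw [← Finset.sum_mul, ← hW, ENNReal.mul_inv_cancel h0 hWt]
    have h2 := ENNReal.rpow_arith_mean_le_arith_mean_rpow s (fun i => w i / W) b h1 ht
    have h3 : ∑ i ∈ s, w i * b i = W * ∑ i ∈ s, w i / W * b i := by
      rw [Finset.mul_sum]
      refine Finset.sum_congr rfl fun i _ => ?_
      rw [← mul_assoc, ENNReal.mul_div_cancel h0 hWt]
    have h4 : ∑ i ∈ s, w i * b i ^ t = W * ∑ i ∈ s, w i / W * b i ^ t := by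
      rw [Finset.mul_sum]
      refine Finset.sum_congr rfl fun i _ => ?_
      rw [← mul_assoc, ENNReal.mul_div_cancel h0 hWt]
    rw [h3, h4, ← hW, ENNReal.mul_rpow_of_nonneg _ _ (by linarith), ← mul_assoc]
    have h5 : W ^ (t - 1) * W = W ^ t := by
      nth_rewrite 2 [← ENNReal.rpow_one W]
      rw [← ENNReal.rpow_add_of_nonneg _ _ (by linarith) (by norm_num)]
      congr 1
      ring
    rw [h5]
    exact mul_le_mul' le_rfl h2

theorem T_ev_enorm (hn : 2 ≤ n) (k : ℕ) (P : MvPolynomial (Fin n) ℂ) (hP : P.IsHomogeneous k)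
    (hh : Harm P) (w : E n) (hw : ‖w‖ = 1) (r : ℝ) (hr : 0 ≤ r) :
    ‖T (ev P) (r • w)‖ₑ = ‖ga n k r‖ₑ * ‖ev P w‖ₑ := by
  rw [T_norm hn k P hP hh w hw r hr, enorm_mul, enorm_mul, enorm_pow]
  have e1 : ‖-Complex.I‖ₑ = 1 := by
    rw [← ofReal_norm, norm_neg, Complex.norm_I, ENNReal.ofReal_one]
  have e2 : ‖((ga n k r : ℝ) : ℂ)‖ₑ = ‖ga n k r‖ₑ := by
    rw [← ofReal_norm, ← ofReal_norm, Complex.norm_real]
  rw [e1, one_pow, one_mul, e2]

/-- **the square function estimate** -/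
theorem sqfun (n : ℕ) (hn : 3 ≤ n) (p : ℝ) (hp : 2 * (n : ℝ) / (n - 1) < p) :
    ∃ C : ℝ, 0 < C ∧ ∀ (s : Finset ℕ) (k : ℕ → ℕ) (P : ℕ → MvPolynomial (Fin n) ℂ),
      (∀ i ∈ s, (P i).IsHomogeneous (k i)) → (∀ i ∈ s, Harm (P i)) →
      ∫⁻ x : E n, (∑ i ∈ s, ‖T (ev (P i)) x‖ₑ ^ (2 : ℝ)) ^ (p / 2) ≤
        ENNReal.ofReal C * ∫⁻ w, (∑ i ∈ s, ‖ev (P i) w‖ₑ ^ (2 : ℝ)) ^ (p / 2) ∂(sg n) := by
  have hn' : (3 : ℝ) ≤ n := by exact_mod_cast hn
  have hp2 : 2 < p := by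
    refine lt_of_le_of_lt ?_ hp
    rw [le_div_iff₀ (by linarith)]
    linarith
  obtain ⟨C, hC, h⟩ := ga_all n hn p hp
  refine ⟨C, hC, fun s k P hP hh => ?_⟩
  have hm1 : Measurable fun x : E n => (∑ i ∈ s, ‖T (ev (P i)) x‖ₑ ^ (2 : ℝ)) ^ (p / 2) := by
    refine Measurable.pow_const ?_ _
    refine Finset.measurable_fun_sum _ fun i _ => ?_
    exact (T_cont_meas (P i)).enorm.pow_const _
  have hm2 : Measurable fun w : E n => (∑ i ∈ s, ‖ev (P i) w‖ₑ ^ (2 : ℝ)) ^ (p / 2) := by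
    refine Measurable.pow_const ?_ _
    refine Finset.measurable_fun_sum _ fun i _ => ?_
    exact (ev_cont (P i)).measurable.enorm.pow_const _
  rw [polar (by omega) _ hm1, ← lintegral_const_mul _ hm2]
  refine lintegral_mono_ae ?_
  filter_upwards [sg_ae n] with w hw
  have hfin : ∀ i ∈ s, ‖ev (P i) w‖ₑ ^ (2 : ℝ) ≠ ⊤ := fun i _ =>
    ENNReal.rpow_ne_top_of_nonneg (by norm_num) enorm_ne_top
  have hgm : ∀ i, Measurable fun r : ℝ => ENNReal.ofReal (r ^ (n - 1)) * ‖ga n (k i) r‖ₑ ^ p :=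
    fun i => (wt_meas n).mul ((ga_meas (by omega) (k i)).pow_const p)
  calc ∫⁻ r in Ioi (0 : ℝ), ENNReal.ofReal (r ^ (n - 1)) *
        (∑ i ∈ s, ‖T (ev (P i)) (r • w)‖ₑ ^ (2 : ℝ)) ^ (p / 2)
      ≤ ∫⁻ r in Ioi (0 : ℝ), (∑ i ∈ s, ‖ev (P i) w‖ₑ ^ (2 : ℝ)) ^ (p / 2 - 1) *
          ∑ i ∈ s, ‖ev (P i) w‖ₑ ^ (2 : ℝ) *
            (ENNReal.ofReal (r ^ (n - 1)) * ‖ga n (k i) r‖ₑ ^ p) := by
        refine setLIntegral_mono' measurableSet_Ioi fun r hr => ?_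
        have e1 : ∑ i ∈ s, ‖T (ev (P i)) (r • w)‖ₑ ^ (2 : ℝ) =
            ∑ i ∈ s, ‖ev (P i) w‖ₑ ^ (2 : ℝ) * ‖ga n (k i) r‖ₑ ^ (2 : ℝ) := by
          refine Finset.sum_congr rfl fun i hi => ?_
          rw [T_ev_enorm (by omega) (k i) (P i) (hP i hi) (hh i hi) w hw r (le_of_lt hr),
            ENNReal.mul_rpow_of_nonneg _ _ (by norm_num), mul_comm]
        rw [e1]
        have e2 := jens s (fun i => ‖ev (P i) w‖ₑ ^ (2 : ℝ)) (fun i => ‖ga n (k i) r‖ₑ ^ (2 : ℝ))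
          hfin (show 1 ≤ p / 2 by linarith)
        refine (mul_le_mul' le_rfl e2).trans (le_of_eq ?_)
        rw [mul_left_comm, Finset.mul_sum]
        congr 1
        refine Finset.sum_congr rfl fun i _ => ?_
        rw [← ENNReal.rpow_mul, show 2 * (p / 2) = p by ring]
        ring
    _ = (∑ i ∈ s, ‖ev (P i) w‖ₑ ^ (2 : ℝ)) ^ (p / 2 - 1) *
          ∑ i ∈ s, ‖ev (P i) w‖ₑ ^ (2 : ℝ) *
            ∫⁻ r in Ioi (0 : ℝ), (ENNReal.ofReal (r ^ (n - 1)) * ‖ga n (k i) r‖ₑ ^ p) := by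
        rw [lintegral_const_mul, lintegral_finsetSum]
        · congr 1
          refine Finset.sum_congr rfl fun i _ => ?_
          rw [lintegral_const_mul _ (hgm i)]
        · exact fun i _ => (hgm i).const_mul _
        · exact Finset.measurable_fun_sum _ fun i _ => (hgm i).const_mul _
    _ ≤ (∑ i ∈ s, ‖ev (P i) w‖ₑ ^ (2 : ℝ)) ^ (p / 2 - 1) *
          ∑ i ∈ s, ‖ev (P i) w‖ₑ ^ (2 : ℝ) * ENNReal.ofReal C := by
        refine mul_le_mul' le_rfl (Finset.sum_le_sum fun i _ => ?_)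
        exact mul_le_mul' le_rfl (h (k i))
    _ = ENNReal.ofReal C * (∑ i ∈ s, ‖ev (P i) w‖ₑ ^ (2 : ℝ)) ^ (p / 2) := by
        rw [← Finset.sum_mul, ← mul_assoc, mul_comm (ENNReal.ofReal C)]
        congr 1
        nth_rewrite 2 [← ENNReal.rpow_one (∑ i ∈ s, ‖ev (P i) w‖ₑ ^ (2 : ℝ))]
        rw [← ENNReal.rpow_add_of_nonneg _ _ (by linarith) (by norm_num)]
        congr 1
        ring

end Pool.Agent.W5h55.SH
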