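import Mathlib
set_option autoImplicit false

/-! A Khintchine inequality with fourth moments. -/

open MeasureTheory Set Metric ProbabilityTheory
open scoped ENNReal

namespace Pool.Agent.W5h55.SH

variable {Ω : Type*} [MeasurableSpace Ω] {P : Measure Ω} [IsProbabilityMeasure P]

theorem int_pow {Z : Ω → ℝ} (hZ : MemLp Z 4 P) (j : ℕ) (hj : j ≤ 4) :
    Integrable (fun ω => Z ω ^ j) P := by
  have h1 : MemLp Z (j : ℝ≥0∞) P := hZ.mono_exponent (by exact_mod_cast hj)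
  have h2 := h1.integrable_norm_pow'
  refine (integrable_norm_iff (hZ.1.pow j)).1 ?_
  refine h2.congr (Filter.Eventually.of_forall fun ω => ?_)
  simp

theorem kh_step {Z Y : Ω → ℝ} (hZ : MemLp Z 4 P) (hY : MemLp Y 4 P) (hi : IndepFun Z Y P)
    (hZ1 : ∫ ω, Z ω ∂P = 0) (hY1 : ∫ ω, Y ω ∂P = 0) :
    ∫ ω, (Z ω + Y ω) ^ 2 ∂P = ∫ ω, Z ω ^ 2 ∂P + ∫ ω, Y ω ^ 2 ∂P ∧
    ∫ ω, (Z ω + Y ω) ^ 4 ∂P = ∫ ω, Z ω ^ 4 ∂P + 6 * ((∫ ω, Z ω ^ 2 ∂P) * ∫ ω, Y ω ^ 2 ∂P) +
      ∫ ω, Y ω ^ 4 ∂P := by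
  have hind : ∀ i j : ℕ, IndepFun (fun ω => Z ω ^ i) (fun ω => Y ω ^ j) P := fun i j =>
    hi.comp (measurable_id.pow_const i) (measurable_id.pow_const j)
  have hint : ∀ i j : ℕ, i ≤ 4 → j ≤ 4 → Integrable (fun ω => Z ω ^ i * Y ω ^ j) P :=
    fun i j h1 h2 => (hind i j).integrable_mul (int_pow hZ i h1) (int_pow hY j h2)
  have hmul : ∀ i j : ℕ, i ≤ 4 → j ≤ 4 → ∫ ω, Z ω ^ i * Y ω ^ j ∂P =
      (∫ ω, Z ω ^ i ∂P) * ∫ ω, Y ω ^ j ∂P := fun i j h1 h2 =>
    (hind i j).integral_fun_mul_eq_mul_integral (int_pow hZ i h1).1 (int_pow hY j h2).1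
  have z1 : ∫ ω, Z ω ^ 1 ∂P = 0 := by simpa using hZ1
  have y1 : ∫ ω, Y ω ^ 1 ∂P = 0 := by simpa using hY1
  constructor
  · have e : ∀ ω, (Z ω + Y ω) ^ 2 = Z ω ^ 2 + 2 * (Z ω ^ 1 * Y ω ^ 1) + Y ω ^ 2 := fun ω => by ring
    simp_rw [e]
    have i0 := int_pow hZ 2 (by norm_num)
    have i1 := (hint 1 1 (by norm_num) (by norm_num)).const_mul 2
    have i4 := int_pow hY 2 (by norm_num)
    have j1 : Integrable (fun ω => Z ω ^ 2 + 2 * (Z ω ^ 1 * Y ω ^ 1)) P := i0.add i1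
    rw [integral_add j1 i4, integral_add i0 i1, integral_const_mul,
      hmul 1 1 (by norm_num) (by norm_num), z1]
    ring
  · have e : ∀ ω, (Z ω + Y ω) ^ 4 = Z ω ^ 4 + 4 * (Z ω ^ 3 * Y ω ^ 1) +
        6 * (Z ω ^ 2 * Y ω ^ 2) + 4 * (Z ω ^ 1 * Y ω ^ 3) + Y ω ^ 4 := fun ω => by ring
    simp_rw [e]
    have i0 := int_pow hZ 4 (by norm_num)
    have i1 := (hint 3 1 (by norm_num) (by norm_num)).const_mul 4
    have i2 := (hint 2 2 (by norm_num) (by norm_num)).const_mul 6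
    have i3 := (hint 1 3 (by norm_num) (by norm_num)).const_mul 4
    have i4 := int_pow hY 4 (by norm_num)
    have j1 : Integrable (fun ω => Z ω ^ 4 + 4 * (Z ω ^ 3 * Y ω ^ 1)) P := i0.add i1
    have j2 : Integrable (fun ω => Z ω ^ 4 + 4 * (Z ω ^ 3 * Y ω ^ 1) +
        6 * (Z ω ^ 2 * Y ω ^ 2)) P := j1.add i2
    have j3 : Integrable (fun ω => Z ω ^ 4 + 4 * (Z ω ^ 3 * Y ω ^ 1) +
        6 * (Z ω ^ 2 * Y ω ^ 2) + 4 * (Z ω ^ 1 * Y ω ^ 3)) P := j2.add i3
    rw [integral_add j3 i4, integral_add j2 i3, integral_add j1 i2, integral_add i0 i1,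
      integral_const_mul, integral_const_mul, integral_const_mul,
      hmul 3 1 (by norm_num) (by norm_num), hmul 2 2 (by norm_num) (by norm_num),
      hmul 1 3 (by norm_num) (by norm_num), z1, y1]
    ring

/-- the moment conditions on the coefficients -/
structure Coef (P : Measure Ω) (X : ℕ → Ω → ℝ) (K : ℝ) : Prop where
  indep : iIndepFun X P
  meas : ∀ i, Measurable (X i)
  mem : ∀ i, MemLp (X i) 4 P
  one : ∀ i, ∫ ω, X i ω ∂P = 0
  two : ∀ i, ∫ ω, X i ω ^ 2 ∂P = 1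
  four : ∀ i, ∫ ω, X i ω ^ 4 ∂P ≤ K

variable {X : ℕ → Ω → ℝ} {K : ℝ}

omit [IsProbabilityMeasure P] in
theorem Coef.K_nonneg (h : Coef P X K) : 0 ≤ K :=
  (integral_nonneg fun ω => by positivity).trans (h.four 0)

theorem kh_real (h : Coef P X K) (a : ℕ → ℝ) (N : ℕ) :
    MemLp (fun ω => ∑ i ∈ Finset.range N, a i * X i ω) 4 P ∧
    ∫ ω, (∑ i ∈ Finset.range N, a i * X i ω) ∂P = 0 ∧
    ∫ ω, (∑ i ∈ Finset.range N, a i * X i ω) ^ 2 ∂P = ∑ i ∈ Finset.range N, a i ^ 2 ∧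
    ∫ ω, (∑ i ∈ Finset.range N, a i * X i ω) ^ 4 ∂P ≤
      (3 + K) * (∑ i ∈ Finset.range N, a i ^ 2) ^ 2 := by
  have hK := h.K_nonneg
  induction N with
  | zero => simp
  | succ N ih =>
    obtain ⟨i1, i2, i3, i4⟩ := ih
    have hY : MemLp (fun ω => a N * X N ω) 4 P := (h.mem N).const_mul (a N)
    have hind : IndepFun (fun ω => ∑ i ∈ Finset.range N, a i * X i ω) (fun ω => a N * X N ω) P := by
      have h1 : iIndepFun (fun i ω => a i * X i ω) P :=
        h.indep.comp (fun i x => a i * x) fun i => measurable_const_mul (a i)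
      have h2 := h1.indepFun_finsetSum_of_notMem (fun i => (h.meas i).const_mul (a i))
        (s := Finset.range N) (i := N) (by simp)
      convert h2 using 1
      funext ω
      simp
    have hY1 : ∫ ω, a N * X N ω ∂P = 0 := by
      rw [integral_const_mul, h.one N, mul_zero]
    have hY2 : ∫ ω, (a N * X N ω) ^ 2 ∂P = a N ^ 2 := by
      simp_rw [mul_pow]
      rw [integral_const_mul, h.two N, mul_one]
    have hY4 : ∫ ω, (a N * X N ω) ^ 4 ∂P ≤ K * (a N ^ 2) ^ 2 := by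
      simp_rw [mul_pow]
      rw [integral_const_mul]
      calc a N ^ 4 * ∫ ω, X N ω ^ 4 ∂P ≤ a N ^ 4 * K :=
            mul_le_mul_of_nonneg_left (h.four N) (by positivity)
        _ = _ := by ring
    obtain ⟨k2, k4⟩ := kh_step i1 hY hind i2 hY1
    simp_rw [Finset.sum_range_succ]
    refine ⟨i1.add hY, ?_, ?_, ?_⟩
    · have j1 : Integrable (fun ω => ∑ i ∈ Finset.range N, a i * X i ω) P := by
        simpa using int_pow i1 1 (by norm_num)
      have j2 : Integrable (fun ω => a N * X N ω) P := by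
        simpa using int_pow hY 1 (by norm_num)
      rw [integral_add j1 j2, i2, hY1, add_zero]
    · rw [k2, i3, hY2]
    · rw [k4, i3, hY2]
      have hV : 0 ≤ ∑ i ∈ Finset.range N, a i ^ 2 := Finset.sum_nonneg fun i _ => by positivity
      have ha : 0 ≤ a N ^ 2 := by positivity
      nlinarith [mul_nonneg hV ha, mul_nonneg hK (mul_nonneg hV ha), mul_nonneg ha ha]

/-- the complex case -/
theorem kh_complex (h : Coef P X K) (a : ℕ → ℂ) (N : ℕ) :
    ∫⁻ ω, ‖∑ i ∈ Finset.range N, (X i ω : ℂ) * a i‖ₑ ^ (2 : ℝ) ∂P =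
      ∑ i ∈ Finset.range N, ‖a i‖ₑ ^ (2 : ℝ) ∧
    ∫⁻ ω, ‖∑ i ∈ Finset.range N, (X i ω : ℂ) * a i‖ₑ ^ (4 : ℝ) ∂P ≤
      ENNReal.ofReal (2 * (3 + K)) * (∑ i ∈ Finset.range N, ‖a i‖ₑ ^ (2 : ℝ)) ^ (2 : ℝ) := by
  have hK := h.K_nonneg
  obtain ⟨r1, -, r3, r4⟩ := kh_real h (fun i => (a i).re) N
  obtain ⟨s1, -, s3, s4⟩ := kh_real h (fun i => (a i).im) N
  have hre : ∀ ω, (∑ i ∈ Finset.range N, (X i ω : ℂ) * a i).re =
      ∑ i ∈ Finset.range N, (a i).re * X i ω := fun ω => by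
    rw [Complex.re_sum]
    refine Finset.sum_congr rfl fun i _ => ?_
    rw [Complex.re_ofReal_mul, mul_comm]
  have him : ∀ ω, (∑ i ∈ Finset.range N, (X i ω : ℂ) * a i).im =
      ∑ i ∈ Finset.range N, (a i).im * X i ω := fun ω => by
    rw [Complex.im_sum]
    refine Finset.sum_congr rfl fun i _ => ?_
    rw [Complex.im_ofReal_mul, mul_comm]
  have hsq : ∀ ω, ‖∑ i ∈ Finset.range N, (X i ω : ℂ) * a i‖ ^ 2 =
      (∑ i ∈ Finset.range N, (a i).re * X i ω) ^ 2 +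
      (∑ i ∈ Finset.range N, (a i).im * X i ω) ^ 2 := fun ω => by
    rw [← Complex.normSq_eq_norm_sq, Complex.normSq_apply, hre, him]
    ring
  have hV : ∑ i ∈ Finset.range N, ‖a i‖ₑ ^ (2 : ℝ) = ENNReal.ofReal
      (∑ i ∈ Finset.range N, (a i).re ^ 2 + ∑ i ∈ Finset.range N, (a i).im ^ 2) := by
    rw [← Finset.sum_add_distrib, ENNReal.ofReal_sum_of_nonneg fun i _ => by positivity]
    refine Finset.sum_congr rfl fun i _ => ?_
    rw [← ofReal_norm, ENNReal.ofReal_rpow_of_nonneg (norm_nonneg _) (by norm_num)]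
    congr 1
    rw [show (2 : ℝ) = ((2 : ℕ) : ℝ) by norm_num, Real.rpow_natCast, ← Complex.normSq_eq_norm_sq,
      Complex.normSq_apply]
    ring
  have q2 := int_pow r1 2 (by norm_num)
  have t2 := int_pow s1 2 (by norm_num)
  have q4 := int_pow r1 4 (by norm_num)
  have t4 := int_pow s1 4 (by norm_num)
  have qt2 : Integrable (fun ω => (∑ i ∈ Finset.range N, (a i).re * X i ω) ^ 2 +
      (∑ i ∈ Finset.range N, (a i).im * X i ω) ^ 2) P := q2.add t2
  have qt4 : Integrable (fun ω => 2 * (∑ i ∈ Finset.range N, (a i).re * X i ω) ^ 4 +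
      2 * (∑ i ∈ Finset.range N, (a i).im * X i ω) ^ 4) P := (q4.const_mul 2).add (t4.const_mul 2)
  constructor
  · rw [hV, ← r3, ← s3, ← integral_add q2 t2, ofReal_integral_eq_lintegral_ofReal qt2
      (Filter.Eventually.of_forall fun ω => by positivity)]
    refine lintegral_congr fun ω => ?_
    rw [← hsq, ← ofReal_norm, ENNReal.ofReal_rpow_of_nonneg (norm_nonneg _) (by norm_num)]
    congr 1
    rw [show (2 : ℝ) = ((2 : ℕ) : ℝ) by norm_num, Real.rpow_natCast]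
  · have hA : 0 ≤ ∑ i ∈ Finset.range N, (a i).re ^ 2 := Finset.sum_nonneg fun i _ => by positivity
    have hB : 0 ≤ ∑ i ∈ Finset.range N, (a i).im ^ 2 := Finset.sum_nonneg fun i _ => by positivity
    calc ∫⁻ ω, ‖∑ i ∈ Finset.range N, (X i ω : ℂ) * a i‖ₑ ^ (4 : ℝ) ∂P
        ≤ ∫⁻ ω, ENNReal.ofReal (2 * (∑ i ∈ Finset.range N, (a i).re * X i ω) ^ 4 +
            2 * (∑ i ∈ Finset.range N, (a i).im * X i ω) ^ 4) ∂P := by
          refine lintegral_mono fun ω => ?_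
          rw [← ofReal_norm, ENNReal.ofReal_rpow_of_nonneg (norm_nonneg _) (by norm_num)]
          apply ENNReal.ofReal_le_ofReal
          rw [show (4 : ℝ) = ((4 : ℕ) : ℝ) by norm_num, Real.rpow_natCast,
            show ‖∑ i ∈ Finset.range N, (X i ω : ℂ) * a i‖ ^ 4 =
              (‖∑ i ∈ Finset.range N, (X i ω : ℂ) * a i‖ ^ 2) ^ 2 by ring, hsq]
          nlinarith [sq_nonneg ((∑ i ∈ Finset.range N, (a i).re * X i ω) ^ 2 -
            (∑ i ∈ Finset.range N, (a i).im * X i ω) ^ 2)]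
      _ = ENNReal.ofReal (∫ ω, (2 * (∑ i ∈ Finset.range N, (a i).re * X i ω) ^ 4 +
            2 * (∑ i ∈ Finset.range N, (a i).im * X i ω) ^ 4) ∂P) := by
          rw [ofReal_integral_eq_lintegral_ofReal qt4
            (Filter.Eventually.of_forall fun ω => by positivity)]
      _ ≤ _ := by
          rw [hV, ENNReal.ofReal_rpow_of_nonneg (by positivity) (by norm_num),
            ← ENNReal.ofReal_mul (by positivity)]
          apply ENNReal.ofReal_le_ofReal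
          rw [integral_add (q4.const_mul 2) (t4.const_mul 2), integral_const_mul,
            integral_const_mul, show (2 : ℝ) * (3 + K) * (∑ i ∈ Finset.range N, (a i).re ^ 2 +
              ∑ i ∈ Finset.range N, (a i).im ^ 2) ^ (2 : ℝ) = 2 * (3 + K) *
              (∑ i ∈ Finset.range N, (a i).re ^ 2 +
              ∑ i ∈ Finset.range N, (a i).im ^ 2) ^ 2 by
              rw [show ((2 : ℝ) : ℝ) = ((2 : ℕ) : ℝ) by norm_num, Real.rpow_natCast]]
          have := mul_nonneg hA hB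
          have := mul_nonneg hK (mul_nonneg hA hB)
          nlinarith

end Pool.Agent.W5h55.SH
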