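import Mathlib
import Pool.Agent.W5h55.SH.B2
set_option autoImplicit false

/-! Paley-Zygmund and tightness. -/

open MeasureTheory Set Metric ProbabilityTheory Filter
open scoped ENNReal Topology

namespace Pool.Agent.W5h55.SH

variable {Ω : Type*} [MeasurableSpace Ω] {P : Measure Ω} [IsProbabilityMeasure P]
variable {X : ℕ → Ω → ℝ} {K : ℝ}

/-- a small probability -/
noncomputable def dl (K : ℝ) : ℝ := 1 / (16 * (3 + K))

theorem dl_pos (hK : 0 ≤ K) : 0 < dl K := by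
  unfold dl
  positivity

omit [IsProbabilityMeasure P] in
theorem Z_meas (h : Coef P X K) (a : ℕ → ℂ) (N : ℕ) :
    Measurable fun ω => ∑ i ∈ Finset.range N, (X i ω : ℂ) * a i :=
  Finset.measurable_fun_sum _ fun i _ => (Complex.measurable_ofReal.comp (h.meas i)).mul_const _

theorem pz_real (K v b : ℝ) (hK : 0 ≤ K) (hv : 0 < v) (hb : 0 ≤ b)
    (h : v ≤ v / 2 + (b ^ (1 / 2 : ℝ) * ((2 * (3 + K)) ^ (1 / 2 : ℝ) * v))) : 2 * dl K ≤ b := by
  have h1 : 1 / 2 ≤ b ^ (1 / 2 : ℝ) * (2 * (3 + K)) ^ (1 / 2 : ℝ) := by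
    by_contra hc
    push Not at hc
    have : b ^ (1 / 2 : ℝ) * ((2 * (3 + K)) ^ (1 / 2 : ℝ) * v) < 1 / 2 * v := by
      rw [← mul_assoc]
      exact mul_lt_mul_of_pos_right hc hv
    linarith
  have h2 : (1 / 2 : ℝ) ^ 2 ≤ (b ^ (1 / 2 : ℝ) * (2 * (3 + K)) ^ (1 / 2 : ℝ)) ^ 2 :=
    pow_le_pow_left₀ (by norm_num) h1 2
  rw [mul_pow, ← Real.rpow_natCast, ← Real.rpow_natCast, ← Real.rpow_mul hb,
    ← Real.rpow_natCast, ← Real.rpow_mul (by linarith)] at h2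
  norm_num at h2
  unfold dl
  rw [mul_one_div, div_le_iff₀ (by positivity)]
  linarith

theorem pz (h : Coef P X K) (a : ℕ → ℂ) (N : ℕ) (A : Set Ω) (hA : MeasurableSet A)
    (hAc : P Aᶜ ≤ ENNReal.ofReal (dl K)) (m : ℝ≥0∞) {p : ℝ} (hp : 0 < p) :
    ENNReal.ofReal (dl K) *
        min (((∑ i ∈ Finset.range N, ‖a i‖ₑ ^ (2 : ℝ)) / 2) ^ (1 / 2 : ℝ)) m ^ p ≤
      ∫⁻ ω in A, min ‖∑ i ∈ Finset.range N, (X i ω : ℂ) * a i‖ₑ m ^ p ∂P := by
  have hK := h.K_nonneg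
  obtain ⟨k2, k4⟩ := kh_complex h a N
  have hZm := Z_meas h a N
  obtain ⟨V, hV⟩ : ∃ V, V = ∑ i ∈ Finset.range N, ‖a i‖ₑ ^ (2 : ℝ) := ⟨_, rfl⟩
  rw [← hV] at k2 k4 ⊢
  have hVt : V ≠ ⊤ := by
    rw [hV]
    exact ENNReal.sum_ne_top.2 fun i _ => ENNReal.rpow_ne_top_of_nonneg (by norm_num) enorm_ne_top
  rcases eq_or_ne V 0 with h0 | h0
  · rw [h0, ENNReal.zero_div, ENNReal.zero_rpow_of_pos (by norm_num), zero_min,
      ENNReal.zero_rpow_of_pos hp, mul_zero]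
    exact bot_le
  · obtain ⟨B, hB⟩ : ∃ B : Set Ω, B = {ω | V / 2 ≤
        ‖∑ i ∈ Finset.range N, (X i ω : ℂ) * a i‖ₑ ^ (2 : ℝ)} := ⟨_, rfl⟩
    have hBm : MeasurableSet B := by
      rw [hB]
      exact measurableSet_le measurable_const (hZm.enorm.pow_const _)
    have c1 : V ≤ V / 2 + (P B) ^ (1 / 2 : ℝ) *
        ((ENNReal.ofReal (2 * (3 + K))) ^ (1 / 2 : ℝ) * V) := by
      have c2 : ∫⁻ ω in B, ‖∑ i ∈ Finset.range N, (X i ω : ℂ) * a i‖ₑ ^ (2 : ℝ) ∂P ≤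
          (P B) ^ (1 / 2 : ℝ) * ((ENNReal.ofReal (2 * (3 + K))) ^ (1 / 2 : ℝ) * V) := by
        have h3 := ENNReal.lintegral_mul_norm_pow_le (μ := P.restrict B) (f := fun _ => (1 : ℝ≥0∞))
          (g := fun ω => ‖∑ i ∈ Finset.range N, (X i ω : ℂ) * a i‖ₑ ^ (4 : ℝ)) aemeasurable_const
          (hZm.enorm.pow_const (4 : ℝ)).aemeasurable
          (by norm_num : (0 : ℝ) ≤ 1 / 2) (by norm_num : (0 : ℝ) ≤ 1 / 2) (by norm_num)
        simp only [ENNReal.one_rpow, one_mul, lintegral_const, Measure.restrict_apply_univ] at h3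
        have h4 : ∫⁻ ω in B, ‖∑ i ∈ Finset.range N, (X i ω : ℂ) * a i‖ₑ ^ (2 : ℝ) ∂P =
            ∫⁻ ω in B, (‖∑ i ∈ Finset.range N, (X i ω : ℂ) * a i‖ₑ ^ (4 : ℝ)) ^ (1 / 2 : ℝ) ∂P := by
          refine lintegral_congr fun ω => ?_
          rw [← ENNReal.rpow_mul]
          norm_num
        rw [h4]
        refine h3.trans (mul_le_mul' le_rfl ?_)
        have h5 : ∫⁻ ω in B, ‖∑ i ∈ Finset.range N, (X i ω : ℂ) * a i‖ₑ ^ (4 : ℝ) ∂P ≤
            ENNReal.ofReal (2 * (3 + K)) * V ^ (2 : ℝ) := (setLIntegral_le_lintegral _ _).trans k4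
        refine (ENNReal.rpow_le_rpow h5 (by norm_num)).trans (le_of_eq ?_)
        rw [ENNReal.mul_rpow_of_nonneg _ _ (by norm_num), ← ENNReal.rpow_mul]
        norm_num
      have c3 : ∫⁻ ω in Bᶜ, ‖∑ i ∈ Finset.range N, (X i ω : ℂ) * a i‖ₑ ^ (2 : ℝ) ∂P ≤ V / 2 := by
        calc ∫⁻ ω in Bᶜ, ‖∑ i ∈ Finset.range N, (X i ω : ℂ) * a i‖ₑ ^ (2 : ℝ) ∂P
            ≤ ∫⁻ ω in Bᶜ, V / 2 ∂P := by
              refine setLIntegral_mono' hBm.compl fun ω hω => ?_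
              rw [hB] at hω
              simp only [mem_compl_iff, mem_setOf_eq, not_le] at hω
              exact hω.le
          _ = V / 2 * P Bᶜ := by rw [lintegral_const, Measure.restrict_apply_univ]
          _ ≤ V / 2 * 1 := mul_le_mul' le_rfl prob_le_one
          _ = _ := mul_one _
      calc V = ∫⁻ ω in B, ‖∑ i ∈ Finset.range N, (X i ω : ℂ) * a i‖ₑ ^ (2 : ℝ) ∂P +
            ∫⁻ ω in Bᶜ, ‖∑ i ∈ Finset.range N, (X i ω : ℂ) * a i‖ₑ ^ (2 : ℝ) ∂P := by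
            rw [← k2]
            exact (lintegral_add_compl _ hBm).symm
        _ ≤ _ := by
            rw [add_comm]
            exact add_le_add c3 c2
    have c4 : ENNReal.ofReal (2 * dl K) ≤ P B := by
      have hv : 0 < V.toReal := ENNReal.toReal_pos h0 hVt
      have hPB : P B ≠ ⊤ := measure_ne_top _ _
      have c5 := ENNReal.toReal_mono (by
        refine ENNReal.add_ne_top.2 ⟨ENNReal.div_ne_top hVt (by norm_num), ?_⟩
        refine ENNReal.mul_ne_top (ENNReal.rpow_ne_top_of_nonneg (by norm_num) hPB)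
          (ENNReal.mul_ne_top (ENNReal.rpow_ne_top_of_nonneg (by norm_num)
            ENNReal.ofReal_ne_top) hVt)) c1
      rw [ENNReal.toReal_add (ENNReal.div_ne_top hVt (by norm_num))
        (ENNReal.mul_ne_top (ENNReal.rpow_ne_top_of_nonneg (by norm_num) hPB)
          (ENNReal.mul_ne_top (ENNReal.rpow_ne_top_of_nonneg (by norm_num)
            ENNReal.ofReal_ne_top) hVt)), ENNReal.toReal_div, ENNReal.toReal_mul,
        ENNReal.toReal_mul, ← ENNReal.toReal_rpow, ← ENNReal.toReal_rpow,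
        ENNReal.toReal_ofReal (by positivity), ENNReal.toReal_ofNat] at c5
      have c6 := pz_real K V.toReal (P B).toReal hK hv ENNReal.toReal_nonneg c5
      rw [← ENNReal.ofReal_toReal hPB]
      exact ENNReal.ofReal_le_ofReal c6
    have c7 : ENNReal.ofReal (dl K) ≤ P (A ∩ B) := by
      have h1 : P B ≤ P (A ∩ B) + P Aᶜ := by
        refine (measure_mono ?_).trans (measure_union_le _ _)
        intro ω hω
        by_cases hA' : ω ∈ A
        · exact Or.inl ⟨hA', hω⟩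
        · exact Or.inr hA'
      have h2 : ENNReal.ofReal (dl K) + ENNReal.ofReal (dl K) ≤
          P (A ∩ B) + ENNReal.ofReal (dl K) := by
        rw [← ENNReal.ofReal_add (dl_pos hK).le (dl_pos hK).le, ← two_mul]
        exact c4.trans (h1.trans (add_le_add le_rfl hAc))
      exact (ENNReal.add_le_add_iff_right ENNReal.ofReal_ne_top).1 h2
    calc ENNReal.ofReal (dl K) * min ((V / 2) ^ (1 / 2 : ℝ)) m ^ p
        ≤ P (A ∩ B) * min ((V / 2) ^ (1 / 2 : ℝ)) m ^ p := mul_le_mul' c7 le_rfl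
      _ = ∫⁻ ω in A ∩ B, min ((V / 2) ^ (1 / 2 : ℝ)) m ^ p ∂P := by
          rw [lintegral_const, Measure.restrict_apply_univ, mul_comm]
      _ ≤ ∫⁻ ω in A ∩ B, min ‖∑ i ∈ Finset.range N, (X i ω : ℂ) * a i‖ₑ m ^ p ∂P := by
          refine setLIntegral_mono' (hA.inter hBm) fun ω hω => ?_
          have h1 := hω.2
          rw [hB] at h1
          have h2 : (V / 2) ^ (1 / 2 : ℝ) ≤ ‖∑ i ∈ Finset.range N, (X i ω : ℂ) * a i‖ₑ := by
            refine (ENNReal.rpow_le_rpow h1 (by norm_num)).trans (le_of_eq ?_)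
            rw [← ENNReal.rpow_mul]
            norm_num
          exact ENNReal.rpow_le_rpow (min_le_min h2 le_rfl) hp.le
      _ ≤ _ := lintegral_mono_set inter_subset_left

/-- tightness -/
theorem tight (Φ : ℕ → ℕ → Ω → ℝ≥0∞) (hΦ : ∀ m N, Measurable (Φ m N))
    (h : ∀ᵐ ω ∂P, ∃ L : ℕ, ∀ m, ∀ᶠ N in atTop, Φ m N ω ≤ L) {δ : ℝ≥0∞} (hδ : 0 < δ) :
    ∃ J : ℕ, ∀ m, ∀ᶠ N in atTop, P {ω | Φ m N ω ≤ J}ᶜ ≤ δ := by
  obtain ⟨D, hD⟩ : ∃ D : ℕ → Set Ω,
      D = fun (J : ℕ) => {ω | ∀ m, ∀ᶠ N in atTop, Φ m N ω ≤ (J : ℝ≥0∞)} := ⟨_, rfl⟩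
  have hDeq : ∀ J, D J = ⋂ m, ⋃ N₀, ⋂ N, ⋂ (_ : N₀ ≤ N), {ω | Φ m N ω ≤ J} := by
    intro J
    ext ω
    rw [hD]
    simp [eventually_atTop]
  have hDm : ∀ J, MeasurableSet (D J) := by
    intro J
    rw [hDeq]
    refine MeasurableSet.iInter fun m => MeasurableSet.iUnion fun N₀ => MeasurableSet.iInter fun N =>
      MeasurableSet.iInter fun _ => ?_
    exact measurableSet_le (hΦ m N) measurable_const
  have hDmono : Monotone D := by
    intro J J' hJ ω hω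
    rw [hD] at hω ⊢
    intro m
    filter_upwards [hω m] with N hN
    exact hN.trans (by exact_mod_cast hJ)
  have hDc : Antitone fun J => (D J)ᶜ := fun J J' hJ => compl_subset_compl.2 (hDmono hJ)
  have h1 : Tendsto (P ∘ fun J => (D J)ᶜ) atTop (𝓝 (P (⋂ J, (D J)ᶜ))) :=
    tendsto_measure_iInter_atTop (fun J => (hDm J).compl.nullMeasurableSet) hDc
      ⟨0, measure_ne_top _ _⟩
  have h2 : P (⋂ J, (D J)ᶜ) = 0 := by
    rw [← compl_iUnion]
    have : ∀ᵐ ω ∂P, ω ∈ ⋃ J, D J := by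
      filter_upwards [h] with ω hω
      obtain ⟨L, hL⟩ := hω
      rw [mem_iUnion]
      refine ⟨L, ?_⟩
      rw [hD]
      exact hL
    exact this
  rw [h2] at h1
  have hδ2 : 0 < δ / 2 := ENNReal.half_pos hδ.ne'
  obtain ⟨J, hJ⟩ := (h1.eventually_le_const hδ2).exists
  refine ⟨J, fun m => ?_⟩
  obtain ⟨G, hG⟩ : ∃ G : ℕ → Set Ω, G = fun N => D J ∩ ⋃ N', ⋃ (_ : N ≤ N'),
      {ω | Φ m N' ω ≤ J}ᶜ := ⟨_, rfl⟩
  have hGm : ∀ N, MeasurableSet (G N) := by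
    intro N
    rw [hG]
    refine (hDm J).inter (MeasurableSet.iUnion fun N' => MeasurableSet.iUnion fun _ => ?_)
    exact (measurableSet_le (hΦ m N') measurable_const).compl
  have hGa : Antitone G := by
    intro N₁ N₂ hN ω hω
    rw [hG] at hω ⊢
    refine ⟨hω.1, ?_⟩
    have := hω.2
    simp only [mem_iUnion] at this ⊢
    obtain ⟨N', h3, h4⟩ := this
    exact ⟨N', hN.trans h3, h4⟩
  have h3 : Tendsto (P ∘ G) atTop (𝓝 (P (⋂ N, G N))) :=
    tendsto_measure_iInter_atTop (fun N => (hGm N).nullMeasurableSet) hGa ⟨0, measure_ne_top _ _⟩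
  have h4 : ⋂ N, G N = ∅ := by
    rw [eq_empty_iff_forall_notMem]
    intro ω hω
    rw [mem_iInter] at hω
    have h5 := hω 0
    rw [hG] at h5
    have h6 := h5.1
    rw [hD] at h6
    obtain ⟨N₀, h7⟩ := eventually_atTop.1 (h6 m)
    have h8 := hω N₀
    rw [hG] at h8
    have h9 := h8.2
    simp only [mem_iUnion] at h9
    obtain ⟨N', h10, h11⟩ := h9
    exact h11 (h7 N' h10)
  rw [h4, measure_empty] at h3
  filter_upwards [h3.eventually_le_const hδ2] with N hN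
  calc P {ω | Φ m N ω ≤ J}ᶜ ≤ P ((D J)ᶜ ∪ G N) := by
        refine measure_mono fun ω hω => ?_
        by_cases h5 : ω ∈ D J
        · right
          rw [hG]
          refine ⟨h5, ?_⟩
          simp only [mem_iUnion]
          exact ⟨N, le_rfl, hω⟩
        · exact Or.inl h5
    _ ≤ P (D J)ᶜ + P (G N) := measure_union_le _ _
    _ ≤ δ / 2 + δ / 2 := add_le_add hJ hN
    _ = δ := ENNReal.add_halves δ

end Pool.Agent.W5h55.SH
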