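import Mathlib
import Pool.Agent.W5h55.SH.B3
set_option autoImplicit false

/-! The square function of a random series which converges in measure to an `L^p` function. -/

open MeasureTheory Set Metric ProbabilityTheory Filter
open scoped ENNReal Topology

namespace Pool.Agent.W5h55.SH

variable {Ω : Type*} [MeasurableSpace Ω] {P : Measure Ω} [IsProbabilityMeasure P]
variable {X : ℕ → Ω → ℝ} {K : ℝ}
variable {S : Type*} [MeasurableSpace S]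

theorem trunc (σ : Measure S) (f : ℕ → S → ℂ) (g : S → ℂ) (h : TendstoInMeasure σ f atTop g)
    {p : ℝ} (hp : 0 ≤ p) (m : ℕ) :
    ∀ᶠ N in atTop, ∫⁻ w, min ‖f N w‖ₑ m ^ p ∂σ ≤ ∫⁻ w, (‖g w‖ₑ + 1) ^ p ∂σ + 1 := by
  have h1 := h 1 one_pos
  have hc : ((m : ℝ≥0∞)) ^ p ≠ ⊤ := ENNReal.rpow_ne_top_of_nonneg hp (ENNReal.natCast_ne_top m)
  have h2 : Tendsto (fun N => (m : ℝ≥0∞) ^ p * σ {w | 1 ≤ edist (f N w) (g w)}) atTop (𝓝 0) := by
    have := ENNReal.Tendsto.const_mul h1 (Or.inr hc)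
    rwa [mul_zero] at this
  filter_upwards [h2.eventually_le_const one_pos] with N hN
  obtain ⟨B, hB⟩ : ∃ B, B = toMeasurable σ {w | 1 ≤ edist (f N w) (g w)} := ⟨_, rfl⟩
  have hBm : MeasurableSet B := by
    rw [hB]
    exact measurableSet_toMeasurable _ _
  have hBs : {w | 1 ≤ edist (f N w) (g w)} ⊆ B := by
    rw [hB]
    exact subset_toMeasurable _ _
  have hBe : σ B = σ {w | 1 ≤ edist (f N w) (g w)} := by
    rw [hB]
    exact measure_toMeasurable _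
  calc ∫⁻ w, min ‖f N w‖ₑ m ^ p ∂σ
      ≤ ∫⁻ w, ((‖g w‖ₑ + 1) ^ p + B.indicator (fun _ => (m : ℝ≥0∞) ^ p) w) ∂σ := by
        refine lintegral_mono fun w => ?_
        by_cases hw : w ∈ B
        · rw [indicator_of_mem hw]
          exact le_add_left (ENNReal.rpow_le_rpow (min_le_right _ _) hp)
        · rw [indicator_of_notMem hw, add_zero]
          refine ENNReal.rpow_le_rpow ((min_le_left _ _).trans ?_) hp
          have h3 : edist (f N w) (g w) < 1 := by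
            by_contra hc
            push Not at hc
            exact hw (hBs hc)
          calc ‖f N w‖ₑ = ‖g w + (f N w - g w)‖ₑ := by rw [add_sub_cancel]
            _ ≤ ‖g w‖ₑ + ‖f N w - g w‖ₑ := enorm_add_le _ _
            _ ≤ ‖g w‖ₑ + 1 := by
                rw [← edist_eq_enorm_sub]
                exact add_le_add le_rfl h3.le
    _ = ∫⁻ w, (‖g w‖ₑ + 1) ^ p ∂σ + (m : ℝ≥0∞) ^ p * σ B := by
        rw [lintegral_add_right _ (measurable_const.indicator hBm), lintegral_indicator hBm,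
          lintegral_const, Measure.restrict_apply_univ]
    _ ≤ _ := by
        rw [hBe]
        exact add_le_add le_rfl hN

omit [IsProbabilityMeasure P] in
theorem S_meas (h : Coef P X K) (Y : ℕ → S → ℂ) (hY : ∀ i, Measurable (Y i)) (N : ℕ) :
    Measurable fun q : Ω × S => ∑ i ∈ Finset.range N, (X i q.1 : ℂ) * Y i q.2 :=
  Finset.measurable_fun_sum _ fun i _ =>
    ((Complex.measurable_ofReal.comp ((h.meas i).comp measurable_fst))).mul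
      ((hY i).comp measurable_snd)

theorem V_meas (Y : ℕ → S → ℂ) (hY : ∀ i, Measurable (Y i)) (N : ℕ) :
    Measurable fun w => ∑ i ∈ Finset.range N, ‖Y i w‖ₑ ^ (2 : ℝ) :=
  Finset.measurable_fun_sum _ fun i _ => (hY i).enorm.pow_const _

theorem V_mono (Y : ℕ → S → ℂ) (w : S) {N N' : ℕ} (h : N ≤ N') :
    ∑ i ∈ Finset.range N, ‖Y i w‖ₑ ^ (2 : ℝ) ≤ ∑ i ∈ Finset.range N', ‖Y i w‖ₑ ^ (2 : ℝ) :=
  Finset.sum_le_sum_of_subset (by simpa using h)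

theorem V_ne_top (Y : ℕ → S → ℂ) (w : S) (N : ℕ) :
    ∑ i ∈ Finset.range N, ‖Y i w‖ₑ ^ (2 : ℝ) ≠ ⊤ :=
  ENNReal.sum_ne_top.2 fun i _ => ENNReal.rpow_ne_top_of_nonneg (by norm_num) enorm_ne_top

/-- **the square function is in `L^p`** -/
theorem sq_bdd (σ : Measure S) [IsFiniteMeasure σ] (h : Coef P X K) (Y : ℕ → S → ℂ)
    (hY : ∀ i, Measurable (Y i)) (g : Ω → S → ℂ) {p : ℝ} (hp : 0 < p)
    (hg : ∀ᵐ ω ∂P, TendstoInMeasure σ (fun N w => ∑ i ∈ Finset.range N, (X i ω : ℂ) * Y i w)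
      atTop (g ω))
    (hgp : ∀ᵐ ω ∂P, ∫⁻ w, (‖g ω w‖ₑ + 1) ^ p ∂σ < ⊤) :
    ∃ M : ℝ≥0∞, M ≠ ⊤ ∧
      ∀ N, ∫⁻ w, (∑ i ∈ Finset.range N, ‖Y i w‖ₑ ^ (2 : ℝ)) ^ (p / 2) ∂σ ≤ M := by
  have hK := h.K_nonneg
  have hd := dl_pos hK
  have hSm := S_meas h Y hY
  have hVm := V_meas Y hY
  obtain ⟨Φ, hΦ⟩ : ∃ Φ : ℕ → ℕ → Ω → ℝ≥0∞, Φ = fun (m : ℕ) N ω =>
      ∫⁻ w, min ‖∑ i ∈ Finset.range N, (X i ω : ℂ) * Y i w‖ₑ (m : ℝ≥0∞) ^ p ∂σ := ⟨_, rfl⟩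
  have hJm : ∀ (m : ℕ) (N : ℕ), Measurable fun q : Ω × S =>
      min ‖∑ i ∈ Finset.range N, (X i q.1 : ℂ) * Y i q.2‖ₑ (m : ℝ≥0∞) ^ p := fun m N =>
    ((hSm N).enorm.min measurable_const).pow_const p
  have hΦm : ∀ m N, Measurable (Φ m N) := by
    intro m N
    rw [hΦ]
    exact (hJm m N).lintegral_prod_right'
  have ht : ∀ᵐ ω ∂P, ∃ L : ℕ, ∀ m, ∀ᶠ N in atTop, Φ m N ω ≤ L := by
    filter_upwards [hg, hgp] with ω h1 h2
    obtain ⟨L, hL⟩ := ENNReal.exists_nat_gt (r := ∫⁻ w, (‖g ω w‖ₑ + 1) ^ p ∂σ + 1)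
      (ENNReal.add_ne_top.2 ⟨h2.ne, ENNReal.one_ne_top⟩)
    refine ⟨L, fun m => ?_⟩
    filter_upwards [trunc σ _ _ h1 hp.le m] with N hN
    rw [hΦ]
    exact hN.trans hL.le
  obtain ⟨J, hJ⟩ := tight Φ hΦm ht (ENNReal.ofReal_pos.2 hd)
  have key1 : ∀ m : ℕ, ∀ᶠ N in atTop, ENNReal.ofReal (dl K) *
      ∫⁻ w, min (((∑ i ∈ Finset.range N, ‖Y i w‖ₑ ^ (2 : ℝ)) / 2) ^ (1 / 2 : ℝ)) m ^ p ∂σ ≤ J := by
    intro m
    filter_upwards [hJ m] with N hN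
    have hAm : MeasurableSet {ω | Φ m N ω ≤ J} := measurableSet_le (hΦm m N) measurable_const
    have hm1 : Measurable fun w =>
        min (((∑ i ∈ Finset.range N, ‖Y i w‖ₑ ^ (2 : ℝ)) / 2) ^ (1 / 2 : ℝ)) (m : ℝ≥0∞) ^ p :=
      ((((hVm N).div_const 2).pow_const _).min measurable_const).pow_const _
    calc ENNReal.ofReal (dl K) *
          ∫⁻ w, min (((∑ i ∈ Finset.range N, ‖Y i w‖ₑ ^ (2 : ℝ)) / 2) ^ (1 / 2 : ℝ)) m ^ p ∂σ
        = ∫⁻ w, ENNReal.ofReal (dl K) *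
          min (((∑ i ∈ Finset.range N, ‖Y i w‖ₑ ^ (2 : ℝ)) / 2) ^ (1 / 2 : ℝ)) m ^ p ∂σ := by
          rw [lintegral_const_mul _ hm1]
      _ ≤ ∫⁻ w, ∫⁻ ω in {ω | Φ m N ω ≤ J},
            min ‖∑ i ∈ Finset.range N, (X i ω : ℂ) * Y i w‖ₑ m ^ p ∂P ∂σ :=
          lintegral_mono fun w => pz h (fun i => Y i w) N _ hAm hN m hp
      _ = ∫⁻ ω in {ω | Φ m N ω ≤ J}, ∫⁻ w,
            min ‖∑ i ∈ Finset.range N, (X i ω : ℂ) * Y i w‖ₑ m ^ p ∂σ ∂P := by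
          rw [lintegral_lintegral_swap]
          exact ((hJm m N).comp measurable_swap).aemeasurable
      _ = ∫⁻ ω in {ω | Φ m N ω ≤ J}, Φ m N ω ∂P := by rw [hΦ]
      _ ≤ ∫⁻ ω in {ω | Φ m N ω ≤ J}, (J : ℝ≥0∞) ∂P := setLIntegral_mono' hAm fun ω hω => hω
      _ = J * P {ω | Φ m N ω ≤ J} := by rw [lintegral_const, Measure.restrict_apply_univ]
      _ ≤ J * 1 := mul_le_mul' le_rfl prob_le_one
      _ = J := mul_one _
  have key2 : ∀ (m : ℕ) (N : ℕ), ENNReal.ofReal (dl K) *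
      ∫⁻ w, min (((∑ i ∈ Finset.range N, ‖Y i w‖ₑ ^ (2 : ℝ)) / 2) ^ (1 / 2 : ℝ)) m ^ p ∂σ ≤ J := by
    intro m N
    obtain ⟨N₀, hN₀⟩ := eventually_atTop.1 (key1 m)
    refine le_trans ?_ (hN₀ (max N N₀) (le_max_right _ _))
    refine mul_le_mul' le_rfl (lintegral_mono fun w => ?_)
    refine ENNReal.rpow_le_rpow (min_le_min ?_ le_rfl) hp.le
    refine ENNReal.rpow_le_rpow ?_ (by norm_num)
    exact ENNReal.div_le_div_right (V_mono Y w (le_max_left _ _)) 2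
  have key3 : ∀ N : ℕ, ENNReal.ofReal (dl K) *
      ∫⁻ w, (((∑ i ∈ Finset.range N, ‖Y i w‖ₑ ^ (2 : ℝ)) / 2) ^ (1 / 2 : ℝ)) ^ p ∂σ ≤ J := by
    intro N
    have hfat : ∫⁻ w, (((∑ i ∈ Finset.range N, ‖Y i w‖ₑ ^ (2 : ℝ)) / 2) ^ (1 / 2 : ℝ)) ^ p ∂σ ≤
        liminf (fun m : ℕ => ∫⁻ w,
          min (((∑ i ∈ Finset.range N, ‖Y i w‖ₑ ^ (2 : ℝ)) / 2) ^ (1 / 2 : ℝ)) (m : ℝ≥0∞) ^ p ∂σ)
          atTop := by
      have h5 := lintegral_liminf_le (μ := σ) (u := atTop) (f := fun (m : ℕ) w =>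
        min (((∑ i ∈ Finset.range N, ‖Y i w‖ₑ ^ (2 : ℝ)) / 2) ^ (1 / 2 : ℝ)) (m : ℝ≥0∞) ^ p)
        (fun m => ((((hVm N).div_const 2).pow_const _).min measurable_const).pow_const _)
      refine le_trans (le_of_eq ?_) h5
      refine lintegral_congr fun w => ?_
      symm
      apply Tendsto.liminf_eq
      apply tendsto_const_nhds.congr'
      have hfin : ((∑ i ∈ Finset.range N, ‖Y i w‖ₑ ^ (2 : ℝ)) / 2) ^ (1 / 2 : ℝ) ≠ ⊤ :=
        ENNReal.rpow_ne_top_of_nonneg (by norm_num)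
          (ENNReal.div_ne_top (V_ne_top Y w N) (by norm_num))
      obtain ⟨L, hL⟩ := ENNReal.exists_nat_gt hfin
      filter_upwards [eventually_ge_atTop L] with m hm
      rw [min_eq_left]
      exact hL.le.trans (by exact_mod_cast hm)
    rcases eq_or_ne (∫⁻ w, (((∑ i ∈ Finset.range N, ‖Y i w‖ₑ ^ (2 : ℝ)) / 2) ^ (1 / 2 : ℝ)) ^ p ∂σ)
      0 with h0 | h0
    · rw [h0, mul_zero]
      exact bot_le
    · have h6 : ∀ m : ℕ, ∫⁻ w,
          min (((∑ i ∈ Finset.range N, ‖Y i w‖ₑ ^ (2 : ℝ)) / 2) ^ (1 / 2 : ℝ)) (m : ℝ≥0∞) ^ p ∂σ ≤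
          J / ENNReal.ofReal (dl K) := by
        intro m
        rw [ENNReal.le_div_iff_mul_le (Or.inl (ENNReal.ofReal_pos.2 hd).ne')
          (Or.inl ENNReal.ofReal_ne_top), mul_comm]
        exact key2 m N
      have h7 : liminf (fun m : ℕ => ∫⁻ w,
          min (((∑ i ∈ Finset.range N, ‖Y i w‖ₑ ^ (2 : ℝ)) / 2) ^ (1 / 2 : ℝ)) (m : ℝ≥0∞) ^ p ∂σ)
          atTop ≤ J / ENNReal.ofReal (dl K) := by
        refine (liminf_le_liminf (Eventually.of_forall h6)).trans (le_of_eq ?_)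
        exact liminf_const _
      have h8 := hfat.trans h7
      rw [ENNReal.le_div_iff_mul_le (Or.inl (ENNReal.ofReal_pos.2 hd).ne')
          (Or.inl ENNReal.ofReal_ne_top), mul_comm] at h8
      exact h8
  refine ⟨2 ^ (p / 2) * (J / ENNReal.ofReal (dl K)), ?_, fun N => ?_⟩
  · refine ENNReal.mul_ne_top (ENNReal.rpow_ne_top_of_nonneg (by positivity) (by norm_num)) ?_
    exact ENNReal.div_ne_top (ENNReal.natCast_ne_top J) (ENNReal.ofReal_pos.2 hd).ne'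
  · have h9 := key3 N
    rw [mul_comm, ← ENNReal.le_div_iff_mul_le (Or.inl (ENNReal.ofReal_pos.2 hd).ne')
          (Or.inl ENNReal.ofReal_ne_top)] at h9
    calc ∫⁻ w, (∑ i ∈ Finset.range N, ‖Y i w‖ₑ ^ (2 : ℝ)) ^ (p / 2) ∂σ
        = ∫⁻ w, 2 ^ (p / 2) *
          (((∑ i ∈ Finset.range N, ‖Y i w‖ₑ ^ (2 : ℝ)) / 2) ^ (1 / 2 : ℝ)) ^ p ∂σ := by
          refine lintegral_congr fun w => ?_
          rw [← ENNReal.rpow_mul, show (1 / 2 : ℝ) * p = p / 2 by ring,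
            ← ENNReal.mul_rpow_of_nonneg _ _ (by positivity),
            ENNReal.mul_div_cancel (by norm_num) (by norm_num)]
      _ = 2 ^ (p / 2) * ∫⁻ w,
          (((∑ i ∈ Finset.range N, ‖Y i w‖ₑ ^ (2 : ℝ)) / 2) ^ (1 / 2 : ℝ)) ^ p ∂σ := by
          rw [lintegral_const_mul]
          exact (((hVm N).div_const 2).pow_const _).pow_const _
      _ ≤ _ := mul_le_mul' le_rfl h9

end Pool.Agent.W5h55.SH
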