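import Mathlib
import Pool.Agent.W5h55.SH.B4
set_option autoImplicit false

/-! From a square function estimate to random series. -/

open MeasureTheory Set Metric ProbabilityTheory Filter
open scoped ENNReal Topology

namespace Pool.Agent.W5h55.SH

variable {Ω : Type*} [MeasurableSpace Ω] {P : Measure Ω} [IsProbabilityMeasure P]
variable {X : ℕ → Ω → ℝ} {K : ℝ}
variable {S : Type*} [MeasurableSpace S]

theorem L1_conv (σ : Measure S) [IsFiniteMeasure σ] (f : ℕ → S → ℂ) (g : S → ℂ)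
    (hf : ∀ j, AEStronglyMeasurable (f j) σ) (hg : AEStronglyMeasurable g σ)
    (h : TendstoInMeasure σ f atTop g) {B : ℝ≥0∞} (hB : B ≠ ⊤)
    (hfB : ∀ j, ∫⁻ w, ‖f j w‖ₑ ^ (2 : ℝ) ∂σ ≤ B) (hgB : ∫⁻ w, ‖g w‖ₑ ^ (2 : ℝ) ∂σ ≠ ⊤) :
    Tendsto (fun j => ∫⁻ w, ‖f j w - g w‖ₑ ∂σ) atTop (𝓝 0) := by
  obtain ⟨D, hD⟩ : ∃ D : ℝ≥0∞, D = 2 ^ (2 - 1 : ℝ) * (B + ∫⁻ w, ‖g w‖ₑ ^ (2 : ℝ) ∂σ) := ⟨_, rfl⟩
  have hDt : D ≠ ⊤ := by
    rw [hD]
    exact ENNReal.mul_ne_top (ENNReal.rpow_ne_top_of_nonneg (by norm_num) (by norm_num))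
      (ENNReal.add_ne_top.2 ⟨hB, hgB⟩)
  have hdiff : ∀ j, ∫⁻ w, ‖f j w - g w‖ₑ ^ (2 : ℝ) ∂σ ≤ D := by
    intro j
    calc ∫⁻ w, ‖f j w - g w‖ₑ ^ (2 : ℝ) ∂σ
        ≤ ∫⁻ w, 2 ^ (2 - 1 : ℝ) * (‖f j w‖ₑ ^ (2 : ℝ) + ‖g w‖ₑ ^ (2 : ℝ)) ∂σ := by
          refine lintegral_mono fun w => ?_
          refine (ENNReal.rpow_le_rpow enorm_sub_le (by norm_num)).trans ?_
          exact ENNReal.rpow_add_le_mul_rpow_add_rpow _ _ (by norm_num)
      _ = 2 ^ (2 - 1 : ℝ) * (∫⁻ w, ‖f j w‖ₑ ^ (2 : ℝ) ∂σ + ∫⁻ w, ‖g w‖ₑ ^ (2 : ℝ) ∂σ) := by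
          rw [lintegral_const_mul' _ _ (ENNReal.rpow_ne_top_of_nonneg (by norm_num) (by norm_num)),
            lintegral_add_left' ((hf j).enorm.pow_const _)]
      _ ≤ _ := by
          rw [hD]
          exact mul_le_mul' le_rfl (add_le_add (hfB j) le_rfl)
  rw [ENNReal.tendsto_nhds_zero]
  intro ε hε
  rcases eq_or_ne ε ⊤ with hε' | hεt
  · rw [hε']
    exact Eventually.of_forall fun _ => le_top
  obtain ⟨ε₁, hε₁⟩ : ∃ ε₁ : ℝ≥0∞, ε₁ = ε / 2 / (σ univ + 1) := ⟨_, rfl⟩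
  have hs : σ univ + 1 ≠ ⊤ := ENNReal.add_ne_top.2 ⟨measure_ne_top _ _, ENNReal.one_ne_top⟩
  have hs0 : σ univ + 1 ≠ 0 := by simp
  have h1 : 0 < ε₁ := by
    rw [hε₁]
    exact ENNReal.div_pos (ENNReal.half_pos hε.ne').ne' hs
  have h2 : ε₁ * σ univ ≤ ε / 2 := by
    rw [hε₁]
    calc ε / 2 / (σ univ + 1) * σ univ ≤ ε / 2 / (σ univ + 1) * (σ univ + 1) :=
          mul_le_mul' le_rfl le_self_add
      _ = ε / 2 := ENNReal.div_mul_cancel hs0 hs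
  have h3 := h ε₁ h1
  have h4 : Tendsto (fun j => (σ {w | ε₁ ≤ edist (f j w) (g w)}) ^ (1 / 2 : ℝ) *
      D ^ (1 / 2 : ℝ)) atTop (𝓝 0) := by
    have h5 := ((ENNReal.continuous_rpow_const (y := 1 / 2)).tendsto 0).comp h3
    rw [ENNReal.zero_rpow_of_pos (by norm_num)] at h5
    have h6 := ENNReal.Tendsto.mul_const h5
      (Or.inr (ENNReal.rpow_ne_top_of_nonneg (by norm_num : (0 : ℝ) ≤ 1 / 2) hDt))
    rwa [zero_mul] at h6
  filter_upwards [h4.eventually_le_const (ENNReal.half_pos hε.ne')] with j hj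
  obtain ⟨A, hA⟩ : ∃ A, A = toMeasurable σ {w | ε₁ ≤ edist (f j w) (g w)} := ⟨_, rfl⟩
  have hAm : MeasurableSet A := by
    rw [hA]
    exact measurableSet_toMeasurable _ _
  have hAs : {w | ε₁ ≤ edist (f j w) (g w)} ⊆ A := by
    rw [hA]
    exact subset_toMeasurable _ _
  have hAe : σ A = σ {w | ε₁ ≤ edist (f j w) (g w)} := by
    rw [hA]
    exact measure_toMeasurable _
  have h7 : ∫⁻ w in A, ‖f j w - g w‖ₑ ∂σ ≤ ε / 2 := by
    have h8 := ENNReal.lintegral_mul_norm_pow_le (μ := σ.restrict A) (f := fun _ => (1 : ℝ≥0∞))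
      (g := fun w => ‖f j w - g w‖ₑ ^ (2 : ℝ)) aemeasurable_const
      ((((hf j).sub hg).enorm.pow_const (2 : ℝ)).restrict)
      (by norm_num : (0 : ℝ) ≤ 1 / 2) (by norm_num : (0 : ℝ) ≤ 1 / 2) (by norm_num)
    simp only [ENNReal.one_rpow, one_mul, lintegral_const, Measure.restrict_apply_univ] at h8
    have h9 : ∫⁻ w in A, ‖f j w - g w‖ₑ ∂σ =
        ∫⁻ w in A, (‖f j w - g w‖ₑ ^ (2 : ℝ)) ^ (1 / 2 : ℝ) ∂σ := by
      refine lintegral_congr fun w => ?_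
      rw [← ENNReal.rpow_mul]
      norm_num
    rw [h9]
    refine h8.trans (le_trans ?_ hj)
    rw [hAe]
    exact mul_le_mul' le_rfl (ENNReal.rpow_le_rpow
      ((setLIntegral_le_lintegral _ _).trans (hdiff j)) (by norm_num))
  calc ∫⁻ w, ‖f j w - g w‖ₑ ∂σ
      = ∫⁻ w in A, ‖f j w - g w‖ₑ ∂σ + ∫⁻ w in Aᶜ, ‖f j w - g w‖ₑ ∂σ :=
        (lintegral_add_compl _ hAm).symm
    _ ≤ ε / 2 + ∫⁻ w in Aᶜ, ε₁ ∂σ := by
        refine add_le_add h7 (setLIntegral_mono' hAm.compl fun w hw => ?_)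
        rw [← edist_eq_enorm_sub]
        by_contra hc
        push Not at hc
        exact hw (hAs hc.le)
    _ ≤ ε / 2 + ε₁ * σ univ := by
        refine add_le_add le_rfl ?_
        rw [lintegral_const, Measure.restrict_apply_univ]
        exact mul_le_mul' le_rfl (measure_mono (subset_univ _))
    _ ≤ ε / 2 + ε / 2 := add_le_add le_rfl h2
    _ = ε := ENNReal.add_halves ε

theorem kh_p (h : Coef P X K) (a : ℕ → ℂ) (N : ℕ) {p : ℝ} (hp0 : 0 ≤ p) (hp4 : p ≤ 4) :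
    ∫⁻ ω, ‖∑ i ∈ Finset.range N, (X i ω : ℂ) * a i‖ₑ ^ p ∂P ≤
      (ENNReal.ofReal (2 * (3 + K))) ^ (p / 4) *
        (∑ i ∈ Finset.range N, ‖a i‖ₑ ^ (2 : ℝ)) ^ (p / 2) := by
  have hZm := Z_meas h a N
  have h3 := ENNReal.lintegral_mul_norm_pow_le (μ := P) (f := fun _ => (1 : ℝ≥0∞))
    (g := fun ω => ‖∑ i ∈ Finset.range N, (X i ω : ℂ) * a i‖ₑ ^ (4 : ℝ)) aemeasurable_const
    (hZm.enorm.pow_const (4 : ℝ)).aemeasurable
    (by linarith : (0 : ℝ) ≤ 1 - p / 4) (by linarith : (0 : ℝ) ≤ p / 4) (by ring)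
  simp only [ENNReal.one_rpow, one_mul, lintegral_const, measure_univ] at h3
  have h4 : ∫⁻ ω, ‖∑ i ∈ Finset.range N, (X i ω : ℂ) * a i‖ₑ ^ p ∂P =
      ∫⁻ ω, (‖∑ i ∈ Finset.range N, (X i ω : ℂ) * a i‖ₑ ^ (4 : ℝ)) ^ (p / 4) ∂P := by
    refine lintegral_congr fun ω => ?_
    rw [← ENNReal.rpow_mul]
    congr 1
    ring
  rw [h4]
  refine h3.trans ?_
  refine (ENNReal.rpow_le_rpow (kh_complex h a N).2 (by linarith)).trans (le_of_eq ?_)
  rw [ENNReal.mul_rpow_of_nonneg _ _ (by linarith), ← ENNReal.rpow_mul]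
  congr 2
  ring

/-- **random series inherit a square function estimate** -/
theorem transfer (σ : Measure S) [IsFiniteMeasure σ] {R : Type*} [MeasurableSpace R]
    (μ : Measure R) [SFinite μ] (e : R → S → ℂ) (he : Measurable (Function.uncurry e))
    (he1 : ∀ x w, ‖e x w‖ₑ ≤ 1) (h : Coef P X K) (Y : ℕ → S → ℂ) (hY : ∀ i, Measurable (Y i))
    (hYi : ∀ i, Integrable (Y i) σ) {p : ℝ} (hp2 : 2 ≤ p) (hp4 : p ≤ 4) (C : ℝ≥0∞) (hC : C ≠ ⊤)
    (hsq : ∀ N, ∫⁻ x, (∑ i ∈ Finset.range N, ‖∫ w, e x w * Y i w ∂σ‖ₑ ^ (2 : ℝ)) ^ (p / 2) ∂μ ≤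
      C * ∫⁻ w, (∑ i ∈ Finset.range N, ‖Y i w‖ₑ ^ (2 : ℝ)) ^ (p / 2) ∂σ)
    (g : Ω → S → ℂ)
    (hg : ∀ᵐ ω ∂P, TendstoInMeasure σ (fun N w => ∑ i ∈ Finset.range N, (X i ω : ℂ) * Y i w)
      atTop (g ω))
    (hgm : ∀ᵐ ω ∂P, AEStronglyMeasurable (g ω) σ)
    (hgp : ∀ᵐ ω ∂P, ∫⁻ w, ‖g ω w‖ₑ ^ p ∂σ < ⊤) :
    ∀ᵐ ω ∂P, ∫⁻ x, ‖∫ w, e x w * g ω w ∂σ‖ₑ ^ p ∂μ < ⊤ := by
  have hK := h.K_nonneg
  have hSm := S_meas h Y hY
  have hVm := V_meas Y hY
  have hgp' : ∀ᵐ ω ∂P, ∫⁻ w, (‖g ω w‖ₑ + 1) ^ p ∂σ < ⊤ := by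
    filter_upwards [hgm, hgp] with ω h1 h2
    calc ∫⁻ w, (‖g ω w‖ₑ + 1) ^ p ∂σ ≤ ∫⁻ w, 2 ^ (p - 1) * (‖g ω w‖ₑ ^ p + 1 ^ p) ∂σ :=
          lintegral_mono fun w => ENNReal.rpow_add_le_mul_rpow_add_rpow _ _ (by linarith)
      _ = 2 ^ (p - 1) * (∫⁻ w, ‖g ω w‖ₑ ^ p ∂σ + σ univ) := by
          rw [lintegral_const_mul' _ _ (ENNReal.rpow_ne_top_of_nonneg (by linarith) (by norm_num)),
            lintegral_add_left' (h1.enorm.pow_const _), ENNReal.one_rpow, lintegral_const, one_mul]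
      _ < ⊤ := ENNReal.mul_lt_top (ENNReal.rpow_lt_top_of_nonneg (by linarith) (by norm_num))
          (ENNReal.add_lt_top.2 ⟨h2, measure_lt_top _ _⟩)
  obtain ⟨M, hM, hMV⟩ := sq_bdd σ h Y hY g (by linarith) hg hgp'
  -- the operators
  obtain ⟨U, hU⟩ : ∃ U : ℕ → R → ℂ, U = fun i x => ∫ w, e x w * Y i w ∂σ := ⟨_, rfl⟩
  have hUm : ∀ i, Measurable (U i) := by
    intro i
    rw [hU]
    have h1 : StronglyMeasurable fun q : R × S => e q.1 q.2 * Y i q.2 :=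
      (he.mul ((hY i).comp measurable_snd)).stronglyMeasurable
    exact h1.integral_prod_right'.measurable
  have hUS : ∀ (N : ℕ) (ω : Ω) (x : R), ∫ w, e x w * (∑ i ∈ Finset.range N, (X i ω : ℂ) * Y i w) ∂σ =
      ∑ i ∈ Finset.range N, (X i ω : ℂ) * U i x := by
    intro N ω x
    have hex : Measurable (e x) := he.comp (measurable_const.prodMk measurable_id)
    have hint : ∀ i, Integrable (fun w => e x w * ((X i ω : ℂ) * Y i w)) σ := by
      intro i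
      refine ((hYi i).const_mul (X i ω : ℂ)).bdd_mul (c := 1) hex.aestronglyMeasurable
        (Eventually.of_forall fun w => ?_)
      have h1 := he1 x w
      rw [← ofReal_norm, ← ENNReal.ofReal_one] at h1
      exact (ENNReal.ofReal_le_ofReal_iff zero_le_one).1 h1
    simp_rw [Finset.mul_sum]
    rw [integral_finset_sum _ fun i _ => hint i]
    refine Finset.sum_congr rfl fun i _ => ?_
    rw [hU, ← integral_const_mul]
    refine integral_congr_ae (Eventually.of_forall fun w => ?_)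
    simp only
    ring
  obtain ⟨F, hF⟩ : ∃ F : ℕ → Ω → ℝ≥0∞, F = fun N ω =>
      ∫⁻ w, ‖∑ i ∈ Finset.range N, (X i ω : ℂ) * Y i w‖ₑ ^ (2 : ℝ) ∂σ +
      ∫⁻ x, ‖∑ i ∈ Finset.range N, (X i ω : ℂ) * U i x‖ₑ ^ p ∂μ := ⟨_, rfl⟩
  have hSU := S_meas h U hUm
  have hF1 : ∀ N, Measurable fun ω =>
      ∫⁻ w, ‖∑ i ∈ Finset.range N, (X i ω : ℂ) * Y i w‖ₑ ^ (2 : ℝ) ∂σ := fun N =>
    ((hSm N).enorm.pow_const (2 : ℝ)).lintegral_prod_right'
  have hF2 : ∀ N, Measurable fun ω =>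
      ∫⁻ x, ‖∑ i ∈ Finset.range N, (X i ω : ℂ) * U i x‖ₑ ^ p ∂μ := fun N =>
    ((hSU N).enorm.pow_const p).lintegral_prod_right'
  have hFm : ∀ N, Measurable (F N) := by
    intro N
    rw [hF]
    exact (hF1 N).add (hF2 N)
  obtain ⟨B₀, hB₀⟩ : ∃ B₀ : ℝ≥0∞, B₀ = (σ univ + M) +
      (ENNReal.ofReal (2 * (3 + K))) ^ (p / 4) * (C * M) := ⟨_, rfl⟩
  have hB₀t : B₀ ≠ ⊤ := by
    rw [hB₀]
    exact ENNReal.add_ne_top.2 ⟨ENNReal.add_ne_top.2 ⟨measure_ne_top _ _, hM⟩,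
      ENNReal.mul_ne_top (ENNReal.rpow_ne_top_of_nonneg (by linarith) ENNReal.ofReal_ne_top)
        (ENNReal.mul_ne_top hC hM)⟩
  have hFB : ∀ N, ∫⁻ ω, F N ω ∂P ≤ B₀ := by
    intro N
    rw [hF, hB₀]
    simp only
    rw [lintegral_add_left (hF1 N)]
    refine add_le_add ?_ ?_
    · rw [lintegral_lintegral_swap ((hSm N).enorm.pow_const (2 : ℝ)).aemeasurable]
      calc ∫⁻ w, ∫⁻ ω, ‖∑ i ∈ Finset.range N, (X i ω : ℂ) * Y i w‖ₑ ^ (2 : ℝ) ∂P ∂σ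
          = ∫⁻ w, (∑ i ∈ Finset.range N, ‖Y i w‖ₑ ^ (2 : ℝ)) ∂σ :=
            lintegral_congr fun w => (kh_complex h (fun i => Y i w) N).1
        _ ≤ ∫⁻ w, (1 + (∑ i ∈ Finset.range N, ‖Y i w‖ₑ ^ (2 : ℝ)) ^ (p / 2)) ∂σ := by
            refine lintegral_mono fun w => ?_
            rcases le_total (∑ i ∈ Finset.range N, ‖Y i w‖ₑ ^ (2 : ℝ)) 1 with h1 | h1
            · exact h1.trans le_self_add
            · refine le_trans ?_ le_add_self
              calc ∑ i ∈ Finset.range N, ‖Y i w‖ₑ ^ (2 : ℝ)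
                  = (∑ i ∈ Finset.range N, ‖Y i w‖ₑ ^ (2 : ℝ)) ^ (1 : ℝ) :=
                    (ENNReal.rpow_one _).symm
                _ ≤ _ := ENNReal.rpow_le_rpow_of_exponent_le h1 (by linarith)
        _ = σ univ + ∫⁻ w, (∑ i ∈ Finset.range N, ‖Y i w‖ₑ ^ (2 : ℝ)) ^ (p / 2) ∂σ := by
            rw [lintegral_add_left measurable_const, lintegral_const, one_mul]
        _ ≤ _ := add_le_add le_rfl (hMV N)
    · rw [lintegral_lintegral_swap ((hSU N).enorm.pow_const p).aemeasurable]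
      calc ∫⁻ x, ∫⁻ ω, ‖∑ i ∈ Finset.range N, (X i ω : ℂ) * U i x‖ₑ ^ p ∂P ∂μ
          ≤ ∫⁻ x, (ENNReal.ofReal (2 * (3 + K))) ^ (p / 4) *
              (∑ i ∈ Finset.range N, ‖U i x‖ₑ ^ (2 : ℝ)) ^ (p / 2) ∂μ :=
            lintegral_mono fun x => kh_p h (fun i => U i x) N (by linarith) hp4
        _ = (ENNReal.ofReal (2 * (3 + K))) ^ (p / 4) *
              ∫⁻ x, (∑ i ∈ Finset.range N, ‖U i x‖ₑ ^ (2 : ℝ)) ^ (p / 2) ∂μ :=
            lintegral_const_mul' _ _ (ENNReal.rpow_ne_top_of_nonneg (by linarith)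
              ENNReal.ofReal_ne_top)
        _ ≤ _ := by
            refine mul_le_mul' le_rfl ?_
            have h1 := hsq N
            rw [hU]
            exact h1.trans (mul_le_mul' le_rfl (hMV N))
  have hlim : ∀ᵐ ω ∂P, liminf (fun N => F N ω) atTop < ⊤ := by
    have h1 : ∫⁻ ω, liminf (fun N => F N ω) atTop ∂P ≤ B₀ := by
      refine (lintegral_liminf_le hFm).trans ?_
      refine (liminf_le_liminf (Eventually.of_forall hFB)).trans (le_of_eq ?_)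
      exact liminf_const _
    exact ae_lt_top (Measurable.liminf hFm) (ne_top_of_le_ne_top hB₀t h1)
  filter_upwards [hlim, hg, hgm, hgp] with ω h1 h2 h3 h4
  obtain ⟨B, hB1, hB2⟩ := exists_between h1
  have h5 : ∃ᶠ N in atTop, F N ω < B := frequently_lt_of_liminf_lt (by isBoundedDefault) hB1
  obtain ⟨φ, hφ, hφB⟩ := extraction_of_frequently_atTop h5
  have hg2 : ∫⁻ w, ‖g ω w‖ₑ ^ (2 : ℝ) ∂σ ≠ ⊤ := by
    have h6 : ∫⁻ w, ‖g ω w‖ₑ ^ (2 : ℝ) ∂σ ≤ σ univ + ∫⁻ w, ‖g ω w‖ₑ ^ p ∂σ := by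
      calc ∫⁻ w, ‖g ω w‖ₑ ^ (2 : ℝ) ∂σ ≤ ∫⁻ w, (1 + ‖g ω w‖ₑ ^ p) ∂σ := by
            refine lintegral_mono fun w => ?_
            rcases le_total ‖g ω w‖ₑ 1 with h7 | h7
            · exact (ENNReal.rpow_le_one h7 (by norm_num)).trans le_self_add
            · exact (ENNReal.rpow_le_rpow_of_exponent_le h7 hp2).trans le_add_self
        _ = _ := by rw [lintegral_add_left measurable_const, lintegral_const, one_mul]
    exact ne_top_of_le_ne_top (ENNReal.add_ne_top.2 ⟨measure_ne_top _ _, h4.ne⟩) h6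
  have hSw : ∀ N, Measurable fun w => ∑ i ∈ Finset.range N, (X i ω : ℂ) * Y i w := fun N =>
    (hSm N).comp (measurable_const.prodMk measurable_id)
  have hconv : Tendsto (fun j => ∫⁻ w, ‖(∑ i ∈ Finset.range (φ j), (X i ω : ℂ) * Y i w) - g ω w‖ₑ ∂σ)
      atTop (𝓝 0) := by
    refine L1_conv σ (fun j w => ∑ i ∈ Finset.range (φ j), (X i ω : ℂ) * Y i w) (g ω)
      (fun j => (hSw (φ j)).aestronglyMeasurable) h3 ?_ hB2.ne (fun j => ?_) hg2
    · intro ε hε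
      exact (h2 ε hε).comp hφ.tendsto_atTop
    · have h6 := (hφB j).le
      rw [hF] at h6
      exact le_self_add.trans h6
  have hgi : Integrable (g ω) σ := by
    have h6 : MemLp (g ω) 2 σ := by
      refine ⟨h3, ?_⟩
      rw [eLpNorm_lt_top_iff_lintegral_rpow_enorm_lt_top (by norm_num) (by norm_num)]
      simpa using lt_top_iff_ne_top.2 hg2
    exact memLp_one_iff_integrable.1 (h6.mono_exponent (by norm_num))
  have hpt : ∀ x, Tendsto (fun j => ‖∑ i ∈ Finset.range (φ j), (X i ω : ℂ) * U i x‖ₑ ^ p) atTop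
      (𝓝 (‖∫ w, e x w * g ω w ∂σ‖ₑ ^ p)) := by
    intro x
    have hex : Measurable (e x) := he.comp (measurable_const.prodMk measurable_id)
    have hbd : ∀ w, ‖e x w‖ ≤ 1 := by
      intro w
      have h1 := he1 x w
      rw [← ofReal_norm, ← ENNReal.ofReal_one] at h1
      exact (ENNReal.ofReal_le_ofReal_iff zero_le_one).1 h1
    have h6 : Tendsto (fun j => ∑ i ∈ Finset.range (φ j), (X i ω : ℂ) * U i x) atTop
        (𝓝 (∫ w, e x w * g ω w ∂σ)) := by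
      rw [tendsto_iff_edist_tendsto_0]
      refine tendsto_of_tendsto_of_tendsto_of_le_of_le tendsto_const_nhds hconv
        (fun j => bot_le) fun j => ?_
      rw [← hUS, edist_eq_enorm_sub]
      have hi1 : Integrable (fun w => e x w * ∑ i ∈ Finset.range (φ j), (X i ω : ℂ) * Y i w) σ := by
        refine Integrable.bdd_mul (c := 1) ?_ hex.aestronglyMeasurable
          (Eventually.of_forall hbd)
        exact integrable_finset_sum _ fun i _ => (hYi i).const_mul _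
      have hi2 : Integrable (fun w => e x w * g ω w) σ :=
        hgi.bdd_mul (c := 1) hex.aestronglyMeasurable (Eventually.of_forall hbd)
      rw [← integral_sub hi1 hi2]
      refine (enorm_integral_le_lintegral_enorm _).trans (lintegral_mono fun w => ?_)
      rw [← mul_sub, enorm_mul]
      exact (mul_le_mul' (he1 x w) le_rfl).trans (le_of_eq (one_mul _))
    exact (ENNReal.continuous_rpow_const.tendsto _).comp ((continuous_enorm.tendsto _).comp h6)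
  calc ∫⁻ x, ‖∫ w, e x w * g ω w ∂σ‖ₑ ^ p ∂μ
      = ∫⁻ x, liminf (fun j => ‖∑ i ∈ Finset.range (φ j), (X i ω : ℂ) * U i x‖ₑ ^ p) atTop ∂μ :=
        lintegral_congr fun x => (hpt x).liminf_eq.symm
    _ ≤ liminf (fun j => ∫⁻ x, ‖∑ i ∈ Finset.range (φ j), (X i ω : ℂ) * U i x‖ₑ ^ p ∂μ) atTop := by
        refine lintegral_liminf_le fun j => ?_
        refine Measurable.pow_const (Measurable.enorm ?_) _
        exact (hSU (φ j)).comp (measurable_const.prodMk measurable_id)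
    _ ≤ B := by
        refine (liminf_le_liminf (Eventually.of_forall fun j => ?_)).trans
          (le_of_eq (liminf_const B))
        have h6 := (hφB j).le
        rw [hF] at h6
        exact le_add_self.trans h6
    _ < ⊤ := hB2

end Pool.Agent.W5h55.SH
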