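import Mathlib
import Pool.Agent.W5h55.SH.B1
import Pool.Agent.W5h55.SH.B5
set_option autoImplicit false

/-! Random series of spherical harmonics. -/

open MeasureTheory Set Metric ProbabilityTheory Filter
open scoped ENNReal Topology RealInnerProductSpace

namespace Pool.Agent.W5h55.SH

open Pool.Agent.H789R2.FR (E sg sg_finite sg_ae T polar)

variable {n : ℕ}

/-- surface measure on the unit sphere -/
noncomputable def sig (n : ℕ) : Measure (sphere (0 : E n) 1) := (volume : Measure (E n)).toSphere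

/-- the character of frequency `ξ` -/
noncomputable def chr {n : ℕ} (ξ : E n) (x : sphere (0 : E n) 1) : ℂ :=
  Complex.exp (-(2 * Real.pi * ⟪(x : E n), ξ⟫ : ℝ) * Complex.I)

theorem chr_meas : Measurable (Function.uncurry (chr (n := n))) := by
  have h : Continuous fun q : E n × sphere (0 : E n) 1 => chr q.1 q.2 := by
    unfold chr
    fun_prop
  exact h.measurable

theorem chr_norm (ξ : E n) (x : sphere (0 : E n) 1) : ‖chr ξ x‖ = 1 := by
  unfold chr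
  rw [show -((2 * Real.pi * ⟪(x : E n), ξ⟫ : ℝ) : ℂ) * Complex.I =
    ((-(2 * Real.pi * ⟪(x : E n), ξ⟫) : ℝ) : ℂ) * Complex.I by push_cast; ring]
  exact Complex.norm_exp_ofReal_mul_I _

theorem chr_enorm (ξ : E n) (x : sphere (0 : E n) 1) : ‖chr ξ x‖ₑ ≤ 1 := by
  rw [← ofReal_norm, chr_norm, ENNReal.ofReal_one]

theorem ft_ev (P : MvPolynomial (Fin n) ℂ) (ξ : E n) :
    ∫ x, chr ξ x * ev P (x : E n) ∂(sig n) = T (ev P) ((2 * Real.pi) • ξ) := by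
  unfold T
  have m1 : Measurable fun w : E n =>
      Complex.exp (-((⟪(2 * Real.pi) • ξ, w⟫ : ℝ) : ℂ) * Complex.I) * ev P w := by
    have h2 : Measurable fun z : E n => (⟪(2 * Real.pi) • ξ, z⟫ : ℝ) :=
      (by fun_prop : Continuous _).measurable
    exact (Complex.measurable_exp.comp
      ((Complex.measurable_ofReal.comp h2).neg.mul_const Complex.I)).mul (ev_cont P).measurable
  simp only [sg]
  rw [integral_map measurable_subtype_coe.aemeasurable m1.aestronglyMeasurable]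
  refine integral_congr_ae (Eventually.of_forall fun x => ?_)
  simp only [chr]
  rw [real_inner_smul_left, real_inner_comm]

theorem scale_int (f : E n → ℝ≥0∞) (hf : Measurable f) :
    ∫⁻ ξ : E n, f ((2 * Real.pi) • ξ) =
      ENNReal.ofReal ((2 * Real.pi) ^ n)⁻¹ * ∫⁻ z, f z := by
  have h2pi : (2 * Real.pi) ≠ 0 := by positivity
  have h3 := Measure.map_addHaar_smul (volume : Measure (E n)) h2pi
  have h4 : ∫⁻ x : E n, f x ∂(Measure.map ((2 * Real.pi) • · : E n → E n) volume) =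
      ∫⁻ ξ : E n, f ((2 * Real.pi) • ξ) := lintegral_map hf (measurable_const_smul _)
  rw [← h4, h3, lintegral_smul_measure, smul_eq_mul, finrank_euclideanSpace_fin,
    abs_of_nonneg (by positivity)]

/-- the square function estimate on the sphere -/
theorem sq_sphere (n : ℕ) (hn : 3 ≤ n) (p : ℝ) (hp : 2 * (n : ℝ) / (n - 1) < p) :
    ∃ C : ℝ, 0 < C ∧ ∀ (s : Finset ℕ) (k : ℕ → ℕ) (P : ℕ → MvPolynomial (Fin n) ℂ),
      (∀ i ∈ s, (P i).IsHomogeneous (k i)) → (∀ i ∈ s, Harm (P i)) →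
      ∫⁻ ξ : E n, (∑ i ∈ s, ‖∫ x, chr ξ x * ev (P i) (x : E n) ∂(sig n)‖ₑ ^ (2 : ℝ)) ^ (p / 2) ≤
        ENNReal.ofReal C *
          ∫⁻ x, (∑ i ∈ s, ‖ev (P i) (x : E n)‖ₑ ^ (2 : ℝ)) ^ (p / 2) ∂(sig n) := by
  obtain ⟨C, hC, h⟩ := sqfun n hn p hp
  refine ⟨C, hC, fun s k P hP hh => ?_⟩
  have hm1 : Measurable fun x : E n => (∑ i ∈ s, ‖T (ev (P i)) x‖ₑ ^ (2 : ℝ)) ^ (p / 2) := by
    refine Measurable.pow_const ?_ _
    refine Finset.measurable_fun_sum _ fun i _ => ?_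
    exact (T_cont_meas (P i)).enorm.pow_const _
  have hm2 : Measurable fun w : E n => (∑ i ∈ s, ‖ev (P i) w‖ₑ ^ (2 : ℝ)) ^ (p / 2) := by
    refine Measurable.pow_const ?_ _
    refine Finset.measurable_fun_sum _ fun i _ => ?_
    exact (ev_cont (P i)).measurable.enorm.pow_const _
  simp_rw [ft_ev]
  rw [scale_int (fun x => (∑ i ∈ s, ‖T (ev (P i)) x‖ₑ ^ (2 : ℝ)) ^ (p / 2)) hm1]
  have h5 : ENNReal.ofReal ((2 * Real.pi) ^ n)⁻¹ ≤ 1 := by
    rw [ENNReal.ofReal_le_one]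
    apply inv_le_one_of_one_le₀
    apply one_le_pow₀
    linarith [Real.pi_gt_three]
  have h6 : ∫⁻ w, (∑ i ∈ s, ‖ev (P i) w‖ₑ ^ (2 : ℝ)) ^ (p / 2) ∂(sg n) =
      ∫⁻ x, (∑ i ∈ s, ‖ev (P i) (x : E n)‖ₑ ^ (2 : ℝ)) ^ (p / 2) ∂(sig n) := by
    simp only [sg]
    rw [lintegral_map hm2 measurable_subtype_coe]
    rfl
  calc _ ≤ 1 * ∫⁻ x : E n, (∑ i ∈ s, ‖T (ev (P i)) x‖ₑ ^ (2 : ℝ)) ^ (p / 2) :=
        mul_le_mul' h5 le_rfl
    _ = ∫⁻ x : E n, (∑ i ∈ s, ‖T (ev (P i)) x‖ₑ ^ (2 : ℝ)) ^ (p / 2) := one_mul _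
    _ ≤ _ := by
        rw [← h6]
        exact h s k P hP hh

theorem sig_finite (n : ℕ) : IsFiniteMeasure (sig n) := by
  unfold sig
  infer_instance

/-- the Fourier transform of a density is measurable -/
theorem ftm (g : sphere (0 : E n) 1 → ℂ) (hg : AEStronglyMeasurable g (sig n)) :
    Measurable fun ξ : E n => ∫ x, chr ξ x * g x ∂(sig n) := by
  have hfin := sig_finite n
  have h1 : (fun ξ : E n => ∫ x, chr ξ x * g x ∂(sig n)) =
      fun ξ : E n => ∫ x, chr ξ x * hg.mk g x ∂(sig n) := by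
    funext ξ
    refine integral_congr_ae ?_
    filter_upwards [hg.ae_eq_mk] with x hx
    rw [hx]
  rw [h1]
  have h2 : StronglyMeasurable fun q : E n × sphere (0 : E n) 1 => chr q.1 q.2 * hg.mk g q.2 :=
    (chr_meas.mul (hg.stronglyMeasurable_mk.measurable.comp measurable_snd)).stronglyMeasurable
  exact h2.integral_prod_right'.measurable

theorem ft_bdd (g : sphere (0 : E n) 1 → ℂ) (ξ : E n) :
    ‖∫ x, chr ξ x * g x ∂(sig n)‖ₑ ≤ ∫⁻ x, ‖g x‖ₑ ∂(sig n) := by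
  refine (enorm_integral_le_lintegral_enorm _).trans (lintegral_mono fun x => ?_)
  rw [enorm_mul]
  exact (mul_le_mul' (chr_enorm ξ x) le_rfl).trans (le_of_eq (one_mul _))

/-- larger exponents -/
theorem ft_up (g : sphere (0 : E n) 1 → ℂ) (hg : AEStronglyMeasurable g (sig n))
    (hg1 : ∫⁻ x, ‖g x‖ₑ ∂(sig n) ≠ ⊤) {q p : ℝ} (hq : 0 < q) (hqp : q ≤ p)
    (h : ∫⁻ ξ, ‖∫ x, chr ξ x * g x ∂(sig n)‖ₑ ^ q < ⊤) :
    MemLp (fun ξ : E n => ∫ x, chr ξ x * g x ∂(sig n)) (ENNReal.ofReal p) := by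
  have hp : 0 < p := lt_of_lt_of_le hq hqp
  refine ⟨(ftm g hg).aestronglyMeasurable, ?_⟩
  rw [eLpNorm_lt_top_iff_lintegral_rpow_enorm_lt_top (ENNReal.ofReal_pos.2 hp).ne'
    ENNReal.ofReal_ne_top, ENNReal.toReal_ofReal hp.le]
  calc ∫⁻ ξ, ‖∫ x, chr ξ x * g x ∂(sig n)‖ₑ ^ p
      ≤ ∫⁻ ξ : E n, (∫⁻ x, ‖g x‖ₑ ∂(sig n)) ^ (p - q) *
          ‖∫ x, chr ξ x * g x ∂(sig n)‖ₑ ^ q := by
        refine lintegral_mono fun ξ => ?_
        calc ‖∫ x, chr ξ x * g x ∂(sig n)‖ₑ ^ p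
            = ‖∫ x, chr ξ x * g x ∂(sig n)‖ₑ ^ (p - q) *
              ‖∫ x, chr ξ x * g x ∂(sig n)‖ₑ ^ q := by
              rw [← ENNReal.rpow_add_of_nonneg _ _ (by linarith) hq.le]
              congr 1
              ring
          _ ≤ _ := mul_le_mul' (ENNReal.rpow_le_rpow (ft_bdd g ξ) (by linarith)) le_rfl
    _ = (∫⁻ x, ‖g x‖ₑ ∂(sig n)) ^ (p - q) * ∫⁻ ξ, ‖∫ x, chr ξ x * g x ∂(sig n)‖ₑ ^ q :=
        lintegral_const_mul' _ _ (ENNReal.rpow_ne_top_of_nonneg (by linarith) hg1)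
    _ < ⊤ := ENNReal.mul_lt_top (ENNReal.rpow_lt_top_of_nonneg (by linarith) hg1) h

variable {Ω : Type*} [MeasurableSpace Ω] {Pr : Measure Ω} [IsProbabilityMeasure Pr]
variable {X : ℕ → Ω → ℝ} {K : ℝ}

theorem rand_le4 (hn : 3 ≤ n) (p : ℝ) (hp : 2 * (n : ℝ) / (n - 1) < p) (hp4 : p ≤ 4)
    (h : Coef Pr X K) (k : ℕ → ℕ) (Q : ℕ → MvPolynomial (Fin n) ℂ)
    (hQ : ∀ i, (Q i).IsHomogeneous (k i)) (hQh : ∀ i, Harm (Q i))
    (g : Ω → sphere (0 : E n) 1 → ℂ)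
    (hg : ∀ᵐ ω ∂Pr, TendstoInMeasure (sig n)
      (fun N x => ∑ i ∈ Finset.range N, (X i ω : ℂ) * ev (Q i) (x : E n)) atTop (g ω))
    (hgp : ∀ᵐ ω ∂Pr, MemLp (g ω) (ENNReal.ofReal p) (sig n)) :
    ∀ᵐ ω ∂Pr, ∫⁻ ξ : E n, ‖∫ x, chr ξ x * g ω x ∂(sig n)‖ₑ ^ p < ⊤ := by
  have hfin := sig_finite n
  have hn' : (3 : ℝ) ≤ n := by exact_mod_cast hn
  have hp2 : 2 < p := by
    refine lt_of_le_of_lt ?_ hp
    rw [le_div_iff₀ (by linarith)]
    linarith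
  obtain ⟨C, hC, hsq⟩ := sq_sphere n hn p hp
  have hYc : ∀ i, Continuous fun x : sphere (0 : E n) 1 => ev (Q i) (x : E n) := fun i =>
    (ev_cont (Q i)).comp continuous_subtype_val
  refine transfer (sig n) volume chr chr_meas chr_enorm h
    (fun i (x : sphere (0 : E n) 1) => ev (Q i) (x : E n)) (fun i => (hYc i).measurable)
    (fun i => ?_) hp2.le hp4 (ENNReal.ofReal C) ENNReal.ofReal_ne_top
    (fun N => hsq (Finset.range N) k Q (fun i _ => hQ i) (fun i _ => hQh i)) g hg ?_ ?_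
  · obtain ⟨M, hM⟩ := evb_bdd (Q i)
    refine Integrable.of_bound (hYc i).measurable.aestronglyMeasurable M
      (Eventually.of_forall fun x => ?_)
    have h1 := hM (x : E n)
    unfold evb at h1
    rw [if_pos (le_of_eq (by simpa using x.2))] at h1
    exact h1
  · filter_upwards [hgp] with ω hω
    exact hω.1
  · filter_upwards [hgp] with ω hω
    have h1 := hω.2
    rwa [eLpNorm_lt_top_iff_lintegral_rpow_enorm_lt_top
      (ENNReal.ofReal_pos.2 (by linarith)).ne' ENNReal.ofReal_ne_top,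
      ENNReal.toReal_ofReal (by linarith)] at h1

/-- **random series of spherical harmonics** -/
theorem rand_all (hn : 3 ≤ n) (p : ℝ) (hp : 2 * (n : ℝ) / (n - 1) < p)
    (h : Coef Pr X K) (k : ℕ → ℕ) (Q : ℕ → MvPolynomial (Fin n) ℂ)
    (hQ : ∀ i, (Q i).IsHomogeneous (k i)) (hQh : ∀ i, Harm (Q i))
    (g : Ω → sphere (0 : E n) 1 → ℂ)
    (hg : ∀ᵐ ω ∂Pr, TendstoInMeasure (sig n)
      (fun N x => ∑ i ∈ Finset.range N, (X i ω : ℂ) * ev (Q i) (x : E n)) atTop (g ω))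
    (hgp : ∀ᵐ ω ∂Pr, MemLp (g ω) (ENNReal.ofReal p) (sig n)) :
    ∀ᵐ ω ∂Pr, MemLp (fun ξ : E n => ∫ x, chr ξ x * g ω x ∂(sig n)) (ENNReal.ofReal p) := by
  have hfin := sig_finite n
  have hn' : (3 : ℝ) ≤ n := by exact_mod_cast hn
  have hpc : 2 * (n : ℝ) / (n - 1) ≤ 3 := by
    rw [div_le_iff₀ (by linarith)]
    linarith
  have hpc2 : 2 < 2 * (n : ℝ) / (n - 1) := by
    rw [lt_div_iff₀ (by linarith)]
    linarith
  have hL1 : ∀ᵐ ω ∂Pr, ∫⁻ x, ‖g ω x‖ₑ ∂(sig n) ≠ ⊤ := by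
    filter_upwards [hgp] with ω hω
    have h1 : MemLp (g ω) 1 (sig n) := hω.mono_exponent (by
      rw [← ENNReal.ofReal_one]
      exact ENNReal.ofReal_le_ofReal (by linarith))
    exact (memLp_one_iff_integrable.1 h1).2.ne
  obtain ⟨q, hq1, hq2, hq3⟩ : ∃ q : ℝ, 2 * (n : ℝ) / (n - 1) < q ∧ q ≤ p ∧ q ≤ 4 := by
    rcases le_total p 4 with h4 | h4
    · exact ⟨p, hp, le_rfl, h4⟩
    · exact ⟨4, by linarith, h4, le_rfl⟩
  have hgq : ∀ᵐ ω ∂Pr, MemLp (g ω) (ENNReal.ofReal q) (sig n) := by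
    filter_upwards [hgp] with ω hω
    exact hω.mono_exponent (ENNReal.ofReal_le_ofReal hq2)
  filter_upwards [rand_le4 hn q hq1 hq3 h k Q hQ hQh g hg hgq, hgp, hL1] with ω h1 h2 h3
  exact ft_up (g ω) h2.1 h3 (by linarith) hq2 h1

end Pool.Agent.W5h55.SH
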