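import Mathlib
import Pool.Agent.W5h55.SH.B6
set_option autoImplicit false

/-! Random series of densities which satisfy a vector valued restriction estimate. -/

open MeasureTheory Set Metric ProbabilityTheory Filter
open scoped ENNReal Topology RealInnerProductSpace

namespace Pool.Agent.W5h55.SH

open Pool.Agent.H789R2.FR (E sg sg_finite sg_ae T polar)

variable {n : ℕ} {Ω : Type*} [MeasurableSpace Ω] {Pr : Measure Ω} [IsProbabilityMeasure Pr]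
variable {X : ℕ → Ω → ℝ} {K : ℝ}

theorem rand_gen {q : ℝ} (hq2 : 2 ≤ q) (hq4 : q ≤ 4) (h : Coef Pr X K)
    (Y : ℕ → sphere (0 : E n) 1 → ℂ) (hY : ∀ i, Integrable (Y i) (sig n)) (C : ℝ≥0∞) (hC : C ≠ ⊤)
    (hsq : ∀ N, ∫⁻ ξ : E n,
        (∑ i ∈ Finset.range N, ‖∫ x, chr ξ x * Y i x ∂(sig n)‖ₑ ^ (2 : ℝ)) ^ (q / 2) ≤
      C * ∫⁻ x, (∑ i ∈ Finset.range N, ‖Y i x‖ₑ ^ (2 : ℝ)) ^ (q / 2) ∂(sig n))
    (g : Ω → sphere (0 : E n) 1 → ℂ)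
    (hg : ∀ᵐ ω ∂Pr, TendstoInMeasure (sig n)
      (fun N x => ∑ i ∈ Finset.range N, (X i ω : ℂ) * Y i x) atTop (g ω))
    (hgp : ∀ᵐ ω ∂Pr, MemLp (g ω) (ENNReal.ofReal q) (sig n)) :
    ∀ᵐ ω ∂Pr, ∫⁻ ξ : E n, ‖∫ x, chr ξ x * g ω x ∂(sig n)‖ₑ ^ q < ⊤ := by
  have hfin := sig_finite n
  obtain ⟨Z, hZ⟩ : ∃ Z : ℕ → sphere (0 : E n) 1 → ℂ, Z = fun i => (hY i).1.mk (Y i) := ⟨_, rfl⟩
  have hZm : ∀ i, Measurable (Z i) := by
    intro i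
    rw [hZ]
    exact (hY i).1.stronglyMeasurable_mk.measurable
  have hZY : ∀ i, Y i =ᵐ[sig n] Z i := by
    intro i
    rw [hZ]
    exact (hY i).1.ae_eq_mk
  have hall : ∀ᵐ x ∂(sig n), ∀ i, Y i x = Z i x := ae_all_iff.2 hZY
  refine transfer (sig n) volume chr chr_meas chr_enorm h Z hZm
    (fun i => (hY i).congr (hZY i)) hq2 hq4 C hC (fun N => ?_) g ?_ ?_ ?_
  · have h1 := hsq N
    have h2 : ∀ (ξ : E n) (i : ℕ), ∫ x, chr ξ x * Z i x ∂(sig n) = ∫ x, chr ξ x * Y i x ∂(sig n) := by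
      intro ξ i
      refine integral_congr_ae ?_
      filter_upwards [hZY i] with x hx
      rw [hx]
    have h3 : ∫⁻ x, (∑ i ∈ Finset.range N, ‖Z i x‖ₑ ^ (2 : ℝ)) ^ (q / 2) ∂(sig n) =
        ∫⁻ x, (∑ i ∈ Finset.range N, ‖Y i x‖ₑ ^ (2 : ℝ)) ^ (q / 2) ∂(sig n) := by
      refine lintegral_congr_ae ?_
      filter_upwards [hall] with x hx
      simp_rw [hx]
    simp_rw [h2, h3]
    exact h1
  · filter_upwards [hg] with ω hω
    refine hω.congr_left fun N => ?_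
    filter_upwards [hall] with x hx
    simp_rw [hx]
  · filter_upwards [hgp] with ω hω
    exact hω.1
  · filter_upwards [hgp] with ω hω
    have h1 := hω.2
    rwa [eLpNorm_lt_top_iff_lintegral_rpow_enorm_lt_top
      (ENNReal.ofReal_pos.2 (by linarith)).ne' ENNReal.ofReal_ne_top,
      ENNReal.toReal_ofReal (by linarith)] at h1

/-- **random series**, all exponents -/
theorem rand_gen_all {q p : ℝ} (hq2 : 2 ≤ q) (hq4 : q ≤ 4) (hqp : q ≤ p) (h : Coef Pr X K)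
    (Y : ℕ → sphere (0 : E n) 1 → ℂ) (hY : ∀ i, Integrable (Y i) (sig n)) (C : ℝ≥0∞) (hC : C ≠ ⊤)
    (hsq : ∀ N, ∫⁻ ξ : E n,
        (∑ i ∈ Finset.range N, ‖∫ x, chr ξ x * Y i x ∂(sig n)‖ₑ ^ (2 : ℝ)) ^ (q / 2) ≤
      C * ∫⁻ x, (∑ i ∈ Finset.range N, ‖Y i x‖ₑ ^ (2 : ℝ)) ^ (q / 2) ∂(sig n))
    (g : Ω → sphere (0 : E n) 1 → ℂ)
    (hg : ∀ᵐ ω ∂Pr, TendstoInMeasure (sig n)
      (fun N x => ∑ i ∈ Finset.range N, (X i ω : ℂ) * Y i x) atTop (g ω))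
    (hgp : ∀ᵐ ω ∂Pr, MemLp (g ω) (ENNReal.ofReal p) (sig n)) :
    ∀ᵐ ω ∂Pr, MemLp (fun ξ : E n => ∫ x, chr ξ x * g ω x ∂(sig n)) (ENNReal.ofReal p) := by
  have hfin := sig_finite n
  have hL1 : ∀ᵐ ω ∂Pr, ∫⁻ x, ‖g ω x‖ₑ ∂(sig n) ≠ ⊤ := by
    filter_upwards [hgp] with ω hω
    have h1 : MemLp (g ω) 1 (sig n) := hω.mono_exponent (by
      rw [← ENNReal.ofReal_one]
      exact ENNReal.ofReal_le_ofReal (by linarith))
    exact (memLp_one_iff_integrable.1 h1).2.ne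
  have hgq : ∀ᵐ ω ∂Pr, MemLp (g ω) (ENNReal.ofReal q) (sig n) := by
    filter_upwards [hgp] with ω hω
    exact hω.mono_exponent (ENNReal.ofReal_le_ofReal hqp)
  filter_upwards [rand_gen hq2 hq4 h Y hY C hC hsq g hg hgq, hgp, hL1] with ω h1 h2 h3
  exact ft_up (g ω) h2.1 h3 (by linarith) hqp h1

end Pool.Agent.W5h55.SH
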