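import Mathlib
set_option autoImplicit false

/-! The divisor bound and an `L^4` estimate for exponential sums with the eigenvalues of the sphere. -/

open MeasureTheory Set Metric
open scoped ENNReal ComplexConjugate

namespace Pool.Agent.W5h55.SH

/-- The divisor bound `d(n) ≤ C n^δ`. -/
lemma divisor_bound (δ : ℝ) (hδ : 0 < δ) :
    ∃ C : ℝ, 0 < C ∧ ∀ n : ℕ, n ≠ 0 → ((n.divisors.card : ℕ) : ℝ) ≤ C * (n : ℝ) ^ δ := by
  have hlog : 0 < Real.log 2 := Real.log_pos (by norm_num)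
  have hδl : 0 < δ * Real.log 2 := mul_pos hδ hlog
  set M : ℝ := max 1 (1 / (δ * Real.log 2)) with hM
  have hM1 : 1 ≤ M := le_max_left _ _
  have hM2 : 1 ≤ M * (δ * Real.log 2) := by
    have : 1 / (δ * Real.log 2) ≤ M := le_max_right _ _
    calc (1 : ℝ) = 1 / (δ * Real.log 2) * (δ * Real.log 2) := by
          field_simp
      _ ≤ M * (δ * Real.log 2) := mul_le_mul_of_nonneg_right this hδl.le
  set K : ℕ := ⌈(2 : ℝ) ^ (1 / δ)⌉₊ with hK
  have hKle : (2 : ℝ) ^ (1 / δ) ≤ (K : ℝ) := Nat.le_ceil _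
  refine ⟨M ^ K, by positivity, ?_⟩
  intro n hn
  have hbase : ∀ p ∈ n.primeFactors, (((n.factorization p + 1 : ℕ)) : ℝ) ≤
      (if p < K then M else 1) * (((p : ℝ) ^ (n.factorization p)) ^ δ) := by
    intro p hp
    have hpp : p.Prime := Nat.prime_of_mem_primeFactors hp
    set a := n.factorization p with ha
    have hp2 : (2 : ℝ) ≤ (p : ℝ) := by exact_mod_cast hpp.two_le
    have hp0 : (0 : ℝ) ≤ (p : ℝ) := by positivity
    have hpow : (((p : ℝ) ^ a) ^ δ) = ((p : ℝ) ^ δ) ^ a := by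
      rw [← Real.rpow_natCast (p : ℝ) a, ← Real.rpow_mul hp0, ← Real.rpow_natCast ((p : ℝ) ^ δ) a,
        ← Real.rpow_mul hp0, mul_comm]
    rw [hpow]
    split_ifs with hlt
    · have h1 : (2 : ℝ) ^ δ ≤ (p : ℝ) ^ δ := Real.rpow_le_rpow (by norm_num) hp2 hδ.le
      have h2 : ((2 : ℝ) ^ δ) ^ a ≤ ((p : ℝ) ^ δ) ^ a :=
        pow_le_pow_left₀ (by positivity) h1 a
      have h3 : 1 + (a : ℝ) * (δ * Real.log 2) ≤ ((2 : ℝ) ^ δ) ^ a := by
        have : ((2 : ℝ) ^ δ) ^ a = Real.exp ((a : ℝ) * (δ * Real.log 2)) := by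
          rw [← Real.rpow_natCast, ← Real.rpow_mul (by norm_num), Real.rpow_def_of_pos (by norm_num)]
          congr 1; ring
        rw [this]
        have := Real.add_one_le_exp ((a : ℝ) * (δ * Real.log 2))
        linarith
      have h4 : (((a + 1 : ℕ)) : ℝ) ≤ M * (1 + (a : ℝ) * (δ * Real.log 2)) := by
        push_cast
        have ha0 : (0 : ℝ) ≤ (a : ℝ) := by positivity
        nlinarith [mul_le_mul_of_nonneg_left hM2 ha0]
      calc (((a + 1 : ℕ)) : ℝ) ≤ M * (1 + (a : ℝ) * (δ * Real.log 2)) := h4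
        _ ≤ M * (((p : ℝ) ^ δ) ^ a) :=
          mul_le_mul_of_nonneg_left (h3.trans h2) (by linarith)
    · have hKp : (K : ℝ) ≤ (p : ℝ) := by exact_mod_cast not_lt.mp hlt
      have h1 : (2 : ℝ) ≤ (p : ℝ) ^ δ := by
        have h5 : ((2 : ℝ) ^ (1 / δ)) ^ δ ≤ (p : ℝ) ^ δ :=
          Real.rpow_le_rpow (by positivity) (hKle.trans hKp) hδ.le
        have h6 : ((2 : ℝ) ^ (1 / δ)) ^ δ = 2 := by
          rw [← Real.rpow_mul (by norm_num)]
          rw [one_div, inv_mul_cancel₀ hδ.ne', Real.rpow_one]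
        rwa [h6] at h5
      have h2 : (2 : ℝ) ^ a ≤ ((p : ℝ) ^ δ) ^ a := pow_le_pow_left₀ (by norm_num) h1 a
      have h3 : (((a + 1 : ℕ)) : ℝ) ≤ (2 : ℝ) ^ a := by
        have : a + 1 ≤ 2 ^ a := Nat.lt_two_pow_self
        exact_mod_cast this
      rw [one_mul]
      exact h3.trans h2
  have hn' : (n : ℝ) ^ δ = ∏ p ∈ n.primeFactors, (((p : ℝ) ^ (n.factorization p)) ^ δ) := by
    rw [Real.finsetProd_rpow _ _ (fun i _ => by positivity)]
    congr 1
    have := Nat.prod_factorization_pow_eq_self hn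
    conv_lhs => rw [← this]
    rw [Finsupp.prod]
    push_cast
    rfl
  rw [Nat.card_divisors hn]
  push_cast
  calc (∏ p ∈ n.primeFactors, ((n.factorization p : ℝ) + 1))
      ≤ ∏ p ∈ n.primeFactors, ((if p < K then M else 1) * (((p : ℝ) ^ (n.factorization p)) ^ δ)) := by
        apply Finset.prod_le_prod
        · intro i _; positivity
        · intro i hi
          have := hbase i hi
          push_cast at this
          exact this
    _ = (∏ p ∈ n.primeFactors, (if p < K then M else 1)) * (n : ℝ) ^ δ := by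
        rw [Finset.prod_mul_distrib, hn']
    _ ≤ M ^ K * (n : ℝ) ^ δ := by
        apply mul_le_mul_of_nonneg_right _ (by positivity)
        rw [Finset.prod_ite, Finset.prod_const, Finset.prod_const_one, mul_one]
        apply pow_le_pow_right₀ hM1
        calc (n.primeFactors.filter (fun p => p < K)).card ≤ (Finset.range K).card := by
              apply Finset.card_le_card
              intro x hx
              simp only [Finset.mem_filter] at hx
              exact Finset.mem_range.mpr hx.2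
          _ = K := Finset.card_range K


/-- the eigenvalues of the Laplacian of the sphere -/
def lam (n k : ℕ) : ℕ := k * (k + n - 2)

theorem lam_cast {n : ℕ} (hn : 2 ≤ n) (k : ℕ) : (lam n k : ℤ) = k * (k + n - 2) := by
  unfold lam
  rw [Nat.cast_mul, Nat.cast_sub (by omega)]
  push_cast
  ring

theorem lam_sub {n : ℕ} (hn : 2 ≤ n) (k l : ℕ) :
    (lam n k : ℤ) - lam n l = ((k : ℤ) - l) * (k + l + n - 2) := by
  rw [lam_cast hn, lam_cast hn]
  ring

theorem lam_mono {n : ℕ} {k l : ℕ} (h : k ≤ l) : lam n k ≤ lam n l :=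
  Nat.mul_le_mul h (by omega)

theorem lam_inj {n : ℕ} (hn : 3 ≤ n) {k l : ℕ} (h : lam n k = lam n l) : k = l := by
  have h1 := lam_sub (n := n) (by omega) k l
  rw [h, sub_self] at h1
  have h2 : (0 : ℤ) < k + l + n - 2 := by
    have : (3 : ℤ) ≤ n := by exact_mod_cast hn
    have := Int.natCast_nonneg k
    have := Int.natCast_nonneg l
    linarith
  rcases mul_eq_zero.1 h1.symm with h3 | h3
  · exact_mod_cast sub_eq_zero.1 h3
  · omega

/-- differences of eigenvalues have few representations -/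
theorem count_pairs {n : ℕ} (hn : 3 ≤ n) (s : Finset (ℕ × ℕ)) (m : ℤ) (hm : m ≠ 0)
    (hs : ∀ q ∈ s, (lam n q.1 : ℤ) - lam n q.2 = m) : s.card ≤ m.natAbs.divisors.card := by
  have hn2 : 2 ≤ n := by omega
  have hpos : ∀ q : ℕ × ℕ, (0 : ℤ) < q.1 + q.2 + n - 2 := by
    intro q
    have : (3 : ℤ) ≤ n := by exact_mod_cast hn
    have := Int.natCast_nonneg q.1
    have := Int.natCast_nonneg q.2
    linarith
  refine Finset.card_le_card_of_injOn (fun q => ((q.1 : ℤ) - q.2).natAbs) ?_ ?_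
  · intro q hq
    have h1 := hs q hq
    rw [lam_sub hn2] at h1
    simp only [Finset.mem_coe, Nat.mem_divisors]
    refine ⟨?_, by simpa using hm⟩
    rw [← h1, Int.natAbs_mul]
    exact Dvd.intro _ rfl
  · intro q hq q' hq' h
    have h1 := hs q hq
    have h2 := hs q' hq'
    rw [lam_sub hn2] at h1 h2
    have h3 : ((q.1 : ℤ) - q.2).natAbs = ((q'.1 : ℤ) - q'.2).natAbs := h
    have p1 := hpos q
    have p2 := hpos q'
    have hq0 : ((q.1 : ℤ) - q.2) ≠ 0 := by
      intro h0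
      rw [h0, zero_mul] at h1
      exact hm h1.symm
    have h4 : ((q.1 : ℤ) - q.2) = ((q'.1 : ℤ) - q'.2) := by
      rcases Int.natAbs_eq_natAbs_iff.1 h3 with h5 | h5
      · exact h5
      · exfalso
        rcases lt_or_gt_of_ne hm with h6 | h6
        · have a1 : ((q.1 : ℤ) - q.2) < 0 := by
            by_contra hc
            push Not at hc
            have := mul_nonneg hc p1.le
            omega
          have a2 : ((q'.1 : ℤ) - q'.2) < 0 := by
            by_contra hc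
            push Not at hc
            have := mul_nonneg hc p2.le
            omega
          omega
        · have a1 : 0 < ((q.1 : ℤ) - q.2) := by
            by_contra hc
            push Not at hc
            have := mul_nonneg (neg_nonneg.2 hc) p1.le
            rw [neg_mul] at this
            omega
          have a2 : 0 < ((q'.1 : ℤ) - q'.2) := by
            by_contra hc
            push Not at hc
            have := mul_nonneg (neg_nonneg.2 hc) p2.le
            rw [neg_mul] at this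
            omega
          omega
    have h5 : ((q.1 : ℤ) + q.2 + n - 2) = ((q'.1 : ℤ) + q'.2 + n - 2) := by
      rw [← h4] at h2
      exact mul_left_cancel₀ hq0 (h1.trans h2.symm)
    ext
    · omega
    · omega

/-- the exponential integrals -/
theorem exp_int (m : ℤ) :
    ∫ t in (0 : ℝ)..(2 * Real.pi), Complex.exp (-(((m : ℝ) * t : ℝ) : ℂ) * Complex.I) =
      if m = 0 then ((2 * Real.pi : ℝ) : ℂ) else 0 := by
  split_ifs with h
  · subst h
    simp
  · have hm : (-(m : ℂ) * Complex.I) ≠ 0 := by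
      refine mul_ne_zero (neg_ne_zero.2 (by exact_mod_cast h)) Complex.I_ne_zero
    have h1 : ∀ t : ℝ, Complex.exp (-(((m : ℝ) * t : ℝ) : ℂ) * Complex.I) =
        Complex.exp ((-(m : ℂ) * Complex.I) * t) := fun t => by
      congr 1
      push_cast
      ring
    simp_rw [h1]
    rw [integral_exp_mul_complex hm]
    have h2 : (-(m : ℂ) * Complex.I) * ((2 * Real.pi : ℝ) : ℂ) = ((-m : ℤ) : ℂ) *
        (2 * Real.pi * Complex.I) := by
      push_cast
      ring
    rw [h2, Complex.exp_int_mul_two_pi_mul_I]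
    simp

/-- `L^2` norms of exponential sums -/
theorem trig_l2 {ι : Type*} (s : Finset ι) (b : ι → ℂ) (φ : ι → ℤ) :
    ((∫ t in (0 : ℝ)..(2 * Real.pi),
      ‖∑ i ∈ s, b i * Complex.exp (-(((φ i : ℝ) * t : ℝ) : ℂ) * Complex.I)‖ ^ 2 : ℝ) : ℂ) =
      ((2 * Real.pi : ℝ) : ℂ) * ∑ i ∈ s, ∑ j ∈ s, if φ i = φ j then b i * conj (b j) else 0 := by
  rw [← intervalIntegral.integral_ofReal]
  have h1 : ∀ t : ℝ, ((‖∑ i ∈ s, b i *
      Complex.exp (-(((φ i : ℝ) * t : ℝ) : ℂ) * Complex.I)‖ ^ 2 : ℝ) : ℂ) =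
      ∑ i ∈ s, ∑ j ∈ s, (b i * conj (b j)) *
        Complex.exp (-((((φ i - φ j : ℤ) : ℝ) * t : ℝ) : ℂ) * Complex.I) := by
    intro t
    have h2 : ((‖∑ i ∈ s, b i * Complex.exp (-(((φ i : ℝ) * t : ℝ) : ℂ) * Complex.I)‖ ^ 2 : ℝ) : ℂ) =
        (∑ i ∈ s, b i * Complex.exp (-(((φ i : ℝ) * t : ℝ) : ℂ) * Complex.I)) *
        conj (∑ i ∈ s, b i * Complex.exp (-(((φ i : ℝ) * t : ℝ) : ℂ) * Complex.I)) := by
      rw [Complex.mul_conj, Complex.normSq_eq_norm_sq]
    rw [h2, map_sum, Finset.sum_mul_sum]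
    refine Finset.sum_congr rfl fun i _ => Finset.sum_congr rfl fun j _ => ?_
    rw [map_mul, ← Complex.exp_conj]
    have h3 : conj (-(((φ j : ℝ) * t : ℝ) : ℂ) * Complex.I) =
        (((φ j : ℝ) * t : ℝ) : ℂ) * Complex.I := by
      rw [map_mul, map_neg, Complex.conj_ofReal, Complex.conj_I]
      ring
    rw [h3, mul_mul_mul_comm, ← Complex.exp_add]
    congr 2
    push_cast
    ring
  simp_rw [h1]
  have hc : ∀ (c : ℂ) (m : ℤ), Continuous fun t : ℝ =>
      c * Complex.exp (-(((m : ℝ) * t : ℝ) : ℂ) * Complex.I) := fun c m => by fun_prop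
  rw [intervalIntegral.integral_finset_sum fun i _ => ?_, Finset.mul_sum]
  · refine Finset.sum_congr rfl fun i _ => ?_
    rw [intervalIntegral.integral_finset_sum fun j _ => (hc _ _).intervalIntegrable _ _,
      Finset.mul_sum]
    refine Finset.sum_congr rfl fun j _ => ?_
    rw [intervalIntegral.integral_const_mul, exp_int]
    by_cases h : φ i = φ j
    · rw [if_pos (by rw [h, sub_self]), if_pos h]
      ring
    · rw [if_neg (sub_ne_zero.2 h), if_neg h]
      ring
  · exact (continuous_finset_sum _ fun j _ => hc _ _).intervalIntegrable _ _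

theorem trig_l2_le {ι : Type*} (s : Finset ι) (b : ι → ℂ) (φ : ι → ℤ) (D : ℝ)
    (hD : ∀ i ∈ s, ((s.filter fun j => φ j = φ i).card : ℝ) ≤ D) :
    ∫ t in (0 : ℝ)..(2 * Real.pi),
      ‖∑ i ∈ s, b i * Complex.exp (-(((φ i : ℝ) * t : ℝ) : ℂ) * Complex.I)‖ ^ 2 ≤
      2 * Real.pi * (D * ∑ i ∈ s, ‖b i‖ ^ 2) := by
  have h1 := trig_l2 s b φ
  have h2 : ‖((∫ t in (0 : ℝ)..(2 * Real.pi),
      ‖∑ i ∈ s, b i * Complex.exp (-(((φ i : ℝ) * t : ℝ) : ℂ) * Complex.I)‖ ^ 2 : ℝ) : ℂ)‖ ≤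
      2 * Real.pi * (D * ∑ i ∈ s, ‖b i‖ ^ 2) := by
    rw [h1, norm_mul, Complex.norm_real, Real.norm_of_nonneg (by positivity)]
    refine mul_le_mul_of_nonneg_left ?_ (by positivity)
    have h3 : ‖∑ i ∈ s, ∑ j ∈ s, if φ i = φ j then b i * conj (b j) else 0‖ ≤
        ∑ i ∈ s, ∑ j ∈ s, if φ i = φ j then (‖b i‖ ^ 2 / 2 + ‖b j‖ ^ 2 / 2) else 0 := by
      refine (norm_sum_le _ _).trans (Finset.sum_le_sum fun i _ => ?_)
      refine (norm_sum_le _ _).trans (Finset.sum_le_sum fun j _ => ?_)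
      split_ifs
      · rw [norm_mul, RCLike.norm_conj]
        nlinarith [sq_nonneg (‖b i‖ - ‖b j‖)]
      · simp
    refine h3.trans ?_
    have h4 : ∑ i ∈ s, ∑ j ∈ s, (if φ i = φ j then (‖b i‖ ^ 2 / 2 + ‖b j‖ ^ 2 / 2) else 0) =
        ∑ i ∈ s, ∑ j ∈ s, (if φ i = φ j then ‖b i‖ ^ 2 / 2 else 0) +
        ∑ i ∈ s, ∑ j ∈ s, (if φ i = φ j then ‖b j‖ ^ 2 / 2 else 0) := by
      rw [← Finset.sum_add_distrib]
      refine Finset.sum_congr rfl fun i _ => ?_
      rw [← Finset.sum_add_distrib]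
      refine Finset.sum_congr rfl fun j _ => ?_
      split_ifs <;> simp
    have h5 : ∑ i ∈ s, ∑ j ∈ s, (if φ i = φ j then ‖b j‖ ^ 2 / 2 else 0) =
        ∑ i ∈ s, ∑ j ∈ s, (if φ i = φ j then ‖b i‖ ^ 2 / 2 else 0) := by
      rw [Finset.sum_comm]
      refine Finset.sum_congr rfl fun i _ => Finset.sum_congr rfl fun j _ => ?_
      by_cases h : φ i = φ j
      · rw [if_pos h, if_pos h.symm]
      · rw [if_neg h, if_neg (Ne.symm h)]
    have h6 : ∑ i ∈ s, ∑ j ∈ s, (if φ i = φ j then ‖b i‖ ^ 2 / 2 else 0) ≤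
        D * (∑ i ∈ s, ‖b i‖ ^ 2) / 2 := by
      rw [mul_div_assoc, Finset.sum_div, Finset.mul_sum]
      refine Finset.sum_le_sum fun i hi => ?_
      have h7 : ∑ j ∈ s, (if φ i = φ j then ‖b i‖ ^ 2 / 2 else 0) =
          ((s.filter fun j => φ j = φ i).card : ℝ) * (‖b i‖ ^ 2 / 2) := by
        rw [← Finset.sum_filter, Finset.sum_const, nsmul_eq_mul]
        congr 3
        ext j
        simp [eq_comm]
      rw [h7]
      exact mul_le_mul_of_nonneg_right (hD i hi) (by positivity)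
    rw [h4, h5]
    linarith
  rw [Complex.norm_real] at h2
  exact (le_abs_self _).trans h2

/-- a uniform bound for the number of representations -/
theorem rep_bound (n : ℕ) (hn : 3 ≤ n) (δ : ℝ) (hδ : 0 < δ) : ∃ C : ℝ, 1 ≤ C ∧ ∀ N : ℕ,
    ∀ q ∈ (Finset.range N).offDiag,
    ((((Finset.range N).offDiag.filter fun q' =>
      (lam n q'.1 : ℤ) - lam n q'.2 = (lam n q.1 : ℤ) - lam n q.2).card : ℕ) : ℝ) ≤
      C * ((N : ℝ) + 1) ^ δ := by
  obtain ⟨C, hC, h⟩ := divisor_bound (δ / 2) (by positivity)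
  have hn0 : (0 : ℝ) < (n : ℝ) + 1 := by positivity
  refine ⟨C * ((n : ℝ) + 1) ^ (δ / 2) + 1, by
    have : 0 < C * ((n : ℝ) + 1) ^ (δ / 2) := by positivity
    linarith, fun N q hq => ?_⟩
  rw [Finset.mem_offDiag, Finset.mem_range, Finset.mem_range] at hq
  have hm : (lam n q.1 : ℤ) - lam n q.2 ≠ 0 := by
    intro h0
    have h1 : (lam n q.1 : ℤ) = lam n q.2 := sub_eq_zero.1 h0
    exact hq.2.2 (lam_inj hn (by exact_mod_cast h1))
  have h1 := count_pairs hn ((Finset.range N).offDiag.filter fun q' =>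
      (lam n q'.1 : ℤ) - lam n q'.2 = (lam n q.1 : ℤ) - lam n q.2) _ hm
      (fun q' hq' => (Finset.mem_filter.1 hq').2)
  have h2 : ((lam n q.1 : ℤ) - lam n q.2).natAbs ≤ lam n N := by
    have a1 : lam n q.1 ≤ lam n N := lam_mono hq.1.le
    have a2 : lam n q.2 ≤ lam n N := lam_mono hq.2.1.le
    omega
  have h3 : ((lam n N : ℕ) : ℝ) ≤ ((n : ℝ) + 1) * ((N : ℝ) + 1) ^ 2 := by
    have : lam n N ≤ (n + 1) * (N + 1) ^ 2 := by
      unfold lam
      calc N * (N + n - 2) ≤ (N + 1) * ((N + 1) * (n + 1)) := by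
            refine Nat.mul_le_mul (by omega) ?_
            refine (Nat.sub_le _ _).trans ?_
            nlinarith [Nat.zero_le (N * n)]
        _ = _ := by ring
    exact_mod_cast this
  have h4 := h _ (Int.natAbs_ne_zero.2 hm)
  have hN0 : (0 : ℝ) < (N : ℝ) + 1 := by positivity
  calc ((((Finset.range N).offDiag.filter fun q' =>
      (lam n q'.1 : ℤ) - lam n q'.2 = (lam n q.1 : ℤ) - lam n q.2).card : ℕ) : ℝ)
      ≤ ((((lam n q.1 : ℤ) - lam n q.2).natAbs.divisors.card : ℕ) : ℝ) := by exact_mod_cast h1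
    _ ≤ C * ((((lam n q.1 : ℤ) - lam n q.2).natAbs : ℕ) : ℝ) ^ (δ / 2) := h4
    _ ≤ C * (((n : ℝ) + 1) * ((N : ℝ) + 1) ^ 2) ^ (δ / 2) := by
        refine mul_le_mul_of_nonneg_left (Real.rpow_le_rpow (by positivity) ?_ (by positivity)) hC.le
        refine le_trans ?_ h3
        exact_mod_cast h2
    _ = C * ((n : ℝ) + 1) ^ (δ / 2) * ((N : ℝ) + 1) ^ δ := by
        rw [Real.mul_rpow hn0.le (by positivity), ← Real.rpow_natCast, ← Real.rpow_mul hN0.le]
        rw [show ((2 : ℕ) : ℝ) * (δ / 2) = δ by push_cast; ring]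
        ring
    _ ≤ _ := by
        have : 0 ≤ ((N : ℝ) + 1) ^ δ := by positivity
        nlinarith

end Pool.Agent.W5h55.SH
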