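import Mathlib
import Pool.Agent.W5h55.SH.C1
set_option autoImplicit false

/-! The `L^4` estimate. -/

open MeasureTheory Set Metric
open scoped ENNReal ComplexConjugate

namespace Pool.Agent.W5h55.SH

/-- the exponentials -/
noncomputable def ek (n k : ℕ) (t : ℝ) : ℂ :=
  Complex.exp (-((((lam n k : ℤ) : ℝ) * t : ℝ) : ℂ) * Complex.I)

theorem ek_cont (n k : ℕ) : Continuous (ek n k) := by
  unfold ek
  fun_prop

theorem ek_norm (n k : ℕ) (t : ℝ) : ‖ek n k t‖ = 1 := by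
  unfold ek
  rw [show -((((lam n k : ℤ) : ℝ) * t : ℝ) : ℂ) * Complex.I =
    ((-(((lam n k : ℤ) : ℝ) * t) : ℝ) : ℂ) * Complex.I by push_cast; ring]
  exact Complex.norm_exp_ofReal_mul_I _

/-- Parseval -/
theorem ek_l2 {n : ℕ} (hn : 3 ≤ n) (a : ℕ → ℂ) (s : Finset ℕ) :
    ∫ t in (0 : ℝ)..(2 * Real.pi), ‖∑ k ∈ s, a k * ek n k t‖ ^ 2 =
      2 * Real.pi * ∑ k ∈ s, ‖a k‖ ^ 2 := by
  have h1 := trig_l2 s a (fun k => (lam n k : ℤ))
  have h2 : ∑ i ∈ s, ∑ j ∈ s, (if (lam n i : ℤ) = lam n j then a i * conj (a j) else 0) =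
      ((∑ k ∈ s, ‖a k‖ ^ 2 : ℝ) : ℂ) := by
    rw [Complex.ofReal_sum]
    refine Finset.sum_congr rfl fun i hi => ?_
    rw [Finset.sum_eq_single i]
    · rw [if_pos rfl, Complex.mul_conj, Complex.normSq_eq_norm_sq]
    · intro j _ hj
      rw [if_neg]
      intro h
      exact hj (lam_inj hn (by exact_mod_cast h.symm))
    · intro h
      exact absurd hi h
  rw [h2, ← Complex.ofReal_mul] at h1
  exact Complex.ofReal_injective h1

theorem ek_l4 (n : ℕ) (hn : 3 ≤ n) (δ : ℝ) (hδ : 0 < δ) : ∃ C : ℝ, 0 < C ∧ ∀ (N : ℕ) (a : ℕ → ℂ),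
    ∫ t in (0 : ℝ)..(2 * Real.pi), ‖∑ k ∈ Finset.range N, a k * ek n k t‖ ^ 4 ≤
      C * ((N : ℝ) + 1) ^ δ * (∑ k ∈ Finset.range N, ‖a k‖ ^ 2) ^ 2 := by
  obtain ⟨C, hC, h⟩ := rep_bound n hn δ hδ
  have hpi := Real.pi_pos
  refine ⟨8 * Real.pi * C, by positivity, fun N a => ?_⟩
  obtain ⟨A, hA⟩ : ∃ A : ℝ, A = ∑ k ∈ Finset.range N, ‖a k‖ ^ 2 := ⟨_, rfl⟩
  rw [← hA]
  have hA0 : 0 ≤ A := by
    rw [hA]
    positivity
  obtain ⟨b, hb⟩ : ∃ b : ℕ × ℕ → ℂ, b = fun q => a q.1 * conj (a q.2) := ⟨_, rfl⟩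
  obtain ⟨φ, hφ⟩ : ∃ φ : ℕ × ℕ → ℤ, φ = fun q => (lam n q.1 : ℤ) - lam n q.2 := ⟨_, rfl⟩
  have hN1 : (1 : ℝ) ≤ ((N : ℝ) + 1) ^ δ := Real.one_le_rpow (by
    have := Nat.cast_nonneg (α := ℝ) N
    linarith) hδ.le
  have hpt : ∀ t : ℝ, ‖∑ k ∈ Finset.range N, a k * ek n k t‖ ^ 4 ≤ 2 * A ^ 2 +
      2 * ‖∑ q ∈ (Finset.range N).offDiag, b q *
        Complex.exp (-(((φ q : ℝ) * t : ℝ) : ℂ) * Complex.I)‖ ^ 2 := by
    intro t
    have h1 : (∑ k ∈ Finset.range N, a k * ek n k t) * conj (∑ k ∈ Finset.range N, a k * ek n k t) =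
        (A : ℂ) + ∑ q ∈ (Finset.range N).offDiag, b q *
        Complex.exp (-(((φ q : ℝ) * t : ℝ) : ℂ) * Complex.I) := by
      rw [map_sum, Finset.sum_mul_sum, ← Finset.sum_product', ← Finset.diag_union_offDiag,
        Finset.sum_union (Finset.disjoint_diag_offDiag _)]
      congr 1
      · rw [Finset.sum_diag, hA, Complex.ofReal_sum]
        refine Finset.sum_congr rfl fun k _ => ?_
        rw [Complex.mul_conj, Complex.normSq_eq_norm_sq, norm_mul, ek_norm, mul_one]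
      · refine Finset.sum_congr rfl fun q _ => ?_
        rw [hb, hφ]
        simp only [ek, map_mul, ← Complex.exp_conj]
        have h3 : conj (-((((lam n q.2 : ℤ) : ℝ) * t : ℝ) : ℂ)) = -((((lam n q.2 : ℤ) : ℝ) * t : ℝ) : ℂ) := by
          rw [map_neg, Complex.conj_ofReal]
        rw [h3, Complex.conj_I, mul_mul_mul_comm, ← Complex.exp_add]
        congr 2
        push_cast
        ring
    have h2 : ‖∑ k ∈ Finset.range N, a k * ek n k t‖ ^ 2 = ‖(A : ℂ) +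
        ∑ q ∈ (Finset.range N).offDiag, b q *
        Complex.exp (-(((φ q : ℝ) * t : ℝ) : ℂ) * Complex.I)‖ := by
      rw [← h1, norm_mul, RCLike.norm_conj, sq]
    calc ‖∑ k ∈ Finset.range N, a k * ek n k t‖ ^ 4
        = (‖∑ k ∈ Finset.range N, a k * ek n k t‖ ^ 2) ^ 2 := by ring
      _ ≤ (‖(A : ℂ)‖ + ‖∑ q ∈ (Finset.range N).offDiag, b q *
        Complex.exp (-(((φ q : ℝ) * t : ℝ) : ℂ) * Complex.I)‖) ^ 2 := by
          rw [h2]
          exact pow_le_pow_left₀ (norm_nonneg _) (norm_add_le _ _) 2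
      _ ≤ _ := by
          rw [Complex.norm_real, Real.norm_of_nonneg hA0]
          nlinarith [sq_nonneg (A - ‖∑ q ∈ (Finset.range N).offDiag, b q *
            Complex.exp (-(((φ q : ℝ) * t : ℝ) : ℂ) * Complex.I)‖)]
  have hB : ∑ q ∈ (Finset.range N).offDiag, ‖b q‖ ^ 2 ≤ A ^ 2 := by
    calc ∑ q ∈ (Finset.range N).offDiag, ‖b q‖ ^ 2
        ≤ ∑ q ∈ Finset.range N ×ˢ Finset.range N, ‖b q‖ ^ 2 := by
          refine Finset.sum_le_sum_of_subset_of_nonneg ?_ fun _ _ _ => by positivity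
          intro q hq
          rw [Finset.mem_offDiag] at hq
          exact Finset.mem_product.2 ⟨hq.1, hq.2.1⟩
      _ = A ^ 2 := by
          rw [hA, sq, Finset.sum_mul_sum, ← Finset.sum_product']
          refine Finset.sum_congr rfl fun q _ => ?_
          rw [hb, norm_mul, RCLike.norm_conj, mul_pow]
  have hl := trig_l2_le (Finset.range N).offDiag b φ (C * ((N : ℝ) + 1) ^ δ) (fun q hq => by
    rw [hφ]
    exact h N q hq)
  have hc1 : Continuous fun t => ‖∑ k ∈ Finset.range N, a k * ek n k t‖ ^ 4 := by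
    have := ek_cont n
    fun_prop
  have hc2 : Continuous fun t : ℝ => ‖∑ q ∈ (Finset.range N).offDiag, b q *
        Complex.exp (-(((φ q : ℝ) * t : ℝ) : ℂ) * Complex.I)‖ ^ 2 := by fun_prop
  have hi2 : IntervalIntegrable (fun t : ℝ => 2 * ‖∑ q ∈ (Finset.range N).offDiag, b q *
        Complex.exp (-(((φ q : ℝ) * t : ℝ) : ℂ) * Complex.I)‖ ^ 2) volume 0 (2 * Real.pi) :=
    (continuous_const.mul hc2).intervalIntegrable _ _
  calc ∫ t in (0 : ℝ)..(2 * Real.pi), ‖∑ k ∈ Finset.range N, a k * ek n k t‖ ^ 4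
      ≤ ∫ t in (0 : ℝ)..(2 * Real.pi), (2 * A ^ 2 +
      2 * ‖∑ q ∈ (Finset.range N).offDiag, b q *
        Complex.exp (-(((φ q : ℝ) * t : ℝ) : ℂ) * Complex.I)‖ ^ 2) := by
        refine intervalIntegral.integral_mono_on (by positivity) (hc1.intervalIntegrable _ _)
          ((continuous_const.add (continuous_const.mul hc2)).intervalIntegrable _ _)
          fun t _ => hpt t
    _ = 2 * Real.pi * (2 * A ^ 2) + 2 * ∫ t in (0 : ℝ)..(2 * Real.pi),
          ‖∑ q ∈ (Finset.range N).offDiag, b q *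
        Complex.exp (-(((φ q : ℝ) * t : ℝ) : ℂ) * Complex.I)‖ ^ 2 := by
        rw [intervalIntegral.integral_add (continuous_const.intervalIntegrable _ _) hi2,
          intervalIntegral.integral_const, intervalIntegral.integral_const_mul, smul_eq_mul,
          sub_zero]
    _ ≤ 2 * Real.pi * (2 * A ^ 2) + 2 * (2 * Real.pi * ((C * ((N : ℝ) + 1) ^ δ) * A ^ 2)) := by
        refine add_le_add le_rfl (mul_le_mul_of_nonneg_left (hl.trans ?_) (by norm_num))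
        refine mul_le_mul_of_nonneg_left (mul_le_mul_of_nonneg_left hB ?_) (by positivity)
        positivity
    _ ≤ _ := by
        have h1 : 1 ≤ C * ((N : ℝ) + 1) ^ δ := one_le_mul_of_one_le_of_one_le hC hN1
        have h2 : 0 ≤ Real.pi * A ^ 2 := by positivity
        have h3 := mul_le_mul_of_nonneg_left h1 h2
        nlinarith

/-- the `L^p` norm for `p ≤ 4` -/
theorem ek_lp (n : ℕ) (hn : 3 ≤ n) (p : ℝ) (hp0 : 0 ≤ p) (hp4 : p ≤ 4) (δ : ℝ) (hδ : 0 < δ) :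
    ∃ C : ℝ, 0 < C ∧ ∀ (N : ℕ) (a : ℕ → ℂ),
    ∫⁻ t in Ioc (0 : ℝ) (2 * Real.pi), ‖∑ k ∈ Finset.range N, a k * ek n k t‖ₑ ^ p ≤
      ENNReal.ofReal (C * ((N : ℝ) + 1) ^ δ) *
        (∑ k ∈ Finset.range N, ‖a k‖ₑ ^ (2 : ℝ)) ^ (p / 2) := by
  obtain ⟨C, hC, h⟩ := ek_l4 n hn δ hδ
  have hpi := Real.pi_pos
  refine ⟨(2 * Real.pi) ^ (1 - p / 4) * (C + 1) ^ (p / 4), by positivity, fun N a => ?_⟩
  have hN1 : (1 : ℝ) ≤ ((N : ℝ) + 1) ^ δ := Real.one_le_rpow (by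
    have := Nat.cast_nonneg (α := ℝ) N
    linarith) hδ.le
  have hc : Continuous fun t => ∑ k ∈ Finset.range N, a k * ek n k t := by
    have := ek_cont n
    fun_prop
  have h3 := ENNReal.lintegral_mul_norm_pow_le (μ := volume.restrict (Ioc (0 : ℝ) (2 * Real.pi)))
    (f := fun _ => (1 : ℝ≥0∞))
    (g := fun t => ‖∑ k ∈ Finset.range N, a k * ek n k t‖ₑ ^ (4 : ℝ)) aemeasurable_const
    (hc.measurable.enorm.pow_const (4 : ℝ)).aemeasurable
    (by linarith : (0 : ℝ) ≤ 1 - p / 4) (by linarith : (0 : ℝ) ≤ p / 4) (by ring)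
  simp only [ENNReal.one_rpow, one_mul, lintegral_const, Measure.restrict_apply_univ,
    Real.volume_Ioc, sub_zero] at h3
  have h4 : ∫⁻ t in Ioc (0 : ℝ) (2 * Real.pi), ‖∑ k ∈ Finset.range N, a k * ek n k t‖ₑ ^ p =
      ∫⁻ t in Ioc (0 : ℝ) (2 * Real.pi),
        (‖∑ k ∈ Finset.range N, a k * ek n k t‖ₑ ^ (4 : ℝ)) ^ (p / 4) := by
    refine lintegral_congr fun ω => ?_
    rw [← ENNReal.rpow_mul]
    congr 1
    ring
  have h5 : ∫⁻ t in Ioc (0 : ℝ) (2 * Real.pi),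
      ‖∑ k ∈ Finset.range N, a k * ek n k t‖ₑ ^ (4 : ℝ) ≤
      ENNReal.ofReal (C * ((N : ℝ) + 1) ^ δ * (∑ k ∈ Finset.range N, ‖a k‖ ^ 2) ^ 2) := by
    have h6 : ∫⁻ t in Ioc (0 : ℝ) (2 * Real.pi),
        ‖∑ k ∈ Finset.range N, a k * ek n k t‖ₑ ^ (4 : ℝ) =
        ∫⁻ t in Ioc (0 : ℝ) (2 * Real.pi),
          ENNReal.ofReal (‖∑ k ∈ Finset.range N, a k * ek n k t‖ ^ 4) := by
      refine lintegral_congr fun t => ?_
      rw [← ofReal_norm, ENNReal.ofReal_rpow_of_nonneg (norm_nonneg _) (by norm_num)]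
      congr 1
      rw [show (4 : ℝ) = ((4 : ℕ) : ℝ) by norm_num, Real.rpow_natCast]
    rw [h6, ← ofReal_integral_eq_lintegral_ofReal]
    · apply ENNReal.ofReal_le_ofReal
      rw [← intervalIntegral.integral_of_le (by positivity)]
      exact h N a
    · exact ((hc.norm.pow 4).integrableOn_Icc).mono_set Ioc_subset_Icc_self
    · exact Filter.Eventually.of_forall fun t => by positivity
  have hV : ∑ k ∈ Finset.range N, ‖a k‖ₑ ^ (2 : ℝ) =
      ENNReal.ofReal (∑ k ∈ Finset.range N, ‖a k‖ ^ 2) := by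
    rw [ENNReal.ofReal_sum_of_nonneg fun i _ => by positivity]
    refine Finset.sum_congr rfl fun i _ => ?_
    rw [← ofReal_norm, ENNReal.ofReal_rpow_of_nonneg (norm_nonneg _) (by norm_num)]
    congr 1
    rw [show (2 : ℝ) = ((2 : ℕ) : ℝ) by norm_num, Real.rpow_natCast]
  have hA : 0 ≤ ∑ k ∈ Finset.range N, ‖a k‖ ^ 2 := by positivity
  have hD0 : 0 ≤ C * ((N : ℝ) + 1) ^ δ := by positivity
  rw [h4]
  refine h3.trans ?_
  refine (mul_le_mul' le_rfl (ENNReal.rpow_le_rpow h5 (by linarith))).trans ?_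
  rw [hV, ENNReal.ofReal_rpow_of_nonneg (by positivity) (by linarith),
    ENNReal.ofReal_rpow_of_nonneg (by positivity) (by linarith),
    ENNReal.ofReal_rpow_of_nonneg hA (by linarith), ← ENNReal.ofReal_mul (by positivity),
    ← ENNReal.ofReal_mul (by positivity)]
  apply ENNReal.ofReal_le_ofReal
  rw [Real.mul_rpow hD0 (by positivity), ← Real.rpow_natCast, ← Real.rpow_mul hA,
    show ((2 : ℕ) : ℝ) * (p / 4) = p / 2 by push_cast; ring]
  have h7 : (C * ((N : ℝ) + 1) ^ δ) ^ (p / 4) ≤ (C + 1) ^ (p / 4) * ((N : ℝ) + 1) ^ δ := by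
    rw [Real.mul_rpow hC.le (by positivity)]
    refine mul_le_mul (Real.rpow_le_rpow hC.le (by linarith) (by linarith)) ?_ (by positivity)
      (by positivity)
    calc (((N : ℝ) + 1) ^ δ) ^ (p / 4) ≤ (((N : ℝ) + 1) ^ δ) ^ (1 : ℝ) :=
          Real.rpow_le_rpow_of_exponent_le hN1 (by linarith)
      _ = _ := Real.rpow_one _
  calc (2 * Real.pi) ^ (1 - p / 4) * ((C * ((N : ℝ) + 1) ^ δ) ^ (p / 4) *
        (∑ k ∈ Finset.range N, ‖a k‖ ^ 2) ^ (p / 2))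
      ≤ (2 * Real.pi) ^ (1 - p / 4) * (((C + 1) ^ (p / 4) * ((N : ℝ) + 1) ^ δ) *
        (∑ k ∈ Finset.range N, ‖a k‖ ^ 2) ^ (p / 2)) := by
        gcongr
    _ = _ := by ring

end Pool.Agent.W5h55.SH
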