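import Mathlib
import Pool.Agent.W5h55.SH.A10
set_option autoImplicit false

/-! High degrees do not contribute; sharper shell estimates. -/

open MeasureTheory Set Metric
open scoped ENNReal RealInnerProductSpace Interval

namespace Pool.Agent.W5h55.SH

open Pool.Agent.H789R2.FR (E sg sg_finite sg_ae T polar)

variable {n : ℕ}

theorem DD_ge' (m N : ℕ) : (m.factorial : ℝ) * (2 * N) ^ m ≤ DD m N := by
  induction m with
  | zero => simp [DD]
  | succ m ih =>
    rw [DD_succ, Nat.factorial_succ, pow_succ]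
    push_cast
    have h1 : 0 ≤ (m.factorial : ℝ) * (2 * N) ^ m := by positivity
    calc ((m : ℝ) + 1) * (m.factorial : ℝ) * ((2 * N) ^ m * (2 * N))
        = ((m.factorial : ℝ) * (2 * N) ^ m) * (2 * ((m : ℝ) + 1) * N) := by ring
      _ ≤ DD m N * (2 * ((m : ℝ) + 1) * (N + 2 * m)) := by
          refine mul_le_mul ih ?_ (by positivity) (h1.trans ih)
          have : (0 : ℝ) ≤ m := Nat.cast_nonneg m
          gcongr
          linarith

theorem phi_le (N : ℕ) (hN : 1 ≤ N) (r : ℝ) : |phi N r| ≤ Real.exp (r ^ 2 / (2 * N)) := by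
  have hN0 : (0 : ℝ) < N := by exact_mod_cast hN
  have h1 := phi_sum N hN r
  have hs : Summable fun m : ℕ => (r ^ 2 / (2 * N)) ^ m / (m.factorial : ℝ) :=
    Real.summable_pow_div_factorial _
  have hb : ∀ m : ℕ, ‖(-1 : ℝ) ^ m * r ^ (2 * m) / DD m N‖ ≤
      (r ^ 2 / (2 * N)) ^ m / (m.factorial : ℝ) := by
    intro m
    have h2 := DD_pos m N hN
    have h3 := DD_ge' m N
    rw [norm_div, norm_mul, norm_pow, norm_neg, norm_one, one_pow, one_mul, norm_pow,
      Real.norm_eq_abs, Real.norm_of_nonneg h2.le, pow_mul, sq_abs, div_pow, div_div,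
      mul_comm ((2 * (N : ℝ)) ^ m)]
    gcongr
  unfold phi
  rw [← Real.norm_eq_abs]
  refine (norm_tsum_le_tsum_norm (Summable.of_nonneg_of_le (fun _ => norm_nonneg _) hb hs)).trans ?_
  refine (Summable.tsum_le_tsum hb (Summable.of_nonneg_of_le (fun _ => norm_nonneg _) hb hs)
    hs).trans (le_of_eq ?_)
  rw [Real.exp_eq_exp_ℝ, NormedSpace.exp_eq_tsum_div]

theorem cc_le (hn : 2 ≤ n) (k : ℕ) : cc n k ≤ ar n / (2 ^ k * k.factorial) := by
  have ha := ar_pos (show 1 ≤ n by omega)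
  have hn' : (2 : ℝ) ≤ n := by exact_mod_cast hn
  unfold cc
  have h1 : (2 : ℝ) ^ k * k.factorial ≤ ∏ i ∈ Finset.range k, ((n : ℝ) + 2 * i) := by
    induction k with
    | zero => simp
    | succ k ih =>
      rw [Finset.prod_range_succ, Nat.factorial_succ, pow_succ]
      push_cast
      have h2 : (0 : ℝ) ≤ 2 ^ k * k.factorial := by positivity
      calc (2 : ℝ) ^ k * 2 * (((k : ℝ) + 1) * k.factorial)
          = (2 ^ k * k.factorial) * (2 * ((k : ℝ) + 1)) := by ring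
        _ ≤ (∏ i ∈ Finset.range k, ((n : ℝ) + 2 * i)) * ((n : ℝ) + 2 * k) := by
            refine mul_le_mul ih ?_ (by positivity) (h2.trans ih)
            linarith
  gcongr

theorem exp_five_quarter : Real.exp (5 / 4) ≤ 4 := by
  have h1 := Real.exp_one_lt_d9
  have h2 : Real.exp (1 / 4) ≤ 4 / 3 := by
    have h3 := Real.add_one_le_exp (-(1 / 4) : ℝ)
    have h4 : Real.exp (1 / 4) * Real.exp (-(1 / 4)) = 1 := by
      rw [← Real.exp_add]
      norm_num
    have h5 := Real.exp_pos (1 / 4)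
    nlinarith
  have h3 : Real.exp (5 / 4) = Real.exp 1 * Real.exp (1 / 4) := by
    rw [← Real.exp_add]
    norm_num
  rw [h3]
  have := Real.exp_pos 1
  have := Real.exp_pos (1 / 4)
  nlinarith

/-- degrees above `8 r` -/
theorem ga_tail (hn : 2 ≤ n) (k : ℕ) (r : ℝ) (hr : 0 ≤ r) (h : 8 * r ≤ k) :
    |ga n k r| ≤ ar n * (1 / 4) ^ k := by
  have ha := ar_pos (show 1 ≤ n by omega)
  rcases Nat.eq_zero_or_pos k with h0 | h0
  · subst h0
    rw [pow_zero, mul_one]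
    exact ga_le' hn 0 r hr
  have hk0 : (0 : ℝ) < k := by exact_mod_cast h0
  have hn0 : (0 : ℝ) ≤ n := Nat.cast_nonneg n
  have h1 : |phi (2 * k + n) r| ≤ Real.exp (k / 256) := by
    refine (phi_le (2 * k + n) (by omega) r).trans (Real.exp_le_exp.2 ?_)
    push_cast
    rw [div_le_div_iff₀ (by positivity) (by norm_num)]
    have h2 : r ^ 2 ≤ (k / 8) ^ 2 := pow_le_pow_left₀ hr (by linarith) 2
    nlinarith [mul_nonneg hk0.le hn0]
  have hcc0 : 0 < cc n k := by
    unfold cc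
    refine div_pos ha (Finset.prod_pos fun i _ => ?_)
    have : (2 : ℝ) ≤ n := by exact_mod_cast hn
    positivity
  unfold ga
  rw [abs_mul, abs_of_nonneg (by positivity)]
  have h3 : r ^ k / (2 ^ k * (k.factorial : ℝ)) ≤ (Real.exp 1 / 16) ^ k := by
    have h4 : (k : ℝ) ^ k / (k.factorial : ℝ) ≤ Real.exp k :=
      Real.pow_div_factorial_le_exp k hk0.le k
    calc r ^ k / (2 ^ k * (k.factorial : ℝ)) ≤ (k / 8) ^ k / (2 ^ k * (k.factorial : ℝ)) := by
          gcongr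
          linarith
      _ = ((k : ℝ) ^ k / (k.factorial : ℝ)) / 16 ^ k := by
          rw [div_pow, div_div, div_div]
          congr 1
          rw [show (16 : ℝ) = 8 * 2 by norm_num, mul_pow]
          ring
      _ ≤ Real.exp k / 16 ^ k := by gcongr
      _ = _ := by
          rw [div_pow, ← Real.exp_nat_mul, mul_one]
  have h5 : Real.exp (k / 256) ≤ (Real.exp (1 / 4)) ^ k := by
    rw [← Real.exp_nat_mul]
    apply Real.exp_le_exp.2
    linarith
  calc cc n k * r ^ k * |phi (2 * k + n) r|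
      ≤ (ar n / (2 ^ k * k.factorial)) * r ^ k * Real.exp (k / 256) := by
        gcongr
        exact cc_le hn k
    _ = ar n * (r ^ k / (2 ^ k * (k.factorial : ℝ))) * Real.exp (k / 256) := by ring
    _ ≤ ar n * (Real.exp 1 / 16) ^ k * (Real.exp (1 / 4)) ^ k := by gcongr
    _ = ar n * (Real.exp (5 / 4) / 16) ^ k := by
        rw [mul_assoc, ← mul_pow, show Real.exp (5 / 4) = Real.exp 1 * Real.exp (1 / 4) by
          rw [← Real.exp_add]; norm_num]
        congr 2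
        ring
    _ ≤ _ := by
        have := exp_five_quarter
        exact mul_le_mul_of_nonneg_left (pow_le_pow_left₀ (by positivity) (by linarith) k) ha.le

/-- the gain on a shell, up to `ε` -/
theorem ga_sh (n : ℕ) (hn : 3 ≤ n) (p : ℝ) (hp2 : 2 < p) (hp4 : p ≤ 4) (ε : ℝ) (hε : 0 < ε) :
    ∃ C : ℝ, 0 < C ∧ ∀ (k : ℕ) (R : ℝ), 1 ≤ R →
      ∫⁻ r in Ioc R (2 * R), ENNReal.ofReal (r ^ (n - 1)) * ‖ga n k r‖ₑ ^ p ≤
        ENNReal.ofReal (C * R ^ (-((p * (n - 1) - 2 * n) / 2) + ε)) := by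
  obtain ⟨C2, hC2, h2⟩ := ga_L2 n (by omega)
  obtain ⟨δ, hδ⟩ : ∃ δ : ℝ, δ = min 1 ε := ⟨_, rfl⟩
  have hδ0 : 0 < δ := by
    rw [hδ]
    exact lt_min one_pos hε
  have hδ1 : δ ≤ 1 := by
    rw [hδ]
    exact min_le_left _ _
  have hδ2 : δ ≤ ε := by
    rw [hδ]
    exact min_le_right _ _
  obtain ⟨C4, hC4, h4⟩ := P4_all n (by omega) δ hδ0 hδ1
  refine ⟨C2 ^ ((4 - p) / 2) * (2 ^ (n - 1) * C4) ^ ((p - 2) / 2), by positivity, fun k R hR => ?_⟩
  have hR0 : 0 < R := by linarith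
  have hgm := ga_meas (show 1 ≤ n by omega) k
  have hwm := wt_meas n
  have e4 : ∫⁻ r in Ioc R (2 * R), ENNReal.ofReal (r ^ (n - 1)) * ‖ga n k r‖ₑ ^ (4 : ℝ) ≤
      ENNReal.ofReal (2 ^ (n - 1) * C4 * R ^ (2 + δ - n)) := by
    calc ∫⁻ r in Ioc R (2 * R), ENNReal.ofReal (r ^ (n - 1)) * ‖ga n k r‖ₑ ^ (4 : ℝ)
        ≤ ∫⁻ r in Ioc R (2 * R), ENNReal.ofReal ((2 * R) ^ (n - 1)) * ‖ga n k r‖ₑ ^ (4 : ℝ) := by
          refine setLIntegral_mono' measurableSet_Ioc fun r hr => ?_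
          refine mul_le_mul' (ENNReal.ofReal_le_ofReal ?_) le_rfl
          exact pow_le_pow_left₀ (by linarith [hr.1]) hr.2 _
      _ = ENNReal.ofReal ((2 * R) ^ (n - 1)) * ∫⁻ r in Ioc R (2 * R), ‖ga n k r‖ₑ ^ (4 : ℝ) :=
          lintegral_const_mul' _ _ ENNReal.ofReal_ne_top
      _ ≤ ENNReal.ofReal ((2 * R) ^ (n - 1)) * ENNReal.ofReal (C4 * R ^ (3 + δ - 2 * n)) :=
          mul_le_mul' le_rfl (h4 k R hR)
      _ = _ := by
          rw [← ENNReal.ofReal_mul (by positivity)]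
          congr 1
          have e5 : R ^ (2 + δ - n) = R ^ (n - 1) * R ^ (3 + δ - 2 * n) := by
            rw [← Real.rpow_natCast, ← Real.rpow_add hR0]
            congr 1
            rw [Nat.cast_sub (by omega : 1 ≤ n)]
            push_cast
            ring
          rw [e5, mul_pow]
          ring
  have hin := ENNReal.lintegral_mul_norm_pow_le (μ := volume.restrict (Ioc R (2 * R)))
    (f := fun r => ENNReal.ofReal (r ^ (n - 1)) * ‖ga n k r‖ₑ ^ (2 : ℝ))
    (g := fun r => ENNReal.ofReal (r ^ (n - 1)) * ‖ga n k r‖ₑ ^ (4 : ℝ))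
    (hwm.mul (hgm.pow_const _)).aemeasurable (hwm.mul (hgm.pow_const _)).aemeasurable
    (by linarith : (0 : ℝ) ≤ (4 - p) / 2) (by linarith : (0 : ℝ) ≤ (p - 2) / 2) (by ring)
  have e1 : ∫⁻ r in Ioc R (2 * R), ENNReal.ofReal (r ^ (n - 1)) * ‖ga n k r‖ₑ ^ p =
      ∫⁻ r in Ioc R (2 * R),
        (ENNReal.ofReal (r ^ (n - 1)) * ‖ga n k r‖ₑ ^ (2 : ℝ)) ^ ((4 - p) / 2) *
        (ENNReal.ofReal (r ^ (n - 1)) * ‖ga n k r‖ₑ ^ (4 : ℝ)) ^ ((p - 2) / 2) := by
    refine lintegral_congr fun r => ?_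
    rw [ENNReal.mul_rpow_of_nonneg _ _ (by linarith), ENNReal.mul_rpow_of_nonneg _ _ (by linarith),
      mul_mul_mul_comm, ← ENNReal.rpow_add_of_nonneg _ _ (by linarith) (by linarith),
      ← ENNReal.rpow_mul, ← ENNReal.rpow_mul,
      ← ENNReal.rpow_add_of_nonneg _ _ (by linarith) (by linarith)]
    have e2 : (4 - p) / 2 + (p - 2) / 2 = 1 := by ring
    have e3 : 2 * ((4 - p) / 2) + 4 * ((p - 2) / 2) = p := by ring
    rw [e2, e3, ENNReal.rpow_one]
  rw [e1]
  refine hin.trans ?_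
  refine (mul_le_mul' (ENNReal.rpow_le_rpow (h2 k R hR) (by linarith))
    (ENNReal.rpow_le_rpow e4 (by linarith))).trans ?_
  rw [ENNReal.ofReal_rpow_of_nonneg (by positivity) (by linarith),
    ENNReal.ofReal_rpow_of_nonneg (by positivity) (by linarith),
    ← ENNReal.ofReal_mul (by positivity)]
  apply ENNReal.ofReal_le_ofReal
  rw [Real.mul_rpow hC2.le hR0.le, Real.mul_rpow (by positivity) (by positivity),
    ← Real.rpow_mul hR0.le]
  have e6 : R ^ ((4 - p) / 2) * R ^ ((2 + δ - n) * ((p - 2) / 2)) ≤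
      R ^ (-((p * (n - 1) - 2 * n) / 2) + ε) := by
    rw [← Real.rpow_add hR0]
    apply Real.rpow_le_rpow_of_exponent_le hR
    have h5 : δ * ((p - 2) / 2) ≤ ε * 1 :=
      mul_le_mul hδ2 (by linarith) (by linarith) (by linarith)
    nlinarith
  have hpos : 0 < C2 ^ ((4 - p) / 2) * (2 ^ (n - 1) * C4) ^ ((p - 2) / 2) := by positivity
  calc C2 ^ ((4 - p) / 2) * R ^ ((4 - p) / 2) *
        ((2 ^ (n - 1) * C4) ^ ((p - 2) / 2) * R ^ ((2 + δ - n) * ((p - 2) / 2)))
      = C2 ^ ((4 - p) / 2) * (2 ^ (n - 1) * C4) ^ ((p - 2) / 2) *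
        (R ^ ((4 - p) / 2) * R ^ ((2 + δ - n) * ((p - 2) / 2))) := by ring
    _ ≤ _ := mul_le_mul_of_nonneg_left e6 hpos.le

end Pool.Agent.W5h55.SH
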