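import Mathlib
import Pool.Agent.W5h55.SH.C2
import Pool.Agent.W5h55.SH.C3
import Pool.Agent.W5h55.SH.B1
set_option autoImplicit false

/-! Time averages at one point and on one shell. -/

open MeasureTheory Set Metric
open scoped ENNReal RealInnerProductSpace Interval

namespace Pool.Agent.W5h55.SH

open Pool.Agent.H789R2.FR (E sg sg_finite sg_ae T polar)

variable {n : ℕ}

theorem half_pow_le (R : ℝ) (L : ℕ) (hL : 16 * R ≤ L) (hR : 0 ≤ R) :
    (1 / 2 : ℝ) ^ L ≤ Real.exp (-R) := by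
  have h1 : (1 / 2 : ℝ) ≤ Real.exp (-(1 / 2)) := by
    have := Real.add_one_le_exp (-(1 / 2) : ℝ)
    linarith
  calc (1 / 2 : ℝ) ^ L ≤ (Real.exp (-(1 / 2))) ^ L := pow_le_pow_left₀ (by norm_num) h1 L
    _ = Real.exp (-(L / 2)) := by
        rw [← Real.exp_nat_mul]
        congr 1
        ring
    _ ≤ _ := by
        apply Real.exp_le_exp.2
        linarith

theorem geo_Ico (N M : ℕ) : ∑ k ∈ Finset.Ico N M, (1 / 2 : ℝ) ^ k ≤ 2 * (1 / 2) ^ N := by
  rcases le_or_gt M N with h | h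
  · rw [Finset.Ico_eq_empty (by omega), Finset.sum_empty]
    positivity
  · rw [geom_sum_Ico (by norm_num) h.le]
    have h1 : (0 : ℝ) ≤ (1 / 2) ^ M := by positivity
    have h2 : (((1 / 2 : ℝ)) ^ M - (1 / 2) ^ N) / (1 / 2 - 1) = 2 * ((1 / 2) ^ N - (1 / 2) ^ M) := by
      ring
    rw [h2]
    linarith

/-- the condition on the weights -/
def Wt (R A : ℝ) (w : ℕ → ℝ) : Prop :=
  (∀ k, 0 ≤ w k) ∧ (∀ k : ℕ, (k : ℝ) ≤ 32 * R → w k ≤ A) ∧
    ∀ k : ℕ, w k * (1 / 4) ^ k ≤ A * (1 / 2) ^ k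

/-- time averages at a point -/
theorem pt_avg (n : ℕ) (hn : 3 ≤ n) (p : ℝ) (hp1 : 1 ≤ p) (hp4 : p ≤ 4) (δ : ℝ) (hδ : 0 < δ)
    (A : ℝ) (hA : 0 ≤ A) : ∃ C : ℝ, 0 < C ∧ ∀ (R : ℝ), 1 ≤ R → ∀ w : ℕ → ℝ, Wt R A w →
    ∀ (M : ℕ) (b y : ℕ → ℂ), (∀ k : ℕ, 16 * R ≤ k → ‖b k‖ ≤ ar n * (1 / 4) ^ k * ‖y k‖) →
    ∫⁻ s in Ioc (0 : ℝ) (2 * Real.pi),
        ‖∑ k ∈ Finset.range M, ((w k : ℂ) * b k) * ek n k s‖ₑ ^ p ≤
      ENNReal.ofReal (C * R ^ δ) * (∑ k ∈ Finset.range M, ‖b k‖ₑ ^ (2 : ℝ)) ^ (p / 2) +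
      ENNReal.ofReal (C * Real.exp (-R)) *
        (∑ k ∈ Finset.range M, ‖y k‖ₑ ^ (2 : ℝ)) ^ (p / 2) := by
  obtain ⟨C, hC, h⟩ := ek_lp n hn p (by linarith) hp4 δ hδ
  have ha := ar_pos (show 1 ≤ n by omega)
  have hpi := Real.pi_pos
  obtain ⟨C1, hC1⟩ : ∃ C1 : ℝ, C1 = 2 ^ (p - 1) * (C * 18 ^ δ * A ^ p) := ⟨_, rfl⟩
  obtain ⟨C2, hC2⟩ : ∃ C2 : ℝ, C2 = 2 ^ (p - 1) * (2 * Real.pi * (2 * (A * ar n)) ^ p) := ⟨_, rfl⟩
  have hC1' : 0 ≤ C1 := by
    rw [hC1]
    positivity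
  have hC2' : 0 ≤ C2 := by
    rw [hC2]
    positivity
  refine ⟨C1 + C2 + 1, by positivity, fun R hR w hw M b y hb => ?_⟩
  obtain ⟨hw0, hw1, hw2⟩ := hw
  have hR0 : 0 < R := by linarith
  obtain ⟨L, hL⟩ : ∃ L : ℕ, L = ⌈16 * R⌉₊ := ⟨_, rfl⟩
  have hL1 : 16 * R ≤ L := by
    rw [hL]
    exact Nat.le_ceil _
  have hL2 : (L : ℝ) < 16 * R + 1 := by
    rw [hL]
    exact Nat.ceil_lt_add_one (by positivity)
  obtain ⟨N, hN⟩ : ∃ N : ℕ, N = min M L := ⟨_, rfl⟩
  have hNM : N ≤ M := by omega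
  have hNL : N ≤ L := by omega
  obtain ⟨V, hV⟩ : ∃ V : ℝ≥0∞, V = ∑ k ∈ Finset.range M, ‖y k‖ₑ ^ (2 : ℝ) := ⟨_, rfl⟩
  have hsplit : ∀ s, ∑ k ∈ Finset.range M, ((w k : ℂ) * b k) * ek n k s =
      ∑ k ∈ Finset.range N, ((w k : ℂ) * b k) * ek n k s +
      ∑ k ∈ Finset.Ico N M, ((w k : ℂ) * b k) * ek n k s := fun s => by
    rw [Finset.sum_range_add_sum_Ico _ hNM]
  -- the low part
  have hlow : ∫⁻ s in Ioc (0 : ℝ) (2 * Real.pi),
      ‖∑ k ∈ Finset.range N, ((w k : ℂ) * b k) * ek n k s‖ₑ ^ p ≤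
      ENNReal.ofReal (C * 18 ^ δ * A ^ p * R ^ δ) *
        (∑ k ∈ Finset.range M, ‖b k‖ₑ ^ (2 : ℝ)) ^ (p / 2) := by
    refine (h N fun k => (w k : ℂ) * b k).trans ?_
    have h1 : ∑ k ∈ Finset.range N, ‖(w k : ℂ) * b k‖ₑ ^ (2 : ℝ) ≤
        ENNReal.ofReal (A ^ (2 : ℝ)) * ∑ k ∈ Finset.range M, ‖b k‖ₑ ^ (2 : ℝ) := by
      rw [Finset.mul_sum]
      refine (Finset.sum_le_sum fun k hk => ?_).trans (Finset.sum_le_sum_of_subset
        (Finset.range_subset_range.2 hNM))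
      rw [enorm_mul, ENNReal.mul_rpow_of_nonneg _ _ (by norm_num),
        ← ENNReal.ofReal_rpow_of_nonneg hA (by norm_num)]
      refine mul_le_mul' (ENNReal.rpow_le_rpow ?_ (by norm_num)) le_rfl
      rw [← ofReal_norm, Complex.norm_real, Real.norm_of_nonneg (hw0 k)]
      refine ENNReal.ofReal_le_ofReal (hw1 k ?_)
      have h2 : (k : ℝ) < N := by exact_mod_cast Finset.mem_range.1 hk
      have h3 : (N : ℝ) ≤ L := by exact_mod_cast hNL
      linarith
    calc ENNReal.ofReal (C * ((N : ℝ) + 1) ^ δ) *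
          (∑ k ∈ Finset.range N, ‖(w k : ℂ) * b k‖ₑ ^ (2 : ℝ)) ^ (p / 2)
        ≤ ENNReal.ofReal (C * (18 * R) ^ δ) *
          (ENNReal.ofReal (A ^ (2 : ℝ)) * ∑ k ∈ Finset.range M, ‖b k‖ₑ ^ (2 : ℝ)) ^ (p / 2) := by
          refine mul_le_mul' (ENNReal.ofReal_le_ofReal ?_) (ENNReal.rpow_le_rpow h1 (by linarith))
          refine mul_le_mul_of_nonneg_left (Real.rpow_le_rpow (by positivity) ?_ hδ.le) hC.le
          have h3 : (N : ℝ) ≤ L := by exact_mod_cast hNL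
          linarith
      _ = _ := by
          rw [ENNReal.mul_rpow_of_nonneg _ _ (by linarith),
            ENNReal.ofReal_rpow_of_nonneg (by positivity) (by linarith), ← mul_assoc,
            ← ENNReal.ofReal_mul (by positivity), ← Real.rpow_mul hA,
            Real.mul_rpow (by norm_num) hR0.le, show 2 * (p / 2) = p by ring]
          congr 2
          ring
  -- the high part
  have hhigh : ∀ s, ‖∑ k ∈ Finset.Ico N M, ((w k : ℂ) * b k) * ek n k s‖ₑ ≤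
      ENNReal.ofReal (2 * (A * ar n) * Real.exp (-R)) * V ^ (1 / 2 : ℝ) := by
    intro s
    have hterm : ∀ k ∈ Finset.Ico N M, ‖((w k : ℂ) * b k) * ek n k s‖ₑ ≤
        ENNReal.ofReal (A * ar n * (1 / 2) ^ k) * V ^ (1 / 2 : ℝ) := by
      intro k hk
      rw [Finset.mem_Ico] at hk
      have hkL : L ≤ k := by
        rcases le_total M L with h1 | h1
        · rw [hN, min_eq_left h1] at hk
          omega
        · rw [hN, min_eq_right h1] at hk
          exact hk.1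
      have hkR : 16 * R ≤ k := hL1.trans (by exact_mod_cast hkL)
      have hyV : ‖y k‖ₑ ≤ V ^ (1 / 2 : ℝ) := by
        have h1 : ‖y k‖ₑ ^ (2 : ℝ) ≤ V := by
          rw [hV]
          exact Finset.single_le_sum (f := fun k => ‖y k‖ₑ ^ (2 : ℝ)) (fun _ _ => bot_le)
            (Finset.mem_range.2 hk.2)
        have h2 := ENNReal.rpow_le_rpow h1 (by norm_num : (0 : ℝ) ≤ 1 / 2)
        rw [← ENNReal.rpow_mul] at h2
        norm_num at h2 ⊢
        exact h2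
      have h3 : ‖((w k : ℂ) * b k) * ek n k s‖ ≤ A * ar n * (1 / 2) ^ k * ‖y k‖ := by
        rw [norm_mul, norm_mul, ek_norm, mul_one, Complex.norm_real, Real.norm_of_nonneg (hw0 k)]
        calc w k * ‖b k‖ ≤ w k * (ar n * (1 / 4) ^ k * ‖y k‖) :=
              mul_le_mul_of_nonneg_left (hb k hkR) (hw0 k)
          _ = (w k * (1 / 4) ^ k) * (ar n * ‖y k‖) := by ring
          _ ≤ (A * (1 / 2) ^ k) * (ar n * ‖y k‖) :=
              mul_le_mul_of_nonneg_right (hw2 k) (by positivity)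
          _ = _ := by ring
      calc ‖((w k : ℂ) * b k) * ek n k s‖ₑ ≤ ENNReal.ofReal (A * ar n * (1 / 2) ^ k * ‖y k‖) := by
            rw [← ofReal_norm]
            exact ENNReal.ofReal_le_ofReal h3
        _ = ENNReal.ofReal (A * ar n * (1 / 2) ^ k) * ‖y k‖ₑ := by
            rw [ENNReal.ofReal_mul (by positivity), ofReal_norm]
        _ ≤ _ := mul_le_mul' le_rfl hyV
    refine (enorm_sum_le _ _).trans ((Finset.sum_le_sum hterm).trans ?_)
    rw [← Finset.sum_mul, ← ENNReal.ofReal_sum_of_nonneg fun k _ => by positivity, ← Finset.mul_sum]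
    refine mul_le_mul' (ENNReal.ofReal_le_ofReal ?_) le_rfl
    rcases le_or_gt M N with h1 | h1
    · rw [Finset.Ico_eq_empty (by omega), Finset.sum_empty, mul_zero]
      positivity
    · have hNL' : N = L := by omega
      have h2 := geo_Ico N M
      have h3 := half_pow_le R N (by rw [hNL']; exact hL1) hR0.le
      calc A * ar n * ∑ k ∈ Finset.Ico N M, (1 / 2 : ℝ) ^ k ≤ A * ar n * (2 * Real.exp (-R)) := by
            refine mul_le_mul_of_nonneg_left (h2.trans ?_) (by positivity)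
            linarith
        _ = _ := by ring
  have hhigh2 : ∫⁻ s in Ioc (0 : ℝ) (2 * Real.pi),
      ‖∑ k ∈ Finset.Ico N M, ((w k : ℂ) * b k) * ek n k s‖ₑ ^ p ≤
      ENNReal.ofReal (2 * Real.pi * (2 * (A * ar n)) ^ p * Real.exp (-R)) * V ^ (p / 2) := by
    calc ∫⁻ s in Ioc (0 : ℝ) (2 * Real.pi),
          ‖∑ k ∈ Finset.Ico N M, ((w k : ℂ) * b k) * ek n k s‖ₑ ^ p
        ≤ ∫⁻ s in Ioc (0 : ℝ) (2 * Real.pi),
          (ENNReal.ofReal (2 * (A * ar n) * Real.exp (-R)) * V ^ (1 / 2 : ℝ)) ^ p :=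
          lintegral_mono fun s => ENNReal.rpow_le_rpow (hhigh s) (by linarith)
      _ = (ENNReal.ofReal ((2 * (A * ar n)) ^ p * (Real.exp (-R)) ^ p) * V ^ (p / 2)) *
          ENNReal.ofReal (2 * Real.pi) := by
          rw [lintegral_const, Measure.restrict_apply_univ, Real.volume_Ioc, sub_zero,
            ENNReal.mul_rpow_of_nonneg _ _ (by linarith), ← ENNReal.rpow_mul,
            ENNReal.ofReal_rpow_of_nonneg (by positivity) (by linarith),
            Real.mul_rpow (by positivity) (by positivity), show (1 / 2 : ℝ) * p = p / 2 by ring]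
      _ ≤ (ENNReal.ofReal ((2 * (A * ar n)) ^ p * Real.exp (-R)) * V ^ (p / 2)) *
          ENNReal.ofReal (2 * Real.pi) := by
          refine mul_le_mul' (mul_le_mul' (ENNReal.ofReal_le_ofReal
            (mul_le_mul_of_nonneg_left ?_ (by positivity))) le_rfl) le_rfl
          rw [← Real.exp_mul]
          apply Real.exp_le_exp.2
          nlinarith
      _ = _ := by
          rw [mul_right_comm, ← ENNReal.ofReal_mul (by positivity)]
          congr 2
          ring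
  have hcl : Continuous fun s => ∑ k ∈ Finset.range N, ((w k : ℂ) * b k) * ek n k s := by
    have := ek_cont n
    fun_prop
  calc ∫⁻ s in Ioc (0 : ℝ) (2 * Real.pi),
        ‖∑ k ∈ Finset.range M, ((w k : ℂ) * b k) * ek n k s‖ₑ ^ p
      ≤ ∫⁻ s in Ioc (0 : ℝ) (2 * Real.pi), 2 ^ (p - 1) *
        (‖∑ k ∈ Finset.range N, ((w k : ℂ) * b k) * ek n k s‖ₑ ^ p +
        ‖∑ k ∈ Finset.Ico N M, ((w k : ℂ) * b k) * ek n k s‖ₑ ^ p) := by
        refine lintegral_mono fun s => ?_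
        rw [hsplit s]
        exact (ENNReal.rpow_le_rpow (enorm_add_le _ _) (by linarith)).trans
          (ENNReal.rpow_add_le_mul_rpow_add_rpow _ _ hp1)
    _ = 2 ^ (p - 1) * ((∫⁻ s in Ioc (0 : ℝ) (2 * Real.pi),
          ‖∑ k ∈ Finset.range N, ((w k : ℂ) * b k) * ek n k s‖ₑ ^ p) +
        ∫⁻ s in Ioc (0 : ℝ) (2 * Real.pi),
          ‖∑ k ∈ Finset.Ico N M, ((w k : ℂ) * b k) * ek n k s‖ₑ ^ p) := by
        rw [lintegral_const_mul' _ _ (ENNReal.rpow_ne_top_of_nonneg (by linarith) (by norm_num)),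
          lintegral_add_left (hcl.measurable.enorm.pow_const _)]
    _ ≤ 2 ^ (p - 1) * (ENNReal.ofReal (C * 18 ^ δ * A ^ p * R ^ δ) *
        (∑ k ∈ Finset.range M, ‖b k‖ₑ ^ (2 : ℝ)) ^ (p / 2) +
        ENNReal.ofReal (2 * Real.pi * (2 * (A * ar n)) ^ p * Real.exp (-R)) * V ^ (p / 2)) :=
        mul_le_mul' le_rfl (add_le_add hlow hhigh2)
    _ = ENNReal.ofReal (C1 * R ^ δ) * (∑ k ∈ Finset.range M, ‖b k‖ₑ ^ (2 : ℝ)) ^ (p / 2) +
        ENNReal.ofReal (C2 * Real.exp (-R)) * V ^ (p / 2) := by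
        have h2 : (2 : ℝ≥0∞) ^ (p - 1) = ENNReal.ofReal (2 ^ (p - 1)) := by
          rw [← ENNReal.ofReal_rpow_of_nonneg (by norm_num) (by linarith), ENNReal.ofReal_ofNat]
        rw [h2, mul_add, ← mul_assoc, ← mul_assoc, ← ENNReal.ofReal_mul (by positivity),
          ← ENNReal.ofReal_mul (by positivity), hC1, hC2]
        congr 3
        · ring
        · ring
    _ ≤ _ := by
        rw [hV]
        refine add_le_add (mul_le_mul' (ENNReal.ofReal_le_ofReal ?_) le_rfl)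
          (mul_le_mul' (ENNReal.ofReal_le_ofReal ?_) le_rfl)
        · refine mul_le_mul_of_nonneg_right ?_ (by positivity)
          linarith
        · refine mul_le_mul_of_nonneg_right ?_ (by positivity)
          linarith

end Pool.Agent.W5h55.SH
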