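import Mathlib
import Pool.Agent.W5h55.SH.C4
set_option autoImplicit false

/-! Time averages on one shell. -/

open MeasureTheory Set Metric
open scoped ENNReal RealInnerProductSpace Interval

namespace Pool.Agent.W5h55.SH

open Pool.Agent.H789R2.FR (E sg sg_finite sg_ae T polar)

variable {n : ℕ}

/-- polar coordinates on a union of spheres -/
theorem polar_set (hn : 1 ≤ n) (F : E n → ℝ≥0∞) (hF : Measurable F) (A : Set ℝ)
    (hA : MeasurableSet A) (hA0 : A ⊆ Ioi 0) :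
    ∫⁻ x in {x : E n | ‖x‖ ∈ A}, F x =
      ∫⁻ v, ∫⁻ r in A, ENNReal.ofReal (r ^ (n - 1)) * F (r • v) ∂volume ∂(sg n) := by
  have hAm : MeasurableSet {x : E n | ‖x‖ ∈ A} := measurable_norm hA
  rw [← lintegral_indicator hAm, polar hn _ (hF.indicator hAm)]
  refine lintegral_congr_ae ?_
  filter_upwards [sg_ae n] with v hv
  rw [← lintegral_indicator (measurableSet_Ioi), ← lintegral_indicator hA]
  refine lintegral_congr fun r => ?_
  by_cases hrA : r ∈ A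
  · have hr : r ∈ Ioi (0 : ℝ) := hA0 hrA
    have hnr : ‖r • v‖ = r := by rw [norm_smul, hv, mul_one, Real.norm_of_nonneg (le_of_lt hr)]
    rw [indicator_of_mem hr, indicator_of_mem hrA, indicator_of_mem]
    change ‖r • v‖ ∈ A
    rw [hnr]
    exact hrA
  · rw [indicator_of_notMem hrA]
    by_cases hr : r ∈ Ioi (0 : ℝ)
    · have hnr : ‖r • v‖ = r := by rw [norm_smul, hv, mul_one, Real.norm_of_nonneg (le_of_lt hr)]
      rw [indicator_of_mem hr, indicator_of_notMem, mul_zero]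
      intro h
      change ‖r • v‖ ∈ A at h
      rw [hnr] at h
      exact hrA h
    · rw [indicator_of_notMem hr]

/-- convexity in the radial variable -/
theorem rad_jens (hn : 2 ≤ n) (p : ℝ) (hp : 2 ≤ p) (D : Set ℝ) (hD : MeasurableSet D)
    (hD0 : D ⊆ Ioi 0) (B : ℝ≥0∞)
    (hB : ∀ k, ∫⁻ r in D, ENNReal.ofReal (r ^ (n - 1)) * ‖ga n k r‖ₑ ^ p ≤ B) (s : Finset ℕ)
    (P : ℕ → MvPolynomial (Fin n) ℂ) (hP : ∀ i, (P i).IsHomogeneous i)
    (hh : ∀ i, Harm (P i)) (v : E n) (hv : ‖v‖ = 1) :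
    ∫⁻ r in D, ENNReal.ofReal (r ^ (n - 1)) *
        (∑ i ∈ s, ‖T (ev (P i)) (r • v)‖ₑ ^ (2 : ℝ)) ^ (p / 2) ≤
      B * (∑ i ∈ s, ‖ev (P i) v‖ₑ ^ (2 : ℝ)) ^ (p / 2) := by
  have hfin : ∀ i ∈ s, ‖ev (P i) v‖ₑ ^ (2 : ℝ) ≠ ⊤ := fun i _ =>
    ENNReal.rpow_ne_top_of_nonneg (by norm_num) enorm_ne_top
  have hgm : ∀ i, Measurable fun r : ℝ => ENNReal.ofReal (r ^ (n - 1)) * ‖ga n i r‖ₑ ^ p :=
    fun i => (wt_meas n).mul ((ga_meas (by omega) i).pow_const p)
  calc ∫⁻ r in D, ENNReal.ofReal (r ^ (n - 1)) *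
        (∑ i ∈ s, ‖T (ev (P i)) (r • v)‖ₑ ^ (2 : ℝ)) ^ (p / 2)
      ≤ ∫⁻ r in D, (∑ i ∈ s, ‖ev (P i) v‖ₑ ^ (2 : ℝ)) ^ (p / 2 - 1) *
          ∑ i ∈ s, ‖ev (P i) v‖ₑ ^ (2 : ℝ) *
            (ENNReal.ofReal (r ^ (n - 1)) * ‖ga n i r‖ₑ ^ p) := by
        refine setLIntegral_mono' hD fun r hr => ?_
        have e1 : ∑ i ∈ s, ‖T (ev (P i)) (r • v)‖ₑ ^ (2 : ℝ) =
            ∑ i ∈ s, ‖ev (P i) v‖ₑ ^ (2 : ℝ) * ‖ga n i r‖ₑ ^ (2 : ℝ) := by
          refine Finset.sum_congr rfl fun i hi => ?_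
          rw [T_ev_enorm (by omega) i (P i) (hP i) (hh i) v hv r (le_of_lt (hD0 hr)),
            ENNReal.mul_rpow_of_nonneg _ _ (by norm_num), mul_comm]
        rw [e1]
        have e2 := jens s (fun i => ‖ev (P i) v‖ₑ ^ (2 : ℝ)) (fun i => ‖ga n i r‖ₑ ^ (2 : ℝ))
          hfin (show 1 ≤ p / 2 by linarith)
        refine (mul_le_mul' le_rfl e2).trans (le_of_eq ?_)
        rw [mul_left_comm, Finset.mul_sum]
        congr 1
        refine Finset.sum_congr rfl fun i _ => ?_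
        rw [← ENNReal.rpow_mul, show 2 * (p / 2) = p by ring]
        ring
    _ = (∑ i ∈ s, ‖ev (P i) v‖ₑ ^ (2 : ℝ)) ^ (p / 2 - 1) *
          ∑ i ∈ s, ‖ev (P i) v‖ₑ ^ (2 : ℝ) *
            ∫⁻ r in D, (ENNReal.ofReal (r ^ (n - 1)) * ‖ga n i r‖ₑ ^ p) := by
        rw [lintegral_const_mul, lintegral_finsetSum]
        · congr 1
          refine Finset.sum_congr rfl fun i _ => ?_
          rw [lintegral_const_mul _ (hgm i)]
        · exact fun i _ => (hgm i).const_mul _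
        · exact Finset.measurable_fun_sum _ fun i _ => (hgm i).const_mul _
    _ ≤ (∑ i ∈ s, ‖ev (P i) v‖ₑ ^ (2 : ℝ)) ^ (p / 2 - 1) *
          ∑ i ∈ s, ‖ev (P i) v‖ₑ ^ (2 : ℝ) * B := by
        refine mul_le_mul' le_rfl (Finset.sum_le_sum fun i _ => ?_)
        exact mul_le_mul' le_rfl (hB i)
    _ = _ := by
        rw [← Finset.sum_mul, ← mul_assoc, mul_comm B]
        congr 1
        nth_rewrite 2 [← ENNReal.rpow_one (∑ i ∈ s, ‖ev (P i) v‖ₑ ^ (2 : ℝ))]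
        rw [← ENNReal.rpow_add_of_nonneg _ _ (by linarith) (by norm_num)]
        congr 1
        ring

theorem exp_beats (n : ℕ) (e : ℝ) : ∃ C : ℝ, 0 < C ∧ ∀ R : ℝ, 1 ≤ R →
    (2 * R) ^ n * Real.exp (-R) ≤ C * R ^ e := by
  obtain ⟨m, hm⟩ := exists_nat_ge ((n : ℝ) - e)
  refine ⟨2 ^ n * m.factorial, by positivity, fun R hR => ?_⟩
  have hR0 : 0 < R := by linarith
  have h1 : R ^ m / (m.factorial : ℝ) ≤ Real.exp R := Real.pow_div_factorial_le_exp R hR0.le m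
  have h2 : R ^ m ≤ m.factorial * Real.exp R := by
    rwa [div_le_iff₀ (by positivity), mul_comm] at h1
  have h3 : R ^ ((n : ℝ) - e) ≤ R ^ m := by
    rw [← Real.rpow_natCast]
    exact Real.rpow_le_rpow_of_exponent_le hR hm
  have h4 : R ^ n = R ^ ((n : ℝ) - e) * R ^ e := by
    rw [← Real.rpow_add hR0, ← Real.rpow_natCast]
    congr 1
    ring
  have h5 : Real.exp R * Real.exp (-R) = 1 := by
    rw [← Real.exp_add, add_neg_cancel, Real.exp_zero]
  calc (2 * R) ^ n * Real.exp (-R) = 2 ^ n * (R ^ ((n : ℝ) - e) * Real.exp (-R)) * R ^ e := by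
        rw [mul_pow, h4]
        ring
    _ ≤ 2 ^ n * ((m.factorial * Real.exp R) * Real.exp (-R)) * R ^ e := by
        gcongr
        exact h3.trans h2
    _ = _ := by
        rw [mul_assoc (m.factorial : ℝ), h5]
        ring

theorem TS_meas (P : ℕ → MvPolynomial (Fin n) ℂ) (w : ℕ → ℝ) (M : ℕ) :
    Measurable fun q : E n × ℝ =>
      ∑ k ∈ Finset.range M, ((w k : ℂ) * T (ev (P k)) q.1) * ek n k q.2 :=
  Finset.measurable_fun_sum _ fun k _ =>
    (((T_cont_meas (P k)).comp measurable_fst).const_mul _).mul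
      ((ek_cont n k).measurable.comp measurable_snd)

/-- **time averages on a shell** -/
theorem shell_avg (n : ℕ) (hn : 3 ≤ n) (p : ℝ) (hp2 : 2 < p) (hp4 : p ≤ 4) (ε : ℝ) (hε : 0 < ε)
    (A : ℝ) (hA : 0 ≤ A) : ∃ C : ℝ, 0 < C ∧ ∀ (R : ℝ), 1 ≤ R → ∀ w : ℕ → ℝ, Wt R A w →
    ∀ (M : ℕ) (P : ℕ → MvPolynomial (Fin n) ℂ), (∀ i, (P i).IsHomogeneous i) →
    (∀ i, Harm (P i)) →
    ∫⁻ x in {x : E n | ‖x‖ ∈ Ioc R (2 * R)}, ∫⁻ s in Ioc (0 : ℝ) (2 * Real.pi),
        ‖∑ k ∈ Finset.range M, ((w k : ℂ) * T (ev (P k)) x) * ek n k s‖ₑ ^ p ≤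
      ENNReal.ofReal (C * R ^ (-((p * (n - 1) - 2 * n) / 2) + ε)) *
        ∫⁻ v, (∑ k ∈ Finset.range M, ‖ev (P k) v‖ₑ ^ (2 : ℝ)) ^ (p / 2) ∂(sg n) := by
  obtain ⟨C1, hC1, h1⟩ := pt_avg n hn p (by linarith) hp4 (ε / 2) (by positivity) A hA
  obtain ⟨C2, hC2, h2⟩ := ga_sh n hn p hp2 hp4 (ε / 2) (by positivity)
  obtain ⟨e0, he0⟩ : ∃ e0 : ℝ, e0 = -((p * (n - 1) - 2 * n) / 2) := ⟨_, rfl⟩
  rw [← he0] at h2 ⊢
  obtain ⟨C3, hC3, h3⟩ := exp_beats n (e0 + ε)
  refine ⟨C1 * C2 + C1 * C3, by positivity, fun R hR w hw M P hP hh => ?_⟩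
  have hR0 : 0 < R := by linarith
  have hFm : Measurable fun x : E n => ∫⁻ s in Ioc (0 : ℝ) (2 * Real.pi),
      ‖∑ k ∈ Finset.range M, ((w k : ℂ) * T (ev (P k)) x) * ek n k s‖ₑ ^ p :=
    ((TS_meas P w M).enorm.pow_const p).lintegral_prod_right'
  have hD0 : Ioc R (2 * R) ⊆ Ioi 0 := fun r hr => lt_trans hR0 hr.1
  have hVm : Measurable fun v : E n =>
      (∑ k ∈ Finset.range M, ‖ev (P k) v‖ₑ ^ (2 : ℝ)) ^ (p / 2) :=
    (Finset.measurable_fun_sum _ fun i _ =>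
      (ev_cont (P i)).measurable.enorm.pow_const _).pow_const _
  rw [polar_set (by omega) _ hFm _ measurableSet_Ioc hD0, ← lintegral_const_mul _ hVm]
  refine lintegral_mono_ae ?_
  filter_upwards [sg_ae n] with v hv
  have hTm : Measurable fun r : ℝ => ENNReal.ofReal (r ^ (n - 1)) *
      (∑ k ∈ Finset.range M, ‖T (ev (P k)) (r • v)‖ₑ ^ (2 : ℝ)) ^ (p / 2) := by
    refine (wt_meas n).mul (Measurable.pow_const ?_ _)
    refine Finset.measurable_fun_sum _ fun i _ => ?_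
    exact ((T_cont_meas (P i)).comp (measurable_id.smul_const v)).enorm.pow_const _
  calc ∫⁻ r in Ioc R (2 * R), ENNReal.ofReal (r ^ (n - 1)) *
        ∫⁻ s in Ioc (0 : ℝ) (2 * Real.pi),
          ‖∑ k ∈ Finset.range M, ((w k : ℂ) * T (ev (P k)) (r • v)) * ek n k s‖ₑ ^ p
      ≤ ∫⁻ r in Ioc R (2 * R), (ENNReal.ofReal (C1 * R ^ (ε / 2)) *
          (ENNReal.ofReal (r ^ (n - 1)) *
            (∑ k ∈ Finset.range M, ‖T (ev (P k)) (r • v)‖ₑ ^ (2 : ℝ)) ^ (p / 2)) +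
          ENNReal.ofReal ((2 * R) ^ (n - 1)) * (ENNReal.ofReal (C1 * Real.exp (-R)) *
            (∑ k ∈ Finset.range M, ‖ev (P k) v‖ₑ ^ (2 : ℝ)) ^ (p / 2))) := by
        refine setLIntegral_mono' measurableSet_Ioc fun r hr => ?_
        have hr0 : 0 < r := hD0 hr
        have h4 := h1 R hR w hw M (fun k => T (ev (P k)) (r • v)) (fun k => ev (P k) v) (by
          intro k hk
          have h5 := T_ev_enorm (by omega) k (P k) (hP k) (hh k) v hv r hr0.le
          have h6 : ‖T (ev (P k)) (r • v)‖ = |ga n k r| * ‖ev (P k) v‖ := by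
            rw [T_norm (by omega) k (P k) (hP k) (hh k) v hv r hr0.le, norm_mul, norm_mul, norm_pow,
              norm_neg, Complex.norm_I, one_pow, one_mul, Complex.norm_real, Real.norm_eq_abs]
          rw [h6]
          refine mul_le_mul_of_nonneg_right (ga_tail (by omega) k r hr0.le ?_) (norm_nonneg _)
          linarith [hr.2])
        refine (mul_le_mul' le_rfl h4).trans ?_
        rw [mul_add]
        refine add_le_add (le_of_eq (by ring)) (mul_le_mul' (ENNReal.ofReal_le_ofReal ?_) le_rfl)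
        exact pow_le_pow_left₀ hr0.le hr.2 _
    _ = ENNReal.ofReal (C1 * R ^ (ε / 2)) * (∫⁻ r in Ioc R (2 * R), ENNReal.ofReal (r ^ (n - 1)) *
            (∑ k ∈ Finset.range M, ‖T (ev (P k)) (r • v)‖ₑ ^ (2 : ℝ)) ^ (p / 2)) +
          ENNReal.ofReal ((2 * R) ^ (n - 1)) * (ENNReal.ofReal (C1 * Real.exp (-R)) *
            (∑ k ∈ Finset.range M, ‖ev (P k) v‖ₑ ^ (2 : ℝ)) ^ (p / 2)) * ENNReal.ofReal R := by
        rw [lintegral_add_left (hTm.const_mul _), lintegral_const_mul _ hTm, lintegral_const,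
          Measure.restrict_apply_univ, Real.volume_Ioc, show 2 * R - R = R by ring]
    _ ≤ ENNReal.ofReal (C1 * R ^ (ε / 2)) * (ENNReal.ofReal (C2 * R ^ (e0 + ε / 2)) *
            (∑ k ∈ Finset.range M, ‖ev (P k) v‖ₑ ^ (2 : ℝ)) ^ (p / 2)) +
          ENNReal.ofReal ((2 * R) ^ (n - 1)) * (ENNReal.ofReal (C1 * Real.exp (-R)) *
            (∑ k ∈ Finset.range M, ‖ev (P k) v‖ₑ ^ (2 : ℝ)) ^ (p / 2)) *
              ENNReal.ofReal (2 * R) := by
        refine add_le_add (mul_le_mul' le_rfl ?_) (mul_le_mul' le_rfl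
          (ENNReal.ofReal_le_ofReal (by linarith)))
        exact rad_jens (by omega) p hp2.le _ measurableSet_Ioc hD0 _ (fun k => h2 k R hR) _ P hP hh
          v hv
    _ = ENNReal.ofReal (C1 * C2 * R ^ (e0 + ε) + C1 * ((2 * R) ^ n * Real.exp (-R))) *
            (∑ k ∈ Finset.range M, ‖ev (P k) v‖ₑ ^ (2 : ℝ)) ^ (p / 2) := by
        rw [ENNReal.ofReal_add (by positivity) (by positivity), add_mul]
        congr 1
        · rw [← mul_assoc, ← ENNReal.ofReal_mul (by positivity)]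
          congr 2
          have e1 : R ^ (e0 + ε) = R ^ (ε / 2) * R ^ (e0 + ε / 2) := by
            rw [← Real.rpow_add hR0]
            congr 1
            ring
          rw [e1]
          ring
        · rw [← mul_assoc, mul_right_comm, ← ENNReal.ofReal_mul (by positivity),
            ← ENNReal.ofReal_mul (by positivity)]
          congr 2
          have : (2 * R) ^ n = (2 * R) ^ (n - 1) * (2 * R) := by
            rw [← pow_succ]
            congr 1
            omega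
          rw [this]
          ring
    _ ≤ _ := by
        refine mul_le_mul' (ENNReal.ofReal_le_ofReal ?_) le_rfl
        have h4 := mul_le_mul_of_nonneg_left (h3 R hR) hC1.le
        linarith

end Pool.Agent.W5h55.SH
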