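import Mathlib
import Pool.Agent.W5h55.SH.C5
set_option autoImplicit false

/-! Time averages on the whole space. -/

open MeasureTheory Set Metric
open scoped ENNReal RealInnerProductSpace Interval

namespace Pool.Agent.W5h55.SH

open Pool.Agent.H789R2.FR (E sg sg_finite sg_ae T polar)

variable {n : ℕ}

theorem ga_small (hn : 2 ≤ n) (k : ℕ) (r : ℝ) (hr : 0 ≤ r) (hr1 : r ≤ 1) :
    |ga n k r| ≤ ar n * 4 ^ 8 * (1 / 4) ^ k := by
  have ha := ar_pos (show 1 ≤ n by omega)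
  rcases le_or_gt 8 k with h | h
  · have h8 : (8 : ℝ) ≤ k := by exact_mod_cast h
    refine (ga_tail hn k r hr (by linarith)).trans ?_
    have : 0 ≤ ar n * (1 / 4) ^ k := by positivity
    nlinarith
  · refine (ga_le' hn k r hr).trans ?_
    have h1 : (1 : ℝ) ≤ 4 ^ 8 * (1 / 4) ^ k := by
      have h2 : (1 / 4 : ℝ) ^ 8 ≤ (1 / 4) ^ k :=
        pow_le_pow_of_le_one (by norm_num) (by norm_num) h.le
      calc (1 : ℝ) = 4 ^ 8 * (1 / 4) ^ 8 := by norm_num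
        _ ≤ _ := by gcongr
    calc ar n = ar n * 1 := (mul_one _).symm
      _ ≤ ar n * (4 ^ 8 * (1 / 4) ^ k) := by gcongr
      _ = _ := by ring

theorem one_meas (P : ℕ → MvPolynomial (Fin n) ℂ) (M : ℕ) :
    Measurable fun q : E n × ℝ => ∑ k ∈ Finset.range M, T (ev (P k)) q.1 * ek n k q.2 :=
  Finset.measurable_fun_sum _ fun k _ =>
    ((T_cont_meas (P k)).comp measurable_fst).mul ((ek_cont n k).measurable.comp measurable_snd)

/-- pointwise in the unit ball -/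
theorem ball_pt (hn : 2 ≤ n) (r : ℝ) (hr : 0 ≤ r) (hr1 : r ≤ 1) (v : E n) (hv : ‖v‖ = 1) (M : ℕ)
    (P : ℕ → MvPolynomial (Fin n) ℂ) (hP : ∀ i, (P i).IsHomogeneous i) (hh : ∀ i, Harm (P i))
    (s : ℝ) :
    ‖∑ k ∈ Finset.range M, T (ev (P k)) (r • v) * ek n k s‖ₑ ≤
      ENNReal.ofReal (ar n * 4 ^ 8 * 2) *
        (∑ k ∈ Finset.range M, ‖ev (P k) v‖ₑ ^ (2 : ℝ)) ^ (1 / 2 : ℝ) := by
  have ha := ar_pos (show 1 ≤ n by omega)
  obtain ⟨V, hV⟩ : ∃ V : ℝ≥0∞, V = ∑ k ∈ Finset.range M, ‖ev (P k) v‖ₑ ^ (2 : ℝ) := ⟨_, rfl⟩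
  rw [← hV]
  have hterm : ∀ k ∈ Finset.range M, ‖T (ev (P k)) (r • v) * ek n k s‖ₑ ≤
      ENNReal.ofReal (ar n * 4 ^ 8 * (1 / 2) ^ k) * V ^ (1 / 2 : ℝ) := by
    intro k hk
    have hyV : ‖ev (P k) v‖ₑ ≤ V ^ (1 / 2 : ℝ) := by
      have h1 : ‖ev (P k) v‖ₑ ^ (2 : ℝ) ≤ V := by
        rw [hV]
        exact Finset.single_le_sum (f := fun k => ‖ev (P k) v‖ₑ ^ (2 : ℝ)) (fun _ _ => bot_le) hk
      have h2 := ENNReal.rpow_le_rpow h1 (by norm_num : (0 : ℝ) ≤ 1 / 2)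
      rw [← ENNReal.rpow_mul] at h2
      norm_num at h2 ⊢
      exact h2
    rw [enorm_mul, T_ev_enorm hn k (P k) (hP k) (hh k) v hv r hr]
    have h3 : ‖ek n k s‖ₑ = 1 := by rw [← ofReal_norm, ek_norm, ENNReal.ofReal_one]
    rw [h3, mul_one]
    refine mul_le_mul' ?_ hyV
    rw [← ofReal_norm, Real.norm_eq_abs]
    apply ENNReal.ofReal_le_ofReal
    refine (ga_small hn k r hr hr1).trans ?_
    have h4 : (1 / 4 : ℝ) ^ k ≤ (1 / 2) ^ k := pow_le_pow_left₀ (by norm_num) (by norm_num) k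
    gcongr
  refine (enorm_sum_le _ _).trans ((Finset.sum_le_sum hterm).trans ?_)
  rw [← Finset.sum_mul, ← ENNReal.ofReal_sum_of_nonneg fun k _ => by positivity, ← Finset.mul_sum]
  refine mul_le_mul' (ENNReal.ofReal_le_ofReal ?_) le_rfl
  have h5 := geo_Ico 0 M
  rw [← Finset.range_eq_Ico, pow_zero, mul_one] at h5
  gcongr

/-- time averages in the unit ball -/
theorem ball_avg (n : ℕ) (hn : 2 ≤ n) (p : ℝ) (hp : 0 < p) : ∃ C : ℝ, 0 < C ∧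
    ∀ (M : ℕ) (P : ℕ → MvPolynomial (Fin n) ℂ), (∀ i, (P i).IsHomogeneous i) →
    (∀ i, Harm (P i)) →
    ∫⁻ x in closedBall (0 : E n) 1, ∫⁻ s in Ioc (0 : ℝ) (2 * Real.pi),
        ‖∑ k ∈ Finset.range M, T (ev (P k)) x * ek n k s‖ₑ ^ p ≤
      ENNReal.ofReal C *
        ∫⁻ v, (∑ k ∈ Finset.range M, ‖ev (P k) v‖ₑ ^ (2 : ℝ)) ^ (p / 2) ∂(sg n) := by
  have ha := ar_pos (show 1 ≤ n by omega)
  have hpi := Real.pi_pos
  refine ⟨(ar n * 4 ^ 8 * 2) ^ p * (2 * Real.pi), by positivity, fun M P hP hh => ?_⟩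
  have hFm : Measurable fun x : E n => ∫⁻ s in Ioc (0 : ℝ) (2 * Real.pi),
      ‖∑ k ∈ Finset.range M, T (ev (P k)) x * ek n k s‖ₑ ^ p :=
    ((one_meas P M).enorm.pow_const p).lintegral_prod_right'
  have hVm : Measurable fun v : E n =>
      (∑ k ∈ Finset.range M, ‖ev (P k) v‖ₑ ^ (2 : ℝ)) ^ (p / 2) :=
    (Finset.measurable_fun_sum _ fun i _ =>
      (ev_cont (P i)).measurable.enorm.pow_const _).pow_const _
  have hball : (closedBall (0 : E n) 1 : Set (E n)) =ᵐ[volume] {x : E n | ‖x‖ ∈ Ioc (0 : ℝ) 1} := by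
    have hne : Nonempty (Fin n) := ⟨⟨0, by omega⟩⟩
    have h0 : ∀ᵐ x : E n ∂volume, x ≠ 0 := by
      rw [ae_iff]
      simp only [not_not, setOf_eq_eq_singleton]
      exact measure_singleton _
    filter_upwards [h0] with x hx
    apply propext
    change x ∈ closedBall (0 : E n) 1 ↔ ‖x‖ ∈ Ioc (0 : ℝ) 1
    rw [mem_closedBall_zero_iff]
    exact ⟨fun h => ⟨norm_pos_iff.2 hx, h⟩, fun h => h.2⟩
  rw [setLIntegral_congr hball, polar_set (by omega) _ hFm _ measurableSet_Ioc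
    (fun r hr => hr.1), ← lintegral_const_mul _ hVm]
  refine lintegral_mono_ae ?_
  filter_upwards [sg_ae n] with v hv
  calc ∫⁻ r in Ioc (0 : ℝ) 1, ENNReal.ofReal (r ^ (n - 1)) *
        ∫⁻ s in Ioc (0 : ℝ) (2 * Real.pi),
          ‖∑ k ∈ Finset.range M, T (ev (P k)) (r • v) * ek n k s‖ₑ ^ p
      ≤ ∫⁻ r in Ioc (0 : ℝ) 1, 1 * ∫⁻ s in Ioc (0 : ℝ) (2 * Real.pi),
          (ENNReal.ofReal (ar n * 4 ^ 8 * 2) *
            (∑ k ∈ Finset.range M, ‖ev (P k) v‖ₑ ^ (2 : ℝ)) ^ (1 / 2 : ℝ)) ^ p := by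
        refine setLIntegral_mono' measurableSet_Ioc fun r hr => mul_le_mul' ?_ ?_
        · rw [← ENNReal.ofReal_one]
          exact ENNReal.ofReal_le_ofReal (pow_le_one₀ hr.1.le hr.2)
        · exact lintegral_mono fun s =>
            ENNReal.rpow_le_rpow (ball_pt hn r hr.1.le hr.2 v hv M P hP hh s) hp.le
    _ = _ := by
        rw [one_mul, lintegral_const, Measure.restrict_apply_univ, Real.volume_Ioc, sub_zero,
          lintegral_const, Measure.restrict_apply_univ, Real.volume_Ioc, sub_zero,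
          ENNReal.ofReal_one, mul_one, ENNReal.mul_rpow_of_nonneg _ _ hp.le, ← ENNReal.rpow_mul,
          ENNReal.ofReal_rpow_of_nonneg (by positivity) hp.le, mul_right_comm,
          ← ENNReal.ofReal_mul (by positivity), show (1 / 2 : ℝ) * p = p / 2 by ring]

theorem cover_all (n : ℕ) : (univ : Set (E n)) ⊆ closedBall 0 1 ∪
    ⋃ j : ℕ, {x : E n | ‖x‖ ∈ Ioc ((2 : ℝ) ^ j) (2 * 2 ^ j)} := by
  intro x _
  rcases le_or_gt ‖x‖ 1 with h | h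
  · exact Or.inl (mem_closedBall_zero_iff.2 h)
  · right
    rw [mem_iUnion]
    exact pow_cover ‖x‖ h

theorem Wt_one (R : ℝ) : Wt R 1 (fun _ => 1) := by
  refine ⟨fun _ => zero_le_one, fun _ _ => le_rfl, fun k => ?_⟩
  rw [one_mul, one_mul]
  exact pow_le_pow_left₀ (by norm_num) (by norm_num) k

/-- **time averages on the whole space**, finite sums -/
theorem all_avg (n : ℕ) (hn : 3 ≤ n) (p : ℝ) (hp : 2 * (n : ℝ) / (n - 1) < p) (hp4 : p ≤ 4) :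
    ∃ C : ℝ, 0 < C ∧ ∀ (M : ℕ) (P : ℕ → MvPolynomial (Fin n) ℂ), (∀ i, (P i).IsHomogeneous i) →
    (∀ i, Harm (P i)) →
    ∫⁻ x : E n, ∫⁻ s in Ioc (0 : ℝ) (2 * Real.pi),
        ‖∑ k ∈ Finset.range M, T (ev (P k)) x * ek n k s‖ₑ ^ p ≤
      ENNReal.ofReal C *
        ∫⁻ v, (∑ k ∈ Finset.range M, ‖ev (P k) v‖ₑ ^ (2 : ℝ)) ^ (p / 2) ∂(sg n) := by
  have hn' : (3 : ℝ) ≤ n := by exact_mod_cast hn
  have hp2 : 2 < p := by
    refine lt_of_le_of_lt ?_ hp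
    rw [le_div_iff₀ (by linarith)]
    linarith
  rw [div_lt_iff₀ (by linarith)] at hp
  obtain ⟨η, hη⟩ : ∃ η : ℝ, η = (p * (n - 1) - 2 * n) / 4 := ⟨_, rfl⟩
  have hη0 : 0 < η := by
    rw [hη]
    linarith
  obtain ⟨C1, hC1, h1⟩ := ball_avg n (by omega) p (by linarith)
  obtain ⟨C2, hC2, h2⟩ := shell_avg n hn p hp2 hp4 η hη0 1 zero_le_one
  have he : -((p * (n - 1) - 2 * n) / 2) + η = -η := by
    rw [hη]
    ring
  rw [he] at h2
  have hgeo : Summable fun j : ℕ => ((2 : ℝ) ^ (-η)) ^ j := by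
    apply summable_geometric_of_lt_one (by positivity)
    exact Real.rpow_lt_one_of_one_lt_of_neg (by norm_num) (by linarith)
  obtain ⟨G, hG⟩ : ∃ G : ℝ, G = ∑' j : ℕ, ((2 : ℝ) ^ (-η)) ^ j := ⟨_, rfl⟩
  have hG0 : 0 ≤ G := by
    rw [hG]
    exact tsum_nonneg fun j => by positivity
  refine ⟨C1 + C2 * G, by positivity, fun M P hP hh => ?_⟩
  obtain ⟨W, hW⟩ : ∃ W : ℝ≥0∞,
    W = ∫⁻ v, (∑ k ∈ Finset.range M, ‖ev (P k) v‖ₑ ^ (2 : ℝ)) ^ (p / 2) ∂(sg n) := ⟨_, rfl⟩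
  obtain ⟨F, hF⟩ : ∃ F : E n → ℝ≥0∞, F = fun x => ∫⁻ s in Ioc (0 : ℝ) (2 * Real.pi),
        ‖∑ k ∈ Finset.range M, T (ev (P k)) x * ek n k s‖ₑ ^ p := ⟨_, rfl⟩
  have hsh : ∀ j : ℕ, ∫⁻ x in {x : E n | ‖x‖ ∈ Ioc ((2 : ℝ) ^ j) (2 * 2 ^ j)}, F x ≤
      ENNReal.ofReal (C2 * ((2 : ℝ) ^ (-η)) ^ j) * W := by
    intro j
    have h4 := h2 ((2 : ℝ) ^ j) (one_le_pow₀ (by norm_num)) _ (Wt_one _) M P hP hh
    have h5 : ((2 : ℝ) ^ j) ^ (-η) = ((2 : ℝ) ^ (-η)) ^ j := by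
      rw [← Real.rpow_natCast, ← Real.rpow_natCast, ← Real.rpow_mul (by norm_num),
        ← Real.rpow_mul (by norm_num), mul_comm]
    rw [h5] at h4
    rw [hF, hW]
    simpa only [Complex.ofReal_one, one_mul] using h4
  rw [← hW]
  have hFe : ∀ x : E n, ∫⁻ s in Ioc (0 : ℝ) (2 * Real.pi),
        ‖∑ k ∈ Finset.range M, T (ev (P k)) x * ek n k s‖ₑ ^ p = F x := fun x => by rw [hF]
  simp_rw [hFe]
  calc ∫⁻ x : E n, F x = ∫⁻ x in univ, F x := by rw [setLIntegral_univ]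
    _ ≤ ∫⁻ x in closedBall 0 1 ∪ ⋃ j : ℕ, {x : E n | ‖x‖ ∈ Ioc ((2 : ℝ) ^ j) (2 * 2 ^ j)}, F x :=
        lintegral_mono_set (cover_all n)
    _ ≤ (∫⁻ x in closedBall 0 1, F x) +
        ∫⁻ x in ⋃ j : ℕ, {x : E n | ‖x‖ ∈ Ioc ((2 : ℝ) ^ j) (2 * 2 ^ j)}, F x :=
        lintegral_union_le (μ := volume) _ _ _
    _ ≤ (∫⁻ x in closedBall 0 1, F x) +
        ∑' j : ℕ, ∫⁻ x in {x : E n | ‖x‖ ∈ Ioc ((2 : ℝ) ^ j) (2 * 2 ^ j)}, F x :=
        add_le_add le_rfl (lintegral_iUnion_le _ _)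
    _ ≤ ENNReal.ofReal C1 * W + ∑' j : ℕ, ENNReal.ofReal (C2 * ((2 : ℝ) ^ (-η)) ^ j) * W := by
        refine add_le_add ?_ (ENNReal.tsum_le_tsum hsh)
        rw [hF, hW]
        exact h1 M P hP hh
    _ = _ := by
        rw [ENNReal.tsum_mul_right, ← ENNReal.ofReal_tsum_of_nonneg (fun j => by positivity)
            (hgeo.mul_left C2), tsum_mul_left, ← hG, ← add_mul,
            ← ENNReal.ofReal_add (by positivity) (by positivity)]

end Pool.Agent.W5h55.SH
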