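import Mathlib
import Pool.Agent.R942.AX.Lim
set_option autoImplicit false

/-! A Sobolev inequality in time and the dimension of exceptional sets. -/

open MeasureTheory Set Metric Filter
open scoped ENNReal Topology

namespace Pool.Agent.W5h55.SH

theorem sob (f f' : ℝ → ℂ) (hf : ∀ t, HasDerivAt f (f' t) t) (hf' : Continuous f') (a b : ℝ)
    (hab : a < b) (p : ℝ) (hp : 1 ≤ p) (s : ℝ) (hs : s ∈ Icc a b) :
    ‖f s‖ₑ ^ p ≤ 2 ^ (p - 1) * (ENNReal.ofReal ((b - a)⁻¹) * (∫⁻ t in Ioc a b, ‖f t‖ₑ ^ p) +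
      ENNReal.ofReal ((b - a) ^ (p - 1)) * ∫⁻ t in Ioc a b, ‖f' t‖ₑ ^ p) := by
  have hba : 0 < b - a := by linarith
  have hp0 : 0 < p := by linarith
  have hfc : Continuous f := continuous_iff_continuousAt.2 fun t => (hf t).continuousAt
  obtain ⟨D, hD⟩ : ∃ D : ℝ≥0∞, D = ∫⁻ t in Ioc a b, ‖f' t‖ₑ := ⟨_, rfl⟩
  have h1 : ∀ t ∈ Ioc a b, ‖f s‖ₑ ≤ ‖f t‖ₑ + D := by
    intro t ht
    have h2 : ∫ y in t..s, f' y = f s - f t :=
      intervalIntegral.integral_eq_sub_of_hasDerivAt (fun y _ => hf y) (hf'.intervalIntegrable _ _)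
    have h3 : ‖f s - f t‖ₑ ≤ D := by
      rw [← h2, ← ofReal_norm, intervalIntegral.norm_intervalIntegral_eq, ofReal_norm]
      refine (enorm_integral_le_lintegral_enorm _).trans ?_
      rw [hD]
      refine lintegral_mono_set ?_
      intro y hy
      rw [mem_uIoc] at hy
      rcases hy with hy | hy
      · exact ⟨lt_trans ht.1 hy.1, hy.2.trans hs.2⟩
      · exact ⟨lt_of_le_of_lt hs.1 hy.1, hy.2.trans ht.2⟩
    calc ‖f s‖ₑ = ‖f t + (f s - f t)‖ₑ := by rw [add_sub_cancel]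
      _ ≤ ‖f t‖ₑ + ‖f s - f t‖ₑ := enorm_add_le _ _
      _ ≤ _ := add_le_add le_rfl h3
  have hDp : D ^ p ≤ ENNReal.ofReal ((b - a) ^ (p - 1)) * ∫⁻ t in Ioc a b, ‖f' t‖ₑ ^ p := by
    have h3 := ENNReal.lintegral_mul_norm_pow_le (μ := volume.restrict (Ioc a b))
      (f := fun _ => (1 : ℝ≥0∞)) (g := fun t => ‖f' t‖ₑ ^ p) aemeasurable_const
      (hf'.measurable.enorm.pow_const p).aemeasurable
      (by rw [sub_nonneg, div_le_one hp0]; exact hp : (0 : ℝ) ≤ 1 - 1 / p)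
      (by positivity : (0 : ℝ) ≤ 1 / p) (by ring)
    simp only [ENNReal.one_rpow, one_mul, lintegral_const, Measure.restrict_apply_univ,
      Real.volume_Ioc] at h3
    have h4 : D = ∫⁻ t in Ioc a b, (‖f' t‖ₑ ^ p) ^ (1 / p) := by
      rw [hD]
      refine lintegral_congr fun t => ?_
      rw [← ENNReal.rpow_mul, mul_one_div, div_self hp0.ne', ENNReal.rpow_one]
    rw [← h4] at h3
    refine (ENNReal.rpow_le_rpow h3 hp0.le).trans (le_of_eq ?_)
    rw [ENNReal.mul_rpow_of_nonneg _ _ hp0.le, ← ENNReal.rpow_mul, ← ENNReal.rpow_mul,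
      one_div_mul_cancel hp0.ne', ENNReal.rpow_one,
      ENNReal.ofReal_rpow_of_nonneg hba.le (by
        have : (1 - 1 / p) * p = p - 1 := by field_simp
        rw [this]
        linarith)]
    congr 3
    field_simp
  have h5 : ENNReal.ofReal (b - a) * ‖f s‖ₑ ^ p ≤
      2 ^ (p - 1) * ((∫⁻ t in Ioc a b, ‖f t‖ₑ ^ p) + ENNReal.ofReal (b - a) * D ^ p) := by
    have h2t : (2 : ℝ≥0∞) ^ (p - 1) ≠ ⊤ := ENNReal.rpow_ne_top_of_nonneg (by linarith) (by norm_num)
    calc ENNReal.ofReal (b - a) * ‖f s‖ₑ ^ p = ∫⁻ t in Ioc a b, ‖f s‖ₑ ^ p := by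
          rw [lintegral_const, Measure.restrict_apply_univ, Real.volume_Ioc, mul_comm]
      _ ≤ ∫⁻ t in Ioc a b, 2 ^ (p - 1) * (‖f t‖ₑ ^ p + D ^ p) := by
          refine setLIntegral_mono' measurableSet_Ioc fun t ht => ?_
          exact (ENNReal.rpow_le_rpow (h1 t ht) hp0.le).trans
            (ENNReal.rpow_add_le_mul_rpow_add_rpow _ _ hp)
      _ = _ := by
          rw [lintegral_const_mul' _ _ h2t,
            lintegral_add_left (hfc.measurable.enorm.pow_const p), lintegral_const,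
            Measure.restrict_apply_univ, Real.volume_Ioc, mul_comm (D ^ p)]
  have h6 : ENNReal.ofReal ((b - a)⁻¹) * ENNReal.ofReal (b - a) = 1 := by
    rw [← ENNReal.ofReal_mul (by positivity), inv_mul_cancel₀ hba.ne', ENNReal.ofReal_one]
  calc ‖f s‖ₑ ^ p = ENNReal.ofReal ((b - a)⁻¹) * (ENNReal.ofReal (b - a) * ‖f s‖ₑ ^ p) := by
        rw [← mul_assoc, h6, one_mul]
    _ ≤ ENNReal.ofReal ((b - a)⁻¹) * (2 ^ (p - 1) * ((∫⁻ t in Ioc a b, ‖f t‖ₑ ^ p) +
          ENNReal.ofReal (b - a) * D ^ p)) := mul_le_mul' le_rfl h5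
    _ = 2 ^ (p - 1) * (ENNReal.ofReal ((b - a)⁻¹) * (∫⁻ t in Ioc a b, ‖f t‖ₑ ^ p) +
          (ENNReal.ofReal ((b - a)⁻¹) * ENNReal.ofReal (b - a)) * D ^ p) := by ring
    _ ≤ _ := by
        rw [h6, one_mul]
        exact mul_le_mul' le_rfl (add_le_add le_rfl hDp)

/-- the interval of level `j` and place `i` -/
def Iv (j i : ℕ) : Set ℝ := Icc (2 * Real.pi * i / 4 ^ j) (2 * Real.pi * (i + 1) / 4 ^ j)

theorem Iv_diam (j i : ℕ) : Metric.ediam (Iv j i) = ENNReal.ofReal (2 * Real.pi / 4 ^ j) := by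
  unfold Iv
  rw [Real.ediam_Icc]
  congr 1
  ring

theorem Iv_cover (s : ℝ) (hs : s ∈ Ioc 0 (2 * Real.pi)) (j : ℕ) : ∃ i < 4 ^ j, s ∈ Iv j i := by
  have hpi := Real.pi_pos
  have h4 : (0 : ℝ) < 4 ^ j := by positivity
  obtain ⟨m, hm⟩ : ∃ m : ℕ, m = ⌈s * 4 ^ j / (2 * Real.pi)⌉₊ := ⟨_, rfl⟩
  have hpos : 0 < s * 4 ^ j / (2 * Real.pi) := div_pos (mul_pos hs.1 h4) (by positivity)
  have hm0 : 0 < m := by
    rw [hm]
    exact Nat.ceil_pos.2 hpos
  have hm1 : s * 4 ^ j / (2 * Real.pi) ≤ m := by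
    rw [hm]
    exact Nat.le_ceil _
  have hm2 : (m : ℝ) < s * 4 ^ j / (2 * Real.pi) + 1 := by
    rw [hm]
    exact Nat.ceil_lt_add_one hpos.le
  have hm3 : m ≤ 4 ^ j := by
    rw [hm]
    apply Nat.ceil_le.2
    push_cast
    rw [div_le_iff₀ (by positivity)]
    have := hs.2
    nlinarith
  refine ⟨m - 1, by omega, ?_, ?_⟩
  · rw [Nat.cast_sub (by omega), div_le_iff₀ h4]
    push_cast
    have h5 : (m : ℝ) - 1 < s * 4 ^ j / (2 * Real.pi) := by linarith
    rw [lt_div_iff₀ (by positivity)] at h5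
    linarith
  · rw [Nat.cast_sub (by omega), le_div_iff₀ h4]
    push_cast
    rw [div_le_iff₀ (by positivity)] at hm1
    linarith

/-- the dimension of an exceptional set -/
theorem dim_abs (F : ℕ → ℝ → ℝ≥0∞) (B : ℕ → ℕ → ℝ≥0∞)
    (hFB : ∀ j, ∀ i < 4 ^ j, ∀ s ∈ Iv j i, F j s ≤ B j i) (C : ℝ) (hC : 0 ≤ C) (e : ℝ)
    (hB : ∀ j, ∑ i ∈ Finset.range (4 ^ j), B j i ≤ ENNReal.ofReal (C * 2 ^ ((2 + e) * (j : ℝ))))
    (α : ℝ) (hα : 0 < α) (hα2 : 2 + e < 2 * α) :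
    dimH {s : ℝ | s ∈ Ioc 0 (2 * Real.pi) ∧ ∑' j, F j s = ⊤} ≤ ENNReal.ofReal α := by
  classical
  have hpi := Real.pi_pos
  obtain ⟨θ, hθ⟩ : ∃ θ : ℝ, θ = (2 * α - (2 + e)) / 2 := ⟨_, rfl⟩
  have hθ0 : 0 < θ := by
    rw [hθ]
    linarith
  obtain ⟨U, hU⟩ : ∃ U : ℕ × ℕ → Set ℝ, U = fun q =>
      if q.2 < 4 ^ q.1 ∧ ENNReal.ofReal (2 ^ (-θ * (q.1 : ℝ))) < B q.1 q.2 then Iv q.1 q.2 else ∅ :=
    ⟨_, rfl⟩
  have hgeo : Summable fun j : ℕ => (2 : ℝ) ^ (-θ * (j : ℝ)) := by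
    have h1 : ∀ j : ℕ, (2 : ℝ) ^ (-θ * (j : ℝ)) = ((2 : ℝ) ^ (-θ)) ^ j := fun j => by
      rw [Real.rpow_mul (by norm_num), Real.rpow_natCast]
    simp_rw [h1]
    apply summable_geometric_of_lt_one (by positivity)
    exact Real.rpow_lt_one_of_one_lt_of_neg (by norm_num) (by linarith)
  have hsum : ∑' q : ℕ × ℕ, Metric.ediam (U q) ^ α ≠ ⊤ := by
    have hrow : ∀ j : ℕ, ∑' i : ℕ, Metric.ediam (U (j, i)) ^ α ≤
        ENNReal.ofReal (C * (2 * Real.pi) ^ α * 2 ^ (-θ * (j : ℝ))) := by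
      intro j
      have hd0 : (0 : ℝ) < 2 ^ (-θ * (j : ℝ)) := by positivity
      rw [tsum_eq_sum (s := Finset.range (4 ^ j))]
      · have hterm : ∀ i ∈ Finset.range (4 ^ j), Metric.ediam (U (j, i)) ^ α ≤
            B j i * (ENNReal.ofReal ((2 ^ (-θ * (j : ℝ)))⁻¹) *
              ENNReal.ofReal ((2 * Real.pi / 4 ^ j) ^ α)) := by
          intro i _
          rw [hU]
          simp only
          split_ifs with h
          · rw [Iv_diam, ENNReal.ofReal_rpow_of_nonneg (by positivity) hα.le, ← mul_assoc]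
            have h1 : 1 ≤ B j i * ENNReal.ofReal ((2 ^ (-θ * (j : ℝ)))⁻¹) := by
              calc (1 : ℝ≥0∞) = ENNReal.ofReal (2 ^ (-θ * (j : ℝ))) *
                    ENNReal.ofReal ((2 ^ (-θ * (j : ℝ)))⁻¹) := by
                    rw [← ENNReal.ofReal_mul hd0.le, mul_inv_cancel₀ hd0.ne', ENNReal.ofReal_one]
                _ ≤ _ := mul_le_mul' h.2.le le_rfl
            calc ENNReal.ofReal ((2 * Real.pi / 4 ^ j) ^ α) =
                  1 * ENNReal.ofReal ((2 * Real.pi / 4 ^ j) ^ α) := (one_mul _).symm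
              _ ≤ _ := mul_le_mul' h1 le_rfl
          · rw [Metric.ediam_empty, ENNReal.zero_rpow_of_pos hα]
            exact bot_le
        refine (Finset.sum_le_sum hterm).trans ?_
        rw [← Finset.sum_mul]
        refine (mul_le_mul' (hB j) le_rfl).trans ?_
        rw [← ENNReal.ofReal_mul (by positivity), ← ENNReal.ofReal_mul (by positivity)]
        apply ENNReal.ofReal_le_ofReal
        apply le_of_eq
        rw [Real.div_rpow (by positivity) (by positivity)]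
        have e1 : ((4 : ℝ) ^ j) ^ α = 2 ^ (2 * α * (j : ℝ)) := by
          rw [show (4 : ℝ) = 2 ^ (2 : ℝ) by norm_num, ← Real.rpow_natCast, ← Real.rpow_mul (by norm_num),
            ← Real.rpow_mul (by norm_num)]
          congr 1
          ring
        have e2 : (2 : ℝ) ^ ((2 + e) * (j : ℝ)) =
            2 ^ (-θ * (j : ℝ)) * 2 ^ (-θ * (j : ℝ)) * 2 ^ (2 * α * (j : ℝ)) := by
          rw [← Real.rpow_add (by norm_num), ← Real.rpow_add (by norm_num)]
          congr 1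
          rw [hθ]
          ring
        rw [e1, e2]
        have e3 : (0 : ℝ) < 2 ^ (2 * α * (j : ℝ)) := by positivity
        field_simp
      · intro i hi
        rw [Finset.mem_range] at hi
        rw [hU]
        simp only
        rw [if_neg (fun h => hi h.1), Metric.ediam_empty, ENNReal.zero_rpow_of_pos hα]
    rw [ENNReal.tsum_prod']
    refine ne_top_of_le_ne_top ?_ (ENNReal.tsum_le_tsum hrow)
    rw [← ENNReal.ofReal_tsum_of_nonneg (fun j => by positivity) (hgeo.mul_left _)]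
    exact ENNReal.ofReal_ne_top
  refine le_trans (dimH_mono ?_) (Pool.Agent.R942.AX.dimH_limsup U hα hsum)
  rintro s ⟨hs, hst⟩
  by_contra hfin
  simp only [mem_setOf_eq, Set.not_infinite] at hfin
  choose i hi1 hi2 using fun j => Iv_cover s hs j
  have hBt : ∀ j, B j (i j) ≠ ⊤ := by
    intro j
    have h1 : B j (i j) ≤ ∑ i ∈ Finset.range (4 ^ j), B j i :=
      Finset.single_le_sum (f := fun i => B j i) (fun _ _ => bot_le)
        (Finset.mem_range.2 (hi1 j))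
    exact ne_top_of_le_ne_top ENNReal.ofReal_ne_top (h1.trans (hB j))
  have hJ : {j : ℕ | ENNReal.ofReal (2 ^ (-θ * (j : ℝ))) < B j (i j)}.Finite := by
    have h2 : (fun j => (j, i j)) '' {j : ℕ | ENNReal.ofReal (2 ^ (-θ * (j : ℝ))) < B j (i j)} ⊆
        {q | s ∈ U q} := by
      rintro q ⟨j, hj, rfl⟩
      change s ∈ U (j, i j)
      rw [hU]
      simp only
      rw [if_pos ⟨hi1 j, hj⟩]
      exact hi2 j
    refine Set.Finite.of_finite_image (hfin.subset h2) ?_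
    intro j _ j' _ h
    exact (Prod.mk.inj h).1
  have hbd : ∀ j, F j s ≤ ENNReal.ofReal (2 ^ (-θ * (j : ℝ))) +
      (if j ∈ hJ.toFinset then B j (i j) else 0) := by
    intro j
    have h3 := hFB j (i j) (hi1 j) s (hi2 j)
    split_ifs with h
    · exact h3.trans le_add_self
    · rw [add_zero]
      rw [Set.Finite.mem_toFinset] at h
      simp only [mem_setOf_eq, not_lt] at h
      exact h3.trans h
  have hlt : ∑' j, F j s ≠ ⊤ := by
    refine ne_top_of_le_ne_top ?_ (ENNReal.tsum_le_tsum hbd)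
    rw [ENNReal.tsum_add]
    refine ENNReal.add_ne_top.2 ⟨?_, ?_⟩
    · rw [← ENNReal.ofReal_tsum_of_nonneg (fun j => by positivity) hgeo]
      exact ENNReal.ofReal_ne_top
    · rw [tsum_eq_sum (s := hJ.toFinset) (fun j hj => by rw [if_neg hj])]
      refine ENNReal.sum_ne_top.2 fun j hj => ?_
      rw [if_pos hj]
      exact hBt j
  exact hlt hst

end Pool.Agent.W5h55.SH
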