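import Mathlib
import Pool.Agent.W5h55.SH.C6
import Pool.Agent.W5h55.SH.C7
set_option autoImplicit false

/-! Local suprema in time. -/

open MeasureTheory Set Metric Filter
open scoped ENNReal Topology

namespace Pool.Agent.W5h55.SH

open Pool.Agent.H789R2.FR (E sg sg_finite sg_ae T polar)

variable {n : ℕ}

theorem ek_deriv (n k : ℕ) (t : ℝ) :
    HasDerivAt (ek n k) (-((lam n k : ℝ) : ℂ) * Complex.I * ek n k t) t := by
  unfold ek
  have h1 : HasDerivAt (fun t : ℝ => (((lam n k : ℤ) : ℝ) * t : ℝ)) (((lam n k : ℤ) : ℝ)) t := by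
    simpa using (hasDerivAt_id t).const_mul (((lam n k : ℤ) : ℝ))
  have h2 : HasDerivAt (fun t : ℝ =>
      Complex.exp (-((((lam n k : ℤ) : ℝ) * t : ℝ) : ℂ) * Complex.I))
      (Complex.exp (-((((lam n k : ℤ) : ℝ) * t : ℝ) : ℂ) * Complex.I) *
        (-(((lam n k : ℤ) : ℝ) : ℂ) * Complex.I)) t :=
    ((h1.ofReal_comp).fun_neg.mul_const Complex.I).cexp
  refine h2.congr_deriv ?_
  push_cast
  ring

/-- the finite sums and their time derivatives -/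
noncomputable def fM (P : ℕ → MvPolynomial (Fin n) ℂ) (M : ℕ) (x : E n) (s : ℝ) : ℂ :=
  ∑ k ∈ Finset.range M, T (ev (P k)) x * ek n k s

/-- the time derivative -/
noncomputable def gM (P : ℕ → MvPolynomial (Fin n) ℂ) (M : ℕ) (x : E n) (s : ℝ) : ℂ :=
  ∑ k ∈ Finset.range M, T (ev (P k)) x * (-((lam n k : ℝ) : ℂ) * Complex.I * ek n k s)

theorem fM_deriv (P : ℕ → MvPolynomial (Fin n) ℂ) (M : ℕ) (x : E n) (s : ℝ) :
    HasDerivAt (fM P M x) (gM P M x s) s := by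
  unfold fM gM
  exact HasDerivAt.fun_sum fun k _ => (ek_deriv n k s).const_mul _

theorem gM_cont (P : ℕ → MvPolynomial (Fin n) ℂ) (M : ℕ) (x : E n) : Continuous (gM P M x) := by
  unfold gM
  have := ek_cont n
  fun_prop

theorem gM_meas (P : ℕ → MvPolynomial (Fin n) ℂ) (M : ℕ) :
    Measurable fun q : E n × ℝ => gM P M q.1 q.2 :=
  Finset.measurable_fun_sum _ fun k _ => ((T_cont_meas (P k)).comp measurable_fst).mul
    (((ek_cont n k).measurable.comp measurable_snd).const_mul _)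

theorem fM_meas (P : ℕ → MvPolynomial (Fin n) ℂ) (M : ℕ) :
    Measurable fun q : E n × ℝ => fM P M q.1 q.2 := one_meas P M

theorem sq_le_two_pow (k : ℕ) : k ^ 2 ≤ 2 * 2 ^ k := by
  induction k with
  | zero => norm_num
  | succ k ih =>
    rcases lt_or_ge k 3 with h | h
    · interval_cases k <;> norm_num
    · have : (k + 1) ^ 2 ≤ 2 * k ^ 2 := by nlinarith
      calc (k + 1) ^ 2 ≤ 2 * k ^ 2 := this
        _ ≤ 2 * (2 * 2 ^ k) := by omega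
        _ = _ := by ring

theorem Wt_lam (n : ℕ) (R : ℝ) (hR : 1 ≤ R) :
    Wt R (32 * (32 + n)) (fun k => (lam n k : ℝ) / R ^ 2) := by
  have hR0 : 0 < R := by linarith
  have hn0 : (0 : ℝ) ≤ n := Nat.cast_nonneg n
  have hlam : ∀ k : ℕ, (lam n k : ℝ) ≤ k * (k + n) := by
    intro k
    have : lam n k ≤ k * (k + n) := Nat.mul_le_mul le_rfl (Nat.sub_le _ _)
    exact_mod_cast this
  refine ⟨fun k => by positivity, fun k hk => ?_, fun k => ?_⟩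
  · rw [div_le_iff₀ (by positivity)]
    refine (hlam k).trans ?_
    have hk0 : (0 : ℝ) ≤ k := Nat.cast_nonneg k
    calc (k : ℝ) * (k + n) ≤ (32 * R) * (32 * R + n * R) := by
          refine mul_le_mul hk ?_ (by positivity) (by positivity)
          nlinarith
      _ = _ := by ring
  · have h1 : (lam n k : ℝ) ≤ (n + 1) * (2 * 2 ^ k) := by
      refine (hlam k).trans ?_
      have h2 : ((k ^ 2 : ℕ) : ℝ) ≤ ((2 * 2 ^ k : ℕ) : ℝ) := by exact_mod_cast sq_le_two_pow k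
      push_cast at h2
      rcases Nat.eq_zero_or_pos k with h0 | h0
      · subst h0
        simp
        positivity
      · have hk1 : (1 : ℝ) ≤ k := by exact_mod_cast h0
        calc (k : ℝ) * (k + n) ≤ (n + 1) * k ^ 2 := by nlinarith [mul_nonneg hn0 (by linarith : (0:ℝ) ≤ k - 1)]
          _ ≤ _ := by gcongr
    have h3 : (lam n k : ℝ) / R ^ 2 ≤ lam n k := by
      apply div_le_self (by positivity)
      exact one_le_pow₀ hR
    calc (lam n k : ℝ) / R ^ 2 * (1 / 4) ^ k ≤ ((n + 1) * (2 * 2 ^ k)) * (1 / 4) ^ k := by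
          gcongr
          exact h3.trans h1
      _ = (2 * (n + 1)) * (1 / 2) ^ k := by
          have : (2 : ℝ) ^ k * (1 / 4) ^ k = (1 / 2) ^ k := by
            rw [← mul_pow]
            norm_num
          calc ((n : ℝ) + 1) * (2 * 2 ^ k) * (1 / 4) ^ k = 2 * (n + 1) * (2 ^ k * (1 / 4) ^ k) := by
                ring
            _ = _ := by rw [this]
      _ ≤ _ := by
          refine mul_le_mul_of_nonneg_right ?_ (by positivity)
          linarith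

/-- the bound of the local supremum in time on a shell -/
noncomputable def bM (p : ℝ) (P : ℕ → MvPolynomial (Fin n) ℂ) (M j i : ℕ) : ℝ≥0∞ :=
  ∫⁻ x in {x : E n | ‖x‖ ∈ Ioc ((2 : ℝ) ^ j) (2 * 2 ^ j)}, 2 ^ (p - 1) *
    (ENNReal.ofReal ((2 * Real.pi / 4 ^ j)⁻¹) *
        (∫⁻ t in Ioc (2 * Real.pi * i / 4 ^ j) (2 * Real.pi * (i + 1) / 4 ^ j),
          ‖fM P M x t‖ₑ ^ p) +
      ENNReal.ofReal ((2 * Real.pi / 4 ^ j) ^ (p - 1)) *
        ∫⁻ t in Ioc (2 * Real.pi * i / 4 ^ j) (2 * Real.pi * (i + 1) / 4 ^ j), ‖gM P M x t‖ₑ ^ p)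

theorem shell_sup (p : ℝ) (hp : 1 ≤ p) (P : ℕ → MvPolynomial (Fin n) ℂ) (M j i : ℕ) (s : ℝ)
    (hs : s ∈ Iv j i) :
    ∫⁻ x in {x : E n | ‖x‖ ∈ Ioc ((2 : ℝ) ^ j) (2 * 2 ^ j)}, ‖fM P M x s‖ₑ ^ p ≤ bM p P M j i := by
  unfold bM
  refine lintegral_mono fun x => ?_
  have hpi := Real.pi_pos
  have h4 : (0 : ℝ) < 4 ^ j := by positivity
  have h1 := sob (fM P M x) (gM P M x) (fM_deriv P M x) (gM_cont P M x)
    (2 * Real.pi * i / 4 ^ j) (2 * Real.pi * (i + 1) / 4 ^ j) (by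
      rw [div_lt_div_iff_of_pos_right h4]
      nlinarith) p hp s hs
  have h2 : 2 * Real.pi * (i + 1) / 4 ^ j - 2 * Real.pi * i / 4 ^ j = 2 * Real.pi / 4 ^ j := by
    ring
  rw [h2] at h1
  exact h1

theorem Ioc_sum (F : ℝ → ℝ≥0∞) (c : ℝ) (hc : 0 ≤ c) (m : ℕ) :
    ∑ i ∈ Finset.range m, ∫⁻ t in Ioc (c * i) (c * (i + 1)), F t = ∫⁻ t in Ioc 0 (c * m), F t := by
  induction m with
  | zero => simp
  | succ m ih =>
    rw [Finset.sum_range_succ, ih]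
    have h1 : Ioc (0 : ℝ) (c * ((m + 1 : ℕ) : ℝ)) = Ioc 0 (c * m) ∪ Ioc (c * m) (c * (m + 1)) := by
      rw [Ioc_union_Ioc_eq_Ioc (by positivity) (by nlinarith)]
      push_cast
      rfl
    rw [h1, lintegral_union measurableSet_Ioc]
    rw [Set.disjoint_left]
    intro y hy hy'
    exact absurd hy.2 (not_le.2 hy'.1)

/-- **the sum of the local suprema** -/
theorem bM_sum (n : ℕ) (hn : 3 ≤ n) (p : ℝ) (hp2 : 2 < p) (hp4 : p ≤ 4) (ε : ℝ) (hε : 0 < ε) :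
    ∃ C : ℝ, 0 < C ∧ ∀ (M : ℕ) (P : ℕ → MvPolynomial (Fin n) ℂ), (∀ i, (P i).IsHomogeneous i) →
    (∀ i, Harm (P i)) → ∀ j : ℕ, ∑ i ∈ Finset.range (4 ^ j), bM p P M j i ≤
      ENNReal.ofReal (C * 2 ^ ((2 + (-((p * (n - 1) - 2 * n) / 2) + ε)) * (j : ℝ))) *
        ∫⁻ v, (∑ k ∈ Finset.range M, ‖ev (P k) v‖ₑ ^ (2 : ℝ)) ^ (p / 2) ∂(sg n) := by
  have hpi := Real.pi_pos
  obtain ⟨C1, hC1, h1⟩ := shell_avg n hn p hp2 hp4 ε hε 1 zero_le_one
  obtain ⟨C2, hC2, h2⟩ := shell_avg n hn p hp2 hp4 ε hε (32 * (32 + n)) (by positivity)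
  obtain ⟨e, he⟩ : ∃ e : ℝ, e = -((p * (n - 1) - 2 * n) / 2) + ε := ⟨_, rfl⟩
  rw [← he] at h1 h2 ⊢
  refine ⟨2 ^ (p - 1) * ((2 * Real.pi)⁻¹ * C1 + (2 * Real.pi) ^ (p - 1) * C2), by positivity,
    fun M P hP hh j => ?_⟩
  obtain ⟨W, hW⟩ : ∃ W : ℝ≥0∞,
    W = ∫⁻ v, (∑ k ∈ Finset.range M, ‖ev (P k) v‖ₑ ^ (2 : ℝ)) ^ (p / 2) ∂(sg n) := ⟨_, rfl⟩
  have hR1 : (1 : ℝ) ≤ 2 ^ j := one_le_pow₀ (by norm_num)
  have hR0 : (0 : ℝ) < 2 ^ j := by positivity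
  have h4 : (0 : ℝ) < 4 ^ j := by positivity
  obtain ⟨Sh, hSh⟩ : ∃ Sh : Set (E n), Sh = {x : E n | ‖x‖ ∈ Ioc ((2 : ℝ) ^ j) (2 * 2 ^ j)} :=
    ⟨_, rfl⟩
  have a1 : ∫⁻ x in Sh, ∫⁻ s in Ioc (0 : ℝ) (2 * Real.pi), ‖fM P M x s‖ₑ ^ p ≤
      ENNReal.ofReal (C1 * (2 ^ j) ^ e) * W := by
    have := h1 ((2 : ℝ) ^ j) hR1 _ (Wt_one _) M P hP hh
    rw [hSh, hW]
    simpa only [Complex.ofReal_one, one_mul, fM] using this
  have a2 : ∫⁻ x in Sh, ∫⁻ s in Ioc (0 : ℝ) (2 * Real.pi), ‖gM P M x s‖ₑ ^ p ≤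
      ENNReal.ofReal (((2 : ℝ) ^ j) ^ (2 * p)) * (ENNReal.ofReal (C2 * (2 ^ j) ^ e) * W) := by
    have h3 := h2 ((2 : ℝ) ^ j) hR1 _ (Wt_lam n _ hR1) M P hP hh
    rw [← hSh, ← hW] at h3
    have h5 : ∀ x : E n, ∀ s : ℝ, ‖gM P M x s‖ₑ ^ p = ENNReal.ofReal (((2 : ℝ) ^ j) ^ (2 * p)) *
        ‖∑ k ∈ Finset.range M, ((((lam n k : ℝ) / ((2 : ℝ) ^ j) ^ 2 : ℝ) : ℂ) * T (ev (P k)) x) *
          ek n k s‖ₑ ^ p := by
      intro x s
      have h6 : gM P M x s = -Complex.I * (((((2 : ℝ) ^ j) ^ 2 : ℝ) : ℂ) *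
          ∑ k ∈ Finset.range M, ((((lam n k : ℝ) / ((2 : ℝ) ^ j) ^ 2 : ℝ) : ℂ) * T (ev (P k)) x) *
          ek n k s) := by
        unfold gM
        rw [Finset.mul_sum, Finset.mul_sum]
        refine Finset.sum_congr rfl fun k _ => ?_
        have hne : (((((2 : ℝ) ^ j) ^ 2 : ℝ)) : ℂ) ≠ 0 := by
          exact_mod_cast (by positivity : (((2 : ℝ) ^ j) ^ 2) ≠ 0)
        rw [Complex.ofReal_div]
        field_simp
      rw [h6, enorm_mul, enorm_mul]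
      have h7 : ‖-Complex.I‖ₑ = 1 := by
        rw [← ofReal_norm, norm_neg, Complex.norm_I, ENNReal.ofReal_one]
      have h8 : ‖((((2 : ℝ) ^ j) ^ 2 : ℝ) : ℂ)‖ₑ = ENNReal.ofReal (((2 : ℝ) ^ j) ^ 2) := by
        rw [← ofReal_norm, Complex.norm_real, Real.norm_of_nonneg (by positivity)]
      rw [h7, one_mul, h8, ENNReal.mul_rpow_of_nonneg _ _ (by linarith),
        ENNReal.ofReal_rpow_of_nonneg (by positivity) (by linarith)]
      congr 2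
      rw [← Real.rpow_natCast ((2 : ℝ) ^ j) 2, ← Real.rpow_mul hR0.le]
      norm_num
    simp_rw [h5]
    have hm : ∀ x : E n, Measurable fun s : ℝ => ‖∑ k ∈ Finset.range M,
        ((((lam n k : ℝ) / ((2 : ℝ) ^ j) ^ 2 : ℝ) : ℂ) * T (ev (P k)) x) * ek n k s‖ₑ ^ p := by
      intro x
      have := ek_cont n
      exact (by fun_prop : Continuous fun s : ℝ => ∑ k ∈ Finset.range M,
        ((((lam n k : ℝ) / ((2 : ℝ) ^ j) ^ 2 : ℝ) : ℂ) * T (ev (P k)) x) * ek n k s).measurable.enorm.pow_const _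
    calc _ = ∫⁻ x in Sh, ENNReal.ofReal (((2 : ℝ) ^ j) ^ (2 * p)) *
          ∫⁻ s in Ioc (0 : ℝ) (2 * Real.pi), ‖∑ k ∈ Finset.range M,
        ((((lam n k : ℝ) / ((2 : ℝ) ^ j) ^ 2 : ℝ) : ℂ) * T (ev (P k)) x) * ek n k s‖ₑ ^ p := by
          refine lintegral_congr fun x => ?_
          rw [lintegral_const_mul _ (hm x)]
      _ = ENNReal.ofReal (((2 : ℝ) ^ j) ^ (2 * p)) * ∫⁻ x in Sh,
          ∫⁻ s in Ioc (0 : ℝ) (2 * Real.pi), ‖∑ k ∈ Finset.range M,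
        ((((lam n k : ℝ) / ((2 : ℝ) ^ j) ^ 2 : ℝ) : ℂ) * T (ev (P k)) x) * ek n k s‖ₑ ^ p :=
          lintegral_const_mul' _ _ ENNReal.ofReal_ne_top
      _ ≤ _ := mul_le_mul' le_rfl h3
  have hmf : Measurable fun x : E n => ∫⁻ t in Ioc (0 : ℝ) (2 * Real.pi), ‖fM P M x t‖ₑ ^ p :=
    ((fM_meas P M).enorm.pow_const p).lintegral_prod_right'
  have hmf' : ∀ a b : ℝ, Measurable fun x : E n => ∫⁻ t in Ioc a b, ‖fM P M x t‖ₑ ^ p :=
    fun a b => ((fM_meas P M).enorm.pow_const p).lintegral_prod_right'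
  have hmg' : ∀ a b : ℝ, Measurable fun x : E n => ∫⁻ t in Ioc a b, ‖gM P M x t‖ₑ ^ p :=
    fun a b => ((gM_meas P M).enorm.pow_const p).lintegral_prod_right'
  have h2t : (2 : ℝ≥0∞) ^ (p - 1) ≠ ⊤ := ENNReal.rpow_ne_top_of_nonneg (by linarith) (by norm_num)
  have h2e : (2 : ℝ≥0∞) ^ (p - 1) = ENNReal.ofReal (2 ^ (p - 1)) := by
    rw [← ENNReal.ofReal_rpow_of_nonneg (by norm_num) (by linarith), ENNReal.ofReal_ofNat]
  have hint : ∀ F : ℝ → ℝ≥0∞, ∑ i ∈ Finset.range (4 ^ j),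
      ∫⁻ t in Ioc (2 * Real.pi * i / 4 ^ j) (2 * Real.pi * (i + 1) / 4 ^ j), F t =
      ∫⁻ t in Ioc (0 : ℝ) (2 * Real.pi), F t := by
    intro F
    have h5 := Ioc_sum F (2 * Real.pi / 4 ^ j) (by positivity) (4 ^ j)
    have h6 : (2 * Real.pi / 4 ^ j) * ((4 ^ j : ℕ) : ℝ) = 2 * Real.pi := by
      push_cast
      field_simp
    rw [h6] at h5
    rw [← h5]
    refine Finset.sum_congr rfl fun i _ => ?_
    rw [show 2 * Real.pi * (i : ℝ) / 4 ^ j = 2 * Real.pi / 4 ^ j * i by ring,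
      show 2 * Real.pi * ((i : ℝ) + 1) / 4 ^ j = 2 * Real.pi / 4 ^ j * (i + 1) by ring]
  calc ∑ i ∈ Finset.range (4 ^ j), bM p P M j i
      = ∫⁻ x in Sh, ∑ i ∈ Finset.range (4 ^ j), 2 ^ (p - 1) *
    (ENNReal.ofReal ((2 * Real.pi / 4 ^ j)⁻¹) *
        (∫⁻ t in Ioc (2 * Real.pi * i / 4 ^ j) (2 * Real.pi * (i + 1) / 4 ^ j),
          ‖fM P M x t‖ₑ ^ p) +
      ENNReal.ofReal ((2 * Real.pi / 4 ^ j) ^ (p - 1)) *
        ∫⁻ t in Ioc (2 * Real.pi * i / 4 ^ j) (2 * Real.pi * (i + 1) / 4 ^ j),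
          ‖gM P M x t‖ₑ ^ p) := by
        rw [lintegral_finsetSum]
        · refine Finset.sum_congr rfl fun i _ => ?_
          rw [hSh]
          rfl
        · exact fun i _ => (((hmf' _ _).const_mul _).add ((hmg' _ _).const_mul _)).const_mul _
    _ = ∫⁻ x in Sh, 2 ^ (p - 1) * (ENNReal.ofReal ((2 * Real.pi / 4 ^ j)⁻¹) *
        (∫⁻ t in Ioc (0 : ℝ) (2 * Real.pi), ‖fM P M x t‖ₑ ^ p) +
      ENNReal.ofReal ((2 * Real.pi / 4 ^ j) ^ (p - 1)) *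
        ∫⁻ t in Ioc (0 : ℝ) (2 * Real.pi), ‖gM P M x t‖ₑ ^ p) := by
        refine lintegral_congr fun x => ?_
        rw [← Finset.mul_sum, Finset.sum_add_distrib, ← Finset.mul_sum, ← Finset.mul_sum, hint, hint]
    _ = 2 ^ (p - 1) * (ENNReal.ofReal ((2 * Real.pi / 4 ^ j)⁻¹) *
        (∫⁻ x in Sh, ∫⁻ t in Ioc (0 : ℝ) (2 * Real.pi), ‖fM P M x t‖ₑ ^ p) +
      ENNReal.ofReal ((2 * Real.pi / 4 ^ j) ^ (p - 1)) *
        ∫⁻ x in Sh, ∫⁻ t in Ioc (0 : ℝ) (2 * Real.pi), ‖gM P M x t‖ₑ ^ p) := by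
        rw [lintegral_const_mul' _ _ h2t, lintegral_add_left ((hmf' _ _).const_mul _),
          lintegral_const_mul' _ _ ENNReal.ofReal_ne_top,
          lintegral_const_mul' _ _ ENNReal.ofReal_ne_top]
    _ ≤ 2 ^ (p - 1) * (ENNReal.ofReal ((2 * Real.pi / 4 ^ j)⁻¹) *
        (ENNReal.ofReal (C1 * (2 ^ j) ^ e) * W) +
      ENNReal.ofReal ((2 * Real.pi / 4 ^ j) ^ (p - 1)) *
        (ENNReal.ofReal (((2 : ℝ) ^ j) ^ (2 * p)) * (ENNReal.ofReal (C2 * (2 ^ j) ^ e) * W))) :=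
        mul_le_mul' le_rfl (add_le_add (mul_le_mul' le_rfl a1) (mul_le_mul' le_rfl a2))
    _ = ENNReal.ofReal (2 ^ (p - 1) * ((2 * Real.pi / 4 ^ j)⁻¹ * (C1 * (2 ^ j) ^ e) +
        (2 * Real.pi / 4 ^ j) ^ (p - 1) * (((2 : ℝ) ^ j) ^ (2 * p) * (C2 * (2 ^ j) ^ e)))) * W := by
        rw [h2e, ENNReal.ofReal_mul (p := 2 ^ (p - 1)) (by positivity),
          ENNReal.ofReal_add (by positivity) (by positivity),
          ENNReal.ofReal_mul (p := (2 * Real.pi / 4 ^ j)⁻¹) (by positivity),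
          ENNReal.ofReal_mul (p := (2 * Real.pi / 4 ^ j) ^ (p - 1)) (by positivity),
          ENNReal.ofReal_mul (p := ((2 : ℝ) ^ j) ^ (2 * p)) (by positivity)]
        ring
    _ = _ := by
        rw [← hW]
        congr 2
        have e1 : (4 : ℝ) ^ j = ((2 : ℝ) ^ j) ^ (2 : ℝ) := by
          rw [show (4 : ℝ) = 2 ^ 2 by norm_num, ← pow_mul, mul_comm 2 j, pow_mul,
            ← Real.rpow_natCast ((2 : ℝ) ^ j) 2]
          norm_num
        have e2 : (2 : ℝ) ^ ((2 + e) * (j : ℝ)) = ((2 : ℝ) ^ j) ^ (2 : ℝ) * ((2 : ℝ) ^ j) ^ e := by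
          rw [← Real.rpow_add hR0, ← Real.rpow_natCast 2 j, ← Real.rpow_mul (by norm_num)]
          congr 1
          ring
        have e3 : (2 * Real.pi / 4 ^ j) ^ (p - 1) * ((2 : ℝ) ^ j) ^ (2 * p) =
            (2 * Real.pi) ^ (p - 1) * ((2 : ℝ) ^ j) ^ (2 : ℝ) := by
          rw [Real.div_rpow (by positivity) (by positivity), e1, ← Real.rpow_mul hR0.le,
            div_mul_eq_mul_div, div_eq_iff (by positivity), mul_assoc, ← Real.rpow_add hR0]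
          congr 2
          ring
        rw [e2]
        calc 2 ^ (p - 1) * ((2 * Real.pi / 4 ^ j)⁻¹ * (C1 * (2 ^ j) ^ e) +
              (2 * Real.pi / 4 ^ j) ^ (p - 1) * (((2 : ℝ) ^ j) ^ (2 * p) * (C2 * (2 ^ j) ^ e)))
            = 2 ^ (p - 1) * ((2 * Real.pi / 4 ^ j)⁻¹ * (C1 * (2 ^ j) ^ e) +
              ((2 * Real.pi / 4 ^ j) ^ (p - 1) * ((2 : ℝ) ^ j) ^ (2 * p)) * (C2 * (2 ^ j) ^ e)) := by
              ring
          _ = _ := by
              rw [e3, inv_div, e1]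
              field_simp

end Pool.Agent.W5h55.SH
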