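import Mathlib
import Pool.Agent.W5h55.SH.C8
import Pool.Agent.W5h55.SH.B6
set_option autoImplicit false

/-! The Schroedinger flow on the sphere: the square function is dominated by the solution. -/

open MeasureTheory Set Metric Filter
open scoped ENNReal Topology RealInnerProductSpace

namespace Pool.Agent.W5h55.SH

open Pool.Agent.H789R2.FR (E sg sg_finite sg_ae T polar)

variable {n : ℕ}

/-- the partial sums of the solution -/
noncomputable def SM (P : ℕ → MvPolynomial (Fin n) ℂ) (M : ℕ) (s : ℝ) (x : sphere (0 : E n) 1) :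
    ℂ := ∑ k ∈ Finset.range M, ek n k s * ev (P k) (x : E n)

/-- `u` is the solution with initial value `∑ Y_k` -/
structure Fl (P : ℕ → MvPolynomial (Fin n) ℂ) (u : ℝ → sphere (0 : E n) 1 → ℂ) : Prop where
  hom : ∀ k, (P k).IsHomogeneous k
  harm : ∀ k, Harm (P k)
  meas : Measurable (Function.uncurry u)
  sum : ∑' k, ∫⁻ x, ‖ev (P k) (x : E n)‖ₑ ^ (2 : ℝ) ∂(sig n) ≠ ⊤
  lim : ∀ s, Tendsto (fun M => eLpNorm (fun x => u s x - SM P M s x) 2 (sig n)) atTop (𝓝 0)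

theorem l2_sq {α : Type*} [MeasurableSpace α] (μ : Measure α) (f : α → ℂ) :
    ∫⁻ x, ‖f x‖ₑ ^ (2 : ℝ) ∂μ = eLpNorm f 2 μ ^ (2 : ℝ) := by
  rw [eLpNorm_eq_lintegral_rpow_enorm_toReal (by norm_num) (by norm_num)]
  simp only [ENNReal.toReal_ofNat]
  rw [← ENNReal.rpow_mul]
  norm_num

theorem ek_l2' (hn : 3 ≤ n) (a : ℕ → ℂ) (F : Finset ℕ) :
    ∫⁻ t in Ioc (0 : ℝ) (2 * Real.pi), ‖∑ k ∈ F, ek n k t * a k‖ₑ ^ (2 : ℝ) =
      ENNReal.ofReal (2 * Real.pi) * ∑ k ∈ F, ‖a k‖ₑ ^ (2 : ℝ) := by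
  have hpi := Real.pi_pos
  have hc : Continuous fun t => ∑ k ∈ F, a k * ek n k t := by
    have := ek_cont n
    fun_prop
  have h6 : ∫⁻ t in Ioc (0 : ℝ) (2 * Real.pi), ‖∑ k ∈ F, ek n k t * a k‖ₑ ^ (2 : ℝ) =
      ∫⁻ t in Ioc (0 : ℝ) (2 * Real.pi), ENNReal.ofReal (‖∑ k ∈ F, a k * ek n k t‖ ^ 2) := by
    refine lintegral_congr fun t => ?_
    rw [← ofReal_norm, ENNReal.ofReal_rpow_of_nonneg (norm_nonneg _) (by norm_num)]
    congr 1
    rw [show (2 : ℝ) = ((2 : ℕ) : ℝ) by norm_num, Real.rpow_natCast]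
    simp_rw [mul_comm (a _)]
  rw [h6, ← ofReal_integral_eq_lintegral_ofReal, ← intervalIntegral.integral_of_le (by positivity),
    ek_l2 hn, ENNReal.ofReal_mul (by positivity), ENNReal.ofReal_sum_of_nonneg fun i _ => by positivity]
  · congr 1
    refine Finset.sum_congr rfl fun i _ => ?_
    rw [← ofReal_norm, ENNReal.ofReal_rpow_of_nonneg (norm_nonneg _) (by norm_num)]
    congr 1
    rw [show (2 : ℝ) = ((2 : ℕ) : ℝ) by norm_num, Real.rpow_natCast]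
  · exact ((hc.norm.pow 2).integrableOn_Icc).mono_set Ioc_subset_Icc_self
  · exact Filter.Eventually.of_forall fun t => by positivity

theorem SM_meas (P : ℕ → MvPolynomial (Fin n) ℂ) (M : ℕ) :
    Measurable fun q : ℝ × sphere (0 : E n) 1 => SM P M q.1 q.2 :=
  Finset.measurable_fun_sum _ fun k _ => ((ek_cont n k).measurable.comp measurable_fst).mul
    ((ev_cont (P k)).measurable.comp (measurable_subtype_coe.comp measurable_snd))

theorem SM_diff (P : ℕ → MvPolynomial (Fin n) ℂ) {M M' : ℕ} (h : M ≤ M') (s : ℝ)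
    (x : sphere (0 : E n) 1) :
    SM P M' s x - SM P M s x = ∑ k ∈ Finset.Ico M M', ek n k s * ev (P k) (x : E n) := by
  unfold SM
  rw [← Finset.sum_range_add_sum_Ico _ h, add_sub_cancel_left]

variable {P : ℕ → MvPolynomial (Fin n) ℂ} {u : ℝ → sphere (0 : E n) 1 → ℂ}

theorem Fl.slice (h : Fl P u) (s : ℝ) : Measurable (u s) :=
  h.meas.comp (measurable_const.prodMk measurable_id)

theorem SM_slice (P : ℕ → MvPolynomial (Fin n) ℂ) (M : ℕ) (s : ℝ) : Measurable (SM P M s) := by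
  unfold SM
  exact Finset.measurable_fun_sum _ fun k _ => ((ev_cont (P k)).measurable.comp
    measurable_subtype_coe).const_mul _

theorem SM_time (P : ℕ → MvPolynomial (Fin n) ℂ) (M : ℕ) (x : sphere (0 : E n) 1) :
    Measurable fun s => SM P M s x := by
  unfold SM
  exact Finset.measurable_fun_sum _ fun k _ => (ek_cont n k).measurable.mul_const _

theorem Fl.fatou (h : Fl P u) (M : ℕ) (s : ℝ) :
    ∫⁻ x, ‖u s x - SM P M s x‖ₑ ^ (2 : ℝ) ∂(sig n) ≤
      liminf (fun M' => ∫⁻ x, ‖SM P M' s x - SM P M s x‖ₑ ^ (2 : ℝ) ∂(sig n)) atTop := by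
  simp_rw [l2_sq]
  obtain ⟨A, hA⟩ : ∃ A, A = eLpNorm (fun x => u s x - SM P M s x) 2 (sig n) := ⟨_, rfl⟩
  obtain ⟨c, hc⟩ : ∃ c : ℕ → ℝ≥0∞, c = fun M' => eLpNorm (fun x => u s x - SM P M' s x) 2 (sig n) :=
    ⟨_, rfl⟩
  have hlim : Tendsto c atTop (𝓝 0) := by
    rw [hc]
    exact h.lim s
  rw [← hA]
  have h1 : ∀ M', (A - c M') ^ (2 : ℝ) ≤
      eLpNorm (fun x => SM P M' s x - SM P M s x) 2 (sig n) ^ (2 : ℝ) := by
    intro M'
    refine ENNReal.rpow_le_rpow ?_ (by norm_num)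
    rw [tsub_le_iff_right, hA, hc]
    have h2 : (fun x => u s x - SM P M s x) =
        (fun x => SM P M' s x - SM P M s x) + fun x => u s x - SM P M' s x := by
      funext x
      simp only [Pi.add_apply]
      ring
    rw [h2]
    exact eLpNorm_add_le ((SM_slice P M' s).sub (SM_slice P M s)).aestronglyMeasurable
      ((h.slice s).sub (SM_slice P M' s)).aestronglyMeasurable (by norm_num)
  have h3 : Tendsto (fun M' => (A - c M') ^ (2 : ℝ)) atTop (𝓝 (A ^ (2 : ℝ))) := by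
    have h4 : Tendsto (fun M' => A - c M') atTop (𝓝 (A - 0)) :=
      ENNReal.Tendsto.sub tendsto_const_nhds hlim (Or.inr (by norm_num))
    rw [tsub_zero] at h4
    exact (ENNReal.continuous_rpow_const.tendsto _).comp h4
  rw [← h3.liminf_eq]
  exact liminf_le_liminf (Eventually.of_forall h1)

theorem Fl.tail (hn : 3 ≤ n) (h : Fl P u) (M : ℕ) :
    ∫⁻ s in Ioc (0 : ℝ) (2 * Real.pi), ∫⁻ x, ‖u s x - SM P M s x‖ₑ ^ (2 : ℝ) ∂(sig n) ≤
      ENNReal.ofReal (2 * Real.pi) *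
        ∑' k, ∫⁻ x, ‖ev (P (k + M)) (x : E n)‖ₑ ^ (2 : ℝ) ∂(sig n) := by
  have hfin := sig_finite n
  have hm : ∀ M', Measurable fun q : ℝ × sphere (0 : E n) 1 =>
      ‖SM P M' q.1 q.2 - SM P M q.1 q.2‖ₑ ^ (2 : ℝ) := fun M' =>
    ((SM_meas P M').sub (SM_meas P M)).enorm.pow_const _
  calc ∫⁻ s in Ioc (0 : ℝ) (2 * Real.pi), ∫⁻ x, ‖u s x - SM P M s x‖ₑ ^ (2 : ℝ) ∂(sig n)
      ≤ ∫⁻ s in Ioc (0 : ℝ) (2 * Real.pi),
        liminf (fun M' => ∫⁻ x, ‖SM P M' s x - SM P M s x‖ₑ ^ (2 : ℝ) ∂(sig n)) atTop :=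
        lintegral_mono fun s => h.fatou M s
    _ ≤ liminf (fun M' => ∫⁻ s in Ioc (0 : ℝ) (2 * Real.pi),
          ∫⁻ x, ‖SM P M' s x - SM P M s x‖ₑ ^ (2 : ℝ) ∂(sig n)) atTop :=
        lintegral_liminf_le fun M' => (hm M').lintegral_prod_right'
    _ ≤ liminf (fun _ : ℕ => ENNReal.ofReal (2 * Real.pi) *
        ∑' k, ∫⁻ x, ‖ev (P (k + M)) (x : E n)‖ₑ ^ (2 : ℝ) ∂(sig n)) atTop := by
        refine liminf_le_liminf ?_
        filter_upwards [eventually_ge_atTop M] with M' hM'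
        rw [lintegral_lintegral_swap (hm M').aemeasurable]
        calc ∫⁻ x, (∫⁻ s in Ioc (0 : ℝ) (2 * Real.pi),
              ‖SM P M' s x - SM P M s x‖ₑ ^ (2 : ℝ)) ∂(sig n)
            = ∫⁻ x, ENNReal.ofReal (2 * Real.pi) *
                ∑ k ∈ Finset.Ico M M', ‖ev (P k) (x : E n)‖ₑ ^ (2 : ℝ) ∂(sig n) := by
              refine lintegral_congr fun x => ?_
              simp_rw [SM_diff P hM']
              exact ek_l2' hn (fun k => ev (P k) (x : E n)) _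
          _ = ENNReal.ofReal (2 * Real.pi) *
                ∑ k ∈ Finset.Ico M M', ∫⁻ x, ‖ev (P k) (x : E n)‖ₑ ^ (2 : ℝ) ∂(sig n) := by
              rw [lintegral_const_mul' _ _ ENNReal.ofReal_ne_top, lintegral_finsetSum]
              exact fun k _ => ((ev_cont (P k)).comp
                continuous_subtype_val).measurable.enorm.pow_const _
          _ ≤ _ := by
              refine mul_le_mul' le_rfl ?_
              rw [Finset.sum_Ico_eq_sum_range]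
              refine le_trans (le_of_eq ?_) (ENNReal.sum_le_tsum (Finset.range (M' - M)))
              refine Finset.sum_congr rfl fun k _ => ?_
              rw [add_comm]
    _ = _ := liminf_const _

theorem Fl.tail_zero (hn : 3 ≤ n) (h : Fl P u) :
    Tendsto (fun M => ∫⁻ s in Ioc (0 : ℝ) (2 * Real.pi),
      ∫⁻ x, ‖u s x - SM P M s x‖ₑ ^ (2 : ℝ) ∂(sig n)) atTop (𝓝 0) := by
  have h1 : Tendsto (fun M => ∑' k, ∫⁻ x, ‖ev (P (k + M)) (x : E n)‖ₑ ^ (2 : ℝ) ∂(sig n))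
      atTop (𝓝 0) := ENNReal.tendsto_sum_nat_add
    (fun k => ∫⁻ x, ‖ev (P k) (x : E n)‖ₑ ^ (2 : ℝ) ∂(sig n)) h.sum
  have h2 := ENNReal.Tendsto.const_mul (a := ENNReal.ofReal (2 * Real.pi)) h1
    (Or.inr ENNReal.ofReal_ne_top)
  rw [mul_zero] at h2
  exact tendsto_of_tendsto_of_tendsto_of_le_of_le tendsto_const_nhds h2 (fun _ => bot_le)
    fun M => h.tail hn M

/-- the square function -/
theorem Fl.bessel (hn : 3 ≤ n) (h : Fl P u) : ∀ᵐ (x : sphere (0 : E n) 1) ∂(sig n), ∀ M : ℕ,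
    ENNReal.ofReal (2 * Real.pi) * ∑ k ∈ Finset.range M, ‖ev (P k) (x : E n)‖ₑ ^ (2 : ℝ) ≤
      ∫⁻ s in Ioc (0 : ℝ) (2 * Real.pi), ‖u s x‖ₑ ^ (2 : ℝ) := by
  have hfin := sig_finite n
  have hm : ∀ M', Measurable fun q : ℝ × sphere (0 : E n) 1 =>
      ‖u q.1 q.2 - SM P M' q.1 q.2‖ₑ ^ (2 : ℝ) := fun M' =>
    (h.meas.sub (SM_meas P M')).enorm.pow_const _
  have hm' : ∀ M', Measurable fun x : sphere (0 : E n) 1 =>
      ∫⁻ s in Ioc (0 : ℝ) (2 * Real.pi), ‖u s x - SM P M' s x‖ₑ ^ (2 : ℝ) := fun M' =>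
    ((hm M').comp measurable_swap).lintegral_prod_right'
  have h1 : ∫⁻ x, (liminf (fun M' => ∫⁻ s in Ioc (0 : ℝ) (2 * Real.pi),
      ‖u s x - SM P M' s x‖ₑ ^ (2 : ℝ)) atTop) ∂(sig n) = 0 := by
    refine le_antisymm ?_ bot_le
    refine (lintegral_liminf_le hm').trans ?_
    have h2 := h.tail_zero hn
    have h3 : ∀ M', ∫⁻ x, (∫⁻ s in Ioc (0 : ℝ) (2 * Real.pi),
        ‖u s x - SM P M' s x‖ₑ ^ (2 : ℝ)) ∂(sig n) = ∫⁻ s in Ioc (0 : ℝ) (2 * Real.pi),
        ∫⁻ x, ‖u s x - SM P M' s x‖ₑ ^ (2 : ℝ) ∂(sig n) := fun M' =>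
      (lintegral_lintegral_swap (hm M').aemeasurable).symm
    simp_rw [h3]
    exact le_of_eq h2.liminf_eq
  rw [lintegral_eq_zero_iff (Measurable.liminf hm')] at h1
  filter_upwards [h1] with x hx M
  simp only [Pi.zero_apply] at hx
  have hus : Measurable fun s => u s x := h.meas.comp (measurable_id.prodMk measurable_const)
  have hSs : ∀ M', Measurable fun s => SM P M' s x := fun M' => SM_time P M' x
  obtain ⟨ν, hν⟩ : ∃ ν, ν = volume.restrict (Ioc (0 : ℝ) (2 * Real.pi)) := ⟨_, rfl⟩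
  have hkey : ∀ ε : ℝ≥0∞, 0 < ε → eLpNorm (fun s => SM P M s x) 2 ν ≤
      eLpNorm (fun s => u s x) 2 ν + ε := by
    intro ε hε
    rcases eq_or_ne ε ⊤ with hεt | hεt
    · rw [hεt, add_top]
      exact le_top
    have h4 : liminf (fun M' => ∫⁻ s in Ioc (0 : ℝ) (2 * Real.pi),
      ‖u s x - SM P M' s x‖ₑ ^ (2 : ℝ)) atTop < ε ^ (2 : ℝ) := by
      rw [hx]
      exact ENNReal.rpow_pos hε hεt
    have h5 := (frequently_lt_of_liminf_lt (by isBoundedDefault) h4).and_eventually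
      (eventually_ge_atTop M)
    obtain ⟨M', h6, h7⟩ := h5.exists
    rw [← hν, l2_sq] at h6
    have h8 : eLpNorm (fun s => u s x - SM P M' s x) 2 ν < ε :=
      (ENNReal.rpow_lt_rpow_iff (by norm_num)).1 h6
    have h9 : eLpNorm (fun s => SM P M s x) 2 ν ≤ eLpNorm (fun s => SM P M' s x) 2 ν := by
      rw [← ENNReal.rpow_le_rpow_iff (by norm_num : (0 : ℝ) < 2), ← l2_sq, ← l2_sq, hν]
      have e1 : ∀ N : ℕ, ∫⁻ s in Ioc (0 : ℝ) (2 * Real.pi), ‖SM P N s x‖ₑ ^ (2 : ℝ) =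
          ENNReal.ofReal (2 * Real.pi) *
            ∑ k ∈ Finset.range N, ‖ev (P k) (x : E n)‖ₑ ^ (2 : ℝ) := fun N =>
        ek_l2' hn (fun k => ev (P k) (x : E n)) _
      rw [e1, e1]
      exact mul_le_mul' le_rfl (Finset.sum_le_sum_of_subset (Finset.range_subset_range.2 h7))
    refine h9.trans ?_
    have h10 : (fun s => SM P M' s x) = (fun s => u s x) - fun s => u s x - SM P M' s x := by
      funext s
      simp only [Pi.sub_apply]
      ring
    rw [h10]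
    refine (eLpNorm_sub_le hus.aestronglyMeasurable (hus.sub (hSs M')).aestronglyMeasurable
      (by norm_num)).trans ?_
    exact add_le_add le_rfl h8.le
  have h11 : eLpNorm (fun s => SM P M s x) 2 ν ≤ eLpNorm (fun s => u s x) 2 ν :=
    ENNReal.le_of_forall_pos_le_add fun ε hε _ => hkey ε (by exact_mod_cast hε)
  have h12 := ENNReal.rpow_le_rpow h11 (by norm_num : (0 : ℝ) ≤ 2)
  rw [← l2_sq, ← l2_sq, hν] at h12
  refine le_trans (le_of_eq ?_) h12
  exact (ek_l2' hn (fun k => ev (P k) (x : E n)) _).symm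

/-- **the `L^p` norm of the square function** -/
theorem Fl.square (hn : 3 ≤ n) (h : Fl P u) (p : ℝ) (hp : 2 ≤ p) (M : ℕ) :
    ∫⁻ x, (∑ k ∈ Finset.range M, ‖ev (P k) (x : E n)‖ₑ ^ (2 : ℝ)) ^ (p / 2) ∂(sig n) ≤
      ENNReal.ofReal ((2 * Real.pi)⁻¹) *
        ∫⁻ s in Ioc (0 : ℝ) (2 * Real.pi), ∫⁻ x, ‖u s x‖ₑ ^ p ∂(sig n) := by
  have hfin := sig_finite n
  have hpi := Real.pi_pos
  have hp0 : 0 < p := by linarith
  have hswap : ∫⁻ s in Ioc (0 : ℝ) (2 * Real.pi), ∫⁻ x, ‖u s x‖ₑ ^ p ∂(sig n) =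
      ∫⁻ x, (∫⁻ s in Ioc (0 : ℝ) (2 * Real.pi), ‖u s x‖ₑ ^ p) ∂(sig n) :=
    lintegral_lintegral_swap (h.meas.enorm.pow_const p).aemeasurable
  rw [hswap, ← lintegral_const_mul' _ _ ENNReal.ofReal_ne_top]
  refine lintegral_mono_ae ?_
  filter_upwards [h.bessel hn] with x hx
  have hus : Measurable fun s => u s x := h.meas.comp (measurable_id.prodMk measurable_const)
  have h1 := hx M
  have h2 : ENNReal.ofReal ((2 * Real.pi)⁻¹) * ENNReal.ofReal (2 * Real.pi) = 1 := by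
    rw [← ENNReal.ofReal_mul (by positivity), inv_mul_cancel₀ (by positivity), ENNReal.ofReal_one]
  have h3 : ∑ k ∈ Finset.range M, ‖ev (P k) (x : E n)‖ₑ ^ (2 : ℝ) ≤
      ENNReal.ofReal ((2 * Real.pi)⁻¹) *
        ∫⁻ s in Ioc (0 : ℝ) (2 * Real.pi), ‖u s x‖ₑ ^ (2 : ℝ) := by
    calc ∑ k ∈ Finset.range M, ‖ev (P k) (x : E n)‖ₑ ^ (2 : ℝ)
        = ENNReal.ofReal ((2 * Real.pi)⁻¹) * (ENNReal.ofReal (2 * Real.pi) *
            ∑ k ∈ Finset.range M, ‖ev (P k) (x : E n)‖ₑ ^ (2 : ℝ)) := by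
          rw [← mul_assoc, h2, one_mul]
      _ ≤ _ := mul_le_mul' le_rfl h1
  have h4 := ENNReal.lintegral_mul_norm_pow_le (μ := volume.restrict (Ioc (0 : ℝ) (2 * Real.pi)))
    (f := fun _ => (1 : ℝ≥0∞)) (g := fun t => ‖u t x‖ₑ ^ p) aemeasurable_const
    (hus.enorm.pow_const p).aemeasurable
    (by rw [sub_nonneg, div_le_one hp0]; exact hp : (0 : ℝ) ≤ 1 - 2 / p)
    (by positivity : (0 : ℝ) ≤ 2 / p) (by ring)
  simp only [ENNReal.one_rpow, one_mul, lintegral_const, Measure.restrict_apply_univ,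
    Real.volume_Ioc, sub_zero] at h4
  have h5 : ∫⁻ s in Ioc (0 : ℝ) (2 * Real.pi), ‖u s x‖ₑ ^ (2 : ℝ) =
      ∫⁻ s in Ioc (0 : ℝ) (2 * Real.pi), (‖u s x‖ₑ ^ p) ^ (2 / p) := by
    refine lintegral_congr fun s => ?_
    rw [← ENNReal.rpow_mul]
    congr 1
    field_simp
  rw [← h5] at h4
  have e1 : (0 : ℝ) ≤ p / 2 - 1 := by linarith
  calc (∑ k ∈ Finset.range M, ‖ev (P k) (x : E n)‖ₑ ^ (2 : ℝ)) ^ (p / 2)
      ≤ (ENNReal.ofReal ((2 * Real.pi)⁻¹) * (ENNReal.ofReal (2 * Real.pi) ^ (1 - 2 / p) *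
        (∫⁻ s in Ioc (0 : ℝ) (2 * Real.pi), ‖u s x‖ₑ ^ p) ^ (2 / p))) ^ (p / 2) :=
        ENNReal.rpow_le_rpow (h3.trans (mul_le_mul' le_rfl h4)) (by positivity)
    _ = _ := by
        rw [ENNReal.mul_rpow_of_nonneg _ _ (by positivity),
          ENNReal.mul_rpow_of_nonneg _ _ (by positivity), ← ENNReal.rpow_mul, ← ENNReal.rpow_mul,
          show 2 / p * (p / 2) = 1 by field_simp, ENNReal.rpow_one,
          show (1 - 2 / p) * (p / 2) = p / 2 - 1 by field_simp,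
          ENNReal.ofReal_rpow_of_nonneg (by positivity) (by positivity),
          ENNReal.ofReal_rpow_of_nonneg (by positivity) e1, ← mul_assoc,
          ← ENNReal.ofReal_mul (by positivity)]
        congr 2
        rw [Real.inv_rpow (by positivity), ← Real.rpow_neg (by positivity),
          ← Real.rpow_add (by positivity), show -(p / 2) + (p / 2 - 1) = -1 by ring,
          Real.rpow_neg_one]

end Pool.Agent.W5h55.SH
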