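import Mathlib
import Pool.Agent.W5h55.SH.C9
set_option autoImplicit false

/-! The restriction conjecture along the Schroedinger flow of the sphere. -/

open MeasureTheory Set Metric Filter
open scoped ENNReal Topology RealInnerProductSpace

namespace Pool.Agent.W5h55.SH

open Pool.Agent.H789R2.FR (E sg sg_finite sg_ae T polar)

variable {n : ℕ} {P : ℕ → MvPolynomial (Fin n) ℂ} {u : ℝ → sphere (0 : E n) 1 → ℂ}

theorem chr_meas1 (ξ : E n) : Measurable (chr ξ) := by
  have h : Continuous (chr ξ) := by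
    unfold chr
    fun_prop
  exact h.measurable

theorem SM_bdd (P : ℕ → MvPolynomial (Fin n) ℂ) (M : ℕ) (s : ℝ) :
    MemLp (SM P M s) ∞ (sig n) := by
  have h1 : ∀ k, ∃ D : ℝ, ∀ x : sphere (0 : E n) 1, ‖ev (P k) (x : E n)‖ ≤ D := by
    intro k
    obtain ⟨D, hD⟩ := evb_bdd (P k)
    refine ⟨D, fun x => ?_⟩
    have h2 := hD (x : E n)
    unfold evb at h2
    rw [if_pos (le_of_eq (by simpa using x.2))] at h2
    exact h2
  choose D hD using h1
  refine memLp_top_of_bound (SM_slice P M s).aestronglyMeasurable (∑ k ∈ Finset.range M, D k)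
    (Eventually.of_forall fun x => ?_)
  unfold SM
  refine (norm_sum_le _ _).trans (Finset.sum_le_sum fun k _ => ?_)
  rw [norm_mul, ek_norm, one_mul]
  exact hD k x

theorem Fl.mem2 (h : Fl P u) (s : ℝ) : MemLp (u s) 2 (sig n) := by
  have hfin := sig_finite n
  have h1 := (ENNReal.tendsto_nhds_zero.1 (h.lim s) 1 one_pos).exists
  obtain ⟨M, hM⟩ := h1
  have h2 : MemLp (fun x => u s x - SM P M s x) 2 (sig n) :=
    ⟨((h.slice s).sub (SM_slice P M s)).aestronglyMeasurable, hM.trans_lt ENNReal.one_lt_top⟩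
  have h3 : MemLp (SM P M s) 2 (sig n) := (SM_bdd P M s).mono_exponent le_top
  have h4 := h2.add h3
  refine h4.ae_eq (Eventually.of_forall fun x => ?_)
  simp

/-- the Fourier transform of the partial sums -/
theorem ft_SM (P : ℕ → MvPolynomial (Fin n) ℂ) (M : ℕ) (s : ℝ) (ξ : E n) :
    ∫ x, chr ξ x * SM P M s x ∂(sig n) = fM P M ((2 * Real.pi) • ξ) s := by
  have hfin := sig_finite n
  unfold fM
  simp_rw [← ft_ev]
  have h1 : ∀ x : sphere (0 : E n) 1, chr ξ x * SM P M s x =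
      ∑ k ∈ Finset.range M, (chr ξ x * ev (P k) (x : E n)) * ek n k s := by
    intro x
    unfold SM
    rw [Finset.mul_sum]
    refine Finset.sum_congr rfl fun k _ => ?_
    ring
  simp_rw [h1]
  rw [integral_finsetSum]
  · refine Finset.sum_congr rfl fun k _ => ?_
    rw [integral_mul_const]
  · intro k _
    obtain ⟨D, hD⟩ := evb_bdd (P k)
    refine Integrable.of_bound (C := D) ?_ (Eventually.of_forall fun x => ?_)
    · have hc := chr_meas1 ξ
      exact ((hc.mul ((ev_cont (P k)).measurable.comp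
        measurable_subtype_coe)).mul_const _).aestronglyMeasurable
    · rw [norm_mul, norm_mul, chr_norm, ek_norm, one_mul, mul_one]
      have h2 := hD (x : E n)
      unfold evb at h2
      rw [if_pos (le_of_eq (by simpa using x.2))] at h2
      exact h2

/-- convergence of the Fourier transforms -/
theorem Fl.conv (h : Fl P u) (s : ℝ) (ξ : E n) :
    Tendsto (fun M => fM P M ((2 * Real.pi) • ξ) s) atTop
      (𝓝 (∫ x, chr ξ x * u s x ∂(sig n))) := by
  have hfin := sig_finite n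
  have hc := chr_meas1 ξ
  have hint : ∀ f : sphere (0 : E n) 1 → ℂ, MemLp f 2 (sig n) →
      Integrable (fun x => chr ξ x * f x) (sig n) := by
    intro f hf
    have hf1 : Integrable f (sig n) :=
      memLp_one_iff_integrable.1 (hf.mono_exponent (by norm_num))
    refine hf1.bdd_mul (c := 1) hc.aestronglyMeasurable (Eventually.of_forall fun x => ?_)
    rw [chr_norm]
  rw [tendsto_iff_edist_tendsto_0]
  have h1 : ∀ M, edist (fM P M ((2 * Real.pi) • ξ) s) (∫ x, chr ξ x * u s x ∂(sig n)) ≤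
      eLpNorm (fun x => u s x - SM P M s x) 2 (sig n) * (sig n) univ ^ (1 / 2 : ℝ) := by
    intro M
    rw [edist_comm, edist_eq_enorm_sub, ← ft_SM, ← integral_sub (hint _ (h.mem2 s))
      (hint _ ((SM_bdd P M s).mono_exponent le_top))]
    have h2 : ∀ x : sphere (0 : E n) 1, chr ξ x * u s x - chr ξ x * SM P M s x =
        chr ξ x * (u s x - SM P M s x) := fun x => by ring
    simp_rw [h2]
    refine (ft_bdd (fun x => u s x - SM P M s x) ξ).trans ?_
    have h3 := eLpNorm_le_eLpNorm_mul_rpow_measure_univ (μ := sig n)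
      (f := fun x => u s x - SM P M s x) (p := 1) (q := 2) (by norm_num)
      ((h.slice s).sub (SM_slice P M s)).aestronglyMeasurable
    rw [eLpNorm_one_eq_lintegral_enorm] at h3
    refine h3.trans (le_of_eq ?_)
    congr 2
    norm_num
  have h4 : Tendsto (fun M => eLpNorm (fun x => u s x - SM P M s x) 2 (sig n) *
      (sig n) univ ^ (1 / 2 : ℝ)) atTop (𝓝 0) := by
    have := ENNReal.Tendsto.mul_const (b := (sig n) univ ^ (1 / 2 : ℝ)) (h.lim s)
      (Or.inr (ENNReal.rpow_ne_top_of_nonneg (by norm_num) (measure_ne_top _ _)))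
    rwa [zero_mul] at this
  exact tendsto_of_tendsto_of_tendsto_of_le_of_le tendsto_const_nhds h4 (fun _ => bot_le) h1

/-- convergence of the Fourier transforms, rescaled -/
theorem Fl.conv' (h : Fl P u) (s : ℝ) (x : E n) :
    Tendsto (fun M => fM P M x s) atTop
      (𝓝 (∫ y, chr ((2 * Real.pi)⁻¹ • x) y * u s y ∂(sig n))) := by
  have h1 := h.conv s ((2 * Real.pi)⁻¹ • x)
  rwa [smul_smul, mul_inv_cancel₀ (by positivity), one_smul] at h1

/-- the square function in the two notations -/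
theorem sg_sig (P : ℕ → MvPolynomial (Fin n) ℂ) (p : ℝ) (M : ℕ) :
    ∫⁻ v, (∑ k ∈ Finset.range M, ‖ev (P k) v‖ₑ ^ (2 : ℝ)) ^ (p / 2) ∂(sg n) =
      ∫⁻ x, (∑ k ∈ Finset.range M, ‖ev (P k) (x : E n)‖ₑ ^ (2 : ℝ)) ^ (p / 2) ∂(sig n) := by
  have hm2 : Measurable fun w : E n =>
      (∑ i ∈ Finset.range M, ‖ev (P i) w‖ₑ ^ (2 : ℝ)) ^ (p / 2) := by
    refine Measurable.pow_const ?_ _
    refine Finset.measurable_fun_sum _ fun i _ => ?_
    exact (ev_cont (P i)).measurable.enorm.pow_const _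
  simp only [sg]
  rw [lintegral_map hm2 measurable_subtype_coe]
  rfl

/-- the full norm of the solution -/
noncomputable def NN (p : ℝ) (u : ℝ → sphere (0 : E n) 1 → ℂ) : ℝ≥0∞ :=
  ∫⁻ s in Ioc (0 : ℝ) (2 * Real.pi), ∫⁻ x, ‖u s x‖ₑ ^ p ∂(sig n)

/-- **(i)** -/
theorem flow_avg (n : ℕ) (hn : 3 ≤ n) (p : ℝ) (hp : 2 * (n : ℝ) / (n - 1) < p) (hp4 : p ≤ 4) :
    ∃ C : ℝ, 0 < C ∧ ∀ (P : ℕ → MvPolynomial (Fin n) ℂ) (u : ℝ → sphere (0 : E n) 1 → ℂ),
      Fl P u → ∫⁻ s in Ioc (0 : ℝ) (2 * Real.pi),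
        ∫⁻ ξ : E n, ‖∫ x, chr ξ x * u s x ∂(sig n)‖ₑ ^ p ≤ ENNReal.ofReal C * NN p u := by
  have hn' : (3 : ℝ) ≤ n := by exact_mod_cast hn
  have hpi := Real.pi_pos
  have hp2 : 2 < p := by
    refine lt_of_le_of_lt ?_ hp
    rw [le_div_iff₀ (by linarith)]
    linarith
  obtain ⟨C, hC, hall⟩ := all_avg n hn p hp hp4
  refine ⟨C, hC, fun P u h => ?_⟩
  have hmeas : ∀ M, Measurable fun q : ℝ × E n => ‖fM P M q.2 q.1‖ₑ ^ p := fun M =>
    ((fM_meas P M).comp measurable_swap).enorm.pow_const p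
  have hmx : ∀ (M : ℕ) (s : ℝ), Measurable fun x : E n => ‖fM P M x s‖ₑ ^ p := by
    intro M s
    refine Measurable.pow_const ?_ _
    refine Measurable.enorm ?_
    unfold fM
    exact Finset.measurable_fun_sum _ fun k _ => (T_cont_meas (P k)).mul_const _
  have h5 : ENNReal.ofReal ((2 * Real.pi) ^ n)⁻¹ ≤ 1 := by
    rw [ENNReal.ofReal_le_one]
    apply inv_le_one_of_one_le₀
    apply one_le_pow₀
    linarith [Real.pi_gt_three]
  have h1 : ∀ s : ℝ, ∫⁻ ξ : E n, ‖∫ x, chr ξ x * u s x ∂(sig n)‖ₑ ^ p ≤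
      liminf (fun M => ∫⁻ x : E n, ‖fM P M x s‖ₑ ^ p) atTop := by
    intro s
    have e1 : ∀ ξ : E n, ‖∫ x, chr ξ x * u s x ∂(sig n)‖ₑ ^ p =
        liminf (fun M => ‖fM P M ((2 * Real.pi) • ξ) s‖ₑ ^ p) atTop := by
      intro ξ
      exact (((ENNReal.continuous_rpow_const (y := p)).tendsto _).comp
        ((h.conv s ξ).enorm)).liminf_eq.symm
    simp_rw [e1]
    refine (lintegral_liminf_le fun M => (hmx M s).comp (measurable_const_smul _)).trans ?_
    refine liminf_le_liminf (Eventually.of_forall fun M => ?_)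
    have e2 := scale_int (fun x => ‖fM P M x s‖ₑ ^ p) (hmx M s)
    refine (le_of_eq e2).trans ?_
    exact (mul_le_mul' h5 le_rfl).trans (le_of_eq (one_mul _))
  calc ∫⁻ s in Ioc (0 : ℝ) (2 * Real.pi), ∫⁻ ξ : E n, ‖∫ x, chr ξ x * u s x ∂(sig n)‖ₑ ^ p
      ≤ ∫⁻ s in Ioc (0 : ℝ) (2 * Real.pi), liminf (fun M => ∫⁻ x : E n, ‖fM P M x s‖ₑ ^ p) atTop :=
        lintegral_mono fun s => h1 s
    _ ≤ liminf (fun M => ∫⁻ s in Ioc (0 : ℝ) (2 * Real.pi), ∫⁻ x : E n, ‖fM P M x s‖ₑ ^ p) atTop :=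
        lintegral_liminf_le fun M => (hmeas M).lintegral_prod_right'
    _ ≤ liminf (fun _ : ℕ => ENNReal.ofReal C * NN p u) atTop := by
        refine liminf_le_liminf (Eventually.of_forall fun M => ?_)
        rw [lintegral_lintegral_swap (hmeas M).aemeasurable]
        refine (hall M P h.hom h.harm).trans ?_
        refine mul_le_mul' le_rfl ?_
        rw [sg_sig]
        refine (h.square hn p hp2.le M).trans ?_
        have h6 : ENNReal.ofReal ((2 * Real.pi)⁻¹) ≤ 1 := by
          rw [ENNReal.ofReal_le_one]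
          apply inv_le_one_of_one_le₀
          linarith [Real.pi_gt_three]
        exact (mul_le_mul' h6 le_rfl).trans (le_of_eq (one_mul _))
    _ = _ := liminf_const _

/-- sums of lower limits -/
theorem sum_liminf {m : ℕ} (f : ℕ → ℕ → ℝ≥0∞) :
    ∑ i ∈ Finset.range m, liminf (fun M => f M i) atTop ≤
      liminf (fun M => ∑ i ∈ Finset.range m, f M i) atTop := by
  have h1 : ∫⁻ i : Fin m, liminf (fun M => f M i) atTop ∂Measure.count ≤
      liminf (fun M => ∫⁻ i : Fin m, f M i ∂Measure.count) atTop :=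
    lintegral_liminf_le (fun M => measurable_of_countable _)
  simp only [lintegral_count, tsum_fintype] at h1
  rw [← Fin.sum_univ_eq_sum_range (fun i => liminf (fun M => f M i) atTop)]
  refine h1.trans (le_of_eq ?_)
  congr 1
  funext M
  exact Fin.sum_univ_eq_sum_range (fun i => f M i) m

end Pool.Agent.W5h55.SH
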