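import Mathlib
import Pool.Agent.W5h55.SH.C10
set_option autoImplicit false

/-! The exceptional times of the Schroedinger flow of the sphere. -/

open MeasureTheory Set Metric Filter
open scoped ENNReal Topology RealInnerProductSpace

namespace Pool.Agent.W5h55.SH

open Pool.Agent.H789R2.FR (E sg sg_finite sg_ae T polar)

variable {n : ℕ} {P : ℕ → MvPolynomial (Fin n) ℂ} {u : ℝ → sphere (0 : E n) 1 → ℂ}

/-- the part of the Fourier transform on a dyadic shell -/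
noncomputable def Fj (p : ℝ) (u : ℝ → sphere (0 : E n) 1 → ℂ) (j : ℕ) (s : ℝ) : ℝ≥0∞ :=
  ∫⁻ x in {x : E n | ‖x‖ ∈ Ioc ((2 : ℝ) ^ j) (2 * 2 ^ j)},
    ‖∫ y, chr ((2 * Real.pi)⁻¹ • x) y * u s y ∂(sig n)‖ₑ ^ p

theorem Fl.Fj_le (h : Fl P u) {p : ℝ} (hp : 1 ≤ p) (j i : ℕ) (s : ℝ) (hs : s ∈ Iv j i) :
    Fj p u j s ≤ liminf (fun M => bM p P M j i) atTop := by
  have hmx : ∀ (M : ℕ), Measurable fun x : E n => ‖fM P M x s‖ₑ ^ p := by
    intro M
    refine Measurable.pow_const ?_ _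
    refine Measurable.enorm ?_
    unfold fM
    exact Finset.measurable_fun_sum _ fun k _ => (T_cont_meas (P k)).mul_const _
  have e1 : ∀ x : E n, ‖∫ y, chr ((2 * Real.pi)⁻¹ • x) y * u s y ∂(sig n)‖ₑ ^ p =
      liminf (fun M => ‖fM P M x s‖ₑ ^ p) atTop := by
    intro x
    exact (((ENNReal.continuous_rpow_const (y := p)).tendsto _).comp
      ((h.conv' s x).enorm)).liminf_eq.symm
  unfold Fj
  simp_rw [e1]
  refine (lintegral_liminf_le fun M => hmx M).trans ?_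
  exact liminf_le_liminf (Eventually.of_forall fun M => shell_sup p hp P M j i s hs)

/-- the exceptional times in one period -/
theorem flow_dim1 (n : ℕ) (hn : 3 ≤ n) (p : ℝ) (hp2 : 2 < p) (hp4 : p ≤ 4)
    {P : ℕ → MvPolynomial (Fin n) ℂ} {u : ℝ → sphere (0 : E n) 1 → ℂ}
    (h : Fl P u) (hN : NN p u ≠ ⊤) (α : ℝ) (hα : 0 < α)
    (hα2 : 1 - ((n - 1) * p - 2 * n) / 4 < α) :
    dimH {s : ℝ | s ∈ Ioc 0 (2 * Real.pi) ∧ ∑' j, Fj p u j s = ⊤} ≤ ENNReal.ofReal α := by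
  obtain ⟨ε, hε⟩ : ∃ ε : ℝ, ε = α - (1 - ((n - 1) * p - 2 * n) / 4) := ⟨_, rfl⟩
  have hε0 : 0 < ε := by
    rw [hε]
    linarith
  obtain ⟨C, hC, hsum⟩ := bM_sum n hn p hp2 hp4 ε hε0
  refine dim_abs (Fj p u) (fun j i => liminf (fun M => bM p P M j i) atTop)
    (fun j i _ s hs => h.Fj_le (by linarith) j i s hs) (C * (NN p u).toReal) (by positivity)
    (-((p * (n - 1) - 2 * n) / 2) + ε) (fun j => ?_) α hα ?_
  · refine (sum_liminf (m := 4 ^ j) (fun M i => bM p P M j i)).trans ?_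
    have h1 : ∀ M, ∑ i ∈ Finset.range (4 ^ j), bM p P M j i ≤
        ENNReal.ofReal (C * 2 ^ ((2 + (-((p * (n - 1) - 2 * n) / 2) + ε)) * (j : ℝ))) * NN p u := by
      intro M
      refine (hsum M P h.hom h.harm j).trans (mul_le_mul' le_rfl ?_)
      rw [sg_sig]
      refine (h.square hn p hp2.le M).trans ?_
      have h6 : ENNReal.ofReal ((2 * Real.pi)⁻¹) ≤ 1 := by
        rw [ENNReal.ofReal_le_one]
        apply inv_le_one_of_one_le₀
        linarith [Real.pi_gt_three]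
      exact (mul_le_mul' h6 le_rfl).trans (le_of_eq (one_mul _))
    refine (liminf_le_liminf (Eventually.of_forall h1)).trans (le_of_eq ?_)
    rw [liminf_const]
    conv_lhs => rw [← ENNReal.ofReal_toReal hN]
    rw [← ENNReal.ofReal_mul (by positivity)]
    congr 1
    ring
  · rw [hε]
    linarith

/-- the full Fourier transform is controlled by the shells -/
theorem Fl.shells (h : Fl P u) {p : ℝ} (hp : 0 < p) (s : ℝ) (hs : ∑' j, Fj p u j s ≠ ⊤) :
    MemLp (fun ξ : E n => ∫ x, chr ξ x * u s x ∂(sig n)) (ENNReal.ofReal p) := by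
  have hfin := sig_finite n
  have hpi := Real.pi_pos
  have hm := h.slice s
  refine ⟨(ftm (u s) hm.aestronglyMeasurable).aestronglyMeasurable, ?_⟩
  rw [eLpNorm_lt_top_iff_lintegral_rpow_enorm_lt_top (ENNReal.ofReal_pos.2 hp).ne'
    ENNReal.ofReal_ne_top, ENNReal.toReal_ofReal hp.le]
  obtain ⟨f, hf⟩ : ∃ f : E n → ℝ≥0∞,
    f = fun x => ‖∫ y, chr ((2 * Real.pi)⁻¹ • x) y * u s y ∂(sig n)‖ₑ ^ p := ⟨_, rfl⟩
  have hfm : Measurable f := by
    rw [hf]
    exact (((ftm (u s) hm.aestronglyMeasurable).comp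
      (measurable_const_smul ((2 * Real.pi)⁻¹ : ℝ))).enorm).pow_const p
  have h1 : ∀ ξ : E n, ‖∫ x, chr ξ x * u s x ∂(sig n)‖ₑ ^ p = f ((2 * Real.pi) • ξ) := by
    intro ξ
    simp only [hf]
    rw [smul_smul, inv_mul_cancel₀ (by positivity), one_smul]
  simp_rw [h1]
  rw [scale_int f hfm]
  refine ENNReal.mul_lt_top ENNReal.ofReal_lt_top ?_
  obtain ⟨A, hA⟩ : ∃ A : ℝ≥0∞, A = ∫⁻ x, ‖u s x‖ₑ ∂(sig n) := ⟨_, rfl⟩
  have hA' : A ≠ ⊤ := by
    rw [hA]
    exact (memLp_one_iff_integrable.1 ((h.mem2 s).mono_exponent (by norm_num))).2.ne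
  calc ∫⁻ x : E n, f x = ∫⁻ x in univ, f x := by rw [setLIntegral_univ]
    _ ≤ ∫⁻ x in closedBall 0 1 ∪ ⋃ j : ℕ, {x : E n | ‖x‖ ∈ Ioc ((2 : ℝ) ^ j) (2 * 2 ^ j)}, f x :=
        lintegral_mono_set (cover_all n)
    _ ≤ (∫⁻ x in closedBall 0 1, f x) +
        ∫⁻ x in ⋃ j : ℕ, {x : E n | ‖x‖ ∈ Ioc ((2 : ℝ) ^ j) (2 * 2 ^ j)}, f x :=
        lintegral_union_le (μ := volume) _ _ _
    _ ≤ (∫⁻ x in closedBall 0 1, f x) +
        ∑' j : ℕ, ∫⁻ x in {x : E n | ‖x‖ ∈ Ioc ((2 : ℝ) ^ j) (2 * 2 ^ j)}, f x :=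
        add_le_add le_rfl (lintegral_iUnion_le _ _)
    _ ≤ (∫⁻ x in closedBall (0 : E n) 1, A ^ p) + ∑' j : ℕ, Fj p u j s := by
        refine add_le_add (lintegral_mono fun x => ?_) (le_of_eq ?_)
        · simp only [hf, hA]
          exact ENNReal.rpow_le_rpow (ft_bdd (u s) _) hp.le
        · simp only [hf]
          rfl
    _ < ⊤ := by
        rw [setLIntegral_const]
        refine ENNReal.add_lt_top.2 ⟨ENNReal.mul_lt_top
          (ENNReal.rpow_lt_top_of_nonneg hp.le hA') measure_closedBall_lt_top, hs.lt_top⟩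

theorem ek_per (n k : ℕ) (s : ℝ) (m : ℤ) : ek n k (s + m * (2 * Real.pi)) = ek n k s := by
  unfold ek
  have h1 : -((((lam n k : ℤ) : ℝ) * (s + m * (2 * Real.pi)) : ℝ) : ℂ) * Complex.I =
      -((((lam n k : ℤ) : ℝ) * s : ℝ) : ℂ) * Complex.I +
        ((-((lam n k : ℤ) * m) : ℤ) : ℂ) * (2 * Real.pi * Complex.I) := by
    push_cast
    ring
  rw [h1]
  exact Complex.exp_periodic.int_mul _ _

/-- the flow has period `2π` -/
theorem Fl.per (h : Fl P u) (s : ℝ) (m : ℤ) : u (s + m * (2 * Real.pi)) =ᵐ[sig n] u s := by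
  have hfin := sig_finite n
  have h1 : ∀ M, SM P M (s + m * (2 * Real.pi)) = SM P M s := by
    intro M
    funext x
    unfold SM
    simp_rw [ek_per]
  have h2 : eLpNorm (fun x => u (s + m * (2 * Real.pi)) x - u s x) 2 (sig n) = 0 := by
    have h3 : ∀ M, eLpNorm (fun x => u (s + m * (2 * Real.pi)) x - u s x) 2 (sig n) ≤
        eLpNorm (fun x => u (s + m * (2 * Real.pi)) x - SM P M (s + m * (2 * Real.pi)) x) 2 (sig n) +
        eLpNorm (fun x => u s x - SM P M s x) 2 (sig n) := by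
      intro M
      have h4 : (fun x => u (s + m * (2 * Real.pi)) x - u s x) =
          (fun x => u (s + m * (2 * Real.pi)) x - SM P M (s + m * (2 * Real.pi)) x) -
            fun x => u s x - SM P M s x := by
        funext x
        simp only [Pi.sub_apply, h1]
        ring
      rw [h4]
      exact eLpNorm_sub_le ((h.slice _).sub (SM_slice P M _)).aestronglyMeasurable
        ((h.slice s).sub (SM_slice P M s)).aestronglyMeasurable (by norm_num)
    have h5 := (h.lim (s + m * (2 * Real.pi))).add (h.lim s)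
    rw [add_zero] at h5
    exact le_antisymm (ge_of_tendsto' h5 h3) bot_le
  have h6 : AEStronglyMeasurable (fun x => u (s + m * (2 * Real.pi)) x - u s x) (sig n) :=
    ((h.slice _).sub (h.slice s)).aestronglyMeasurable
  rw [eLpNorm_eq_zero_iff h6 (by norm_num)] at h2
  filter_upwards [h2] with x hx
  exact sub_eq_zero.1 hx

/-- **(ii)** the exceptional times -/
theorem flow_dim (n : ℕ) (hn : 3 ≤ n) (p : ℝ) (hp2 : 2 < p) (hp4 : p ≤ 4)
    {P : ℕ → MvPolynomial (Fin n) ℂ} {u : ℝ → sphere (0 : E n) 1 → ℂ}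
    (h : Fl P u) (hN : NN p u ≠ ⊤) :
    dimH {s : ℝ | ¬ MemLp (fun ξ : E n => ∫ x, chr ξ x * u s x ∂(sig n)) (ENNReal.ofReal p)} ≤
      ENNReal.ofReal (1 - ((n - 1) * p - 2 * n) / 4) := by
  have hpi := Real.pi_pos
  obtain ⟨β, hβ⟩ : ∃ β : ℝ, β = 1 - ((n - 1) * p - 2 * n) / 4 := ⟨_, rfl⟩
  obtain ⟨B, hB⟩ : ∃ B : Set ℝ, B = {s : ℝ | s ∈ Ioc 0 (2 * Real.pi) ∧ ∑' j, Fj p u j s = ⊤} :=
    ⟨_, rfl⟩
  rw [← hβ]
  have h1 : dimH B ≤ ENNReal.ofReal β := by
    have h2 : ∀ δ : ℝ, 0 < δ → dimH B ≤ ENNReal.ofReal (max β 0 + δ) := by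
      intro δ hδ
      rw [hB]
      refine flow_dim1 n hn p hp2 hp4 h hN (max β 0 + δ) ?_ ?_
      · have := le_max_right β 0
        linarith
      · rw [← hβ]
        have := le_max_left β 0
        linarith
    have h3 : Tendsto (fun δ : ℝ => ENNReal.ofReal (max β 0 + δ)) (𝓝[>] 0)
        (𝓝 (ENNReal.ofReal (max β 0 + 0))) := by
      refine (ENNReal.continuous_ofReal.tendsto _).comp ?_
      exact (tendsto_const_nhds.add tendsto_id).mono_left nhdsWithin_le_nhds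
    have h4 : dimH B ≤ ENNReal.ofReal (max β 0 + 0) := by
      refine ge_of_tendsto h3 ?_
      filter_upwards [self_mem_nhdsWithin] with δ hδ
      exact h2 δ hδ
    rw [add_zero, ENNReal.ofReal_max, ENNReal.ofReal_zero, max_eq_left zero_le] at h4
    exact h4
  have h5 : {s : ℝ | ¬ MemLp (fun ξ : E n => ∫ x, chr ξ x * u s x ∂(sig n)) (ENNReal.ofReal p)} ⊆
      ⋃ m : ℤ, (fun s => s + m * (2 * Real.pi)) '' B := by
    intro s hs
    rw [mem_iUnion]
    have h6 := existsUnique_add_zsmul_mem_Ioc (by positivity : (0 : ℝ) < 2 * Real.pi) s 0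
    obtain ⟨m, hm, -⟩ := h6
    simp only [zsmul_eq_mul, zero_add] at hm
    refine ⟨-m, s + m * (2 * Real.pi), ?_, by push_cast; ring⟩
    rw [hB]
    refine ⟨hm, ?_⟩
    by_contra hne
    refine hs ?_
    have h7 := h.shells (by linarith : 0 < p) _ hne
    have h8 : (fun ξ : E n => ∫ x, chr ξ x * u (s + m * (2 * Real.pi)) x ∂(sig n)) =
        fun ξ : E n => ∫ x, chr ξ x * u s x ∂(sig n) := by
      funext ξ
      refine integral_congr_ae ?_
      filter_upwards [h.per s m] with x hx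
      rw [hx]
    rwa [h8] at h7
  refine (dimH_mono h5).trans ?_
  rw [dimH_iUnion]
  refine iSup_le fun m => ?_
  have h9 : Isometry fun s : ℝ => s + m * (2 * Real.pi) := isometry_add_right _
  rw [h9.dimH_image]
  exact h1

end Pool.Agent.W5h55.SH
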