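import Mathlib
import Pool.Agent.W5h55.SH.C11
set_option autoImplicit false

/-! Fractal averages in time for the Schroedinger flow of the sphere. -/

open MeasureTheory Set Metric Filter
open scoped ENNReal Topology RealInnerProductSpace

namespace Pool.Agent.W5h55.SH

open Pool.Agent.H789R2.FR (E sg sg_finite sg_ae T polar)

variable {n : ℕ}

/-- the unit ball, pointwise in time -/
theorem ball_sup (n : ℕ) (hn : 2 ≤ n) (p : ℝ) (hp : 0 < p) : ∃ C : ℝ, 0 < C ∧
    ∀ (M : ℕ) (P : ℕ → MvPolynomial (Fin n) ℂ), (∀ i, (P i).IsHomogeneous i) →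
    (∀ i, Harm (P i)) → ∀ s : ℝ, ∫⁻ x in closedBall (0 : E n) 1, ‖fM P M x s‖ₑ ^ p ≤
      ENNReal.ofReal C *
        ∫⁻ v, (∑ k ∈ Finset.range M, ‖ev (P k) v‖ₑ ^ (2 : ℝ)) ^ (p / 2) ∂(sg n) := by
  have ha := ar_pos (show 1 ≤ n by omega)
  refine ⟨(ar n * 4 ^ 8 * 2) ^ p, by positivity, fun M P hP hh s => ?_⟩
  have hFm : Measurable fun x : E n => ‖fM P M x s‖ₑ ^ p := by
    refine Measurable.pow_const ?_ _
    refine Measurable.enorm ?_
    unfold fM
    exact Finset.measurable_fun_sum _ fun k _ => (T_cont_meas (P k)).mul_const _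
  have hVm : Measurable fun v : E n =>
      (∑ k ∈ Finset.range M, ‖ev (P k) v‖ₑ ^ (2 : ℝ)) ^ (p / 2) :=
    (Finset.measurable_fun_sum _ fun i _ =>
      (ev_cont (P i)).measurable.enorm.pow_const _).pow_const _
  have hball : (closedBall (0 : E n) 1 : Set (E n)) =ᵐ[volume] {x : E n | ‖x‖ ∈ Ioc (0 : ℝ) 1} := by
    have hne : Nonempty (Fin n) := ⟨⟨0, by omega⟩⟩
    have h0 : ∀ᵐ x : E n ∂volume, x ≠ 0 := by
      rw [ae_iff]
      simp only [not_not, setOf_eq_eq_singleton]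
      exact measure_singleton _
    filter_upwards [h0] with x hx
    apply propext
    change x ∈ closedBall (0 : E n) 1 ↔ ‖x‖ ∈ Ioc (0 : ℝ) 1
    rw [mem_closedBall_zero_iff]
    exact ⟨fun h => ⟨norm_pos_iff.2 hx, h⟩, fun h => h.2⟩
  rw [setLIntegral_congr hball, polar_set (by omega) _ hFm _ measurableSet_Ioc
    (fun r hr => hr.1), ← lintegral_const_mul _ hVm]
  refine lintegral_mono_ae ?_
  filter_upwards [sg_ae n] with v hv
  calc ∫⁻ r in Ioc (0 : ℝ) 1, ENNReal.ofReal (r ^ (n - 1)) * ‖fM P M (r • v) s‖ₑ ^ p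
      ≤ ∫⁻ r in Ioc (0 : ℝ) 1, 1 * (ENNReal.ofReal (ar n * 4 ^ 8 * 2) *
            (∑ k ∈ Finset.range M, ‖ev (P k) v‖ₑ ^ (2 : ℝ)) ^ (1 / 2 : ℝ)) ^ p := by
        refine setLIntegral_mono' measurableSet_Ioc fun r hr => mul_le_mul' ?_ ?_
        · rw [← ENNReal.ofReal_one]
          exact ENNReal.ofReal_le_ofReal (pow_le_one₀ hr.1.le hr.2)
        · exact ENNReal.rpow_le_rpow (ball_pt hn r hr.1.le hr.2 v hv M P hP hh s) hp.le
    _ = _ := by
        rw [one_mul, lintegral_const, Measure.restrict_apply_univ, Real.volume_Ioc, sub_zero,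
          ENNReal.ofReal_one, mul_one, ENNReal.mul_rpow_of_nonneg _ _ hp.le, ← ENNReal.rpow_mul,
          ENNReal.ofReal_rpow_of_nonneg (by positivity) hp.le, show (1 / 2 : ℝ) * p = p / 2 by ring]

variable {P : ℕ → MvPolynomial (Fin n) ℂ} {u : ℝ → sphere (0 : E n) 1 → ℂ}

theorem Fl.square' (hn : 3 ≤ n) (h : Fl P u) (p : ℝ) (hp : 2 ≤ p) (M : ℕ) :
    ∫⁻ v, (∑ k ∈ Finset.range M, ‖ev (P k) v‖ₑ ^ (2 : ℝ)) ^ (p / 2) ∂(sg n) ≤ NN p u := by
  rw [sg_sig]
  refine (h.square hn p hp M).trans ?_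
  have h6 : ENNReal.ofReal ((2 * Real.pi)⁻¹) ≤ 1 := by
    rw [ENNReal.ofReal_le_one]
    apply inv_le_one_of_one_le₀
    linarith [Real.pi_gt_three]
  exact (mul_le_mul' h6 le_rfl).trans (le_of_eq (one_mul _))

/-- **fractal averages in time** -/
theorem flow_frac (n : ℕ) (hn : 3 ≤ n) (p : ℝ) (hp2 : 2 < p) (hp4 : p ≤ 4) (α : ℝ)
    (hα : 1 - ((n - 1) * p - 2 * n) / 4 < α) :
    ∃ C : ℝ, 0 < C ∧ ∀ (P : ℕ → MvPolynomial (Fin n) ℂ) (u : ℝ → sphere (0 : E n) 1 → ℂ),
      Fl P u → ∀ μ : Measure ℝ, (∀ a b : ℝ, a ≤ b → μ (Icc a b) ≤ ENNReal.ofReal ((b - a) ^ α)) →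
      ∫⁻ s in Ioc (0 : ℝ) (2 * Real.pi),
        (∫⁻ ξ : E n, ‖∫ x, chr ξ x * u s x ∂(sig n)‖ₑ ^ p) ∂μ ≤ ENNReal.ofReal C * NN p u := by
  have hpi := Real.pi_pos
  have hp0 : 0 < p := by linarith
  obtain ⟨ε, hε⟩ : ∃ ε : ℝ, ε = α - (1 - ((n - 1) * p - 2 * n) / 4) := ⟨_, rfl⟩
  have hε0 : 0 < ε := by
    rw [hε]
    linarith
  obtain ⟨C1, hC1, hb⟩ := ball_sup n (by omega) p hp0
  obtain ⟨C2, hC2, hsum⟩ := bM_sum n hn p hp2 hp4 ε hε0
  obtain ⟨e, he⟩ : ∃ e : ℝ, e = 2 + (-((p * (n - 1) - 2 * n) / 2) + ε) := ⟨_, rfl⟩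
  rw [← he] at hsum
  have he2 : e - 2 * α = -ε := by
    rw [he, hε]
    ring
  have hgeo : Summable fun j : ℕ => ((2 : ℝ) ^ (-ε)) ^ j := by
    apply summable_geometric_of_lt_one (by positivity)
    exact Real.rpow_lt_one_of_one_lt_of_neg (by norm_num) (by linarith)
  obtain ⟨G, hG⟩ : ∃ G : ℝ, G = ∑' j : ℕ, ((2 : ℝ) ^ (-ε)) ^ j := ⟨_, rfl⟩
  have hG0 : 0 ≤ G := by
    rw [hG]
    exact tsum_nonneg fun j => by positivity
  refine ⟨(2 * Real.pi) ^ α * (C1 + C2 * G), by positivity, fun P u h μ hμ => ?_⟩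
  obtain ⟨N, hN⟩ : ∃ N : ℝ≥0∞, N = NN p u := ⟨_, rfl⟩
  obtain ⟨B, hB⟩ : ∃ B : ℕ → ℕ → ℝ≥0∞, B = fun j i => liminf (fun M => bM p P M j i) atTop :=
    ⟨_, rfl⟩
  obtain ⟨H, hH⟩ : ∃ H : ℕ → ℝ → ℝ≥0∞,
    H = fun j s => ∑ i ∈ Finset.range (4 ^ j), (Iv j i).indicator (fun _ => B j i) s := ⟨_, rfl⟩
  have hIv : ∀ j i, MeasurableSet (Iv j i) := fun j i => measurableSet_Icc
  have hHm : ∀ j, Measurable (H j) := by
    intro j
    rw [hH]
    exact Finset.measurable_fun_sum _ fun i _ => measurable_const.indicator (hIv j i)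
  -- the pointwise bound
  have hpt : ∀ s ∈ Ioc (0 : ℝ) (2 * Real.pi),
      ∫⁻ ξ : E n, ‖∫ x, chr ξ x * u s x ∂(sig n)‖ₑ ^ p ≤ ENNReal.ofReal C1 * N + ∑' j, H j s := by
    intro s hs
    have hm := h.slice s
    obtain ⟨f, hf⟩ : ∃ f : E n → ℝ≥0∞,
      f = fun x => ‖∫ y, chr ((2 * Real.pi)⁻¹ • x) y * u s y ∂(sig n)‖ₑ ^ p := ⟨_, rfl⟩
    have hfm : Measurable f := by
      rw [hf]
      exact (((ftm (u s) hm.aestronglyMeasurable).comp
        (measurable_const_smul ((2 * Real.pi)⁻¹ : ℝ))).enorm).pow_const p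
    have h1 : ∀ ξ : E n, ‖∫ x, chr ξ x * u s x ∂(sig n)‖ₑ ^ p = f ((2 * Real.pi) • ξ) := by
      intro ξ
      simp only [hf]
      rw [smul_smul, inv_mul_cancel₀ (by positivity), one_smul]
    simp_rw [h1]
    rw [scale_int f hfm]
    have h5 : ENNReal.ofReal ((2 * Real.pi) ^ n)⁻¹ ≤ 1 := by
      rw [ENNReal.ofReal_le_one]
      apply inv_le_one_of_one_le₀
      apply one_le_pow₀
      linarith [Real.pi_gt_three]
    refine (mul_le_mul' h5 le_rfl).trans ?_
    rw [one_mul]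
    have hballs : ∫⁻ x in closedBall (0 : E n) 1, f x ≤ ENNReal.ofReal C1 * N := by
      have hmx : ∀ (M : ℕ), Measurable fun x : E n => ‖fM P M x s‖ₑ ^ p := by
        intro M
        refine Measurable.pow_const ?_ _
        refine Measurable.enorm ?_
        unfold fM
        exact Finset.measurable_fun_sum _ fun k _ => (T_cont_meas (P k)).mul_const _
      have e1 : ∀ x : E n, f x = liminf (fun M => ‖fM P M x s‖ₑ ^ p) atTop := by
        intro x
        rw [hf]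
        exact (((ENNReal.continuous_rpow_const (y := p)).tendsto _).comp
          ((h.conv' s x).enorm)).liminf_eq.symm
      simp_rw [e1]
      refine (lintegral_liminf_le fun M => hmx M).trans ?_
      refine (liminf_le_liminf (Eventually.of_forall fun M =>
        (hb M P h.hom h.harm s).trans (mul_le_mul' le_rfl (h.square' hn p hp2.le M)))).trans ?_
      rw [liminf_const, hN]
    calc ∫⁻ x : E n, f x = ∫⁻ x in univ, f x := by rw [setLIntegral_univ]
      _ ≤ ∫⁻ x in closedBall 0 1 ∪ ⋃ j : ℕ, {x : E n | ‖x‖ ∈ Ioc ((2 : ℝ) ^ j) (2 * 2 ^ j)}, f x :=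
          lintegral_mono_set (cover_all n)
      _ ≤ (∫⁻ x in closedBall 0 1, f x) +
          ∫⁻ x in ⋃ j : ℕ, {x : E n | ‖x‖ ∈ Ioc ((2 : ℝ) ^ j) (2 * 2 ^ j)}, f x :=
          lintegral_union_le (μ := volume) _ _ _
      _ ≤ (∫⁻ x in closedBall 0 1, f x) +
          ∑' j : ℕ, ∫⁻ x in {x : E n | ‖x‖ ∈ Ioc ((2 : ℝ) ^ j) (2 * 2 ^ j)}, f x :=
          add_le_add le_rfl (lintegral_iUnion_le _ _)
      _ ≤ ENNReal.ofReal C1 * N + ∑' j, H j s := by
          refine add_le_add hballs (ENNReal.tsum_le_tsum fun j => ?_)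
          obtain ⟨i, hi, hsi⟩ := Iv_cover s hs j
          have h7 : Fj p u j s ≤ B j i := by
            rw [hB]
            exact h.Fj_le (by linarith) j i s hsi
          have h8 : B j i ≤ H j s := by
            simp only [hH]
            refine le_trans (le_of_eq ?_) (Finset.single_le_sum
              (f := fun i => (Iv j i).indicator (fun _ => B j i) s)
              (fun _ _ => bot_le) (Finset.mem_range.2 hi))
            simp only [Set.indicator_of_mem hsi]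
          refine le_trans (le_of_eq ?_) (h7.trans h8)
          simp only [hf]
          rfl
  have hHint : ∀ j, ∫⁻ s in Ioc (0 : ℝ) (2 * Real.pi), H j s ∂μ ≤
      ENNReal.ofReal ((2 * Real.pi) ^ α * (C2 * ((2 : ℝ) ^ (-ε)) ^ j)) * N := by
    intro j
    have h4 : (0 : ℝ) < 4 ^ j := by positivity
    have h9 : ∀ i, μ (Iv j i) ≤ ENNReal.ofReal ((2 * Real.pi / 4 ^ j) ^ α) := by
      intro i
      have h10 := hμ (2 * Real.pi * i / 4 ^ j) (2 * Real.pi * (i + 1) / 4 ^ j) (by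
        apply (div_le_div_iff_of_pos_right h4).2
        nlinarith)
      rw [show 2 * Real.pi * ((i : ℝ) + 1) / 4 ^ j - 2 * Real.pi * i / 4 ^ j =
        2 * Real.pi / 4 ^ j by ring] at h10
      exact h10
    calc ∫⁻ s in Ioc (0 : ℝ) (2 * Real.pi), H j s ∂μ ≤ ∫⁻ s, H j s ∂μ :=
          lintegral_mono' Measure.restrict_le_self le_rfl
      _ = ∑ i ∈ Finset.range (4 ^ j), B j i * μ (Iv j i) := by
          simp only [hH]
          rw [lintegral_finsetSum _ fun i _ => measurable_const.indicator (hIv j i)]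
          refine Finset.sum_congr rfl fun i _ => ?_
          rw [lintegral_indicator (hIv j i), setLIntegral_const]
      _ ≤ ∑ i ∈ Finset.range (4 ^ j), B j i * ENNReal.ofReal ((2 * Real.pi / 4 ^ j) ^ α) :=
          Finset.sum_le_sum fun i _ => mul_le_mul' le_rfl (h9 i)
      _ = (∑ i ∈ Finset.range (4 ^ j), B j i) * ENNReal.ofReal ((2 * Real.pi / 4 ^ j) ^ α) := by
          rw [Finset.sum_mul]
      _ ≤ (ENNReal.ofReal (C2 * 2 ^ (e * (j : ℝ))) * N) *
            ENNReal.ofReal ((2 * Real.pi / 4 ^ j) ^ α) := by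
          refine mul_le_mul' ?_ le_rfl
          rw [hB]
          refine (sum_liminf (m := 4 ^ j) (fun M i => bM p P M j i)).trans ?_
          refine (liminf_le_liminf (Eventually.of_forall fun M =>
            (hsum M P h.hom h.harm j).trans (mul_le_mul' le_rfl (h.square' hn p hp2.le M)))).trans
            (le_of_eq ?_)
          rw [liminf_const, hN]
      _ = _ := by
          rw [mul_right_comm, ← ENNReal.ofReal_mul (by positivity)]
          congr 2
          have e1 : ((4 : ℝ) ^ j) ^ α = 2 ^ (2 * α * j) := by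
            rw [show (4 : ℝ) = 2 ^ (2 : ℝ) by norm_num, ← Real.rpow_natCast (2 ^ (2 : ℝ)) j,
              ← Real.rpow_mul (by norm_num), ← Real.rpow_mul (by norm_num)]
            congr 1
            ring
          have e2 : ((2 : ℝ) ^ (-ε)) ^ j = 2 ^ (e * (j : ℝ)) * 2 ^ (-(2 * α * j)) := by
            rw [← Real.rpow_add (by norm_num), ← Real.rpow_natCast ((2 : ℝ) ^ (-ε)) j,
              ← Real.rpow_mul (by norm_num), ← he2]
            congr 1
            ring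
          rw [Real.div_rpow (by positivity) (by positivity), e1, e2, Real.rpow_neg (by norm_num)]
          ring
  have hμ0 : μ.restrict (Ioc (0 : ℝ) (2 * Real.pi)) univ ≤ ENNReal.ofReal ((2 * Real.pi) ^ α) := by
    rw [Measure.restrict_apply_univ]
    refine (measure_mono Ioc_subset_Icc_self).trans ?_
    have := hμ 0 (2 * Real.pi) (by positivity)
    rwa [sub_zero] at this
  rw [← hN]
  calc ∫⁻ s in Ioc (0 : ℝ) (2 * Real.pi),
        (∫⁻ ξ : E n, ‖∫ x, chr ξ x * u s x ∂(sig n)‖ₑ ^ p) ∂μ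
      ≤ ∫⁻ s in Ioc (0 : ℝ) (2 * Real.pi), (ENNReal.ofReal C1 * N + ∑' j, H j s) ∂μ :=
        setLIntegral_mono' measurableSet_Ioc hpt
    _ = (∫⁻ s in Ioc (0 : ℝ) (2 * Real.pi), ENNReal.ofReal C1 * N ∂μ) +
          ∑' j, ∫⁻ s in Ioc (0 : ℝ) (2 * Real.pi), H j s ∂μ := by
        rw [lintegral_add_left measurable_const, lintegral_tsum fun j => (hHm j).aemeasurable]
    _ ≤ ENNReal.ofReal C1 * N * ENNReal.ofReal ((2 * Real.pi) ^ α) +
          ∑' j : ℕ, ENNReal.ofReal ((2 * Real.pi) ^ α * (C2 * ((2 : ℝ) ^ (-ε)) ^ j)) * N := by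
        refine add_le_add ?_ (ENNReal.tsum_le_tsum hHint)
        rw [lintegral_const]
        exact mul_le_mul' le_rfl hμ0
    _ = _ := by
        rw [ENNReal.tsum_mul_right, ← ENNReal.ofReal_tsum_of_nonneg (fun j => by positivity)
          ((hgeo.mul_left C2).mul_left _), tsum_mul_left, tsum_mul_left, ← hG, mul_right_comm,
          ← ENNReal.ofReal_mul hC1.le, ← add_mul, ← ENNReal.ofReal_add (by positivity)
          (by positivity)]
        congr 2
        ring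

end Pool.Agent.W5h55.SH
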